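import Pool.Agent.DFP.MDefs
import Pool.Agent.TFP.FpL

set_option autoImplicit false

/-!
# DFP-FpL: the list operations are polynomial time computable

Filters and maps with context; powers with exponent a list length.
-/

namespace Pool.Agent.DFP

open Finset

open Turing Function N487b59b3 N68a2faeb Pool.Agent.Helper22 Pool.Agent.Helper6.WB Computability
  Pool.Agent.Helper47.TR

section

variable {α β γ δ : Type} [N487b59b3 α] [N487b59b3 β] [N487b59b3 γ] [N487b59b3 δ]

private theorem lBeq {f g : α → ℕ} (hf : FP f) (hg : FP g) : FP fun a => (f a == g a) := by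
  refine (congrArg FP (funext fun a => ?_)).mp (FP.natEq hf hg)
  exact (beq_eq_decide _ _).symm

private theorem lLt {f g : α → ℕ} (hf : FP f) (hg : FP g) : FP fun a => decide (f a < g a) := by
  have h := FP.natLe (FP.natAdd hf (FP.const 1)) hg
  exact h

private theorem lMap [Inhabited β] {h : γ × β → δ} (hh : FP h) {f : α → γ} {g : α → List β}
    (hf : FP f) (hg : FP g) : FP fun a => (g a).map fun b => h (f a, b) := by
  have h1 : FP fun q : γ × β => [h q] := FP.cons hh (FP.const [])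
  have h2 := (FP.flatMap_ctx h1).comp (FP.pair hf hg)
  refine (congrArg FP (funext fun a => ?_)).mp h2
  simp only
  induction (g a) with
  | nil => rfl
  | cons b l ih =>
    rw [List.flatMap_cons, ih, List.map_cons]
    rfl

end

section

variable {α : Type} [N487b59b3 α]

theorem FP.multL {E : α → List (ℕ × ℕ)} {u v : α → ℕ} (hE : FP E) (hu : FP u) (hv : FP v) :
    FP fun a => DFP.multL (E a) (u a) (v a) := by
  have h1 : FP fun q : (ℕ × ℕ) × (ℕ × ℕ) =>
      ((q.2.1 == q.1.1 && q.2.2 == q.1.2) || (q.2.1 == q.1.2 && q.2.2 == q.1.1)) :=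
    FP.or (FP.and (lBeq (by fun_prop) (by fun_prop)) (lBeq (by fun_prop) (by fun_prop)))
      (FP.and (lBeq (by fun_prop) (by fun_prop)) (lBeq (by fun_prop) (by fun_prop)))
  have h2 := TFP.FP.filter2 h1 (FP.pair hu hv) hE
  exact FP.map (f := fun _ : ℕ × ℕ => true) (FP.const true) h2

theorem FP.fndD {y : α → ℕ} {L : α → LL} (hy : FP y) (hL : FP L) :
    FP fun a => DFP.fnd (y a) (L a) := by
  have h1 : FP fun q : ℕ × (ℕ × List Bool) => (q.2.1 == q.1) :=
    lBeq (by fun_prop) (by fun_prop)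
  exact TFP.FP.filter2 h1 hy hL

theorem FP.pres {y : α → ℕ} {L : α → LL} (hy : FP y) (hL : FP L) :
    FP fun a => DFP.pres (y a) (L a) :=
  FP.not (FP.isEmpty (FP.fndD hy hL))

theorem FP.cd {y : α → ℕ} {L : α → LL} (hy : FP y) (hL : FP L) :
    FP fun a => DFP.cd (y a) (L a) :=
  FP.snd' (FP.headD (FP.fndD hy hL) (0, []))

theorem FP.erD {y : α → ℕ} {L : α → LL} (hy : FP y) (hL : FP L) :
    FP fun a => DFP.er (y a) (L a) := by
  have h1 : FP fun q : ℕ × (ℕ × List Bool) => !(q.2.1 == q.1) :=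
    FP.not (lBeq (by fun_prop) (by fun_prop))
  exact TFP.FP.filter2 h1 hy hL

private theorem lCm {c d : α → List Bool} (hc : FP c) (hd : FP d) :
    FP fun a => DFP.cm (c a) (d a) := by
  have h := FP.ite (FP.isEmpty hc) (FP.const (α := α) ([] : List Bool)) (FP.append hc hd)
  refine (congrArg FP (funext fun a => ?_)).mp h
  unfold DFP.cm
  cases (c a).isEmpty <;> rfl

private theorem lIte {β : Type} [N487b59b3 β] {c : α → Bool} {f g : α → β} (hc : FP c)
    (hf : FP f) (hg : FP g) : FP fun a => if c a = true then f a else g a := by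
  have h := FP.ite hc hf hg
  refine (congrArg FP (funext fun a => ?_)).mp h
  cases c a <;> rfl

private theorem lIteD {β : Type} [N487b59b3 β] {u v : α → ℕ} {f g : α → β} (hu : FP u)
    (hv : FP v) (hf : FP f) (hg : FP g) :
    FP fun a => if decide (u a < v a) = true then f a else g a :=
  lIte (lLt hu hv) hf hg

theorem FP.chg {E : α → List (ℕ × ℕ)} {y : α → ℕ} {L : α → LL} (hE : FP E) (hy : FP y)
    (hL : FP L) : FP fun a => DFP.chg (E a) (y a) (L a) := by
  have h1 : FP fun q : (List (ℕ × ℕ) × ℕ) × (ℕ × List Bool) =>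
      (q.2.1, if decide (q.2.1 < q.1.2) = true then []
        else cm q.2.2 (DFP.multL q.1.1 q.1.2 q.2.1)) :=
    FP.pair (by fun_prop) (lIteD (by fun_prop) (by fun_prop) (FP.const [])
      (lCm (by fun_prop) (FP.multL (by fun_prop) (by fun_prop) (by fun_prop))))
  exact lMap h1 (FP.pair hE hy) (FP.erD hy hL)

theorem FP.chq {E : α → List (ℕ × ℕ)} {v y : α → ℕ} {L : α → LL} (hE : FP E) (hv : FP v)
    (hy : FP y) (hL : FP L) : FP fun a => DFP.chq (E a) (v a) (y a) (L a) := by
  have h1 : FP fun q : (List (ℕ × ℕ) × (ℕ × ℕ)) × (ℕ × List Bool) =>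
      (q.2.1, if decide (q.2.1 < q.1.2.2) = true then cm q.2.2 (DFP.multL q.1.1 q.1.2.1 q.2.1)
        else true :: DFP.multL q.1.1 q.1.2.1 q.2.1) := by
    have hm : FP fun q : (List (ℕ × ℕ) × (ℕ × ℕ)) × (ℕ × List Bool) =>
        DFP.multL q.1.1 q.1.2.1 q.2.1 := FP.multL (by fun_prop) (by fun_prop) (by fun_prop)
    exact FP.pair (by fun_prop) (lIteD (by fun_prop) (by fun_prop) (lCm (by fun_prop) hm)
      (FP.cons (FP.const true) hm))
  exact lMap h1 (FP.pair hE (FP.pair hv hy)) (FP.erD hy hL)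

theorem FP.chw {E : α → List (ℕ × ℕ)} {v y : α → ℕ} {L : α → LL} (hE : FP E) (hv : FP v)
    (hy : FP y) (hL : FP L) : FP fun a => DFP.chw (E a) (v a) (y a) (L a) := by
  have h1 : FP fun q : (List (ℕ × ℕ) × (ℕ × ℕ)) × (ℕ × List Bool) =>
      (q.2.1, if decide (q.2.1 < q.1.2.2) = true then []
        else true :: DFP.multL q.1.1 q.1.2.1 q.2.1) := by
    have hm : FP fun q : (List (ℕ × ℕ) × (ℕ × ℕ)) × (ℕ × List Bool) =>
        DFP.multL q.1.1 q.1.2.1 q.2.1 := FP.multL (by fun_prop) (by fun_prop) (by fun_prop)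
    exact FP.pair (by fun_prop) (lIteD (by fun_prop) (by fun_prop) (FP.const [])
      (FP.cons (FP.const true) hm))
  exact lMap h1 (FP.pair hE (FP.pair hv hy)) (FP.erD hy hL)

theorem FP.ch1 {y : α → ℕ} {L : α → LL} (hy : FP y) (hL : FP L) :
    FP fun a => DFP.ch1 (y a) (L a) := by
  have h1 : FP fun q : ℕ × (ℕ × List Bool) =>
      (q.2.1, if decide (q.2.1 < q.1) = true then ([] : List Bool) else [true]) :=
    FP.pair (by fun_prop) (lIteD (by fun_prop) (by fun_prop) (FP.const []) (FP.const [true]))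
  exact lMap h1 hy (FP.erD hy hL)

theorem FP.rowL {E : α → List (ℕ × ℕ)} {u : α → ℕ} {L : α → LL} (hE : FP E) (hu : FP u)
    (hL : FP L) : FP fun a => DFP.rowL (E a) (u a) (L a) := by
  have h1 : FP fun q : (List (ℕ × ℕ) × ℕ) × (ℕ × List Bool) =>
      (q.2.1, true :: DFP.multL q.1.1 q.1.2 q.2.1) :=
    FP.pair (by fun_prop)
      (FP.cons (FP.const true) (FP.multL (by fun_prop) (by fun_prop) (by fun_prop)))
  exact lMap h1 (FP.pair hE hu) hL

theorem FP.cnum (P : Par) {c : α → List Bool} (hc : FP c) : FP fun a => DFP.cnum P (c a) :=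
  lIte (FP.isEmpty hc) (FP.const 0) (FP.powU (FP.const P.y1) (FP.tail hc))

theorem FP.cden (P : Par) {c : α → List Bool} (hc : FP c) : FP fun a => DFP.cden P (c a) :=
  FP.powU (FP.const P.y2) (FP.tail hc)

end

end Pool.Agent.DFP
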