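import Pool.Agent.DFP.TutF
import Pool.Agent.TFP.Defs

set_option autoImplicit false

/-!
# DFP-TutG: the Tutte polynomial, `x > 1`

From `tutte_eq_R`, `R_F` with `f = id`, and `F_eq_hub` at `0`.
-/

namespace Pool.Agent.DFP

open Finset

open Pool.Agent.Helper47.TR in
theorem wG_symm (y : ℚ) (E : List (ℕ × ℕ)) (u v : ℕ) : wG y E u v = wG y E v u := by
  unfold wG mult multL
  have h : ∀ e : ℕ × ℕ, ((e.1 == u && e.2 == v) || (e.1 == v && e.2 == u)) =
      ((e.1 == v && e.2 == u) || (e.1 == u && e.2 == v)) := fun e => Bool.or_comm _ _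
  simp only [h]

private theorem tg_cons (y : ℚ) (e : ℕ × ℕ) (E : List (ℕ × ℕ)) (u v : ℕ) :
    wG y (e :: E) u v =
      (if (e.1 = u ∧ e.2 = v) ∨ (e.1 = v ∧ e.2 = u) then y else 1) * wG y E u v := by
  unfold wG mult multL
  by_cases h : (e.1 = u ∧ e.2 = v) ∨ (e.1 = v ∧ e.2 = u)
  · have h1 : ((e.1 == u && e.2 == v) || (e.1 == v && e.2 == u)) = true := by
      simpa using h
    rw [List.filter_cons, if_pos h1, if_pos h, List.map_cons, List.length_cons, pow_succ]
    ring
  · have h1 : ¬ ((e.1 == u && e.2 == v) || (e.1 == v && e.2 == u)) = true := by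
      simpa using h
    rw [List.filter_cons, if_neg h1, if_neg h, one_mul]

private theorem tg_wl (y : ℚ) (E : List (ℕ × ℕ)) (u v : ℕ) : wl y E id u v = wG y E u v := by
  induction E with
  | nil => simp [wl, wG, mult, multL]
  | cons e E ih =>
    rw [tg_cons, ← ih]
    unfold wl
    rw [List.map_cons, List.prod_cons]
    rfl

open Pool.Agent.Helper47.TR in
theorem tutte_hub {G : MG} (hG : Valid G) (hn : 0 < G.1.length) (hc : comps G Finset.univ = 1)
    {x y : ℚ} (hx : 1 < x) (hy : y < 1) :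
    tutte x y G = y ^ (TFP.lps G.2).length * (1 / (1 - y)) ^ (G.1.length - 1) *
      hub ((x - 1) * (1 - y)) (wG y G.2) (Ico 1 G.1.length) (wG y G.2 0) := by
  have hx' : x - 1 ≠ 0 := by
    intro h
    linarith
  have hy' : 1 - y ≠ 0 := by
    intro h
    linarith
  obtain ⟨m, hm⟩ : ∃ m, G.1.length = m + 1 := ⟨G.1.length - 1, by omega⟩
  obtain ⟨a, ha⟩ : ∃ a, a = (x - 1) * (1 - y) := ⟨_, rfl⟩
  have ha0 : a ≠ 0 := by
    rw [ha]
    exact mul_ne_zero hx' hy'
  have e1 : 1 / ((x - 1) * (y - 1)) = -1 / a := by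
    have h1 : (x - 1) * (y - 1) = -a := by
      rw [ha]
      ring
    rw [h1, neg_div, div_neg]
  have h1 := R_F ha0 G.2 id (range G.1.length) (y := y) (fun e he => by
    have h2 := hG e he
    rw [Finset.mem_range, Finset.mem_range]
    exact h2)
  have h2 : F a (wl y G.2 id) (range G.1.length) = a * hub a (wG y G.2) (Ico 1 G.1.length) (wG y G.2 0) := by
    rw [F_congr a (w' := wG y G.2) (fun u _ v _ _ => tg_wl y G.2 u v),
      F_eq_hub a (wG_symm y G.2) (y := 0) (Finset.mem_range.2 hn)]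
    congr 2
    ext i
    rw [Finset.mem_erase, Finset.mem_range, Finset.mem_Ico]
    omega
  have h3 : (G.2.filter fun e => id e.1 == id e.2).length = (TFP.lps G.2).length := rfl
  rw [h2, h3, Finset.card_range] at h1
  rw [tutte_eq_R G hG hx.ne' hy.ne, hc, e1, ← ha]
  rw [hm] at h1 ⊢
  rw [Nat.add_sub_cancel]
  generalize hub a (wG y G.2) (Ico 1 (m + 1)) (wG y G.2 0) = H at h1 ⊢
  generalize R (-1 / a) (wE 1 y G.2) id = R' at h1 ⊢
  generalize (TFP.lps G.2).length = L at h1 ⊢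
  have h4 : a ^ m * R' = y ^ L * H := by
    apply mul_left_cancel₀ ha0
    rw [pow_succ] at h1
    linarith
  have h5 : (1 - y) ^ m ≠ 0 := pow_ne_zero _ hy'
  apply mul_left_cancel₀ h5
  have h6 : (1 - y) ^ m * (1 / (1 - y)) ^ m = 1 := by
    rw [← mul_pow, mul_one_div_cancel hy', one_pow]
  calc (1 - y) ^ m * ((x - 1) ^ m * R') = a ^ m * R' := by
        rw [ha, mul_pow]
        ring
    _ = ((1 - y) ^ m * (1 / (1 - y)) ^ m) * (y ^ L * H) := by rw [h4, h6, one_mul]
    _ = (1 - y) ^ m * (y ^ L * (1 / (1 - y)) ^ m * H) := by ring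

end Pool.Agent.DFP
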