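import Pool.Agent.DFP.TutG

set_option autoImplicit false

/-!
# DFP-TutX: the Tutte polynomial, `x ≥ 1`
-/

namespace Pool.Agent.DFP

open Finset

open Pool.Agent.Helper47.TR in
theorem F_poly (w : ℕ → ℕ → ℚ) (U : Finset ℕ) : ∃ p : Polynomial ℚ, ∀ a, F a w U = p.eval a := by
  have key : ∀ k : ℕ, ∀ U : Finset ℕ, U.card = k → ∃ p : Polynomial ℚ, ∀ a, F a w U = p.eval a := by
    intro k
    induction k using Nat.strong_induction_on with
    | _ k ih =>
      intro U hU
      rcases U.eq_empty_or_nonempty with rfl | ⟨u, hu⟩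
      · exact ⟨1, fun a => by rw [F_empty, Polynomial.eval_one]⟩
      · have h1 : ∀ B : Finset ℕ, ∃ p : Polynomial ℚ, u ∈ B → ∀ a, F a w (U \ B) = p.eval a := by
          intro B
          by_cases hB : u ∈ B
          · have hlt : (U \ B).card < k := by
              rw [← hU]
              refine card_lt_card ⟨sdiff_subset, fun h => ?_⟩
              exact (mem_sdiff.1 (h hu)).2 hB
            obtain ⟨p, hp⟩ := ih _ hlt (U \ B) rfl
            exact ⟨p, fun _ => hp⟩
          · exact ⟨0, fun h => absurd h hB⟩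
        choose P hP using h1
        refine ⟨Polynomial.X * ∑ B ∈ U.powerset.filter (fun B => u ∈ B),
          Polynomial.C ((-1) ^ (B.card - 1) * WW w B) * (P B).comp (Polynomial.X + 1), fun a => ?_⟩
        rw [F_exp a w hu, Polynomial.eval_mul, Polynomial.eval_X, Polynomial.eval_finsetSum]
        congr 1
        refine sum_congr rfl fun B hB => ?_
        rw [mem_filter] at hB
        rw [Polynomial.eval_mul, Polynomial.eval_C, Polynomial.eval_comp, Polynomial.eval_add,
          Polynomial.eval_X, Polynomial.eval_one, hP B hB.2]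
  exact key _ U rfl

private theorem hub_poly (w : ℕ → ℕ → ℚ) (J : Finset ℕ) (s : ℕ → ℚ) :
    ∃ p : Polynomial ℚ, ∀ a, hub a w J s = p.eval a := by
  choose P hP using F_poly w
  refine ⟨∑ B ∈ J.powerset, Polynomial.C ((-1) ^ B.card * (∏ x ∈ B, s x) * WW w B) *
    (P (J \ B)).comp (Polynomial.X + 1), fun a => ?_⟩
  unfold hub
  rw [Polynomial.eval_finsetSum]
  refine sum_congr rfl fun B _ => ?_
  rw [Polynomial.eval_mul, Polynomial.eval_C, Polynomial.eval_comp, Polynomial.eval_add,
    Polynomial.eval_X, Polynomial.eval_one, hP]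

open Pool.Agent.Helper47.TR in
private theorem tutte_poly (y : ℚ) (G : MG) :
    ∃ p : Polynomial ℚ, ∀ x, tutte x y G = p.eval x := by
  refine ⟨∑ A : Finset (Fin G.2.length), (Polynomial.X - 1) ^ (comps G A - comps G Finset.univ) *
    Polynomial.C ((y - 1) ^ (A.card + comps G A - G.1.length)), fun x => ?_⟩
  unfold tutte
  rw [Polynomial.eval_finsetSum]
  refine sum_congr rfl fun A _ => ?_
  rw [Polynomial.eval_mul, Polynomial.eval_C, Polynomial.eval_pow, Polynomial.eval_sub,
    Polynomial.eval_X, Polynomial.eval_one]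

open Pool.Agent.Helper47.TR in
theorem tutte_hub' {G : MG} (hG : Valid G) (hn : 0 < G.1.length) (hc : comps G Finset.univ = 1)
    {x y : ℚ} (hx : 1 ≤ x) (hy : y < 1) :
    tutte x y G = y ^ (TFP.lps G.2).length * (1 / (1 - y)) ^ (G.1.length - 1) *
      hub ((x - 1) * (1 - y)) (wG y G.2) (Ico 1 G.1.length) (wG y G.2 0) := by
  obtain ⟨p, hp⟩ := tutte_poly y G
  obtain ⟨r, hr⟩ := hub_poly (wG y G.2) (Ico 1 G.1.length) (wG y G.2 0)
  set c : ℚ := y ^ (TFP.lps G.2).length * (1 / (1 - y)) ^ (G.1.length - 1) with hcdef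
  have hev : ∀ z : ℚ, (Polynomial.C c * r.comp ((Polynomial.X - 1) * Polynomial.C (1 - y))).eval z =
      c * hub ((z - 1) * (1 - y)) (wG y G.2) (Ico 1 G.1.length) (wG y G.2 0) := by
    intro z
    rw [hr, Polynomial.eval_mul, Polynomial.eval_C, Polynomial.eval_comp, Polynomial.eval_mul,
      Polynomial.eval_C, Polynomial.eval_sub, Polynomial.eval_X, Polynomial.eval_one]
  have h1 : p = Polynomial.C c * r.comp ((Polynomial.X - 1) * Polynomial.C (1 - y)) := by
    refine Polynomial.eq_of_infinite_eval_eq _ _ ((Set.Ioi_infinite (1 : ℚ)).mono fun z hz => ?_)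
    show p.eval z = _
    rw [hev z, ← hp z]
    exact tutte_hub hG hn hc hz hy
  rw [hp x, h1, hev x]

end Pool.Agent.DFP
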