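import Mathlib

set_option autoImplicit false

/-!
# DFP-BNum: powers and factorials (Mathlib only)
-/

namespace Pool.Agent.DFP

open Finset

private theorem pow_le_fact (n : ℕ) : (n : ℝ) ^ n ≤ 3 ^ n * (n.factorial : ℝ) := by
  have h1 := Real.pow_div_factorial_le_exp (n : ℝ) (Nat.cast_nonneg n) n
  have h2 : Real.exp (n : ℝ) ≤ 3 ^ n := by
    have h3 : Real.exp (n : ℝ) = Real.exp 1 ^ n := by
      rw [← Real.exp_nat_mul]; ring_nf
    rw [h3]
    have h4 : Real.exp 1 ≤ 3 := by linarith [Real.exp_one_lt_d9]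
    exact pow_le_pow_left₀ (Real.exp_pos 1).le h4 n
  have hf : (0 : ℝ) < (n.factorial : ℝ) := by exact_mod_cast n.factorial_pos
  have h5 : (n : ℝ) ^ n / (n.factorial : ℝ) ≤ 3 ^ n := le_trans h1 h2
  rwa [div_le_iff₀ hf] at h5

theorem pow_fact (a : ℚ) (ha : 0 ≤ a) : ∃ C : ℕ, 0 < C ∧ ∀ n : ℕ, 0 < n →
    (2 * a + 4 * n) ^ n * 2 ^ n ≤ (C : ℚ) ^ n * ((n - 1).factorial : ℚ) := by
  obtain ⟨C, hC⟩ := exists_nat_ge (12 * (2 * a + 4))
  have hC0 : (0 : ℚ) < C := lt_of_lt_of_le (by positivity) hC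
  refine ⟨C, by exact_mod_cast hC0, ?_⟩
  intro n hn
  have hn1 : (1 : ℚ) ≤ n := by exact_mod_cast hn
  have h1 : (n : ℚ) ^ n ≤ 3 ^ n * (n.factorial : ℚ) := by
    have h2 := pow_le_fact n
    have h3 : n ^ n ≤ 3 ^ n * n.factorial := by exact_mod_cast h2
    exact_mod_cast h3
  have h4 : (n.factorial : ℚ) = n * ((n - 1).factorial : ℚ) := by
    have h5 := Nat.mul_factorial_pred (Nat.pos_iff_ne_zero.mp hn)
    exact_mod_cast h5.symm
  have h6 : (n : ℚ) ≤ 2 ^ n := by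
    have h7 : n ≤ 2 ^ n := Nat.lt_two_pow_self.le
    exact_mod_cast h7
  have hf : (0 : ℚ) ≤ ((n - 1).factorial : ℚ) := Nat.cast_nonneg _
  have hb : (0 : ℚ) ≤ 2 * a + 4 := by linarith
  calc (2 * a + 4 * n) ^ n * 2 ^ n ≤ ((2 * a + 4) * n) ^ n * 2 ^ n := by
        apply mul_le_mul_of_nonneg_right _ (by positivity)
        apply pow_le_pow_left₀ (by positivity)
        nlinarith
    _ = (2 * (2 * a + 4)) ^ n * (n : ℚ) ^ n := by
        rw [mul_pow, mul_pow]; ring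
    _ ≤ (2 * (2 * a + 4)) ^ n * (3 ^ n * (n.factorial : ℚ)) := by
        apply mul_le_mul_of_nonneg_left h1 (by positivity)
    _ = (6 * (2 * a + 4)) ^ n * (n * ((n - 1).factorial : ℚ)) := by
        rw [h4, show (6 : ℚ) * (2 * a + 4) = (2 * (2 * a + 4)) * 3 by ring, mul_pow _ 3 n]
        ring
    _ ≤ (6 * (2 * a + 4)) ^ n * (2 ^ n * ((n - 1).factorial : ℚ)) := by
        apply mul_le_mul_of_nonneg_left _ (by positivity)
        exact mul_le_mul_of_nonneg_right h6 hf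
    _ = (12 * (2 * a + 4)) ^ n * ((n - 1).factorial : ℚ) := by
        rw [show (12 : ℚ) * (2 * a + 4) = (6 * (2 * a + 4)) * 2 by ring, mul_pow _ 2 n]
        ring
    _ ≤ (C : ℚ) ^ n * ((n - 1).factorial : ℚ) := by
        apply mul_le_mul_of_nonneg_right _ hf
        exact pow_le_pow_left₀ (by positivity) hC n

end Pool.Agent.DFP
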