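import Pool.Agent.DFP.Defs

set_option autoImplicit false

/-!
# DFP-Cnn: graphs of the class are connected
-/

namespace Pool.Agent.DFP

open Finset

private theorem mult_comm' (E : List (ℕ × ℕ)) (u v : ℕ) : mult E u v = mult E v u := by
  unfold mult multL
  rw [List.length_map, List.length_map]
  congr 2
  funext e
  exact Bool.or_comm _ _

open Pool.Agent.Helper47.TR in
private theorem quot_of_mult {G : MG} {u v : Fin G.1.length} (h : mult G.2 u v ≠ 0) :
    Quot.mk (adj G Finset.univ) u = Quot.mk (adj G Finset.univ) v := by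
  unfold mult multL at h
  rw [List.length_map] at h
  obtain ⟨e, he⟩ := List.exists_mem_of_length_pos (Nat.pos_of_ne_zero h)
  rw [List.mem_filter] at he
  obtain ⟨i, hi⟩ := List.mem_iff_get.1 he.1
  have h2 := he.2
  simp only [Bool.or_eq_true, Bool.and_eq_true, beq_iff_eq] at h2
  rcases h2 with h3 | h3
  · exact Quot.sound ⟨i, Finset.mem_univ i, by rw [hi]; exact h3.1, by rw [hi]; exact h3.2⟩
  · exact (Quot.sound ⟨i, Finset.mem_univ i, by rw [hi]; exact h3.1, by rw [hi]; exact h3.2⟩).symm

open Pool.Agent.Helper47.TR in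
theorem comps_one {G : MG} (hG : Valid G) (hn : 0 < G.1.length) {y δ : ℚ} (hy : 0 ≤ y)
    (hδ : δ < 1 / 6)
    (h : ∀ v < G.1.length, ∑ u ∈ (range G.1.length).erase v, y ^ mult G.2 v u ≤
      δ * G.1.length) : comps G Finset.univ = 1 := by
  classical
  let N : ℕ → Finset ℕ := fun v => ((range G.1.length).erase v).filter (fun u => mult G.2 v u = 0)
  have hN : ∀ v < G.1.length, ((N v).card : ℚ) ≤ δ * G.1.length := by
    intro v hv
    refine le_trans ?_ (h v hv)
    have h1 : ((N v).card : ℚ) = ∑ u ∈ N v, y ^ mult G.2 v u := by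
      rw [Finset.card_eq_sum_ones, Nat.cast_sum]
      refine Finset.sum_congr rfl fun u hu => ?_
      rw [(Finset.mem_filter.1 hu).2, pow_zero, Nat.cast_one]
    rw [h1]
    exact Finset.sum_le_sum_of_subset_of_nonneg (Finset.filter_subset _ _)
      (fun u _ _ => pow_nonneg hy _)
  have hn' : (0 : ℚ) < G.1.length := by exact_mod_cast hn
  have key : ∀ u v : Fin G.1.length,
      Quot.mk (adj G Finset.univ) u = Quot.mk (adj G Finset.univ) v := by
    intro u v
    by_contra hcon
    have huv : (u : ℕ) ≠ v := fun he => hcon (by rw [Fin.ext he])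
    have h0 : mult G.2 u v = 0 := by
      by_contra h1
      exact hcon (quot_of_mult h1)
    have hsub : range G.1.length ⊆ N u ∪ N v := by
      intro z hz
      rw [Finset.mem_union]
      by_cases hzu : z = u
      · right
        refine Finset.mem_filter.2 ⟨Finset.mem_erase.2 ⟨by rw [hzu]; exact huv, hz⟩, ?_⟩
        rw [hzu, mult_comm']
        exact h0
      · by_cases hzv : z = v
        · left
          refine Finset.mem_filter.2 ⟨Finset.mem_erase.2 ⟨hzu, hz⟩, ?_⟩
          rw [hzv]
          exact h0
        · by_cases h2 : mult G.2 u z = 0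
          · left
            exact Finset.mem_filter.2 ⟨Finset.mem_erase.2 ⟨hzu, hz⟩, h2⟩
          · right
            refine Finset.mem_filter.2 ⟨Finset.mem_erase.2 ⟨hzv, hz⟩, ?_⟩
            by_contra h3
            have hzl : z < G.1.length := Finset.mem_range.1 hz
            have e1 : Quot.mk (adj G Finset.univ) u = Quot.mk (adj G Finset.univ) ⟨z, hzl⟩ :=
              quot_of_mult (v := ⟨z, hzl⟩) h2
            have e2 : Quot.mk (adj G Finset.univ) v = Quot.mk (adj G Finset.univ) ⟨z, hzl⟩ :=
              quot_of_mult (v := ⟨z, hzl⟩) h3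
            exact hcon (e1.trans e2.symm)
    have h4 : G.1.length ≤ (N u).card + (N v).card := by
      have h5 := (Finset.card_le_card hsub).trans (Finset.card_union_le _ _)
      rwa [Finset.card_range] at h5
    have h6 : (G.1.length : ℚ) ≤ (N u).card + (N v).card := by exact_mod_cast h4
    have h7 := hN u u.2
    have h8 := hN v v.2
    nlinarith
  unfold comps
  rw [Nat.card_eq_one_iff_unique]
  refine ⟨⟨fun a b => ?_⟩, ⟨Quot.mk _ ⟨0, hn⟩⟩⟩
  induction a using Quot.ind with
  | mk a =>
    induction b using Quot.ind with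
    | mk b => exact key a b

end Pool.Agent.DFP
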