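import Pool.Agent.DFP.MDefs

set_option autoImplicit false

/-!
# DFP: the algorithm
-/

namespace Pool.Agent.DFP

open Finset

open Pool.Agent.Helper47.TR

/-- size parameter -/
def tt (inp : MG × List Bool) : ℕ := inp.1.1.length + inp.1.2.length + inp.2.length + 2

/-- prefactor, numerator -/
def prN (P : Par) (G : MG) : ℕ := P.y1 ^ (TFP.lps G.2).length * P.y2 ^ (G.1.length - 1)

/-- prefactor, denominator -/
def prD (P : Par) (G : MG) : ℕ :=
  P.y2 ^ (TFP.lps G.2).length * (P.y2 - P.y1) ^ (G.1.length - 1)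

/-- estimate in regime A -/
def qA (P : Par) (k0 e0 : ℕ) (inp : (MG × List Bool) × List Bool) : ℕ × ℕ :=
  prA P inp.1.1.2 inp.1.1.1.length (Nat.size inp.1.1.1.length) (k0 * Nat.size (tt inp.1))
    (tt inp.1 ^ e0) inp.1.1.1.length inp.2

/-- estimate in regime B -/
def qB (P : Par) (k0 n1 e0 : ℕ) (inp : (MG × List Bool) × List Bool) : ℕ × ℕ :=
  est P inp.1.1.2 0 (Nat.size inp.1.1.1.length) (n1 * (k0 * Nat.size (tt inp.1) + 1))
    (tt inp.1 ^ e0) (3, (0, ini inp.1.1.2 inp.1.1.1.length 0)) inp.2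

/-- the algorithm -/
def alg (P : Par) (k0 n1 e0 : ℕ) (inp : (MG × List Bool) × List Bool) : ℤ × ℕ :=
  if decide (inp.1.1.1.length = 0) then (1, 1)
  else if decide (n1 * (k0 * Nat.size (tt inp.1) + 1) ≤ inp.1.1.1.length) then
    (((prN P inp.1.1 * (qA P k0 e0 inp).1 : ℕ) : ℤ), prD P inp.1.1 * (qA P k0 e0 inp).2)
  else (((prN P inp.1.1 * (qB P k0 n1 e0 inp).1 : ℕ) : ℤ), prD P inp.1.1 * (qB P k0 n1 e0 inp).2)

end Pool.Agent.DFP
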