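import Pool.Agent.DFP.FpP
import Pool.Agent.DFP.Alg
import Pool.Agent.TFP.FpE
import Pool.Agent.Helper47.TR.Rank

set_option autoImplicit false

/-!
# DFP-FpA: the algorithm runs in polynomial time

All lengths are given by lists: the size parameter, its logarithm, the numbers of steps and of trials.
-/

namespace Pool.Agent.DFP

open Finset

open Pool.Agent.Helper47.TR

open Turing Function N487b59b3 N68a2faeb Pool.Agent.Helper22 Pool.Agent.Helper6.WB Computability in
theorem alg_poly (P : Par) (k0 n1 e0 : ℕ) : N68a2faeb.IsPolyTime (alg P k0 n1 e0) := by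
  rw [isPolyTime_iff]
  have hE : FP fun inp : (MG × List Bool) × List Bool => inp.1.1.2 := by fun_prop
  have hV : FP fun inp : (MG × List Bool) × List Bool => inp.1.1.1 := by fun_prop
  have hN : FP fun inp : (MG × List Bool) × List Bool => inp.1.2 := by fun_prop
  have hr : FP fun inp : (MG × List Bool) × List Bool => inp.2 := by fun_prop
  have hT : FP fun inp : (MG × List Bool) × List Bool =>
      inp.1.1.1 ++ (un inp.1.1.2.length ++ (inp.1.2 ++ [true, true])) :=
    FP.append hV (FP.append (FP.un_length hE) (FP.append hN (FP.const [true, true])))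
  have hTl : ∀ inp : (MG × List Bool) × List Bool,
      (inp.1.1.1 ++ (un inp.1.1.2.length ++ (inp.1.2 ++ [true, true]))).length = tt inp.1 := by
    intro inp
    simp only [List.length_append, Helper22.un_length, List.length_cons, List.length_nil, tt]
    ring
  have hk : FP fun inp : (MG × List Bool) × List Bool => un (tt inp.1 ^ e0) := by
    have h := FP.un_poly hT (Polynomial.X ^ e0)
    simpa only [hTl, Polynomial.eval_pow, Polynomial.eval_X] using h
  have hs : FP fun inp : (MG × List Bool) × List Bool => encodeNat (tt inp.1) := by
    have h := FP.bits (FP.length hT)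
    simpa only [hTl] using h
  have hb : FP fun inp : (MG × List Bool) × List Bool => encodeNat inp.1.1.1.length :=
    FP.bits (FP.length hV)
  have hsl : ∀ n : ℕ, (encodeNat n).length = Nat.size n := fun n => sz_nat n
  have hK : FP fun inp : (MG × List Bool) × List Bool => un (k0 * Nat.size (tt inp.1)) := by
    have h := FP.unMul (FP.const (un k0)) hs
    simpa only [Helper22.un_length, hsl] using h
  have hK2 : FP fun inp : (MG × List Bool) × List Bool =>
      un (n1 * (k0 * Nat.size (tt inp.1) + 1)) := by
    have h := FP.unMul (FP.const (un n1)) (FP.append hK (FP.const [true]))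
    simpa only [Helper22.un_length, List.length_append, List.length_cons, List.length_nil,
      zero_add] using h
  have hA : FP fun inp : (MG × List Bool) × List Bool => qA P k0 e0 inp := by
    have h := FP.prA P hE hV hb hK hk hV hr
    simp only [Helper22.un_length, hsl] at h
    exact h
  have hB : FP fun inp : (MG × List Bool) × List Bool => qB P k0 n1 e0 inp := by
    have h := FP.estD P hE (FP.const 0) hb hK2 hk
      (FP.pair (FP.const (3 : ℕ)) (FP.pair (FP.const (0 : ℕ)) (FP.ini hE hV (FP.const 0)))) hr
    simp only [Helper22.un_length, hsl] at h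
    exact h
  have hl := TFP.FP.lps hE
  have hn1 : FP fun inp : (MG × List Bool) × List Bool => prN P inp.1.1 := by
    have h := FP.natMul (FP.powU (FP.const P.y1) hl) (FP.powU (FP.const P.y2) (FP.tail hV))
    simp only [List.length_tail] at h
    exact h
  have hd1 : FP fun inp : (MG × List Bool) × List Bool => prD P inp.1.1 := by
    have h := FP.natMul (FP.powU (FP.const P.y2) hl) (FP.powU (FP.const (P.y2 - P.y1)) (FP.tail hV))
    simp only [List.length_tail] at h
    exact h
  have hc0 : FP fun inp : (MG × List Bool) × List Bool => decide (inp.1.1.1.length = 0) :=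
    FP.natEq (FP.length hV) (FP.const 0)
  have hc1 : FP fun inp : (MG × List Bool) × List Bool =>
      decide (n1 * (k0 * Nat.size (tt inp.1) + 1) ≤ inp.1.1.1.length) := by
    have h := FP.natLe (FP.length hK2) (FP.length hV)
    simpa only [Helper22.un_length] using h
  exact FP.ite hc0 (FP.const ((1 : ℤ), 1)) (FP.ite hc1
    (FP.pair (FP.intPos (FP.natMul hn1 (FP.fst.comp hA))) (FP.natMul hd1 (FP.snd.comp hA)))
    (FP.pair (FP.intPos (FP.natMul hn1 (FP.fst.comp hB))) (FP.natMul hd1 (FP.snd.comp hB))))

end Pool.Agent.DFP
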