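import Mathlib

set_option autoImplicit false

/-!
# DFP-Num: choice of the parameters (Mathlib only)
-/

namespace Pool.Agent.DFP

open Finset

private theorem size_facts {t : ℕ} (ht : 2 ≤ t) : t < 2 ^ Nat.size t ∧ 2 ^ Nat.size t ≤ t ^ 2 ∧ 1 ≤ Nat.size t := by
  have h1 : t < 2 ^ Nat.size t := Nat.lt_size_self t
  have h2 : 0 < Nat.size t := Nat.size_pos.2 (by omega)
  refine ⟨h1, ?_, h2⟩
  have h3 : 2 ^ (Nat.size t - 1) ≤ t := by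
    have h4 : Nat.size t - 1 < Nat.size t := by omega
    exact Nat.lt_size.1 h4
  have h5 : 2 ^ Nat.size t = 2 * 2 ^ (Nat.size t - 1) := by
    rw [← pow_succ']
    congr 1
    omega
  rw [h5]
  nlinarith

theorem num_A {ρ : ℚ} (h0 : 0 ≤ ρ) (h1 : ρ < 1) : ∃ k0 : ℕ, 0 < k0 ∧ ∃ e1 : ℕ, ∀ e ≥ e1, ∀ t : ℕ,
    2 ≤ t → 4 * (((16 : ℚ) ^ (k0 * Nat.size t)) ^ 2 / ((t ^ e : ℕ) : ℚ) +
      (ρ ^ (k0 * Nat.size t) * (5 / 2)) ^ 2) ≤ (1 / (96 * (t : ℚ) ^ 3)) ^ 2 := by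
  obtain ⟨k, hk⟩ := exists_pow_lt_of_lt_one (show (0 : ℚ) < (1 / 2) ^ 13 by positivity) h1
  have hk' : ρ ^ (k + 1) ≤ (1 / 2) ^ 13 := by
    rw [pow_succ]
    have h3 : ρ ^ k * ρ ≤ ρ ^ k * 1 := mul_le_mul_of_nonneg_left h1.le (pow_nonneg h0 k)
    linarith
  refine ⟨k + 1, Nat.succ_pos k, 16 * (k + 1) + 23, fun e he t ht => ?_⟩
  obtain ⟨s1, s2, s3⟩ := size_facts ht
  set s := Nat.size t with hs
  have hT : (2 : ℚ) ≤ t := by exact_mod_cast ht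
  have hT0 : (0 : ℚ) < t := by linarith
  have s1' : (t : ℚ) ≤ 2 ^ s := by exact_mod_cast s1.le
  have s2' : (2 : ℚ) ^ s ≤ (t : ℚ) ^ 2 := by exact_mod_cast s2
  have a1 : ((16 : ℚ) ^ ((k + 1) * s)) ^ 2 ≤ (t : ℚ) ^ (16 * (k + 1)) := by
    have e1 : ((16 : ℚ) ^ ((k + 1) * s)) ^ 2 = ((2 : ℚ) ^ s) ^ (8 * (k + 1)) := by
      rw [show (16 : ℚ) = 2 ^ 4 by norm_num, ← pow_mul, ← pow_mul, ← pow_mul]
      congr 1
      ring
    rw [e1]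
    calc ((2 : ℚ) ^ s) ^ (8 * (k + 1)) ≤ ((t : ℚ) ^ 2) ^ (8 * (k + 1)) := pow_le_pow_left₀ (by positivity) s2' _
      _ = (t : ℚ) ^ (16 * (k + 1)) := by
        rw [← pow_mul]
        congr 1
        ring
  have a2 : ((16 : ℚ) ^ ((k + 1) * s)) ^ 2 / ((t ^ e : ℕ) : ℚ) ≤ 1 / (t : ℚ) ^ 23 := by
    rw [Nat.cast_pow, div_le_div_iff₀ (by positivity) (by positivity), one_mul]
    calc ((16 : ℚ) ^ ((k + 1) * s)) ^ 2 * (t : ℚ) ^ 23 ≤ (t : ℚ) ^ (16 * (k + 1)) * (t : ℚ) ^ 23 :=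
          mul_le_mul_of_nonneg_right a1 (by positivity)
      _ = (t : ℚ) ^ (16 * (k + 1) + 23) := by rw [← pow_add]
      _ ≤ (t : ℚ) ^ e := pow_le_pow_right₀ (by linarith) he
  have a3 : ρ ^ ((k + 1) * s) ≤ 1 / (t : ℚ) ^ 13 := by
    calc ρ ^ ((k + 1) * s) = (ρ ^ (k + 1)) ^ s := by rw [pow_mul]
      _ ≤ ((1 / 2 : ℚ) ^ 13) ^ s := pow_le_pow_left₀ (pow_nonneg h0 _) hk' s
      _ = 1 / ((2 : ℚ) ^ s) ^ 13 := by
        rw [← pow_mul, mul_comm 13 s, pow_mul, one_div_pow, one_div_pow]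
      _ ≤ 1 / (t : ℚ) ^ 13 := one_div_le_one_div_of_le (by positivity) (pow_le_pow_left₀ hT0.le s1' 13)
  have a4 : (ρ ^ ((k + 1) * s) * (5 / 2)) ^ 2 ≤ 25 / 4 * (1 / (t : ℚ) ^ 26) := by
    have h3 : ρ ^ ((k + 1) * s) * (5 / 2) ≤ 1 / (t : ℚ) ^ 13 * (5 / 2) :=
      mul_le_mul_of_nonneg_right a3 (by norm_num)
    calc (ρ ^ ((k + 1) * s) * (5 / 2)) ^ 2 ≤ (1 / (t : ℚ) ^ 13 * (5 / 2)) ^ 2 :=
          pow_le_pow_left₀ (mul_nonneg (pow_nonneg h0 _) (by norm_num)) h3 2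
      _ = 25 / 4 * (1 / (t : ℚ) ^ 26) := by
        rw [mul_pow, one_div_pow, ← pow_mul]
        norm_num
        ring
  have a5 : 4 * (1 / (t : ℚ) ^ 23 + 25 / 4 * (1 / (t : ℚ) ^ 26)) ≤ (1 / (96 * (t : ℚ) ^ 3)) ^ 2 := by
    have e1 : 4 * (1 / (t : ℚ) ^ 23 + 25 / 4 * (1 / (t : ℚ) ^ 26)) = (4 * (t : ℚ) ^ 3 + 25) / (t : ℚ) ^ 26 := by
      field_simp
    have e2 : (1 / (96 * (t : ℚ) ^ 3)) ^ 2 = 1 / (9216 * (t : ℚ) ^ 6) := by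
      rw [one_div_pow, mul_pow, ← pow_mul]
      norm_num
    rw [e1, e2, div_le_div_iff₀ (by positivity) (by positivity), one_mul]
    have h8 : (8 : ℚ) ≤ (t : ℚ) ^ 3 := by
      calc (8 : ℚ) = 2 ^ 3 := by norm_num
        _ ≤ (t : ℚ) ^ 3 := pow_le_pow_left₀ (by norm_num) hT 3
    have h17 : (131072 : ℚ) ≤ (t : ℚ) ^ 17 := by
      calc (131072 : ℚ) = 2 ^ 17 := by norm_num
        _ ≤ (t : ℚ) ^ 17 := pow_le_pow_left₀ (by norm_num) hT 17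
    have h9 : (4 * (t : ℚ) ^ 3 + 25) * 9216 ≤ (t : ℚ) ^ 3 * (t : ℚ) ^ 17 := by
      have h10 : (t : ℚ) ^ 3 * 131072 ≤ (t : ℚ) ^ 3 * (t : ℚ) ^ 17 := mul_le_mul_of_nonneg_left h17 (by positivity)
      linarith
    calc (4 * (t : ℚ) ^ 3 + 25) * (9216 * (t : ℚ) ^ 6) = (4 * (t : ℚ) ^ 3 + 25) * 9216 * (t : ℚ) ^ 6 := by ring
      _ ≤ (t : ℚ) ^ 3 * (t : ℚ) ^ 17 * (t : ℚ) ^ 6 := mul_le_mul_of_nonneg_right h9 (by positivity)
      _ = (t : ℚ) ^ 26 := by ring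
  refine le_trans ?_ a5
  linarith

theorem num_B (k0 n1 C : ℕ) : ∃ e2 : ℕ, ∀ e ≥ e2, ∀ t n : ℕ, 2 ≤ t →
    n < n1 * (k0 * Nat.size t + 1) →
      ((C : ℚ) ^ n) ^ 2 ≤ (1 / (96 * (t : ℚ) ^ 3)) ^ 2 * ((t ^ e : ℕ) : ℚ) := by
  refine ⟨4 * (C * (n1 * (k0 + 1))) + 24, fun e he t n ht hn => ?_⟩
  obtain ⟨s1, s2, s3⟩ := size_facts ht
  set s := Nat.size t with hs
  have hT : (2 : ℚ) ≤ t := by exact_mod_cast ht
  have hT0 : (0 : ℚ) < t := by linarith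
  have h1 : n ≤ n1 * (k0 + 1) * s := by
    refine hn.le.trans ?_
    have h2 : k0 * s + 1 ≤ (k0 + 1) * s := by nlinarith
    calc n1 * (k0 * s + 1) ≤ n1 * ((k0 + 1) * s) := Nat.mul_le_mul_left _ h2
      _ = n1 * (k0 + 1) * s := by ring
  have h2 : C ^ n ≤ t ^ (2 * (C * (n1 * (k0 + 1)))) := by
    calc C ^ n ≤ (2 ^ C) ^ n := Nat.pow_le_pow_left (Nat.lt_two_pow_self).le n
      _ ≤ (2 ^ C) ^ (n1 * (k0 + 1) * s) := Nat.pow_le_pow_right (by positivity) h1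
      _ = (2 ^ s) ^ (C * (n1 * (k0 + 1))) := by
        rw [← pow_mul, ← pow_mul]
        congr 1
        ring
      _ ≤ (t ^ 2) ^ (C * (n1 * (k0 + 1))) := Nat.pow_le_pow_left s2 _
      _ = t ^ (2 * (C * (n1 * (k0 + 1)))) := by rw [← pow_mul]
  have h3 : ((C : ℚ) ^ n) ^ 2 ≤ (t : ℚ) ^ (4 * (C * (n1 * (k0 + 1)))) := by
    have h4 : (C : ℚ) ^ n ≤ (t : ℚ) ^ (2 * (C * (n1 * (k0 + 1)))) := by exact_mod_cast h2
    calc ((C : ℚ) ^ n) ^ 2 ≤ ((t : ℚ) ^ (2 * (C * (n1 * (k0 + 1))))) ^ 2 :=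
          pow_le_pow_left₀ (by positivity) h4 2
      _ = (t : ℚ) ^ (4 * (C * (n1 * (k0 + 1)))) := by
        rw [← pow_mul]
        congr 1
        ring
  have h4 : (t : ℚ) ^ (4 * (C * (n1 * (k0 + 1))) + 24) ≤ ((t ^ e : ℕ) : ℚ) := by
    rw [Nat.cast_pow]
    exact pow_le_pow_right₀ (by linarith) he
  have h18 : (262144 : ℚ) ≤ (t : ℚ) ^ 18 := by
    calc (262144 : ℚ) = 2 ^ 18 := by norm_num
      _ ≤ (t : ℚ) ^ 18 := pow_le_pow_left₀ (by norm_num) hT 18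
  have e2 : (1 / (96 * (t : ℚ) ^ 3)) ^ 2 = 1 / (9216 * (t : ℚ) ^ 6) := by
    rw [one_div_pow, mul_pow, ← pow_mul]
    norm_num
  rw [e2, one_div_mul_eq_div, le_div_iff₀ (by positivity)]
  refine le_trans ?_ h4
  rw [pow_add]
  have h5 : (9216 : ℚ) * (t : ℚ) ^ 6 ≤ (t : ℚ) ^ 24 := by
    calc (9216 : ℚ) * (t : ℚ) ^ 6 ≤ (t : ℚ) ^ 18 * (t : ℚ) ^ 6 :=
          mul_le_mul_of_nonneg_right (by linarith) (by positivity)
      _ = (t : ℚ) ^ 24 := by ring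
  exact mul_le_mul h3 h5 (by positivity) (by positivity)

/-- the constant `n1` of the two regimes -/
theorem num_n1 {δ : ℚ} (h0 : 0 ≤ δ) (h1 : δ < 1 / 6) : ∃ (ρ : ℚ) (n1 : ℕ), 0 ≤ ρ ∧ ρ < 1 ∧ 0 < n1 ∧
    ∀ n K S : ℕ, 0 < K → n1 * (K + 1) ≤ n → S + K + 1 = n →
      6 * (δ * n) + 2 ≤ S ∧ 3 / 4 + 3 / 2 * (δ * n / S) ≤ ρ ∧ n ≤ 2 * S := by
  have hη : (0 : ℚ) < 1 - 6 * δ := by linarith
  obtain ⟨n1, hn1⟩ := exists_nat_gt (2 / (1 - 6 * δ))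
  have hn2 : 2 < (n1 : ℚ) * (1 - 6 * δ) := by
    rwa [div_lt_iff₀ hη] at hn1
  have hn3 : (2 : ℚ) < n1 := by
    have h3 : 0 ≤ (n1 : ℚ) * (6 * δ) := by positivity
    linarith
  have hd : (0 : ℚ) < n1 - 1 := by linarith
  have hq0 : 0 ≤ δ * n1 / ((n1 : ℚ) - 1) := div_nonneg (by positivity) hd.le
  have hq1 : δ * n1 / ((n1 : ℚ) - 1) < 1 / 6 := by
    rw [div_lt_div_iff₀ hd (by norm_num)]
    linarith
  refine ⟨3 / 4 + 3 / 2 * (δ * n1 / ((n1 : ℚ) - 1)), n1, by linarith, by linarith, ?_, ?_⟩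
  · have : (0 : ℚ) < n1 := by linarith
    exact_mod_cast this
  · intro n K S hK hn hS
    have hn' : (n1 : ℚ) * (K + 1) ≤ n := by exact_mod_cast hn
    have hS' : (S : ℚ) + K + 1 = n := by exact_mod_cast hS
    have hK' : (1 : ℚ) ≤ K := by exact_mod_cast hK
    have hnn : (2 : ℚ) * n1 ≤ n := by
      have : (n1 : ℚ) * 2 ≤ (n1 : ℚ) * (K + 1) := mul_le_mul_of_nonneg_left (by linarith) (by linarith)
      linarith
    have hn0 : (0 : ℚ) ≤ n := Nat.cast_nonneg n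
    have hS1 : (n : ℚ) * (n1 - 1) ≤ n1 * S := by
      have : (n1 : ℚ) * S = n1 * n - n1 * (K + 1) := by
        rw [← hS']
        ring
      rw [this]
      linarith
    have c1 : 6 * (δ * n) + 2 ≤ (S : ℚ) := by
      have h3 : (n1 : ℚ) * (6 * (δ * n) + 2) ≤ n1 * S := by
        refine le_trans ?_ hS1
        have h4 : (n : ℚ) * (6 * δ * n1) ≤ n * (n1 - 2) := mul_le_mul_of_nonneg_left (by linarith) hn0
        linarith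
      exact le_of_mul_le_mul_left h3 (by linarith)
    have hSp : (0 : ℚ) < S := by
      have : 0 ≤ 6 * (δ * n) := by positivity
      linarith
    refine ⟨c1, ?_, ?_⟩
    · have h3 : δ * n / (S : ℚ) ≤ δ * n1 / ((n1 : ℚ) - 1) := by
        rw [div_le_div_iff₀ hSp hd]
        have h4 := mul_le_mul_of_nonneg_left hS1 h0
        linarith
      linarith
    · have h3 : (n1 : ℚ) * n ≤ n1 * (2 * S) := by
        have h4 : (n : ℚ) * 2 ≤ n * n1 := mul_le_mul_of_nonneg_left hn3.le hn0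
        linarith
      have h5 : (n : ℚ) ≤ 2 * S := le_of_mul_le_mul_left h3 (by linarith)
      exact_mod_cast h5

end Pool.Agent.DFP
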