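import Pool.Agent.DFP.MDefs
import Pool.Agent.TFP.Avg

set_option autoImplicit false

/-!
# DFP-Unb: the mean of the payoff
-/

namespace Pool.Agent.DFP

open Finset

open Pool.Agent.TFP (avg)

theorem wv_wmul (s t : Wt) : wv (wmul s t) = wv s * wv t := by
  obtain ⟨s1, s2, s3⟩ := s
  obtain ⟨t1, t2, t3⟩ := t
  unfold wv wmul
  cases s1 <;> cases t1 <;> simp [mul_div_mul_comm]

private theorem run_nil (P : Par) (E : List (ℕ × ℕ)) (i b : ℕ) (wt : Wt) :
    ∀ (K : ℕ) (l : List Bool), runA P E i b K l ([], wt) = ([], wt) := by
  intro K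
  induction K with
  | zero => intro l; rfl
  | succ K ih =>
    intro l
    show runA P E i b K (l.drop (b + 2)) (stepA P E i b _ _ ([], wt)) = ([], wt)
    have e : ∀ c y, stepA P E i b c y ([], wt) = ([], wt) := fun c y => by
      unfold stepA
      simp
    rw [e, ih]

private theorem step_cons (P : Par) (E : List (ℕ × ℕ)) (i b c y : ℕ) (nd : Nd) (st : List Nd)
    (wt : Wt) : stepA P E i b c y (nd :: st, wt) =
      ((out P E i b c y nd).2 ++ st, wmul wt (out P E i b c y nd).1) := rfl

theorem avg_run (P : Par) (E : List (ℕ × ℕ)) (i b K : ℕ) (st : List Nd) (wt : Wt) :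
    avg (K * (b + 2)) (fun l => wv (pay (runA P E i b K l (st, wt)))) =
      wv wt * eK P E i b K st := by
  induction K generalizing st wt with
  | zero =>
    rw [zero_mul]
    show wv (pay (st, wt)) = wv wt * (if st = [] then 1 else 0)
    cases st with
    | nil =>
      rw [if_pos rfl, mul_one]
      rfl
    | cons nd st =>
      rw [if_neg (List.cons_ne_nil nd st), mul_zero]
      show wv (false, (0, 1)) = 0
      unfold wv
      simp
  | succ K ih =>
    cases st with
    | nil =>
      have e : (fun l : List Bool => wv (pay (runA P E i b (K + 1) l ([], wt)))) =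
          fun _ => wv wt := by
        funext l
        rw [run_nil]
        rfl
      rw [e, TFP.avg_const]
      show wv wt = wv wt * 1
      rw [mul_one]
    | cons nd st =>
      have e1 : (K + 1) * (b + 2) = (b + 2) + K * (b + 2) := by ring
      have e2 : (fun l : List Bool => wv (pay (runA P E i b (K + 1) l (nd :: st, wt)))) =
          fun l => (fun (l1 l2 : List Bool) => wv (pay (runA P E i b K l2
            ((out P E i b (Helper6.WB.val (l1.take 2)) (Helper6.WB.val (l1.drop 2)) nd).2 ++ st,
              wmul wt (out P E i b (Helper6.WB.val (l1.take 2))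
                (Helper6.WB.val (l1.drop 2)) nd).1)))) (l.take (b + 2)) (l.drop (b + 2)) := by
        funext l
        show wv (pay (runA P E i b K (l.drop (b + 2))
          (stepA P E i b (Helper6.WB.val (l.take 2)) (Helper6.WB.val ((l.drop 2).take b))
            (nd :: st, wt)))) = _
        rw [step_cons]
        have t1 : (l.take (b + 2)).take 2 = l.take 2 := by
          rw [List.take_take, Nat.min_eq_left (by omega)]
        have t2 : (l.take (b + 2)).drop 2 = (l.drop 2).take b := by
          rw [List.drop_take, Nat.add_sub_cancel]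
        dsimp only
        rw [t1, t2]
      rw [e1, e2]
      refine (TFP.avg_take_drop (b + 2) (K * (b + 2)) (fun (l1 l2 : List Bool) =>
        wv (pay (runA P E i b K l2
            ((out P E i b (Helper6.WB.val (l1.take 2)) (Helper6.WB.val (l1.drop 2)) nd).2 ++ st,
              wmul wt (out P E i b (Helper6.WB.val (l1.take 2))
                (Helper6.WB.val (l1.drop 2)) nd).1))))).trans ?_
      have e3 : (fun l1 : List Bool => avg (K * (b + 2)) (fun l2 => wv (pay (runA P E i b K l2
            ((out P E i b (Helper6.WB.val (l1.take 2)) (Helper6.WB.val (l1.drop 2)) nd).2 ++ st,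
              wmul wt (out P E i b (Helper6.WB.val (l1.take 2))
                (Helper6.WB.val (l1.drop 2)) nd).1))))) =
          fun l => (fun (l1 l2 : List Bool) =>
            (fun (c y : ℕ) => wv wt * (wv (out P E i b c y nd).1 *
              eK P E i b K ((out P E i b c y nd).2 ++ st)))
              (Helper6.WB.val l1) (Helper6.WB.val l2)) (l.take 2) (l.drop 2) := by
        funext l1
        rw [ih, wv_wmul]
        dsimp only
        ring
      have e4 : b + 2 = 2 + b := by ring
      rw [e3, e4]
      refine (TFP.avg_take_drop 2 b (fun (l1 l2 : List Bool) =>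
            (fun (c y : ℕ) => wv wt * (wv (out P E i b c y nd).1 *
              eK P E i b K ((out P E i b c y nd).2 ++ st)))
              (Helper6.WB.val l1) (Helper6.WB.val l2))).trans ?_
      have e5 : (fun l1 : List Bool => avg b (fun l2 : List Bool =>
            (fun (c y : ℕ) => wv wt * (wv (out P E i b c y nd).1 *
              eK P E i b K ((out P E i b c y nd).2 ++ st)))
              (Helper6.WB.val l1) (Helper6.WB.val l2))) =
          fun l1 => (fun c : ℕ => (∑ y ∈ range (2 ^ b), wv wt * (wv (out P E i b c y nd).1 *
              eK P E i b K ((out P E i b c y nd).2 ++ st))) / 2 ^ b) (Helper6.WB.val l1) := by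
        funext l1
        exact TFP.avg_val b (fun y : ℕ => wv wt * (wv (out P E i b (Helper6.WB.val l1) y nd).1 *
              eK P E i b K ((out P E i b (Helper6.WB.val l1) y nd).2 ++ st)))
      rw [e5]
      refine (TFP.avg_val 2 (fun c : ℕ => (∑ y ∈ range (2 ^ b), wv wt * (wv (out P E i b c y nd).1 *
              eK P E i b K ((out P E i b c y nd).2 ++ st))) / 2 ^ b)).trans ?_
      show _ = wv wt * ((∑ y ∈ range (2 ^ b), ∑ c ∈ range 4,
        wv (out P E i b c y nd).1 * eK P E i b K ((out P E i b c y nd).2 ++ st)) / (4 * 2 ^ b))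
      have e6 : ((2 : ℕ) ^ 2) = 4 := by norm_num
      have e7 : ((2 : ℚ) ^ 2) = 4 := by norm_num
      rw [e6, e7, ← Finset.sum_div, Finset.sum_comm]
      have e8 : ∑ y ∈ range (2 ^ b), ∑ c ∈ range 4, wv wt * (wv (out P E i b c y nd).1 *
              eK P E i b K ((out P E i b c y nd).2 ++ st)) =
          wv wt * ∑ y ∈ range (2 ^ b), ∑ c ∈ range 4, wv (out P E i b c y nd).1 *
              eK P E i b K ((out P E i b c y nd).2 ++ st) := by
        rw [Finset.mul_sum]
        refine Finset.sum_congr rfl fun y _ => ?_
        rw [Finset.mul_sum]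
      rw [e8]
      have h2 : (2 : ℚ) ^ b ≠ 0 := pow_ne_zero _ (by norm_num)
      field_simp

theorem avg_trial (P : Par) (E : List (ℕ × ℕ)) (i b K : ℕ) (nd : Nd) :
    avg (K * (b + 2)) (fun l => wv (trial P E i b K nd l)) = eK P E i b K [nd] := by
  have h := avg_run P E i b K [nd] (false, (1, 1))
  have e : wv (false, (1, 1)) = 1 := by
    unfold wv
    simp
  rw [e, one_mul] at h
  exact h

end Pool.Agent.DFP
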