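import Pool.Agent.DFP.LstB
import Pool.Agent.DFP.Unb

set_option autoImplicit false

/-!
# DFP-BAb: bound of the payoff for nodes of type 3
-/

namespace Pool.Agent.DFP

open Finset

private theorem babNil (P : Par) (E : List (ℕ × ℕ)) (i b : ℕ) (wt : Wt) :
    ∀ (K : ℕ) (l : List Bool), runA P E i b K l ([], wt) = ([], wt) := by
  intro K
  induction K with
  | zero => intro l; rfl
  | succ K ih =>
    intro l
    show runA P E i b K (l.drop (b + 2)) (stepA P E i b _ _ ([], wt)) = ([], wt)
    have e : ∀ c y, stepA P E i b c y ([], wt) = ([], wt) := fun c y => by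
      unfold stepA
      simp
    rw [e, ih]

private theorem babCons (P : Par) (E : List (ℕ × ℕ)) (i b K : ℕ) (nd : Nd) (wt : Wt)
    (l : List Bool) : ∃ c y : ℕ, runA P E i b (K + 1) l ([nd], wt) =
      runA P E i b K (l.drop (b + 2)) ((out P E i b c y nd).2, wmul wt (out P E i b c y nd).1) := by
  refine ⟨Helper6.WB.val (l.take 2), Helper6.WB.val ((l.drop 2).take b), ?_⟩
  show runA P E i b K (l.drop (b + 2)) ((out P E i b _ _ nd).2 ++ [], wmul wt _) = _
  rw [List.append_nil]
  rfl

private theorem babOut {P : Par} (hP : P.Ok) (E : List (ℕ × ℕ)) (i b c y s : ℕ) (L : LL)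
    (hn : (L.map Prod.fst).Nodup) {M : ℚ} (h2 : 2 ≤ M) (h3 : 2 * 2 ^ b ≤ M)
    (h4 : 2 * (P.a + s + L.length + 1) ≤ M) :
    |wv (out P E i b c y (3, (s, L))).1| ≤ M ∧ ((out P E i b c y (3, (s, L))).2 = [] ∨
      ∃ (s' : ℕ) (L' : LL), (out P E i b c y (3, (s, L))).2 = [(3, (s', L'))] ∧
        (L'.map Prod.fst).Nodup ∧ L'.length + 1 = L.length ∧ s' + L'.length ≤ s + L.length) := by
  obtain ⟨ha, hy0, hy1⟩ := par_bd hP
  have hM : 0 ≤ M := by linarith
  have e0 : |wv out0.1| ≤ M := by
    have : wv out0.1 = 0 := by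
      unfold wv out0
      simp
    rw [this, abs_zero]
    exact hM
  by_cases hc : c < 2
  · rcases L with _ | ⟨p, t⟩
    · have e : out P E i b c y (3, (s, [])) = ((false, (2, 1)), []) := by
        unfold out
        simp [hc]
      rw [e]
      refine ⟨?_, Or.inl rfl⟩
      have : wv ((false, (2, 1)) : Wt) = 2 := by
        unfold wv
        simp
      rw [this, abs_of_pos (by norm_num)]
      exact h2
    · have e : out P E i b c y (3, (s, p :: t)) =
          ((false, (2 * (P.A1 + P.A2 * (s + 1)), P.A2)), [(3, (s + 1, rowL E p.1 t))]) := by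
        unfold out
        simp [hc]
      rw [e]
      refine ⟨?_, Or.inr ⟨s + 1, rowL E p.1 t, rfl, ?_, ?_, ?_⟩⟩
      · have hA : (0 : ℚ) < P.A2 := by exact_mod_cast hP.1
        have h5 : wv (false, (2 * (P.A1 + P.A2 * (s + 1)), P.A2)) = 2 * (P.a + s + 1) := by
          unfold wv Par.a
          simp only [Bool.false_eq_true, if_false, one_mul]
          push_cast
          field_simp
          ring
        have h6 : (0 : ℚ) ≤ s := Nat.cast_nonneg s
        have h7 : (0 : ℚ) ≤ (p :: t).length := Nat.cast_nonneg _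
        rw [h5, abs_of_nonneg (by linarith)]
        linarith
      · rw [List.map_cons] at hn
        exact nd_rowL E hn.of_cons p.1
      · rw [(len_ch E p.1 0 t).2.2.2.2, List.length_cons]
      · rw [(len_ch E p.1 0 t).2.2.2.2, List.length_cons]
        omega
  · by_cases hp : pres y L = true
    · have hy : y ∈ vs L := (pres_iff y L).1 hp
      have e : out P E i b c y (3, (s, L)) =
          ((true, (2 * 2 ^ b * cnum P (cd y L), cden P (cd y L))), [(3, (s, chg E y L))]) := by
        unfold out
        simp [hc, hp]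
      have h8 := len_er hn hy
      have h9 := (len_ch E 0 y L).1
      rw [e]
      refine ⟨?_, Or.inr ⟨s, chg E y L, rfl, nd_chg E hn y, ?_, ?_⟩⟩
      · obtain ⟨h10, _, h11⟩ := cfrac hP (cd y L)
        have h5 : wv (true, (2 * 2 ^ b * cnum P (cd y L), cden P (cd y L))) =
            -(2 * 2 ^ b * cval P.y (cd y L)) := by
          rw [← h11]
          unfold wv
          simp only [if_true]
          push_cast
          ring
        obtain ⟨h12, h13⟩ := cval_bd hy0 hy1.le (cd y L)
        have h14 : (0 : ℚ) < 2 * 2 ^ b := by positivity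
        rw [h5, abs_neg, abs_of_nonneg (mul_nonneg h14.le h12)]
        exact le_trans (mul_le_of_le_one_right h14.le h13) h3
      · rw [h9]
        exact h8
      · rw [h9]
        omega
    · have e : out P E i b c y (3, (s, L)) = out0 := by
        unfold out
        simp [hc, hp]
      rw [e]
      exact ⟨e0, Or.inl rfl⟩

private theorem babRun {P : Par} (hP : P.Ok) (E : List (ℕ × ℕ)) (i b : ℕ) {M : ℚ} (h2 : 2 ≤ M)
    (h3 : 2 * 2 ^ b ≤ M) (K : ℕ) : ∀ (s : ℕ) (L : LL), (L.map Prod.fst).Nodup →
      2 * (P.a + s + L.length + 1) ≤ M → ∀ (wt : Wt) (l : List Bool),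
      |wv (pay (runA P E i b K l ([(3, (s, L))], wt)))| ≤ |wv wt| * M ^ (L.length + 1) := by
  have hM : 1 ≤ M := by linarith
  have hM0 : 0 ≤ M := by linarith
  induction K with
  | zero =>
    intro s L _ _ wt l
    have e : wv (pay (runA P E i b 0 l ([(3, (s, L))], wt))) = 0 := by
      show wv (false, (0, 1)) = 0
      unfold wv
      simp
    rw [e, abs_zero]
    positivity
  | succ K ih =>
    intro s L hn h4 wt l
    obtain ⟨c, y, e⟩ := babCons P E i b K (3, (s, L)) wt l
    rw [e]
    obtain ⟨h5, h6⟩ := babOut hP E i b c y s L hn h2 h3 h4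
    have h0 : 0 ≤ |wv wt| := abs_nonneg _
    rcases h6 with h6 | ⟨s', L', h6, h7, h8, h9⟩
    · rw [h6, babNil]
      show |wv (wmul wt _)| ≤ _
      rw [wv_wmul, abs_mul]
      refine mul_le_mul_of_nonneg_left (h5.trans ?_) h0
      exact le_self_pow₀ hM (by omega)
    · rw [h6]
      have h10 : 2 * (P.a + s' + L'.length + 1) ≤ M := by
        have : (s' : ℚ) + L'.length ≤ s + L.length := by exact_mod_cast h9
        linarith
      refine (ih s' L' h7 h10 _ _).trans ?_
      rw [wv_wmul, abs_mul, h8, mul_assoc]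
      refine mul_le_mul_of_nonneg_left ?_ h0
      rw [pow_succ, mul_comm (M ^ L.length)]
      exact mul_le_mul_of_nonneg_right h5 (pow_nonneg hM0 _)

theorem abs_three {P : Par} (hP : P.Ok) (E : List (ℕ × ℕ)) (i b K s : ℕ) (L : LL)
    (hn : (L.map Prod.fst).Nodup) {M : ℚ} (h2 : 2 ≤ M) (h3 : 2 * 2 ^ b ≤ M)
    (h4 : 2 * (P.a + s + L.length + 1) ≤ M) (l : List Bool) :
    |wv (trial P E i b K (3, (s, L)) l)| ≤ M ^ (L.length + 1) := by
  have h := babRun hP E i b h2 h3 K s L hn h4 (false, (1, 1)) l
  have e : wv (false, (1, 1)) = 1 := by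
    unfold wv
    simp
  rw [e, abs_one, one_mul] at h
  exact h

end Pool.Agent.DFP
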