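import Pool.Agent.DFP.Unb

set_option autoImplicit false

/-!
# DFP-Est: mean square error of the average of `k` trials

The value of `smp` is the sum `SXe` of the values of the blocks; its mean and its variance by `avg_take_drop`.
-/

namespace Pool.Agent.DFP

open Finset

open Pool.Agent.TFP (avg)

private theorem es_tadd {s : Tri} {w : Wt} (hs : s.2.2 ≠ 0) (hw : w.2.2 ≠ 0) :
    tv (tadd s w) = tv s + wv w ∧ (tadd s w).2.2 ≠ 0 := by
  have h1 : (s.2.2 : ℚ) ≠ 0 := Nat.cast_ne_zero.2 hs
  have h2 : (w.2.2 : ℚ) ≠ 0 := Nat.cast_ne_zero.2 hw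
  unfold tadd tv wv
  cases hb : w.1
  · rw [if_neg (by simp), if_neg (by simp)]
    refine ⟨?_, Nat.mul_ne_zero hs hw⟩
    push_cast
    field_simp
    ring
  · rw [if_pos rfl, if_pos rfl]
    refine ⟨?_, Nat.mul_ne_zero hs hw⟩
    push_cast
    field_simp
    ring

/-- sum of the values of `k` blocks of length `B` -/
private def SXe (B : ℕ) (X : List Bool → ℚ) : ℕ → List Bool → ℚ
  | 0, _ => 0
  | k + 1, l => X (l.take B) + SXe B X k (l.drop B)

private theorem es_smp (P : Par) (E : List (ℕ × ℕ)) (i b K : ℕ) (nd : Nd)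
    (hden : ∀ l, (trial P E i b K nd l).2.2 ≠ 0) (k : ℕ) : ∀ (l : List Bool) (s : Tri), s.2.2 ≠ 0 →
    tv (smp P E i b K nd k l s) = tv s + SXe (K * (b + 2)) (fun l => wv (trial P E i b K nd l)) k l ∧
      (smp P E i b K nd k l s).2.2 ≠ 0 := by
  induction k with
  | zero => intro l s hs; exact ⟨by simp [smp, SXe], hs⟩
  | succ k ih =>
    intro l s hs
    obtain ⟨h1, h2⟩ := es_tadd hs (hden (l.take (K * (b + 2))))
    obtain ⟨h3, h4⟩ := ih (l.drop (K * (b + 2))) _ h2
    refine ⟨?_, h4⟩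
    show tv (smp P E i b K nd k (l.drop (K * (b + 2))) (tadd s (trial P E i b K nd (l.take (K * (b + 2)))))) = _
    rw [h3, h1]
    simp only [SXe]
    ring

private theorem es_sq {t z : ℚ} (hz : 0 ≤ z) : (max t 0 - z) ^ 2 ≤ (t - z) ^ 2 := by
  rcases le_total t 0 with h | h
  · rw [max_eq_right h]
    nlinarith
  · rw [max_eq_left h]

private theorem es_fv (P : Par) (E : List (ℕ × ℕ)) (i b K k : ℕ) (nd : Nd) (hk : 0 < k)
    (hden : ∀ l, (trial P E i b K nd l).2.2 ≠ 0) (l : List Bool) :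
    fv (est P E i b K k nd l) =
      max (SXe (K * (b + 2)) (fun l => wv (trial P E i b K nd l)) k l / k) 0 := by
  obtain ⟨h1, h2⟩ := es_smp P E i b K nd hden k l (0, (0, 1)) one_ne_zero
  have h3 : tv ((0, (0, 1)) : Tri) = 0 := by simp [tv]
  rw [h3, zero_add] at h1
  rw [← h1]
  unfold fv est tv
  set s := smp P E i b K nd k l (0, (0, 1)) with hs
  have hk' : (0 : ℚ) < k := by exact_mod_cast hk
  have h4 : (0 : ℚ) < s.2.2 := by exact_mod_cast Nat.pos_of_ne_zero h2
  show ((s.1 - s.2.1 : ℕ) : ℚ) / ((k * s.2.2 : ℕ) : ℚ) = max (((s.1 : ℚ) - s.2.1) / s.2.2 / k) 0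
  rcases le_total s.2.1 s.1 with h | h
  · rw [Nat.cast_sub h, max_eq_left]
    · push_cast
      field_simp
    · have h5 : (s.2.1 : ℚ) ≤ s.1 := by exact_mod_cast h
      exact div_nonneg (div_nonneg (sub_nonneg.2 h5) h4.le) hk'.le
  · rw [Nat.sub_eq_zero_of_le h, max_eq_right]
    · simp
    · have h5 : (s.1 : ℚ) ≤ s.2.1 := by exact_mod_cast h
      exact div_nonpos_of_nonpos_of_nonneg
        (div_nonpos_of_nonpos_of_nonneg (sub_nonpos.2 h5) h4.le) hk'.le

private theorem es_split (B k : ℕ) (G : List Bool → List Bool → ℚ) :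
    avg ((k + 1) * B) (fun l => G (l.take B) (l.drop B)) =
      avg B (fun l => avg (k * B) (fun l' => G l l')) := by
  have e : (k + 1) * B = B + k * B := by ring
  rw [e]
  exact Pool.Agent.TFP.avg_take_drop B (k * B) G

private theorem es_mean (B : ℕ) (X : List Bool → ℚ) (k : ℕ) :
    avg (k * B) (fun l => SXe B X k l - k * avg B X) = 0 := by
  induction k with
  | zero =>
    simp only [SXe, Nat.cast_zero, zero_mul, sub_zero]
    exact Pool.Agent.TFP.avg_const _ _
  | succ k ih =>
    have h1 := es_split B k (fun l l' => (X l - avg B X) + (SXe B X k l' - k * avg B X))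
    have h2 : avg ((k + 1) * B) (fun l => SXe B X (k + 1) l - ((k + 1 : ℕ) : ℚ) * avg B X) =
        avg ((k + 1) * B) (fun l => (X (l.take B) - avg B X) + (SXe B X k (l.drop B) - k * avg B X)) := by
      refine Pool.Agent.TFP.avg_congr fun l _ => ?_
      simp only [SXe]
      push_cast
      ring
    rw [h2, h1]
    have h3 : ∀ l, avg (k * B) (fun l' => (X l - avg B X) + (SXe B X k l' - k * avg B X)) =
        X l - avg B X := by
      intro l
      rw [Pool.Agent.TFP.avg_add (k * B) (fun _ => X l - avg B X) (fun l' => SXe B X k l' - k * avg B X),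
        ih, Pool.Agent.TFP.avg_const, add_zero]
    simp only [h3]
    rw [Pool.Agent.TFP.avg_sub B X (fun _ => avg B X), Pool.Agent.TFP.avg_const, sub_self]

private theorem es_var (B : ℕ) (X : List Bool → ℚ) {M : ℚ} (hM : ∀ l, |X l| ≤ M) (k : ℕ) :
    avg (k * B) (fun l => (SXe B X k l - k * avg B X) ^ 2) ≤ k * M ^ 2 := by
  have hV : avg B (fun l => (X l - avg B X) ^ 2) ≤ M ^ 2 := by
    have h1 : avg B (fun l => (X l - avg B X) ^ 2) = avg B (fun l => X l ^ 2) - avg B X ^ 2 := by
      have h2 : avg B (fun l => (X l - avg B X) ^ 2) =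
          avg B (fun l => (X l ^ 2 - (2 * avg B X) * X l) + avg B X ^ 2) := by
        refine Pool.Agent.TFP.avg_congr fun l _ => ?_
        ring
      rw [h2, Pool.Agent.TFP.avg_add B (fun l => X l ^ 2 - (2 * avg B X) * X l) (fun _ => avg B X ^ 2),
        Pool.Agent.TFP.avg_sub B (fun l => X l ^ 2) (fun l => (2 * avg B X) * X l),
        Pool.Agent.TFP.avg_smul B (2 * avg B X) X, Pool.Agent.TFP.avg_const]
      ring
    have h3 : avg B (fun l => X l ^ 2) ≤ M ^ 2 := by
      calc avg B (fun l => X l ^ 2) ≤ avg B (fun _ => M ^ 2) := by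
            refine Pool.Agent.TFP.avg_mono fun l _ => ?_
            exact sq_le_sq' (abs_le.1 (hM l)).1 (abs_le.1 (hM l)).2
        _ = M ^ 2 := Pool.Agent.TFP.avg_const _ _
    rw [h1]
    have h4 := sq_nonneg (avg B X)
    linarith
  induction k with
  | zero =>
    simp only [SXe, Nat.cast_zero, zero_mul, sub_zero]
    rw [Pool.Agent.TFP.avg_const]
    norm_num
  | succ k ih =>
    have h1 := es_split B k (fun l l' => ((X l - avg B X) + (SXe B X k l' - k * avg B X)) ^ 2)
    have h2 : avg ((k + 1) * B) (fun l => (SXe B X (k + 1) l - ((k + 1 : ℕ) : ℚ) * avg B X) ^ 2) =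
        avg ((k + 1) * B) (fun l => ((X (l.take B) - avg B X) + (SXe B X k (l.drop B) - k * avg B X)) ^ 2) := by
      refine Pool.Agent.TFP.avg_congr fun l _ => ?_
      simp only [SXe]
      push_cast
      ring
    rw [h2, h1]
    have h3 : ∀ l, avg (k * B) (fun l' => ((X l - avg B X) + (SXe B X k l' - k * avg B X)) ^ 2) =
        (X l - avg B X) ^ 2 + avg (k * B) (fun l' => (SXe B X k l' - k * avg B X) ^ 2) := by
      intro l
      have h4 : avg (k * B) (fun l' => ((X l - avg B X) + (SXe B X k l' - k * avg B X)) ^ 2) =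
          avg (k * B) (fun l' => ((X l - avg B X) ^ 2 +
            (2 * (X l - avg B X)) * (SXe B X k l' - k * avg B X)) + (SXe B X k l' - k * avg B X) ^ 2) := by
        refine Pool.Agent.TFP.avg_congr fun l' _ => ?_
        ring
      rw [h4, Pool.Agent.TFP.avg_add (k * B) (fun l' => ((X l - avg B X) ^ 2 +
            (2 * (X l - avg B X)) * (SXe B X k l' - k * avg B X))) (fun l' => (SXe B X k l' - k * avg B X) ^ 2),
        Pool.Agent.TFP.avg_add (k * B) (fun _ => (X l - avg B X) ^ 2)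
          (fun l' => (2 * (X l - avg B X)) * (SXe B X k l' - k * avg B X)),
        Pool.Agent.TFP.avg_smul (k * B) (2 * (X l - avg B X)) (fun l' => SXe B X k l' - k * avg B X),
        es_mean, Pool.Agent.TFP.avg_const]
      ring
    simp only [h3]
    rw [Pool.Agent.TFP.avg_add B (fun l => (X l - avg B X) ^ 2)
      (fun _ => avg (k * B) (fun l' => (SXe B X k l' - k * avg B X) ^ 2)), Pool.Agent.TFP.avg_const]
    push_cast
    linarith

private theorem es_msq (B : ℕ) (X : List Bool → ℚ) {M z : ℚ} (hM : ∀ l, |X l| ≤ M) {k : ℕ} (hk : 0 < k) :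
    avg (k * B) (fun l => (SXe B X k l / k - z) ^ 2) ≤ M ^ 2 / k + (avg B X - z) ^ 2 := by
  have hk' : (0 : ℚ) < k := by exact_mod_cast hk
  have h4 : avg (k * B) (fun l => (SXe B X k l / k - z) ^ 2) =
      avg (k * B) (fun l => ((avg B X - z) ^ 2 +
        (2 * (avg B X - z) / k) * (SXe B X k l - k * avg B X)) +
          (1 / (k : ℚ) ^ 2) * (SXe B X k l - k * avg B X) ^ 2) := by
    refine Pool.Agent.TFP.avg_congr fun l _ => ?_
    field_simp
    ring
  rw [h4, Pool.Agent.TFP.avg_add (k * B) (fun l => (avg B X - z) ^ 2 +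
        (2 * (avg B X - z) / k) * (SXe B X k l - k * avg B X))
          (fun l => (1 / (k : ℚ) ^ 2) * (SXe B X k l - k * avg B X) ^ 2),
    Pool.Agent.TFP.avg_add (k * B) (fun _ => (avg B X - z) ^ 2)
      (fun l => (2 * (avg B X - z) / k) * (SXe B X k l - k * avg B X)),
    Pool.Agent.TFP.avg_smul (k * B) (2 * (avg B X - z) / k) (fun l => SXe B X k l - k * avg B X),
    Pool.Agent.TFP.avg_smul (k * B) (1 / (k : ℚ) ^ 2) (fun l => (SXe B X k l - k * avg B X) ^ 2),
    es_mean, Pool.Agent.TFP.avg_const]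
  have h5 := es_var B X hM k
  have h6 : 1 / (k : ℚ) ^ 2 * avg (k * B) (fun l => (SXe B X k l - k * avg B X) ^ 2) ≤
      1 / (k : ℚ) ^ 2 * (k * M ^ 2) := mul_le_mul_of_nonneg_left h5 (by positivity)
  have h7 : 1 / (k : ℚ) ^ 2 * (k * M ^ 2) = M ^ 2 / k := by field_simp
  linarith

theorem est_msq (P : Par) (E : List (ℕ × ℕ)) (i b K k : ℕ) (nd : Nd) (hk : 0 < k)
    (hden : ∀ l, (trial P E i b K nd l).2.2 ≠ 0) {z M : ℚ} (hz : 0 ≤ z)
    (hM : ∀ l, |wv (trial P E i b K nd l)| ≤ M) :
    avg (k * (K * (b + 2))) (fun l => (fv (est P E i b K k nd l) - z) ^ 2) ≤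
      M ^ 2 / k + (avg (K * (b + 2)) (fun l => wv (trial P E i b K nd l)) - z) ^ 2 := by
  refine le_trans (Pool.Agent.TFP.avg_mono fun l _ => ?_)
    (es_msq (K * (b + 2)) (fun l => wv (trial P E i b K nd l)) (z := z) hM hk)
  rw [es_fv P E i b K k nd hk hden l]
  exact es_sq hz

theorem est_den (P : Par) (E : List (ℕ × ℕ)) (i b K k : ℕ) (nd : Nd) (hk : 0 < k)
    (hden : ∀ l, (trial P E i b K nd l).2.2 ≠ 0) (l : List Bool) :
    (est P E i b K k nd l).2 ≠ 0 := by
  obtain ⟨-, h2⟩ := es_smp P E i b K nd hden k l (0, (0, 1)) one_ne_zero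
  exact Nat.mul_ne_zero hk.ne' h2

private theorem es_take (P : Par) (E : List (ℕ × ℕ)) (i b K : ℕ) (nd : Nd) (k : ℕ) :
    ∀ (l : List Bool) (s : Tri), smp P E i b K nd k (l.take (k * (K * (b + 2)))) s = smp P E i b K nd k l s := by
  induction k with
  | zero => intro l s; rfl
  | succ k ih =>
    intro l s
    have e1 : (l.take ((k + 1) * (K * (b + 2)))).take (K * (b + 2)) = l.take (K * (b + 2)) := by
      rw [List.take_take, min_eq_left]
      exact Nat.le_mul_of_pos_left _ (Nat.succ_pos k)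
    have e2 : (l.take ((k + 1) * (K * (b + 2)))).drop (K * (b + 2)) =
        (l.drop (K * (b + 2))).take (k * (K * (b + 2))) := by
      rw [List.drop_take]
      congr 1
      rw [Nat.succ_mul, Nat.add_sub_cancel]
    show smp P E i b K nd k ((l.take ((k + 1) * (K * (b + 2)))).drop (K * (b + 2)))
        (tadd s (trial P E i b K nd ((l.take ((k + 1) * (K * (b + 2)))).take (K * (b + 2))))) =
      smp P E i b K nd k (l.drop (K * (b + 2))) (tadd s (trial P E i b K nd (l.take (K * (b + 2)))))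
    rw [e1, e2, ih]

/-- the estimator only uses the first `k * (K * (b + 2))` bits -/
theorem est_take (P : Par) (E : List (ℕ × ℕ)) (i b K k : ℕ) (nd : Nd) (l : List Bool) :
    est P E i b K k nd (l.take (k * (K * (b + 2)))) = est P E i b K k nd l := by
  unfold est
  rw [es_take]

end Pool.Agent.DFP
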