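import Pool.Agent.DFP.LstB

set_option autoImplicit false

/-!
# DFP-Ini: the initial list
-/

namespace Pool.Agent.DFP

open Finset

private theorem iniFst (E : List (ℕ × ℕ)) (n i : ℕ) :
    (ini E n i).map Prod.fst = (List.range n).filter fun x => decide (i < x) := by
  unfold ini
  rw [List.map_map]
  exact List.map_id _

theorem vs_ini (E : List (ℕ × ℕ)) (n i : ℕ) : vs (ini E n i) = Ico (i + 1) n := by
  ext x
  unfold vs
  rw [List.mem_toFinset, iniFst, List.mem_filter, List.mem_range, Finset.mem_Ico]
  simp only [decide_eq_true_eq]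
  omega

theorem nd_ini (E : List (ℕ × ℕ)) (n i : ℕ) : ((ini E n i).map Prod.fst).Nodup := by
  rw [iniFst]
  exact List.nodup_range.filter _

theorem len_ini (E : List (ℕ × ℕ)) (n i : ℕ) : (ini E n i).length = n - (i + 1) := by
  rw [← card_vs (nd_ini E n i), vs_ini, Nat.card_Ico]

theorem cv_ini (y0 : ℚ) (E : List (ℕ × ℕ)) {n i x : ℕ} (hx : x ∈ Ico (i + 1) n) :
    cv y0 (ini E n i) x = wG y0 E i x := by
  have h1 : x ∈ vs (ini E n i) := by
    rw [vs_ini]
    exact hx
  have h2 : pres x (ini E n i) = true := (pres_iff x _).2 h1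
  have h3 : cd x (ini E n i) = true :: multL E i x := by
    unfold cd
    unfold pres at h2
    rcases h4 : fnd x (ini E n i) with _ | ⟨p, t⟩
    · rw [h4] at h2
      simp at h2
    · have h5 : p ∈ fnd x (ini E n i) := by
        rw [h4]
        exact List.mem_cons_self
      unfold fnd at h5
      obtain ⟨h6, h7⟩ := List.mem_filter.1 h5
      have h8 : p.1 = x := by simpa using h7
      unfold ini at h6
      obtain ⟨z, _, h9⟩ := List.mem_map.1 h6
      simp only [List.headD_cons]
      rw [← h9] at h8 ⊢
      have h10 : z = x := h8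
      rw [h10]
  unfold cv
  rw [h3]
  unfold cval wG mult
  simp

end Pool.Agent.DFP
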