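import Pool.Agent.DFP.GtB

set_option autoImplicit false

/-!
# DFP-Prd: the product formula and the lower bound of `hub`
-/

namespace Pool.Agent.DFP

open Finset

private theorem prdAux {a : ℚ} (ha : 0 ≤ a) {w : ℕ → ℕ → ℚ} (hw : Ok w) (n m : ℕ) :
    ∀ i, i + (m + 1) = n → hub (a + i) w (Ico (i + 1) n) (w i) =
      (∏ k ∈ Ico i n, gt (a + k) w (Ico (k + 1) n) (w k)) * ∏ k ∈ Ico (i + 1) n, (a + k) := by
  induction m with
  | zero =>
    intro i hi
    have hi' : i + 1 = n := by omega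
    have h1 : Ico (i + 1) n = ∅ := by
      rw [hi', Ico_self]
    have h2 : ∏ k ∈ Ico i n, gt (a + k) w (Ico (k + 1) n) (w k) =
        gt (a + i) w (Ico (i + 1) n) (w i) := by
      rw [prod_eq_prod_Ico_succ_bot (by omega), h1, prod_empty, mul_one]
    rw [h2, h1, prod_empty, mul_one]
    unfold gt
    rw [F_empty, div_one]
  | succ m ih =>
    intro i hi
    have hi' : i + 1 < n := by omega
    have hai : 0 ≤ a + (i : ℚ) := by
      have : (0 : ℚ) ≤ i := Nat.cast_nonneg i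
      linarith
    have hF : F (a + i + 1) w (Ico (i + 1) n) ≠ 0 := (F_pos (by linarith) hw _).ne'
    have h1 : hub (a + i) w (Ico (i + 1) n) (w i) =
        gt (a + i) w (Ico (i + 1) n) (w i) * F (a + i + 1) w (Ico (i + 1) n) := by
      unfold gt
      rw [div_mul_cancel₀ _ hF]
    have hmem : i + 1 ∈ Ico (i + 1) n := by
      rw [mem_Ico]
      omega
    have herase : (Ico (i + 1) n).erase (i + 1) = Ico (i + 1 + 1) n := by
      ext x
      rw [mem_erase, mem_Ico, mem_Ico]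
      omega
    have h2 := F_eq_hub (a + i + 1) hw.1 hmem
    rw [herase] at h2
    have h3 := ih (i + 1) (by omega)
    have hcast : a + ((i + 1 : ℕ) : ℚ) = a + i + 1 := by
      push_cast
      ring
    rw [hcast] at h3
    rw [h1, h2, h3, prod_eq_prod_Ico_succ_bot (a := i) (b := n) (by omega),
      prod_eq_prod_Ico_succ_bot (a := i + 1) (b := n) hi' (fun k => a + (k : ℚ)), hcast]
    ring

private theorem prdFac {a : ℚ} (ha : 0 ≤ a) {w : ℕ → ℕ → ℚ} (hw : Ok w) {n i : ℕ} (hi : i < n)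
    {D : ℚ} (hD : ∀ v < n, ∑ x ∈ (range n).erase v, w v x ≤ D) (hS : 6 * D ≤ n) :
    1 / 2 ≤ gt (a + i) w (Ico (i + 1) n) (w i) := by
  have hi0 : (0 : ℚ) ≤ i := Nat.cast_nonneg i
  refine gt_ge_half (a := a + i) (by linarith) hw (fun x => hw.2 i x) (D := D) ?_ ?_ ?_
  · refine le_trans ?_ (hD i hi)
    refine sum_le_sum_of_subset_of_nonneg ?_ fun x _ _ => (hw.2 i x).1
    intro x hx
    rw [mem_Ico] at hx
    rw [mem_erase, mem_range]
    omega
  · intro x hx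
    rw [mem_Ico] at hx
    refine le_trans ?_ (hD x hx.2)
    refine sum_le_sum_of_subset_of_nonneg ?_ fun z _ _ => (hw.2 x z).1
    intro z hz
    rw [mem_erase, mem_Ico] at hz
    rw [mem_erase, mem_range]
    omega
  · rcases Nat.lt_or_ge (i + 1) n with h | h
    · right
      rw [Nat.card_Ico, Nat.cast_sub h.le]
      have hn : ((i + 2 : ℕ) : ℚ) ≤ n := by exact_mod_cast h
      push_cast at hn ⊢
      linarith
    · left
      exact Ico_eq_empty (by omega)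

theorem hub_prod {a : ℚ} (ha : 0 ≤ a) {w : ℕ → ℕ → ℚ} (hw : Ok w) {n : ℕ} (hn : 0 < n) :
    hub a w (Ico 1 n) (w 0) = (∏ i ∈ range n, gt (a + i) w (Ico (i + 1) n) (w i)) *
      ∏ i ∈ Ico 1 n, (a + i) := by
  obtain ⟨m, rfl⟩ : ∃ m, n = m + 1 := ⟨n - 1, by omega⟩
  have h := prdAux ha hw (m + 1) m 0 (by omega)
  rw [Nat.cast_zero, add_zero, zero_add] at h
  rw [h, range_eq_Ico]

theorem hub_low {a : ℚ} (ha : 0 ≤ a) {w : ℕ → ℕ → ℚ} (hw : Ok w) {n : ℕ} (hn : 0 < n) {D : ℚ}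
    (hD : ∀ v < n, ∑ x ∈ (range n).erase v, w v x ≤ D) (hS : 6 * D ≤ n) :
    ((n - 1).factorial : ℚ) / 2 ^ n ≤ hub a w (Ico 1 n) (w 0) := by
  rw [hub_prod ha hw hn]
  have h1 : (1 / 2 : ℚ) ^ n ≤ ∏ i ∈ range n, gt (a + i) w (Ico (i + 1) n) (w i) := by
    have h2 : ∏ _i ∈ range n, (1 / 2 : ℚ) = (1 / 2) ^ n := by
      rw [prod_const, card_range]
    rw [← h2]
    refine prod_le_prod (fun i _ => by norm_num) fun i hi => ?_
    exact prdFac ha hw (mem_range.mp hi) hD hS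
  have h3 : ((n - 1).factorial : ℚ) ≤ ∏ i ∈ Ico 1 n, (a + i) := by
    obtain ⟨m, rfl⟩ : ∃ m, n = m + 1 := ⟨n - 1, by omega⟩
    rw [Nat.add_sub_cancel, ← prod_Ico_id_eq_factorial, Nat.cast_prod]
    refine prod_le_prod (fun i _ => Nat.cast_nonneg i) fun i _ => ?_
    linarith
  have h4 : ((n - 1).factorial : ℚ) / 2 ^ n = (1 / 2) ^ n * ((n - 1).factorial : ℚ) := by
    rw [div_pow, one_pow]
    ring
  rw [h4]
  have h5 : (0 : ℚ) ≤ ((n - 1).factorial : ℚ) := Nat.cast_nonneg _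
  exact mul_le_mul h1 h3 h5 ((by positivity : (0 : ℚ) ≤ (1 / 2) ^ n).trans h1)

/-- `1/2 ≤ gt` for all factors -/
theorem gt_fac {a : ℚ} (ha : 0 ≤ a) {w : ℕ → ℕ → ℚ} (hw : Ok w) {n i : ℕ} (hi : i < n) {D : ℚ}
    (hD : ∀ v < n, ∑ x ∈ (range n).erase v, w v x ≤ D) (hS : 6 * D ≤ n) :
    1 / 2 ≤ gt (a + i) w (Ico (i + 1) n) (w i) := by
  exact prdFac ha hw hi hD hS

end Pool.Agent.DFP
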