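import Pool.Agent.DFP.Defs
import Pool.Agent.TFP.Defs

set_option autoImplicit false

/-!
# DFP: the machine

A node stands for a number (`val`): a normalised hub, a ratio. `out` is the random expansion of a
node: a weight and a list of child nodes such that `val` is the mean of weight times the product of
the values of the children. `runA` expands the top node of a stack; the payoff is the product of the
weights if the stack is empty after `K` steps, `0` otherwise.
-/

namespace Pool.Agent.DFP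

open Finset

/-! ## The machine -/

/-- parameters: `a = A1 / A2`, `y = y1 / y2` -/
structure Par where
  A1 : ℕ
  A2 : ℕ
  y1 : ℕ
  y2 : ℕ

/-- conditions on the parameters -/
def Par.Ok (P : Par) : Prop := 0 < P.A2 ∧ P.y1 < P.y2

def Par.a (P : Par) : ℚ := P.A1 / P.A2

def Par.y (P : Par) : ℚ := P.y1 / P.y2

/-- value of a code: `[]` stands for `0`, a list of length `e + 1` for `y ^ e` -/
def cval (y : ℚ) (c : List Bool) : ℚ := if c = [] then 0 else y ^ (c.length - 1)

def cnum (P : Par) (c : List Bool) : ℕ := if c.isEmpty then 0 else P.y1 ^ c.tail.length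

def cden (P : Par) (c : List Bool) : ℕ := P.y2 ^ c.tail.length

/-- code of a product: the value of `c` times `y ^ |d|` -/
def cm (c d : List Bool) : List Bool := if c.isEmpty then [] else c ++ d

/-- a list of vertices with codes -/
abbrev LL := List (ℕ × List Bool)

/-- a node: type, vertex, list. Type 0: `gt (a + i)`; type 1: `GG (a + i + 1)`;
type 2: `QQ (a + i + 1) - 1`; type 3: `hub (a + v)`. -/
abbrev Nd := ℕ × (ℕ × LL)

/-- a signed fraction: (negative?, (numerator, denominator)) -/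
abbrev Wt := Bool × (ℕ × ℕ)

/-- value of a signed fraction -/
def wv (s : Wt) : ℚ := (if s.1 then -1 else 1) * ((s.2.1 : ℚ) / s.2.2)

/-- product of signed fractions -/
def wmul (s t : Wt) : Wt := (xor s.1 t.1, (s.2.1 * t.2.1, s.2.2 * t.2.2))

/-- the entries of the vertex `y` -/
def fnd (y : ℕ) (L : LL) : LL := L.filter fun p => p.1 == y

/-- is `y` a vertex of the list? -/
def pres (y : ℕ) (L : LL) : Bool := !(fnd y L).isEmpty

/-- the code of `y` -/
def cd (y : ℕ) (L : LL) : List Bool := ((fnd y L).headD (0, [])).2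

/-- remove `y` -/
def er (y : ℕ) (L : LL) : LL := L.filter fun p => !(p.1 == y)

/-- row of the child `y` (types 0 and 3) -/
def chg (E : List (ℕ × ℕ)) (y : ℕ) (L : LL) : LL :=
  (er y L).map fun p => (p.1, if decide (p.1 < y) then [] else cm p.2 (multL E y p.1))

/-- multiplier of the child `y` (type 2) -/
def chq (E : List (ℕ × ℕ)) (v y : ℕ) (L : LL) : LL :=
  (er y L).map fun p =>
    (p.1, if decide (p.1 < y) then cm p.2 (multL E v p.1) else true :: multL E v p.1)

/-- the multiplier `(w v)_{x > z}` -/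
def chw (E : List (ℕ × ℕ)) (v z : ℕ) (L : LL) : LL :=
  (er z L).map fun p => (p.1, if decide (p.1 < z) then [] else true :: multL E v p.1)

/-- the multiplier `1_{x > z}` -/
def ch1 (z : ℕ) (L : LL) : LL :=
  (er z L).map fun p => (p.1, if decide (p.1 < z) then [] else [true])

/-- the row of `u` -/
def rowL (E : List (ℕ × ℕ)) (u : ℕ) (L : LL) : LL := L.map fun p => (p.1, true :: multL E u p.1)

/-- outcome zero -/
def out0 : Wt × List Nd := ((false, (0, 1)), [])

/-- the random expansion of a node, `c < 4` and `y < 2 ^ b` are the random numbers -/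
def out (P : Par) (E : List (ℕ × ℕ)) (i b c y : ℕ) (nd : Nd) : Wt × List Nd :=
  if nd.1 = 0 then
    if c = 0 then ((false, (4, 1)), [])
    else if c = 1 ∧ pres y nd.2.2 = true then
      ((true, (4 * 2 ^ b * (cnum P (cd y nd.2.2) * P.A2),
        cden P (cd y nd.2.2) * (P.A1 + P.A2 * (i + nd.2.2.length)))),
        [(1, (y, er y nd.2.2)), (0, (0, chg E y nd.2.2))])
    else out0
  else if nd.1 = 1 then
    if c = 0 then ((false, (4, 1)), [])
    else if pres y nd.2.2 = true then
      if c = 1 then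
        ((false, (4 * 2 ^ b * (P.y1 ^ (multL E nd.2.1 y).length * P.A2),
          P.y2 ^ (multL E nd.2.1 y).length * (P.A1 + P.A2 * (i + 1 + nd.2.2.length)))), [nd])
      else if c = 2 then
        ((false, (4 * 2 ^ b * (P.y1 ^ (multL E nd.2.1 y).length * P.A2),
          P.y2 ^ (multL E nd.2.1 y).length * (P.A1 + P.A2 * (i + 1 + nd.2.2.length)))),
          [(2, (y, chw E nd.2.1 y nd.2.2)), nd])
      else
        ((true, (4 * 2 ^ b * P.A2, P.A1 + P.A2 * (i + 1 + nd.2.2.length))),
          [(2, (y, ch1 y nd.2.2)), nd])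
    else out0
  else if nd.1 = 2 then
    if pres y nd.2.2 = true ∧ c < 2 then
      ((false, (4 * 2 ^ b * ((cden P (cd y nd.2.2) - cnum P (cd y nd.2.2)) *
          (P.y1 ^ (multL E nd.2.1 y).length * P.A2)),
        cden P (cd y nd.2.2) *
          (P.y2 ^ (multL E nd.2.1 y).length * (P.A1 + P.A2 * (i + 1 + nd.2.2.length))))),
        if c = 0 then [(1, (nd.2.1, nd.2.2))]
        else [(2, (y, chq E nd.2.1 y nd.2.2)), (1, (nd.2.1, nd.2.2))])
    else out0
  else if c < 2 then
    if nd.2.2.isEmpty then ((false, (2, 1)), [])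
    else ((false, (2 * (P.A1 + P.A2 * (nd.2.1 + 1)), P.A2)),
      [(3, (nd.2.1 + 1, rowL E (nd.2.2.headD (0, [])).1 nd.2.2.tail))])
  else if pres y nd.2.2 = true then
    ((true, (2 * 2 ^ b * cnum P (cd y nd.2.2), cden P (cd y nd.2.2))),
      [(3, (nd.2.1, chg E y nd.2.2))])
  else out0

/-- a state: stack and weight -/
abbrev Stt := List Nd × Wt

/-- one step -/
def stepA (P : Par) (E : List (ℕ × ℕ)) (i b c y : ℕ) (s : Stt) : Stt :=
  if s.1.isEmpty then s
  else ((out P E i b c y (s.1.headD (0, (0, [])))).2 ++ s.1.tail,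
    wmul s.2 (out P E i b c y (s.1.headD (0, (0, [])))).1)

/-- `K` steps, each uses `b + 2` bits -/
def runA (P : Par) (E : List (ℕ × ℕ)) (i b : ℕ) : ℕ → List Bool → Stt → Stt
  | 0, _, s => s
  | K + 1, l, s => runA P E i b K (l.drop (b + 2))
      (stepA P E i b (Helper6.WB.val (l.take 2)) (Helper6.WB.val ((l.drop 2).take b)) s)

/-- payoff -/
def pay (s : Stt) : Wt := if s.1.isEmpty then s.2 else (false, (0, 1))

/-- one trial -/
def trial (P : Par) (E : List (ℕ × ℕ)) (i b K : ℕ) (nd : Nd) (l : List Bool) : Wt :=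
  pay (runA P E i b K l ([nd], (false, (1, 1))))

/-- the fraction `(p - m) / d` -/
abbrev Tri := ℕ × (ℕ × ℕ)

def tv (s : Tri) : ℚ := ((s.1 : ℚ) - s.2.1) / s.2.2

/-- sum -/
def tadd (s : Tri) (w : Wt) : Tri :=
  if w.1 then (s.1 * w.2.2, (s.2.1 * w.2.2 + w.2.1 * s.2.2, s.2.2 * w.2.2))
  else (s.1 * w.2.2 + w.2.1 * s.2.2, (s.2.1 * w.2.2, s.2.2 * w.2.2))

/-- sum of `k` trials -/
def smp (P : Par) (E : List (ℕ × ℕ)) (i b K : ℕ) (nd : Nd) : ℕ → List Bool → Tri → Tri
  | 0, _, s => s
  | k + 1, l, s => smp P E i b K nd k (l.drop (K * (b + 2)))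
      (tadd s (trial P E i b K nd (l.take (K * (b + 2)))))

/-- estimator with `k` trials, as a fraction -/
def est (P : Par) (E : List (ℕ × ℕ)) (i b K k : ℕ) (nd : Nd) (l : List Bool) : ℕ × ℕ :=
  ((smp P E i b K nd k l (0, (0, 1))).1 - (smp P E i b K nd k l (0, (0, 1))).2.1,
    k * (smp P E i b K nd k l (0, (0, 1))).2.2)

/-- the list of the vertices `i + 1, …, n - 1` with the row of `i` -/
def ini (E : List (ℕ × ℕ)) (n i : ℕ) : LL :=
  ((List.range n).filter fun x => decide (i < x)).map fun x => (x, true :: multL E i x)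

/-- the estimator of the factor `m`: `gt (a + m)`, times `a + m` if `m ≥ 1` -/
def fac (P : Par) (E : List (ℕ × ℕ)) (n b K k m : ℕ) (l : List Bool) : ℕ × ℕ :=
  ((if m = 0 then 1 else P.A1 + P.A2 * m) * (est P E m b K k (0, (0, ini E n m)) l).1,
    (if m = 0 then 1 else P.A2) * (est P E m b K k (0, (0, ini E n m)) l).2)

/-- product of the first `m` factors -/
def prA (P : Par) (E : List (ℕ × ℕ)) (n b K k : ℕ) : ℕ → List Bool → ℕ × ℕ
  | 0, _ => (1, 1)
  | m + 1, l =>
    ((fac P E n b K k m (l.take (k * (K * (b + 2))))).1 *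
        (prA P E n b K k m (l.drop (k * (K * (b + 2))))).1,
      (fac P E n b K k m (l.take (k * (K * (b + 2))))).2 *
        (prA P E n b K k m (l.drop (k * (K * (b + 2))))).2)

/-- value of an unsigned fraction -/
def fv (q : ℕ × ℕ) : ℚ := (q.1 : ℚ) / q.2

/-! ## Semantics of lists and nodes -/

/-- the vertices of a list -/
def vs (L : LL) : Finset ℕ := (L.map Prod.fst).toFinset

/-- the row of a list -/
def cv (y : ℚ) (L : LL) (x : ℕ) : ℚ := cval y (cd x L)

/-- the value of a node -/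
noncomputable def val (P : Par) (E : List (ℕ × ℕ)) (i : ℕ) (nd : Nd) : ℚ :=
  if nd.1 = 0 then gt (P.a + i) (wG P.y E) (vs nd.2.2) (cv P.y nd.2.2)
  else if nd.1 = 1 then GG (P.a + i + 1) (wG P.y E) nd.2.1 (vs nd.2.2)
  else if nd.1 = 2 then QQ (P.a + i + 1) (wG P.y E) nd.2.1 (vs nd.2.2) (cv P.y nd.2.2) - 1
  else hub (P.a + nd.2.1) (wG P.y E) (vs nd.2.2) (cv P.y nd.2.2)

/-- the potential of a node, `D` is the bound of the row sums -/
noncomputable def pot (P : Par) (E : List (ℕ × ℕ)) (D : ℚ) (nd : Nd) : ℚ :=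
  if nd.1 = 0 then 5 / 2
  else if nd.1 = 1 then 2
  else (∑ x ∈ vs nd.2.2, (1 - cv P.y nd.2.2 x) * wG P.y E nd.2.1 x) / (2 * D)

/-- the rows of the graph have sums at most `D` -/
def Rows (y : ℚ) (E : List (ℕ × ℕ)) (n : ℕ) (D : ℚ) : Prop :=
  ∀ v < n, ∑ x ∈ (range n).erase v, wG y E v x ≤ D

/-- valid nodes (types 0, 1, 2) with `k` remaining steps -/
def Vd (P : Par) (n i : ℕ) (D : ℚ) (S k : ℕ) (nd : Nd) : Prop :=
  (nd.2.2.map Prod.fst).Nodup ∧ vs nd.2.2 ⊆ range n ∧
    ((nd.1 = 0 ∧ ∑ x ∈ vs nd.2.2, cv P.y nd.2.2 x ≤ D ∧ S + k ≤ i + nd.2.2.length) ∨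
      ((nd.1 = 1 ∨ nd.1 = 2) ∧ nd.2.1 < n ∧ nd.2.1 ∉ vs nd.2.2 ∧
        S + k ≤ i + 1 + nd.2.2.length))

/-- the truncated expectation -/
noncomputable def eK (P : Par) (E : List (ℕ × ℕ)) (i b : ℕ) : ℕ → List Nd → ℚ
  | 0, st => if st = [] then 1 else 0
  | _ + 1, [] => 1
  | K + 1, nd :: st => (∑ y ∈ range (2 ^ b), ∑ c ∈ range 4,
      wv (out P E i b c y nd).1 * eK P E i b K ((out P E i b c y nd).2 ++ st)) / (4 * 2 ^ b)

end Pool.Agent.DFP
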