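import Pool.Agent.TFP.Avg
import Pool.Agent.DFP.MDefs

set_option autoImplicit false

/-!
# DFP-PrdM: products of independent estimators with small mean square error (abstract)

Means and second moments of the product, then Chebyshev around the product of the values.
-/

namespace Pool.Agent.DFP

open Finset

open Pool.Agent.TFP (avg prodB)
open Pool.Agent.TFP (avg_take_drop avg_smul avg_add avg_sub avg_const avg_mono)

private theorem prmA {n m : ℕ} {F G : List Bool → ℚ} :
    avg (n + m) (fun l => F (l.take n) * G (l.drop n)) = avg n F * avg m G := by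
  rw [avg_take_drop n m (fun a b => F a * G b)]
  simp only [avg_smul]
  have : (fun l => F l * avg m G) = fun l => avg m G * F l := by
    funext l; ring
  rw [this, avg_smul]; ring

private theorem prmMean (n : ℕ) (fs : List (List Bool → ℚ)) :
    avg (fs.length * n) (prodB n fs) = (fs.map (avg n)).prod := by
  induction fs with
  | nil => simp [prodB, avg]
  | cons f fs ih =>
    rw [List.length_cons, List.map_cons, List.prod_cons, ← ih,
      show (fs.length + 1) * n = n + fs.length * n by ring]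
    exact prmA

private theorem prmSq (n : ℕ) (fs : List (List Bool → ℚ)) :
    avg (fs.length * n) (fun l => prodB n fs l ^ 2) =
      (fs.map (fun f => avg n (fun l => f l ^ 2))).prod := by
  induction fs with
  | nil => simp [prodB, avg]
  | cons f fs ih =>
    rw [List.length_cons, List.map_cons, List.prod_cons, ← ih,
      show (fs.length + 1) * n = n + fs.length * n by ring]
    have : (fun l => prodB n (f :: fs) l ^ 2) =
        fun l => (f (l.take n)) ^ 2 * (prodB n fs (l.drop n)) ^ 2 := by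
      funext l
      rw [prodB, mul_pow]
    rw [this]
    exact prmA (F := fun l => f l ^ 2) (G := fun l => prodB n fs l ^ 2)

private theorem prmExp (n : ℕ) (f : List Bool → ℚ) (c : ℚ) :
    avg n (fun l => (f l - c) ^ 2) = avg n (fun l => f l ^ 2) - 2 * c * avg n f + c ^ 2 := by
  have e1 : (fun l => (f l - c) ^ 2) = fun l => (f l ^ 2 - (2 * c) * f l) + c ^ 2 := by
    funext l; ring
  rw [e1, avg_add, avg_sub, avg_smul, avg_const]

private theorem prmNn (n : ℕ) (F : List Bool → ℚ) (hF : ∀ l, 0 ≤ F l) : 0 ≤ avg n F := by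
  have := avg_mono (n := n) (F := fun _ => 0) (H := F) (fun l _ => hF l)
  rwa [avg_const] at this

private theorem prmOne (n : ℕ) (f : List Bool → ℚ) {z θ : ℚ} (hz : 0 < z) (hθ : 0 ≤ θ)
    (h : avg n (fun l => (f l - z) ^ 2) ≤ θ ^ 2 * z ^ 2) :
    z * (1 - θ) ≤ avg n f ∧ 0 ≤ avg n (fun l => f l ^ 2) ∧
      avg n (fun l => f l ^ 2) ≤ z ^ 2 * (1 + θ) ^ 2 := by
  have h1 := prmNn n (fun l => (f l - avg n f) ^ 2) (fun l => sq_nonneg _)
  have h2 := prmNn n (fun l => f l ^ 2) (fun l => sq_nonneg _)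
  rw [prmExp] at h h1
  have h3 : (avg n f - z) ^ 2 ≤ (θ * z) ^ 2 := by nlinarith
  obtain ⟨h4, h5⟩ := abs_le_of_sq_le_sq' h3 (by positivity)
  refine ⟨by linarith, h2, ?_⟩
  have h6 : z * avg n f ≤ z * (z + θ * z) := mul_le_mul_of_nonneg_left (by linarith) hz.le
  nlinarith

private theorem prmBounds (n : ℕ) {θ : ℚ} (hθ0 : 0 ≤ θ) (hθ1 : θ ≤ 1)
    (fs : List (List Bool → ℚ)) (zz : List ℚ)
    (h : List.Forall₂ (fun f z => 0 < z ∧ avg n (fun l => (f l - z) ^ 2) ≤ θ ^ 2 * z ^ 2) fs zz) :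
    0 < zz.prod ∧ zz.prod * (1 - θ) ^ fs.length ≤ (fs.map (avg n)).prod ∧
    0 ≤ (fs.map (fun f => avg n (fun l => f l ^ 2))).prod ∧
    (fs.map (fun f => avg n (fun l => f l ^ 2))).prod ≤
      zz.prod ^ 2 * (1 + θ) ^ (2 * fs.length) := by
  induction h with
  | nil => simp
  | @cons f z fs zz hfz _ ih =>
    obtain ⟨h0, h1⟩ := hfz
    obtain ⟨i1, i2, i3, i4⟩ := ih
    obtain ⟨j1, j2, j3⟩ := prmOne n f h0 hθ0 h1
    have hd : 0 ≤ 1 - θ := by linarith
    have hf : 0 ≤ avg n f := le_trans (mul_nonneg h0.le hd) j1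
    simp only [List.map_cons, List.prod_cons, List.length_cons]
    refine ⟨mul_pos h0 i1, ?_, mul_nonneg j2 i3, ?_⟩
    · calc z * zz.prod * (1 - θ) ^ (fs.length + 1)
          = (z * (1 - θ)) * (zz.prod * (1 - θ) ^ fs.length) := by ring
        _ ≤ avg n f * (fs.map (avg n)).prod :=
          mul_le_mul j1 i2 (by positivity) hf
    · calc avg n (fun l => f l ^ 2) * (fs.map (fun f => avg n (fun l => f l ^ 2))).prod
          ≤ (z ^ 2 * (1 + θ) ^ 2) * (zz.prod ^ 2 * (1 + θ) ^ (2 * fs.length)) :=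
          mul_le_mul j3 i4 i3 (by positivity)
        _ = (z * zz.prod) ^ 2 * (1 + θ) ^ (2 * (fs.length + 1)) := by ring

private theorem prmPow (ε : ℚ) (hε : 0 ≤ ε) (m : ℕ) (h : 2 * (m : ℚ) * ε ≤ 1) (j : ℕ)
    (hj : j ≤ m) : (1 + ε) ^ j ≤ 1 + 2 * j * ε := by
  induction j with
  | zero => simp
  | succ j ih =>
    have h1 := ih (by omega)
    have hj' : (j : ℚ) ≤ m := by exact_mod_cast (by omega : j ≤ m)
    have h2 : 2 * (j : ℚ) * ε ≤ 1 := by
      have : (j : ℚ) * ε ≤ m * ε := mul_le_mul_of_nonneg_right hj' hε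
      linarith
    rw [pow_succ]
    calc (1 + ε) ^ j * (1 + ε) ≤ (1 + 2 * j * ε) * (1 + ε) :=
          mul_le_mul_of_nonneg_right h1 (by linarith)
      _ ≤ 1 + 2 * ((j + 1 : ℕ) : ℚ) * ε := by
          push_cast
          nlinarith

theorem prod_msq (n : ℕ) (fs : List (List Bool → ℚ)) (zz : List ℚ) {θ η : ℚ}
    (h : List.Forall₂ (fun f z => 0 < z ∧ avg n (fun l => (f l - z) ^ 2) ≤ θ ^ 2 * z ^ 2) fs zz)
    (hθ : 0 ≤ θ) (hη : 0 < η) (hη1 : η ≤ 1) (h1 : 24 * fs.length * θ ≤ η ^ 2) :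
    3 / 4 ≤ avg (fs.length * n)
      (fun l => if |prodB n fs l - zz.prod| ≤ η * zz.prod then 1 else 0) := by
  rcases Nat.eq_zero_or_pos fs.length with hm0 | hm0
  · have e1 : fs = [] := List.length_eq_zero_iff.mp hm0
    subst e1
    have e2 : zz = [] := by
      cases h
      rfl
    subst e2
    have e3 : (fun l => if |prodB n [] l - ([] : List ℚ).prod| ≤ η * ([] : List ℚ).prod
        then (1 : ℚ) else 0) = fun _ => 1 := by
      funext l
      rw [if_pos]
      simp only [prodB, List.prod_nil, sub_self, abs_zero, mul_one]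
      exact hη.le
    rw [e3, avg_const]
    norm_num
  have hmq : (1 : ℚ) ≤ fs.length := by exact_mod_cast hm0
  have hη2 : η ^ 2 ≤ 1 := by nlinarith
  have hmθ : θ ≤ fs.length * θ := by nlinarith
  have hθ1 : θ ≤ 1 := by nlinarith
  obtain ⟨b1, b2, b3, b4⟩ := prmBounds n hθ hθ1 fs zz h
  set M := (fs.map (avg n)).prod with hM
  set Z := zz.prod with hZ
  have c1 : (1 + θ) ^ (2 * fs.length) ≤ 1 + 2 * ((2 * fs.length : ℕ) : ℚ) * θ :=
    prmPow θ hθ (2 * fs.length) (by push_cast; nlinarith) (2 * fs.length) le_rfl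
  have c2 : 1 - fs.length * θ ≤ (1 - θ) ^ fs.length := by
    have := one_add_mul_le_pow (a := -θ) (by linarith) fs.length
    calc 1 - fs.length * θ = 1 + (fs.length : ℚ) * (-θ) := by ring
      _ ≤ (1 + -θ) ^ fs.length := this
      _ = _ := by rw [← sub_eq_add_neg]
  have c3 : Z * (1 - fs.length * θ) ≤ M := (mul_le_mul_of_nonneg_left c2 b1.le).trans b2
  have c4 : avg (fs.length * n) (fun l => (prodB n fs l - Z) ^ 2) ≤ η ^ 2 / 4 * Z ^ 2 := by
    rw [prmExp, prmSq]
    have e0 : avg (fs.length * n) (fun l => prodB n fs l) = M := prmMean n fs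
    have e0' : avg (fs.length * n) (prodB n fs) = M := prmMean n fs
    rw [e0']
    have e2 : (fs.map (fun f => avg n (fun l => f l ^ 2))).prod ≤
        Z ^ 2 * (1 + 4 * fs.length * θ) := by
      refine b4.trans (mul_le_mul_of_nonneg_left (c1.trans ?_) (sq_nonneg _))
      push_cast
      linarith
    have e3 : 2 * Z * (Z * (1 - fs.length * θ)) ≤ 2 * Z * M :=
      mul_le_mul_of_nonneg_left c3 (by linarith)
    have e4 : Z ^ 2 * (6 * fs.length * θ) ≤ Z ^ 2 * (η ^ 2 / 4) :=
      mul_le_mul_of_nonneg_left (by linarith) (sq_nonneg _)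
    nlinarith
  have hηZ : 0 < η * Z := mul_pos hη b1
  have c5 : avg (fs.length * n) (fun l => 1 - (prodB n fs l - Z) ^ 2 / (η * Z) ^ 2) ≥ 3 / 4 := by
    have e1 : (fun l => 1 - (prodB n fs l - Z) ^ 2 / (η * Z) ^ 2) =
        fun l => 1 - (1 / (η * Z) ^ 2) * (prodB n fs l - Z) ^ 2 := by
      funext l; ring
    rw [e1, avg_sub (fs.length * n) (fun _ => 1), avg_const, avg_smul]
    have e2 : (1 / (η * Z) ^ 2) * avg (fs.length * n) (fun l => (prodB n fs l - Z) ^ 2) ≤
        (1 / (η * Z) ^ 2) * (η ^ 2 / 4 * Z ^ 2) :=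
      mul_le_mul_of_nonneg_left c4 (by positivity)
    have e3 : (1 / (η * Z) ^ 2) * (η ^ 2 / 4 * Z ^ 2) = 1 / 4 := by
      have : Z ≠ 0 := b1.ne'
      field_simp
    rw [e3] at e2
    linarith
  refine le_trans c5 (avg_mono (fun l _ => ?_))
  split_ifs with hc
  · have : 0 ≤ (prodB n fs l - Z) ^ 2 / (η * Z) ^ 2 := by positivity
    linarith
  · have d1 : η * Z < |prodB n fs l - Z| := lt_of_not_ge hc
    have d4 : (η * Z) ^ 2 ≤ (prodB n fs l - Z) ^ 2 := by
      rw [← sq_abs (prodB n fs l - Z)]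
      exact pow_le_pow_left₀ hηZ.le d1.le 2
    have d5 : 1 ≤ (prodB n fs l - Z) ^ 2 / (η * Z) ^ 2 := by
      rw [le_div_iff₀ (by positivity)]
      linarith
    linarith

end Pool.Agent.DFP
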