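import Pool.Agent.DFP.Inv
import Pool.Agent.DFP.Unb

set_option autoImplicit false

/-!
# DFP-Run: the payoff is at most `16 ^ K`; denominators
-/

namespace Pool.Agent.DFP

open Finset

private theorem run_gen {P : Par} (hP : P.Ok) (E : List (ℕ × ℕ)) (i b n S : ℕ) {D : ℚ}
    (hR : Rows P.y E n D) (hS0 : 0 < S) (hb : 2 ^ b ≤ 4 * S) (K : ℕ) :
    ∀ (st : List Nd) (wt : Wt) (l : List Bool), (∀ nd ∈ st, Vd P n i D S K nd) →
      |wv (pay (runA P E i b K l (st, wt)))| ≤ 16 ^ K * |wv wt| := by
  induction K with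
  | zero =>
    intro st wt l _
    rw [pow_zero, one_mul]
    show |wv (pay (st, wt))| ≤ |wv wt|
    unfold pay
    split_ifs
    · exact le_rfl
    · have h1 : wv (false, (0, 1)) = 0 := by
        unfold wv
        simp
      rw [h1, abs_zero]
      exact abs_nonneg _
  | succ K ih =>
    intro st wt l hst
    have h16 : (0 : ℚ) ≤ 16 ^ K := by positivity
    cases st with
    | nil =>
      have h1 := ih [] wt (l.drop (b + 2)) (fun nd h => absurd h List.not_mem_nil)
      refine le_trans (le_of_eq ?_) (h1.trans ?_)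
      · rfl
      · rw [pow_succ]
        have h2 := abs_nonneg (wv wt)
        nlinarith [mul_nonneg h16 h2]
    | cons nd st =>
      have hnd := hst nd List.mem_cons_self
      obtain ⟨h1, h2⟩ := out_inv hP E i b n S K (Helper6.WB.val (l.take 2))
        (Helper6.WB.val ((l.drop 2).take b)) hR hS0 hb hnd
      have h3 := ih ((out P E i b (Helper6.WB.val (l.take 2)) (Helper6.WB.val ((l.drop 2).take b)) nd).2 ++ st)
        (wmul wt (out P E i b (Helper6.WB.val (l.take 2)) (Helper6.WB.val ((l.drop 2).take b)) nd).1)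
        (l.drop (b + 2)) (by
          intro x hx
          rcases List.mem_append.1 hx with hx | hx
          · exact h1 x hx
          · exact Vd_mono (Nat.le_succ K) (hst x (List.mem_cons_of_mem _ hx)))
      refine le_trans (le_of_eq ?_) (h3.trans ?_)
      · rfl
      · rw [wv_wmul, abs_mul, pow_succ, mul_assoc]
        refine mul_le_mul_of_nonneg_left ?_ h16
        rw [mul_comm (16 : ℚ)]
        exact mul_le_mul_of_nonneg_left h2 (abs_nonneg _)

theorem run_abs {P : Par} (hP : P.Ok) (E : List (ℕ × ℕ)) (i b n S : ℕ) {D : ℚ}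
    (hR : Rows P.y E n D) (hS0 : 0 < S) (hb : 2 ^ b ≤ 4 * S) (K : ℕ) (nd : Nd)
    (h : Vd P n i D S K nd) (l : List Bool) : |wv (trial P E i b K nd l)| ≤ 16 ^ K := by
  have h1 := run_gen hP E i b n S hR hS0 hb K [nd] (false, (1, 1)) l (by
    intro x hx
    rw [List.mem_singleton] at hx
    rw [hx]
    exact h)
  have h2 : wv (false, (1, 1)) = 1 := by
    unfold wv
    simp
  rw [h2, abs_one, mul_one] at h1
  exact h1

private theorem cden_ne {P : Par} (hP : P.Ok) (c : List Bool) : cden P c ≠ 0 := by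
  unfold cden
  exact pow_ne_zero _ (by have := hP.2; omega)

private theorem afac_ne {P : Par} (hP : P.Ok) {m : ℕ} (hm : 0 < m) : P.A1 + P.A2 * m ≠ 0 := by
  have h := Nat.mul_pos hP.1 hm
  omega

private theorem pres_pos {y : ℕ} {L : LL} (h : pres y L = true) : 0 < L.length := by
  cases L with
  | nil =>
    exfalso
    have h1 : pres y [] = false := rfl
    rw [h1] at h
    exact Bool.false_ne_true h
  | cons a L => exact Nat.succ_pos _

private theorem out_den {P : Par} (hP : P.Ok) (E : List (ℕ × ℕ)) (i b c y : ℕ) (nd : Nd) :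
    (out P E i b c y nd).1.2.2 ≠ 0 := by
  have hy2 : ∀ m : ℕ, P.y2 ^ m ≠ 0 := fun m => pow_ne_zero _ (by have := hP.2; omega)
  obtain ⟨τ, v, L⟩ := nd
  unfold out out0
  simp only
  split_ifs with h0 hc hp h1 hc hp hc1 hc2 h2 hp hc hc3 he hp
  · exact one_ne_zero
  · exact mul_ne_zero (cden_ne hP _) (afac_ne hP (by have := pres_pos hp.2; omega))
  · exact one_ne_zero
  · exact one_ne_zero
  · exact mul_ne_zero (hy2 _) (afac_ne hP (by omega))
  · exact mul_ne_zero (hy2 _) (afac_ne hP (by omega))
  · exact afac_ne hP (by omega)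
  · exact one_ne_zero
  · exact mul_ne_zero (cden_ne hP _) (mul_ne_zero (hy2 _) (afac_ne hP (by omega)))
  · exact mul_ne_zero (cden_ne hP _) (mul_ne_zero (hy2 _) (afac_ne hP (by omega)))
  · exact one_ne_zero
  · exact one_ne_zero
  · have := hP.1
    show P.A2 ≠ 0
    omega
  · exact cden_ne hP _
  · exact one_ne_zero

private theorem den_gen {P : Par} (hP : P.Ok) (E : List (ℕ × ℕ)) (i b K : ℕ) :
    ∀ (st : List Nd) (wt : Wt) (l : List Bool), wt.2.2 ≠ 0 →
      (pay (runA P E i b K l (st, wt))).2.2 ≠ 0 := by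
  induction K with
  | zero =>
    intro st wt l h
    show (pay (st, wt)).2.2 ≠ 0
    unfold pay
    split_ifs
    · exact h
    · exact one_ne_zero
  | succ K ih =>
    intro st wt l h
    cases st with
    | nil => exact ih [] wt (l.drop (b + 2)) h
    | cons nd st =>
      exact ih ((out P E i b (Helper6.WB.val (l.take 2)) (Helper6.WB.val ((l.drop 2).take b)) nd).2 ++ st)
        (wmul wt (out P E i b (Helper6.WB.val (l.take 2)) (Helper6.WB.val ((l.drop 2).take b)) nd).1)
        (l.drop (b + 2)) (mul_ne_zero h (out_den hP E i b _ _ nd))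

theorem trial_den {P : Par} (hP : P.Ok) (E : List (ℕ × ℕ)) (i b K : ℕ) (nd : Nd) (l : List Bool) :
    (trial P E i b K nd l).2.2 ≠ 0 :=
  den_gen hP E i b K [nd] (false, (1, 1)) l one_ne_zero

end Pool.Agent.DFP
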