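import Pool.Agent.DFP.BEx
import Pool.Agent.DFP.BAb
import Pool.Agent.DFP.Run
import Pool.Agent.DFP.Est
import Pool.Agent.DFP.Ini
import Pool.Agent.DFP.Prd
import Pool.Agent.DFP.PrdM

set_option autoImplicit false

/-!
# DFP-RegB: regime B

The mean square error of the complete expansion of one node of type 3.
-/

namespace Pool.Agent.DFP

open Finset

open Pool.Agent.TFP (avg)

theorem estB_good {P : Par} (hP : P.Ok) (E : List (ℕ × ℕ)) (b n K k C : ℕ) {D θ η : ℚ}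
    (hR : Rows P.y E n D) (hn0 : 0 < n) (hn : n ≤ 2 ^ b) (hb : 2 ^ b ≤ 2 * n) (hSD : 6 * D ≤ n)
    (hk : 0 < k) (hK : n ≤ K)
    (hC : (2 * P.a + 4 * n) ^ n * 2 ^ n ≤ (C : ℚ) ^ n * ((n - 1).factorial : ℚ))
    (hθ : 0 ≤ θ) (hη : 0 < η) (hη1 : η ≤ 1) (h1 : 24 * θ ≤ η ^ 2)
    (h2 : ((C : ℚ) ^ n) ^ 2 ≤ θ ^ 2 * k) :
    3 / 4 ≤ avg (k * (K * (b + 2)))
      (fun l => if |fv (est P E 0 b K k (3, (0, ini E n 0)) l) -
          hub P.a (wG P.y E) (Ico 1 n) (wG P.y E 0)| ≤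
        η * hub P.a (wG P.y E) (Ico 1 n) (wG P.y E 0) then 1 else 0) := by
  obtain ⟨ha, hy0, hy1⟩ := par_bd hP
  have hok := wG_ok hy0 hy1.le E
  have hlow := hub_low ha hok hn0 hR hSD
  have hval : val P E 0 (3, (0, ini E n 0)) = hub P.a (wG P.y E) (Ico 1 n) (wG P.y E 0) := by
    have h3 : val P E 0 (3, (0, ini E n 0)) =
        hub (P.a + ((0 : ℕ) : ℚ)) (wG P.y E) (vs (ini E n 0)) (cv P.y (ini E n 0)) := by
      unfold val
      rw [if_neg (show ¬(3 = 0) by omega), if_neg (show ¬(3 = 1) by omega), if_neg (show ¬(3 = 2) by omega)]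
    rw [h3, Nat.cast_zero, add_zero, vs_ini]
    exact hub_congr _ _ fun x hx => cv_ini _ _ hx
  have hlen : (ini E n 0).length + 1 = n := by
    rw [len_ini]
    omega
  have hex : eK P E 0 b K [(3, (0, ini E n 0))] = hub P.a (wG P.y E) (Ico 1 n) (wG P.y E 0) := by
    rw [← hval]
    refine eK_three hP E 0 b K 0 (ini E n 0) (nd_ini E n 0) ?_ (by omega)
    rw [vs_ini]
    intro x hx
    rw [mem_Ico] at hx
    rw [mem_range]
    omega
  set z := hub P.a (wG P.y E) (Ico 1 n) (wG P.y E 0) with hz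
  have hfac : (0 : ℚ) < ((n - 1).factorial : ℚ) / 2 ^ n := by
    have h3 : (0 : ℚ) < ((n - 1).factorial : ℚ) := by exact_mod_cast Nat.factorial_pos _
    positivity
  have hz0 : 0 < z := lt_of_lt_of_le hfac hlow
  have hn1 : (1 : ℚ) ≤ n := by exact_mod_cast hn0
  have hM0 : (0 : ℚ) ≤ 2 * P.a + 4 * n := by linarith
  have habs : ∀ l, |wv (trial P E 0 b K (3, (0, ini E n 0)) l)| ≤ (2 * P.a + 4 * n) ^ n := by
    intro l
    have h3 := abs_three hP E 0 b K 0 (ini E n 0) (nd_ini E n 0) (M := 2 * P.a + 4 * n) (by linarith)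
      (by
        have h4 : (2 : ℚ) ^ b ≤ 2 * n := by exact_mod_cast hb
        linarith)
      (by
        have h4 : (((ini E n 0).length : ℕ) : ℚ) + 1 = n := by exact_mod_cast hlen
        rw [Nat.cast_zero]
        linarith) l
    rw [hlen] at h3
    exact h3
  have hmsq := est_msq P E 0 b K k (3, (0, ini E n 0)) hk (trial_den hP E 0 b K _) hz0.le habs
  rw [avg_trial, hex, sub_self, zero_pow two_ne_zero, add_zero] at hmsq
  have hkq : (0 : ℚ) < k := by exact_mod_cast hk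
  have hCz : (2 * P.a + 4 * n) ^ n ≤ (C : ℚ) ^ n * z := by
    have h3 : (2 * P.a + 4 * n) ^ n ≤ (C : ℚ) ^ n * (((n - 1).factorial : ℚ) / 2 ^ n) := by
      rw [← mul_div_assoc, le_div_iff₀ (by positivity)]
      exact hC
    refine h3.trans (mul_le_mul_of_nonneg_left hlow (by positivity))
  have hfin : ((2 * P.a + 4 * n) ^ n) ^ 2 / k ≤ θ ^ 2 * z ^ 2 := by
    rw [div_le_iff₀ hkq]
    calc ((2 * P.a + 4 * n) ^ n) ^ 2 ≤ ((C : ℚ) ^ n * z) ^ 2 :=
          pow_le_pow_left₀ (pow_nonneg hM0 n) hCz 2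
      _ = ((C : ℚ) ^ n) ^ 2 * z ^ 2 := by ring
      _ ≤ (θ ^ 2 * k) * z ^ 2 := mul_le_mul_of_nonneg_right h2 (sq_nonneg _)
      _ = θ ^ 2 * z ^ 2 * k := by ring
  have hP2 := prod_msq (k * (K * (b + 2))) [fun l => fv (est P E 0 b K k (3, (0, ini E n 0)) l)] [z]
    (θ := θ) (η := η) (List.Forall₂.cons ⟨hz0, hmsq.trans hfin⟩ List.Forall₂.nil) hθ hη hη1
    (by
      rw [List.length_singleton, Nat.cast_one, mul_one]
      exact h1)
  rw [List.length_singleton, one_mul] at hP2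
  refine hP2.trans (le_of_eq ?_)
  refine Pool.Agent.TFP.avg_congr fun l _ => ?_
  have h3 : Pool.Agent.TFP.prodB (k * (K * (b + 2))) [fun l => fv (est P E 0 b K k (3, (0, ini E n 0)) l)] l =
      fv (est P E 0 b K k (3, (0, ini E n 0)) l) := by
    show fv (est P E 0 b K k (3, (0, ini E n 0)) (l.take (k * (K * (b + 2))))) * 1 = _
    rw [mul_one, est_take]
  rw [h3, List.prod_singleton]

end Pool.Agent.DFP
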