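import Pool.Agent.DFP.RegA
import Pool.Agent.DFP.RegB
import Pool.Agent.DFP.Num
import Pool.Agent.DFP.BNum
import Pool.Agent.DFP.Cnn
import Pool.Agent.DFP.TutX
import Pool.Agent.DFP.FpA
import Pool.Agent.TFP.Num
import Pool.Agent.Helper22.Enum

set_option autoImplicit false

/-!
# DFP-FinA: the assembly, first part
-/

namespace Pool.Agent.DFP

open Finset Pool.Agent.Helper47.TR
open Pool.Agent.TFP (avg avg_take avg_count HasFPRAS Close close_of lps)

/-- the class of the graphs: all row sums are at most `δ n` -/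
def Dn (y δ : ℚ) (G : MG) : Prop :=
  ∀ v < G.1.length, ∑ u ∈ (range G.1.length).erase v, y ^ mult G.2 v u ≤ δ * G.1.length

theorem par_ex {x y : ℚ} (hx : 1 ≤ x) (hy0 : 0 ≤ y) (hy1 : y < 1) :
    ∃ P : Par, P.Ok ∧ P.a = (x - 1) * (1 - y) ∧ P.y = y := by
  have ha : 0 ≤ (x - 1) * (1 - y) := mul_nonneg (by linarith) (by linarith)
  refine ⟨⟨((x - 1) * (1 - y)).num.toNat, ((x - 1) * (1 - y)).den, y.num.toNat, y.den⟩, ?_, ?_, ?_⟩
  · refine ⟨Rat.den_pos _, ?_⟩
    have h1 : y.num < y.den := by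
      have h2 : (y.num : ℚ) / y.den < 1 := by rw [Rat.num_div_den]; exact hy1
      rw [div_lt_one (by exact_mod_cast y.den_pos)] at h2
      exact_mod_cast h2
    show y.num.toNat < y.den
    have h3 : 0 ≤ y.num := Rat.num_nonneg.mpr hy0
    omega
  · show ((((x - 1) * (1 - y)).num.toNat : ℕ) : ℚ) / (((x - 1) * (1 - y)).den : ℚ) = _
    have h3 : 0 ≤ ((x - 1) * (1 - y)).num := Rat.num_nonneg.mpr ha
    have h4 : ((((x - 1) * (1 - y)).num.toNat : ℕ) : ℚ) = (((x - 1) * (1 - y)).num : ℚ) := by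
      have : ((((x - 1) * (1 - y)).num.toNat : ℕ) : ℤ) = ((x - 1) * (1 - y)).num :=
        Int.toNat_of_nonneg h3
      exact_mod_cast congrArg (fun z : ℤ => (z : ℚ)) this
    rw [h4, Rat.num_div_den]
  · show ((y.num.toNat : ℕ) : ℚ) / (y.den : ℚ) = _
    have h3 : 0 ≤ y.num := Rat.num_nonneg.mpr hy0
    have h4 : ((y.num.toNat : ℕ) : ℚ) = (y.num : ℚ) := by
      have : ((y.num.toNat : ℕ) : ℤ) = y.num := Int.toNat_of_nonneg h3
      exact_mod_cast congrArg (fun z : ℤ => (z : ℚ)) this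
    rw [h4, Rat.num_div_den]

open Classical in
/-- from the average to the count -/
theorem finish {nb M : ℕ} (hM : M ≤ nb) (q : List Bool → ℕ × ℕ) (hq : ∀ l, q (l.take M) = q l)
    (hden : ∀ l, (q l).2 ≠ 0) {z T η : ℚ} (N : ℕ) (hη : η = 1 / (2 * (N + 1)))
    (hz : 0 ≤ z) (hgood : 3 / 4 ≤ avg M (fun l => if |fv (q l) - z| ≤ η * z then 1 else 0))
    (c1 c2 : ℕ) (hc2 : c2 ≠ 0) (hT : T = c1 / c2 * z) (A : List Bool → ℤ × ℕ)
    (hA : ∀ l, A l = (((c1 * (q l).1 : ℕ) : ℤ), c2 * (q l).2)) :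
    (3 / 4 : ℚ) * 2 ^ nb ≤ (Finset.univ.filter fun r : Fin nb → Bool =>
      (A (List.ofFn r)).2 ≠ 0 ∧ Close (1 / (N + 1)) T
        ((A (List.ofFn r)).1 / (A (List.ofFn r)).2)).card := by
  rw [← avg_take hM] at hgood
  simp only [hq] at hgood
  rw [avg_count, le_div_iff₀ (by positivity), Finset.sum_boole] at hgood
  refine le_trans hgood ?_
  have hc2' : (0 : ℚ) < c2 := by exact_mod_cast Nat.pos_of_ne_zero hc2
  have hT0 : 0 ≤ T := by rw [hT]; positivity
  refine (Nat.cast_le (α := ℚ)).2 (Finset.card_le_card ?_)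
  intro r hr
  rw [Finset.mem_filter] at hr ⊢
  refine ⟨hr.1, ?_⟩
  rw [hA]
  refine ⟨Nat.mul_ne_zero hc2 (hden _), close_of hT0 N ?_⟩
  have h1 : (((c1 * (q (List.ofFn r)).1 : ℕ) : ℤ) : ℚ) / ((c2 * (q (List.ofFn r)).2 : ℕ) : ℚ) =
      c1 / c2 * fv (q (List.ofFn r)) := by
    unfold fv
    push_cast
    rw [mul_div_mul_comm]
  rw [h1, hT, ← mul_sub, abs_mul, abs_of_nonneg (by positivity : (0 : ℚ) ≤ c1 / c2)]
  calc (c1 : ℚ) / c2 * |fv (q (List.ofFn r)) - z| ≤ c1 / c2 * (η * z) :=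
        mul_le_mul_of_nonneg_left hr.2 (by positivity)
    _ = 1 / (2 * (N + 1)) * (c1 / c2 * z) := by rw [hη]; ring

theorem tt_le (G : MG) (N : List Bool) :
    tt (G, N) ≤ (N487b59b3.bitEncode (G, N)).length + 2 := by
  show tt (G, N) ≤ Helper22.sz (G, N) + 2
  have h1 : Helper22.sz (G, N) = 2 * Helper22.sz G + 1 + Helper22.sz N := Helper22.sz_pair G N
  have h2 : Helper22.sz G = 2 * Helper22.sz G.1 + 1 + Helper22.sz G.2 := Helper22.sz_pair G.1 G.2
  have h3 := Helper22.length_le_sz G.2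
  have h4 := Helper22.length_le_sz N
  have h6 := Helper22.length_le_sz G.1
  have h5 : tt (G, N) = G.1.length + G.2.length + N.length + 2 := rfl
  omega

theorem size_le_self' (n : ℕ) : Nat.size n ≤ n := by
  rw [Nat.size_le]
  exact Nat.lt_two_pow_self

theorem tutte_zero {G : MG} (hG : Valid G) (hn : G.1.length = 0) (x y : ℚ) :
    tutte x y G = 1 := by
  have hE : G.2 = [] := by
    rcases hE : G.2 with _ | ⟨e, l⟩
    · rfl
    · exfalso
      have := hG e (by rw [hE]; simp)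
      omega
  have hc : ∀ A : Finset (Fin G.2.length), comps G A = 0 := by
    intro A
    have h := comps_le G A
    omega
  unfold tutte
  have hE' : G.2.length = 0 := by rw [hE]; rfl
  have : IsEmpty (Fin G.2.length) := by rw [hE']; infer_instance
  rw [Fintype.sum_unique]
  rw [hc, hc]
  have : (default : Finset (Fin G.2.length)).card = 0 := by
    rw [Finset.card_eq_zero]
    exact Subsingleton.elim _ _
  rw [this]
  simp

theorem pref_eq {P : Par} (hP : P.Ok) (G : MG) :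
    ((prN P G : ℕ) : ℚ) / ((prD P G : ℕ) : ℚ) =
      P.y ^ (lps G.2).length * (1 / (1 - P.y)) ^ (G.1.length - 1) ∧ prD P G ≠ 0 := by
  obtain ⟨-, h2⟩ := hP
  have hy2 : 0 < P.y2 := lt_of_le_of_lt (Nat.zero_le _) h2
  have hy2' : (0 : ℚ) < P.y2 := by exact_mod_cast hy2
  have hd : ((P.y2 - P.y1 : ℕ) : ℚ) = (P.y2 : ℚ) - P.y1 := Nat.cast_sub h2.le
  have hd0 : (0 : ℚ) < (P.y2 : ℚ) - P.y1 := by
    have : (P.y1 : ℚ) < P.y2 := by exact_mod_cast h2
    linarith
  constructor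
  · unfold prN prD
    push_cast [hd]
    rw [mul_div_mul_comm, ← div_pow, ← div_pow]
    congr 1
    congr 1
    unfold Par.y
    rw [div_eq_div_iff (by positivity) (by
      have : (1 : ℚ) - P.y1 / P.y2 = (P.y2 - P.y1) / P.y2 := by field_simp
      rw [this]; positivity)]
    field_simp
  · unfold prD
    have : 0 < P.y2 - P.y1 := by omega
    positivity

theorem bitsA (k0 n1 e t b n ℓ : ℕ) (ht : t ≤ ℓ + 2) (hn : n ≤ t) (hb : b ≤ n) (h2 : 2 ≤ t) :
    n * (t ^ e * (k0 * Nat.size t * (b + 2))) ≤ 8 * (n1 + 1) * (k0 + 1) * (ℓ + 2) ^ (e + 4) := by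
  have hs := size_le_self' t
  have h1 : b + 2 ≤ 2 * t := by omega
  have h3 : k0 * Nat.size t ≤ (k0 + 1) * t := Nat.mul_le_mul (by omega) hs
  calc n * (t ^ e * (k0 * Nat.size t * (b + 2))) ≤ t * (t ^ e * ((k0 + 1) * t * (2 * t))) := by
        gcongr
    _ = 2 * (k0 + 1) * t ^ (e + 3) := by ring
    _ ≤ 2 * (k0 + 1) * t ^ (e + 4) := by
        apply Nat.mul_le_mul_left
        exact Nat.pow_le_pow_right (by omega) (by omega)
    _ ≤ 8 * (n1 + 1) * (k0 + 1) * (ℓ + 2) ^ (e + 4) := by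
        apply Nat.mul_le_mul _ (Nat.pow_le_pow_left ht _)
        apply Nat.mul_le_mul_right
        omega

theorem bitsB (k0 n1 e t b n ℓ : ℕ) (ht : t ≤ ℓ + 2) (hn : n ≤ t) (hb : b ≤ n) (h2 : 2 ≤ t) :
    t ^ e * (n1 * (k0 * Nat.size t + 1) * (b + 2)) ≤
      8 * (n1 + 1) * (k0 + 1) * (ℓ + 2) ^ (e + 4) := by
  have hs := size_le_self' t
  have h1 : b + 2 ≤ 2 * t := by omega
  have h3 : k0 * Nat.size t + 1 ≤ (k0 + 1) * t := by
    have := Nat.mul_le_mul_left k0 hs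
    nlinarith
  calc t ^ e * (n1 * (k0 * Nat.size t + 1) * (b + 2))
      ≤ t ^ e * ((n1 + 1) * ((k0 + 1) * t) * (2 * t)) := by
        gcongr
        omega
    _ = 2 * (n1 + 1) * (k0 + 1) * t ^ (e + 2) := by ring
    _ ≤ 2 * (n1 + 1) * (k0 + 1) * t ^ (e + 4) := by
        apply Nat.mul_le_mul_left
        exact Nat.pow_le_pow_right (by omega) (by omega)
    _ ≤ 8 * (n1 + 1) * (k0 + 1) * (ℓ + 2) ^ (e + 4) := by
        apply Nat.mul_le_mul _ (Nat.pow_le_pow_left ht _)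
        apply Nat.mul_le_mul_right
        apply Nat.mul_le_mul_right
        omega

theorem size_bd (n : ℕ) : n ≤ 2 ^ Nat.size n ∧ (0 < n → 2 ^ Nat.size n ≤ 2 * n) := by
  constructor
  · exact (Nat.lt_size_self n).le
  · intro hn
    have h1 : 0 < Nat.size n := Nat.size_pos.mpr hn
    have h2 : ¬ n < 2 ^ (Nat.size n - 1) := by
      intro h
      have := Nat.size_le.mpr h
      omega
    have h3 : 2 ^ Nat.size n = 2 * 2 ^ (Nat.size n - 1) := by
      rw [← pow_succ']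
      congr 1
      omega
    omega

theorem theta_ineq (t n m : ℕ) (h2 : 2 ≤ t) (hn : n ≤ t) (hm : m + 1 ≤ t) :
    24 * (n : ℚ) * (1 / (96 * (t : ℚ) ^ 3)) ≤ (1 / (2 * ((m : ℚ) + 1))) ^ 2 := by
  have ht : (0 : ℚ) < t := by
    have : 0 < t := by omega
    exact_mod_cast this
  have hn' : (n : ℚ) ≤ t := by exact_mod_cast hn
  have hm' : (m : ℚ) + 1 ≤ t := by exact_mod_cast hm
  have hm0 : (0 : ℚ) < (m : ℚ) + 1 := by positivity
  calc 24 * (n : ℚ) * (1 / (96 * (t : ℚ) ^ 3)) ≤ 24 * (t : ℚ) * (1 / (96 * (t : ℚ) ^ 3)) := by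
        gcongr
    _ = (1 / (2 * (t : ℚ))) ^ 2 := by
        field_simp
        norm_num
    _ ≤ (1 / (2 * ((m : ℚ) + 1))) ^ 2 := by
        gcongr

end Pool.Agent.DFP
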