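import Pool.Agent.DFP.Val3

set_option autoImplicit false

/-!
# DFP-BEx: nodes of type 3 are expanded completely
-/

namespace Pool.Agent.DFP

open Finset

private theorem bex_out (P : Par) (E : List (ℕ × ℕ)) (i b c y v : ℕ) (L : LL) :
    out P E i b c y (3, (v, L)) =
      if c < 2 then
        if L.isEmpty then ((false, (2, 1)), [])
        else ((false, (2 * (P.A1 + P.A2 * (v + 1)), P.A2)),
          [(3, (v + 1, rowL E (L.headD (0, [])).1 L.tail))])
      else if pres y L = true then
        ((true, (2 * 2 ^ b * cnum P (cd y L), cden P (cd y L))), [(3, (v, chg E y L))])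
      else out0 := rfl

private theorem bex_nil (P : Par) (E : List (ℕ × ℕ)) (i b K : ℕ) : eK P E i b K [] = 1 := by
  cases K
  · unfold eK
    rw [if_pos rfl]
  · unfold eK
    rfl

theorem eK_three {P : Par} (hP : P.Ok) (E : List (ℕ × ℕ)) (i b : ℕ) (K s : ℕ) (L : LL)
    (hn : (L.map Prod.fst).Nodup) (hb : vs L ⊆ range (2 ^ b)) (hK : L.length + 1 ≤ K) :
    eK P E i b K [(3, (s, L))] = val P E i (3, (s, L)) := by
  induction K generalizing s L with
  | zero => omega
  | succ K ih =>
    have hu : eK P E i b (K + 1) [(3, (s, L))] = (∑ y ∈ range (2 ^ b), ∑ c ∈ range 4,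
        wv (out P E i b c y (3, (s, L))).1 *
          eK P E i b K ((out P E i b c y (3, (s, L))).2 ++ [])) / (4 * 2 ^ b) := rfl
    rw [hu, val3 hP E i b s hn hb]
    congr 1
    refine sum_congr rfl fun y _ => sum_congr rfl fun c _ => ?_
    congr 1
    rw [List.append_nil, bex_out]
    by_cases hc : c < 2
    · rw [if_pos hc]
      rcases L with _ | ⟨p, L'⟩
      · rw [if_pos (by rfl)]
        simp only [List.map_nil, List.prod_nil]
        exact bex_nil P E i b K
      · rw [if_neg (by simp)]
        simp only [List.headD_cons, List.tail_cons, List.map_cons, List.map_nil, List.prod_cons,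
          List.prod_nil, mul_one]
        rw [List.map_cons, List.nodup_cons] at hn
        refine ih (s + 1) (rowL E p.1 L') (nd_rowL E hn.2 _) ?_ ?_
        · rw [vs_rowL]
          refine Finset.Subset.trans ?_ hb
          unfold vs
          rw [List.map_cons, List.toFinset_cons]
          exact subset_insert _ _
        · rw [(len_ch E p.1 0 L').2.2.2.2]
          rw [List.length_cons] at hK
          omega
    · rw [if_neg hc]
      by_cases hy : pres y L = true
      · rw [if_pos hy]
        simp only [List.map_cons, List.map_nil, List.prod_cons, List.prod_nil, mul_one]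
        refine ih s (chg E y L) (nd_chg E hn y) ?_ ?_
        · rw [vs_chg]
          exact (erase_subset _ _).trans hb
        · rw [(len_ch E 0 y L).1]
          have h1 := len_er hn ((pres_iff y L).1 hy)
          omega
      · rw [if_neg hy]
        exact bex_nil P E i b K

end Pool.Agent.DFP
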