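import Pool.Agent.DFP.QMax

set_option autoImplicit false

/-!
# DFP-Bnd: bounds of `GG` and `QQ - 1`, from `AA_ge'`, `QQ_step` and `QQ_max`
-/

namespace Pool.Agent.DFP

open Finset

theorem GG_bd {b : ℚ} (hb : 0 < b) {w : ℕ → ℕ → ℚ} (hw : Ok w) {v : ℕ} {J : Finset ℕ}
    {D : ℚ} (hD : ∑ z ∈ J, w v z ≤ D) (hS : 6 * D ≤ b + J.card) :
    0 ≤ GG b w v J ∧ GG b w v J ≤ 2 := by
  have h1 := AA_ge' hb hw hD
  have h2 := AA_pos hb hw v J
  have h3 : (0 : ℚ) ≤ J.card := Nat.cast_nonneg _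
  unfold GG
  refine ⟨div_nonneg (by linarith) h2.le, ?_⟩
  rw [div_le_iff₀ h2]
  linarith

private theorem Ok1.row {w : ℕ → ℕ → ℚ} (hw : Ok w) (v : ℕ) : Ok1 (w v) := fun x => hw.2 v x

private theorem Ok1.mul {s t : ℕ → ℚ} (hs : Ok1 s) (ht : Ok1 t) : Ok1 (fun x => s x * t x) :=
  fun x => ⟨mul_nonneg (hs x).1 (ht x).1, mul_le_one₀ (hs x).2 (ht x).1 (ht x).2⟩

private theorem Ok1.nuQ {w : ℕ → ℕ → ℚ} (hw : Ok w) (v : ℕ) {l : ℕ → ℚ} (hl : Ok1 l) (y : ℕ) :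
    Ok1 (nuQ w v l y) := by
  intro x
  have h1 : 0 ≤ (if x < y then l x else 1) ∧ (if x < y then l x else (1 : ℚ)) ≤ 1 := by
    by_cases hx : x < y
    · rw [if_pos hx]
      exact hl x
    · rw [if_neg hx]
      exact ⟨zero_le_one, le_rfl⟩
  unfold Pool.Agent.DFP.nuQ
  exact ⟨mul_nonneg (hw.2 v x).1 h1.1, mul_le_one₀ (hw.2 v x).2 h1.1 h1.2⟩

private theorem QQ_nonneg {b : ℚ} (hb : 0 ≤ b) {w : ℕ → ℕ → ℚ} (hw : Ok w) (v : ℕ) (J : Finset ℕ)
    {l : ℕ → ℚ} (hl : Ok1 l) : 0 ≤ QQ b w v J l :=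
  div_nonneg (hub_nonneg hb hw J (Ok1.mul hl (Ok1.row hw v))) (hub_nonneg hb hw J (Ok1.row hw v))

theorem QQ_bd {b : ℚ} (hb : 1 ≤ b) {w : ℕ → ℕ → ℚ} (hw : Ok w) {v : ℕ} {J : Finset ℕ}
    (hv : v ∉ J) {l : ℕ → ℚ} (hl : Ok1 l) {D : ℚ}
    (hD : ∀ x ∈ insert v J, ∑ z ∈ (insert v J).erase x, w x z ≤ D)
    (hS : 6 * D + 2 ≤ b + J.card) :
    0 ≤ QQ b w v J l - 1 ∧ QQ b w v J l - 1 ≤ (∑ x ∈ J, (1 - l x) * w v x) / (2 * D) := by
  have hb0 : 0 < b := by linarith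
  have h1 : ∑ z ∈ J, w v z ≤ D := by
    have h := hD v (Finset.mem_insert_self v J)
    rwa [Finset.erase_insert hv] at h
  have hD0 : 0 ≤ D := le_trans (Finset.sum_nonneg fun z _ => (hw.2 v z).1) h1
  have hA := AA_ge' hb0 hw h1
  have hA0 := AA_pos hb0 hw v J
  have hcard : (0 : ℚ) ≤ J.card := Nat.cast_nonneg _
  have hS0 : 0 ≤ ∑ y ∈ J, (1 - l y) * w v y :=
    Finset.sum_nonneg fun y _ => mul_nonneg (by linarith [(hl y).2]) (hw.2 v y).1
  have hS1 : ∑ y ∈ J, (1 - l y) * w v y ≤ D :=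
    le_trans (Finset.sum_le_sum fun y _ => by
      have h3 := (hl y).1
      have h4 := (hw.2 v y).1
      nlinarith) h1
  have hG : GG b w v J / (b + J.card) = 1 / AA b w v J := by
    unfold GG
    have h2 : b + (J.card : ℚ) ≠ 0 := by linarith
    field_simp
  have hstep := QQ_step hb0 hw v J hl
  rw [hG] at hstep
  have hlow : 0 ≤ ∑ y ∈ J, (1 - l y) * w v y * QQ b w y (J.erase y) (nuQ w v l y) :=
    Finset.sum_nonneg fun y _ => mul_nonneg (mul_nonneg (by linarith [(hl y).2]) (hw.2 v y).1)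
      (QQ_nonneg hb0.le hw y _ (Ok1.nuQ hw v hl y))
  have hup : ∑ y ∈ J, (1 - l y) * w v y * QQ b w y (J.erase y) (nuQ w v l y) ≤
      (∑ y ∈ J, (1 - l y) * w v y) * (5 / 2) := by
    rw [Finset.sum_mul]
    refine Finset.sum_le_sum fun y hy => ?_
    refine mul_le_mul_of_nonneg_left ?_ (mul_nonneg (by linarith [(hl y).2]) (hw.2 v y).1)
    refine QQ_max hb hw (Finset.notMem_erase y J) (Ok1.nuQ hw v hl y) (D := D) ?_ ?_
    · rw [Finset.insert_erase hy]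
      intro x hx
      refine le_trans ?_ (hD x (Finset.mem_insert_of_mem hx))
      exact Finset.sum_le_sum_of_subset_of_nonneg
        (Finset.erase_subset_erase x (Finset.subset_insert v J)) fun z _ _ => (hw.2 x z).1
    · have h5 : ((J.erase y).card : ℚ) = J.card - 1 := by
        rw [Finset.card_erase_of_mem hy]
        have h6 : 1 ≤ J.card := Finset.card_pos.2 ⟨y, hy⟩
        push_cast [Nat.cast_sub h6]
        ring
      rw [h5]
      linarith
  constructor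
  · rw [hstep]
    have h7 : 0 ≤ 1 / AA b w v J * ∑ y ∈ J, (1 - l y) * w v y *
        QQ b w y (J.erase y) (nuQ w v l y) := mul_nonneg (by positivity) hlow
    linarith
  · rw [hstep, add_sub_cancel_left]
    rcases eq_or_lt_of_le hD0 with h8 | h8
    · have h9 : ∑ y ∈ J, (1 - l y) * w v y = 0 := le_antisymm (by linarith) hS0
      rw [h9] at hup ⊢
      have h10 : ∑ y ∈ J, (1 - l y) * w v y * QQ b w y (J.erase y) (nuQ w v l y) = 0 :=
        le_antisymm (by linarith) hlow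
      rw [h10, mul_zero, zero_div]
    · have h11 : 1 / AA b w v J ≤ 1 / (5 * D) := one_div_le_one_div_of_le (by linarith) (by linarith)
      have h12 : 1 / AA b w v J * ∑ y ∈ J, (1 - l y) * w v y *
          QQ b w y (J.erase y) (nuQ w v l y) ≤
          1 / (5 * D) * ((∑ y ∈ J, (1 - l y) * w v y) * (5 / 2)) :=
        mul_le_mul h11 hup hlow (by positivity)
      refine h12.trans (le_of_eq ?_)
      field_simp

end Pool.Agent.DFP
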