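import Pool.Agent.DFP.Mrg

set_option autoImplicit false

/-!
# DFP-Crd: crude bound of the ratio

Change the entries of the row to `0` one by one; each step costs a factor `1 + s y / a`.
-/

namespace Pool.Agent.DFP

open Finset

private theorem crd_step {a : ℚ} (ha : 0 < a) {w : ℕ → ℕ → ℚ} (hw : Ok w) (J : Finset ℕ) {s : ℕ → ℚ}
    (hs : Ok1 s) {y : ℕ} (hy : y ∈ J) {s' : ℕ → ℚ} (h0 : s' y = 0) (h1 : ∀ x, x ≠ y → s' x = s x) :
    hub a w J s' ≤ (1 + s y / a) * hub a w J s := by
  have h2 := hub_tel a hw.1 J s' s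
  rw [Finset.sum_eq_single y] at h2
  · have h3 : hub a w (J.erase y) (fun x => w y x * if x < y then s' x else s x) =
        hub a w (J.erase y) (fun x => w y x * s x) := by
      apply hub_congr
      intro x hx
      have hxy : x ≠ y := (Finset.mem_erase.1 hx).1
      rw [h1 x hxy, ite_self]
    rw [h3, h0, sub_zero] at h2
    have h4 := hub_merge ha hw hs hy
    have h5 : hub a w (J.erase y) (fun x => w y x * s x) ≤ hub a w J s / a := by
      rw [le_div_iff₀ ha]
      linarith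
    have h6 := mul_le_mul_of_nonneg_left h5 (hs y).1
    have h7 : s y * (hub a w J s / a) = s y / a * hub a w J s := by ring
    rw [h7] at h6
    rw [h2, add_mul, one_mul]
    linarith
  · intro z _ hz
    rw [h1 z hz, sub_self, zero_mul]
  · intro h
    exact absurd hy h

private theorem crd_ind {a : ℚ} (ha : 0 < a) {w : ℕ → ℕ → ℚ} (hw : Ok w) (J : Finset ℕ) {s : ℕ → ℚ}
    (hs : Ok1 s) (T : Finset ℕ) (hT : T ⊆ J) :
    hub a w J (fun x => if x ∈ T then 0 else s x) ≤ (∏ y ∈ T, (1 + s y / a)) * hub a w J s := by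
  induction T using Finset.induction_on with
  | empty =>
    rw [Finset.prod_empty, one_mul]
    apply le_of_eq
    apply hub_congr
    intro x _
    rw [if_neg (Finset.notMem_empty x)]
  | insert y T hy ih =>
    have hyJ : y ∈ J := hT (Finset.mem_insert_self y T)
    have hTJ : T ⊆ J := fun x hx => hT (Finset.mem_insert_of_mem hx)
    have hs' : Ok1 (fun x => if x ∈ T then 0 else s x) := by
      intro x
      show 0 ≤ (if x ∈ T then (0 : ℚ) else s x) ∧ (if x ∈ T then (0 : ℚ) else s x) ≤ 1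
      split_ifs
      · exact ⟨le_rfl, zero_le_one⟩
      · exact hs x
    have h1 := crd_step ha hw J hs' hyJ (s' := fun x => if x ∈ insert y T then 0 else s x)
      (by
        show (if y ∈ insert y T then (0 : ℚ) else s y) = 0
        rw [if_pos (Finset.mem_insert_self y T)])
      (by
        intro x hx
        show (if x ∈ insert y T then (0 : ℚ) else s x) = if x ∈ T then 0 else s x
        by_cases hxT : x ∈ T
        · rw [if_pos hxT, if_pos (Finset.mem_insert_of_mem hxT)]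
        · rw [if_neg hxT, if_neg (fun h => hxT ((Finset.mem_insert.1 h).resolve_left hx))])
    simp only [if_neg hy] at h1
    rw [Finset.prod_insert hy, mul_assoc]
    refine h1.trans (mul_le_mul_of_nonneg_left (ih hTJ) ?_)
    have := div_nonneg (hs y).1 ha.le
    linarith

theorem hub_crude {a : ℚ} (ha : 0 < a) {w : ℕ → ℕ → ℚ} (hw : Ok w) (J : Finset ℕ) {s : ℕ → ℚ}
    (hs : Ok1 s) : hub a w J (fun _ => 0) ≤ (∏ y ∈ J, (1 + s y / a)) * hub a w J s := by
  have h := crd_ind ha hw J hs J (Finset.Subset.refl J)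
  have h1 : hub a w J (fun x => if x ∈ J then 0 else s x) = hub a w J (fun _ => 0) := by
    apply hub_congr
    intro x hx
    rw [if_pos hx]
  rwa [h1] at h

theorem QQ_le_exp {b : ℚ} (hb : 1 ≤ b) {w : ℕ → ℕ → ℚ} (hw : Ok w) {v : ℕ} {J : Finset ℕ}
    {l : ℕ → ℚ} (hl : Ok1 l) {D : ℚ} (hD : ∑ y ∈ J, w v y ≤ D) :
    ((QQ b w v J l : ℚ) : ℝ) ≤ Real.exp (D : ℝ) := by
  have hb0 : 0 < b := by linarith
  have hwv : Ok1 (w v) := fun x => hw.2 v x
  have hlw : Ok1 (fun x => l x * w v x) := fun x =>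
    ⟨mul_nonneg (hl x).1 (hwv x).1, mul_le_one₀ (hl x).2 (hwv x).1 (hwv x).2⟩
  have h0 : Ok1 (fun _ => (0 : ℚ)) := fun _ => ⟨le_rfl, zero_le_one⟩
  have h1 : hub b w J (fun x => l x * w v x) ≤ hub b w J (fun _ => 0) :=
    hub_anti hb0.le hw h0 hlw (fun x _ => (hlw x).1)
  have h2 := hub_crude hb0 hw J hwv
  have h3 := hub_pos hb0 hw J hwv
  have h4 : QQ b w v J l ≤ ∏ y ∈ J, (1 + w v y / b) := by
    unfold QQ
    rw [div_le_iff₀ h3]
    exact h1.trans h2
  have h5 : ∏ y ∈ J, (1 + w v y / b) ≤ ∏ y ∈ J, (1 + w v y) := by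
    apply Finset.prod_le_prod
    · intro y _
      have := div_nonneg (hwv y).1 hb0.le
      linarith
    · intro y _
      have : w v y / b ≤ w v y := div_le_self (hwv y).1 hb
      linarith
  have h6 : ((QQ b w v J l : ℚ) : ℝ) ≤ ∏ y ∈ J, (1 + ((w v y : ℚ) : ℝ)) := by
    have h7 : ((QQ b w v J l : ℚ) : ℝ) ≤ ((∏ y ∈ J, (1 + w v y) : ℚ) : ℝ) := by
      exact_mod_cast h4.trans h5
    refine h7.trans (le_of_eq ?_)
    push_cast
    rfl
  have h8 : ∏ y ∈ J, (1 + ((w v y : ℚ) : ℝ)) ≤ ∏ y ∈ J, Real.exp ((w v y : ℚ) : ℝ) := by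
    apply Finset.prod_le_prod
    · intro y _
      have : (0 : ℝ) ≤ ((w v y : ℚ) : ℝ) := by exact_mod_cast (hwv y).1
      linarith
    · intro y _
      have := Real.add_one_le_exp ((w v y : ℚ) : ℝ)
      linarith
  refine h6.trans (h8.trans ?_)
  rw [← Real.exp_sum]
  apply Real.exp_le_exp.2
  exact_mod_cast hD

end Pool.Agent.DFP
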