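import Mathlib
import Pool.Agent.Helper47.TR.Defs

set_option autoImplicit false

/-!
# DFP: definitions

PROJECT DFP (MP_e767af_lc): FPRAS for the Tutte polynomial `T(G; x, y)`, `x ≥ 1`, `0 ≤ y < 1`, on
dense multigraphs: `∑_{u ≠ v} y ^ (number of edges u v) ≤ δ n` for all vertices `v`, `δ < 1 / 6`.

With `a = (x - 1)(1 - y) ≥ 0`, `w u v = y ^ (number of edges u v)` the quantity `F a w U` is
`(-1) ^ |U|` times the Potts partition function of `U` at `q = -a`. `hub a w J s` is `1 / a` times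
the value on `J` plus one further vertex whose weights to the vertices in `J` are `s`.
-/

namespace Pool.Agent.DFP

open Finset

/-! ## Combinatorics -/

/-- product of the weights of the pairs inside `B` -/
def WW (w : ℕ → ℕ → ℚ) (B : Finset ℕ) : ℚ := ∏ u ∈ B, ∏ v ∈ B.filter (fun v => u < v), w u v

/-- `F` with fuel -/
noncomputable def FN (w : ℕ → ℕ → ℚ) : ℕ → ℚ → Finset ℕ → ℚ
  | 0, _, _ => 1
  | n + 1, a, U =>
    if h : U.Nonempty then
      a * ∑ B ∈ U.powerset.filter (fun B => U.min' h ∈ B),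
        (-1) ^ (B.card - 1) * WW w B * FN w n (a + 1) (U \ B)
    else 1

/-- the partition function: `F a w ∅ = 1`,
`F a w U = a * ∑_{B ∋ u} (-1) ^ (|B| - 1) * WW w B * F (a + 1) w (U \ B)` for all `u ∈ U` -/
noncomputable def F (a : ℚ) (w : ℕ → ℕ → ℚ) (U : Finset ℕ) : ℚ := FN w U.card a U

/-- the set `J` with a hub with row `s`, divided by `a` -/
noncomputable def hub (a : ℚ) (w : ℕ → ℕ → ℚ) (J : Finset ℕ) (s : ℕ → ℚ) : ℚ :=
  ∑ B ∈ J.powerset, (-1) ^ B.card * (∏ x ∈ B, s x) * WW w B * F (a + 1) w (J \ B)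

/-- symmetric weights in `[0, 1]` -/
def Ok (w : ℕ → ℕ → ℚ) : Prop := (∀ x y, w x y = w y x) ∧ ∀ x y, 0 ≤ w x y ∧ w x y ≤ 1

/-- a row with entries in `[0, 1]` -/
def Ok1 (s : ℕ → ℚ) : Prop := ∀ x, 0 ≤ s x ∧ s x ≤ 1

/-- ratio: the row of `v` multiplied by `l`, against the row of `v`; `v ∉ J` -/
noncomputable def QQ (b : ℚ) (w : ℕ → ℕ → ℚ) (v : ℕ) (J : Finset ℕ) (l : ℕ → ℚ) : ℚ :=
  hub b w J (fun x => l x * w v x) / hub b w J (w v)

/-- `F b w (insert v J) / F b w J` -/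
noncomputable def AA (b : ℚ) (w : ℕ → ℕ → ℚ) (v : ℕ) (J : Finset ℕ) : ℚ :=
  b * hub b w J (w v) / F b w J

/-- normalised inverse of `AA` -/
noncomputable def GG (b : ℚ) (w : ℕ → ℕ → ℚ) (v : ℕ) (J : Finset ℕ) : ℚ := (b + J.card) / AA b w v J

/-- normalised `hub` -/
noncomputable def gt (a : ℚ) (w : ℕ → ℕ → ℚ) (J : Finset ℕ) (s : ℕ → ℚ) : ℚ :=
  hub a w J s / F (a + 1) w J

/-- multiplier of the child `y` in the expansion of `QQ b w v J l` -/
def nuQ (w : ℕ → ℕ → ℚ) (v : ℕ) (l : ℕ → ℚ) (y : ℕ) : ℕ → ℚ :=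
  fun x => w v x * if x < y then l x else 1

/-- the multiplier `1_{x > z}` -/
def gtI (z : ℕ) : ℕ → ℚ := fun x => if x < z then 0 else 1

/-- the multiplier `(w v)_{x > z}` -/
def gtW (w : ℕ → ℕ → ℚ) (v z : ℕ) : ℕ → ℚ := fun x => if x < z then 0 else w v x

/-- row of the child `y` in the expansion of `hub a w J s` -/
def muG (w : ℕ → ℕ → ℚ) (s : ℕ → ℚ) (y : ℕ) : ℕ → ℚ := fun x => if x < y then 0 else s x * w y x

/-! ## Multigraphs -/

/-- the number of edges joining `u` and `v`, in unary -/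
def multL (E : List (ℕ × ℕ)) (u v : ℕ) : List Bool :=
  (E.filter fun e => (e.1 == u && e.2 == v) || (e.1 == v && e.2 == u)).map fun _ => true

/-- the number of edges joining `u` and `v` -/
def mult (E : List (ℕ × ℕ)) (u v : ℕ) : ℕ := (multL E u v).length

/-- the weights -/
def wG (y : ℚ) (E : List (ℕ × ℕ)) (u v : ℕ) : ℚ := y ^ mult E u v

end Pool.Agent.DFP
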