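import Pool.Agent.DFP.Tel

set_option autoImplicit false

/-!
# DFP-Edge: changing the weight of one pair (deletion - contraction), from the telescoping identity
-/

namespace Pool.Agent.DFP

open Finset

/-- contraction of `v` into `u` -/
def mrg (w : ℕ → ℕ → ℚ) (u v x y : ℕ) : ℚ :=
  if x = u then w u y * w v y else if y = u then w x u * w x v else w x y

private theorem mrg_symm {w : ℕ → ℕ → ℚ} (hs : ∀ x y, w x y = w y x) (u v x y : ℕ) :
    mrg w u v x y = mrg w u v y x := by
  unfold mrg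
  by_cases hx : x = u
  · by_cases hy : y = u
    · rw [hx, hy]
    · rw [if_pos hx, if_neg hy, if_pos hx, hs u y, hs v y]
  · by_cases hy : y = u
    · rw [if_neg hx, if_pos hy, if_pos hy, hs u x, hs v x]
    · rw [if_neg hx, if_neg hy, if_neg hy, if_neg hx, hs x y]

private theorem hub_w (a : ℚ) {w w' : ℕ → ℕ → ℚ} {J : Finset ℕ} (s : ℕ → ℚ)
    (h : ∀ x ∈ J, ∀ y ∈ J, x < y → w x y = w' x y) : hub a w J s = hub a w' J s := by
  unfold hub
  refine Finset.sum_congr rfl fun B hB => ?_
  have hB' := Finset.mem_powerset.1 hB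
  rw [WW_congr (w := w) (w' := w') fun x hx y hy hxy => h x (hB' hx) y (hB' hy) hxy,
    F_congr (a + 1) (w := w) (w' := w') fun x hx y hy hxy =>
      h x (Finset.mem_sdiff.1 hx).1 y (Finset.mem_sdiff.1 hy).1 hxy]

theorem F_edge (a : ℚ) {w w' : ℕ → ℕ → ℚ} (hs : ∀ x y, w x y = w y x)
    (hs' : ∀ x y, w' x y = w' y x) {U : Finset ℕ} {u v : ℕ} (hu : u ∈ U) (hv : v ∈ U) (huv : u ≠ v)
    (h : ∀ x ∈ U, ∀ y ∈ U, x ≠ y → ¬((x = u ∧ y = v) ∨ (x = v ∧ y = u)) → w x y = w' x y) :
    F a w U = F a w' U + (w' u v - w u v) * F a (mrg w u v) (U.erase v) := by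
  have huJ : u ∈ U.erase v := Finset.mem_erase.2 ⟨huv, hu⟩
  have hJ : ∀ x ∈ U.erase v, ∀ y ∈ U.erase v, x < y → w x y = w' x y := by
    intro x hx y hy hxy
    rw [Finset.mem_erase] at hx hy
    refine h x hx.2 y hy.2 hxy.ne ?_
    rintro (⟨-, h2⟩ | ⟨h1, -⟩)
    · exact hy.1 h2
    · exact hx.1 h1
  have hvx : ∀ x ∈ U.erase v, x ≠ u → w v x = w' v x := by
    intro x hx hxu
    rw [Finset.mem_erase] at hx
    refine h v hv x hx.2 (Ne.symm hx.1) ?_
    rintro (⟨h1, -⟩ | ⟨-, h2⟩)
    · exact huv h1.symm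
    · exact hxu h2
  have hux : ∀ x ∈ (U.erase v).erase u, w u x = w' u x := by
    intro x hx
    rw [Finset.mem_erase, Finset.mem_erase] at hx
    refine h u hu x hx.2.2 (Ne.symm hx.1) ?_
    rintro (⟨-, h2⟩ | ⟨h1, -⟩)
    · exact hx.2.1 h2
    · exact huv h1
  have e1 : F a w U = a * hub a w' (U.erase v) (w v) := by
    rw [F_eq_hub a hs hv, hub_w a (w v) hJ]
  have e2 := hub_tel a hs' (U.erase v) (w v) (w' v)
  have e3 : ∑ y ∈ U.erase v, (w' v y - w v y) *
      hub a w' ((U.erase v).erase y) (fun x => w' y x * if x < y then w v x else w' v x) =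
      (w' v u - w v u) *
      hub a w' ((U.erase v).erase u) (fun x => w' u x * if x < u then w v x else w' v x) := by
    refine Finset.sum_eq_single_of_mem u huJ fun y hy hyu => ?_
    rw [hvx y hy hyu, sub_self, zero_mul]
  have e4 : hub a w' ((U.erase v).erase u) (fun x => w' u x * if x < u then w v x else w' v x) =
      hub a w' ((U.erase v).erase u) (fun x => w u x * w v x) := by
    refine hub_congr a w' fun x hx => ?_
    have hx2 := Finset.mem_erase.1 hx
    rw [hux x hx, ← hvx x hx2.2 hx2.1, ite_self]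
  have e5 : F a (mrg w u v) (U.erase v) =
      a * hub a w' ((U.erase v).erase u) (fun x => w u x * w v x) := by
    rw [F_eq_hub a (mrg_symm hs u v) huJ]
    have e6 : hub a (mrg w u v) ((U.erase v).erase u) (mrg w u v u) =
        hub a (mrg w u v) ((U.erase v).erase u) (fun x => w u x * w v x) :=
      hub_congr a _ fun x _ => if_pos rfl
    rw [e6]
    congr 1
    refine hub_w a _ fun x hx y hy hxy => ?_
    have hx2 := Finset.mem_erase.1 hx
    have hy2 := Finset.mem_erase.1 hy
    rw [← hJ x hx2.2 y hy2.2 hxy]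
    unfold mrg
    rw [if_neg hx2.1, if_neg hy2.1]
  rw [e1, e2, e3, e4, F_eq_hub a hs' hv, e5, hs' u v, hs u v]
  ring

/-- all weights `1` -/
theorem F_all_ones (a : ℚ) {w : ℕ → ℕ → ℚ} {U : Finset ℕ}
    (h : ∀ x ∈ U, ∀ y ∈ U, x ≠ y → w x y = 1) : F a w U = a ^ U.card := by
  have h1 : F a w U = F a (fun _ _ => 1) U := F_congr a fun x hx y hy hxy => h x hx y hy hxy.ne
  rw [h1]
  clear h1 h
  induction U using Finset.induction_on with
  | empty => rw [F_empty, Finset.card_empty, pow_zero]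
  | insert y U hy ih =>
    have h2 := F_eq_hub a (w := fun _ _ => 1) (fun _ _ => rfl) (Finset.mem_insert_self y U)
    rw [h2, Finset.erase_insert hy, hub_one, ih, Finset.card_insert_of_notMem hy, pow_succ, mul_comm]

end Pool.Agent.DFP
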