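import Pool.Agent.DFP.LstB

set_option autoImplicit false

/-!
# DFP-Inv: the children of a valid node are valid, the weights are at most `16`
-/

namespace Pool.Agent.DFP

open Finset

private theorem wbd (s : Bool) {N M : ℕ} (h : N ≤ 16 * M) : |wv (s, (N, M))| ≤ 16 := by
  have h1 : (N : ℚ) / M ≤ 16 := by
    refine div_le_of_le_mul₀ (Nat.cast_nonneg M) (by norm_num) ?_
    exact_mod_cast h
  have h2 : (0 : ℚ) ≤ (N : ℚ) / M := div_nonneg (Nat.cast_nonneg N) (Nat.cast_nonneg M)
  unfold wv
  cases s
  · simp only [Bool.false_eq_true, if_false, one_mul]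
    rw [abs_of_nonneg h2]
    exact h1
  · simp only [if_true, neg_one_mul, abs_neg]
    rw [abs_of_nonneg h2]
    exact h1

private theorem key {P : Par} {b S : ℕ} (hb : 2 ^ b ≤ 4 * S) {x z m : ℕ} (hx : x ≤ z) (hm : S ≤ m) :
    4 * 2 ^ b * (x * P.A2) ≤ 16 * (z * (P.A1 + P.A2 * m)) := by
  have h1 : 4 * 2 ^ b ≤ 16 * m := by omega
  have h2 : x * P.A2 ≤ z * P.A2 := Nat.mul_le_mul_right _ hx
  calc 4 * 2 ^ b * (x * P.A2) ≤ 16 * m * (z * P.A2) := Nat.mul_le_mul h1 h2
    _ = 16 * (z * (P.A2 * m)) := by ring
    _ ≤ 16 * (z * (P.A1 + P.A2 * m)) := Nat.mul_le_mul_left _ (Nat.mul_le_mul_left _ (Nat.le_add_left _ _))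

private theorem mono' {P : Par} {i n S k k' : ℕ} {D : ℚ} (hk : k' ≤ k) {nd : Nd}
    (h : Vd P n i D S k nd) : Vd P n i D S k' nd := by
  obtain ⟨h1, h2, h3⟩ := h
  refine ⟨h1, h2, ?_⟩
  rcases h3 with ⟨a1, a2, a3⟩ | ⟨a1, a2, a3, a4⟩
  · exact Or.inl ⟨a1, a2, by omega⟩
  · exact Or.inr ⟨a1, a2, a3, by omega⟩

private theorem out0_ok {P : Par} {n i S k : ℕ} {D : ℚ} :
    (∀ nd' ∈ (out0 : Wt × List Nd).2, Vd P n i D S k nd') ∧ |wv (out0 : Wt × List Nd).1| ≤ 16 := by
  refine ⟨fun nd' h => ?_, wbd false (by omega)⟩
  exact absurd h (List.not_mem_nil)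

private theorem four_ok {P : Par} {n i S k : ℕ} {D : ℚ} :
    (∀ nd' ∈ (((false, (4, 1)), []) : Wt × List Nd).2, Vd P n i D S k nd') ∧
      |wv (((false, (4, 1)), []) : Wt × List Nd).1| ≤ 16 := by
  refine ⟨fun nd' h => ?_, wbd false (by omega)⟩
  exact absurd h (List.not_mem_nil)

theorem out_inv {P : Par} (hP : P.Ok) (E : List (ℕ × ℕ)) (i b n S k c y : ℕ) {D : ℚ}
    (hR : Rows P.y E n D) (hS0 : 0 < S) (hb : 2 ^ b ≤ 4 * S) {nd : Nd}
    (h : Vd P n i D S (k + 1) nd) :
    (∀ nd' ∈ (out P E i b c y nd).2, Vd P n i D S k nd') ∧ |wv (out P E i b c y nd).1| ≤ 16 := by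
  have hk := mono' (Nat.le_succ k) h
  obtain ⟨hnd, hsub, hty⟩ := h
  obtain ⟨τ, v, L⟩ := nd
  simp only at hnd hsub hty
  obtain ⟨_, hy0, hy1⟩ := par_bd hP
  have hyy : P.y1 ≤ P.y2 := hP.2.le
  -- facts if `y` is a vertex
  have hpy : pres y L = true → y ∈ vs L := (pres_iff y L).1
  have hyn : y ∈ vs L → y < n := fun h => mem_range.1 (hsub h)
  have hsub' : (vs L).erase y ⊆ range n := (erase_subset _ _).trans hsub
  have hlen := len_ch E v y L
  unfold out
  rcases hty with ⟨h0, hsum, hlk⟩ | ⟨h12, hvn, hvL, hlk⟩
  · rw [if_pos h0]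
    split_ifs with c0 c1
    · exact four_ok
    · obtain ⟨_, hp⟩ := c1
      have hyL := hpy hp
      have hle := len_er hnd hyL
      have hlc := (len_ch E v y L).1
      refine ⟨?_, ?_⟩
      · intro nd' hnd'
        rw [List.mem_cons, List.mem_singleton] at hnd'
        rcases hnd' with rfl | rfl
        · refine ⟨nd_er hnd y, ?_, Or.inr ⟨Or.inl rfl, hyn hyL, ?_, ?_⟩⟩
          · show vs (er y L) ⊆ range n
            rw [vs_er]
            exact hsub'
          · show y ∉ vs (er y L)
            rw [vs_er]
            exact notMem_erase y _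
          · show S + k ≤ i + 1 + (er y L).length
            omega
        · refine ⟨nd_chg E hnd y, ?_, Or.inl ⟨rfl, ?_, ?_⟩⟩
          · show vs (chg E y L) ⊆ range n
            rw [vs_chg]
            exact hsub'
          · show ∑ x ∈ vs (chg E y L), cv P.y (chg E y L) x ≤ D
            rw [vs_chg]
            have h1 : ∀ x ∈ (vs L).erase y, cv P.y (chg E y L) x ≤ wG P.y E y x := by
              intro x hx
              rw [cv_chg P.y E hx]
              have h2 := cv_ok hy0 hy1.le L x
              have h3 := ((wG_ok hy0 hy1.le E).2 y x)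
              unfold muG
              split_ifs
              · exact h3.1
              · calc cv P.y L x * wG P.y E y x ≤ 1 * wG P.y E y x := mul_le_mul_of_nonneg_right h2.2 h3.1
                  _ = wG P.y E y x := one_mul _
            refine (sum_le_sum h1).trans ?_
            refine le_trans ?_ (hR y (hyn hyL))
            exact sum_le_sum_of_subset_of_nonneg (erase_subset_erase y hsub) fun x _ _ =>
              ((wG_ok hy0 hy1.le E).2 y x).1
          · show S + k ≤ i + (chg E y L).length
            omega
      · exact wbd true (key hb (cfrac hP (cd y L)).2.1 (show S ≤ i + L.length by omega))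
    · exact out0_ok
  · have hm : S ≤ i + 1 + L.length := by omega
    have hpow : P.y1 ^ (multL E v y).length ≤ P.y2 ^ (multL E v y).length := Nat.pow_le_pow_left hyy _
    have hn0 : ¬ τ = 0 := by
      rcases h12 with h | h
      · rw [h]
        exact one_ne_zero
      · rw [h]
        exact two_ne_zero
    rw [if_neg hn0]
    have hne : ∀ {L' : LL} {u : ℕ}, vs L' = (vs L).erase u → u ∉ vs L' := by
      intro L' u h1
      rw [h1]
      exact notMem_erase u _
    by_cases hτ : τ = 1
    · rw [if_pos hτ]
      split_ifs with c0 hp c1 c2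
      · exact four_ok
      · refine ⟨?_, ?_⟩
        · intro nd' hnd'
          rw [List.mem_singleton] at hnd'
          rw [hnd']
          exact hk
        · exact wbd false (key hb hpow hm)
      · have hyL := hpy hp
        have hle := len_er hnd hyL
        refine ⟨?_, ?_⟩
        · intro nd' hnd'
          rw [List.mem_cons, List.mem_singleton] at hnd'
          rcases hnd' with rfl | rfl
          · refine ⟨nd_chw E hnd v y, ?_, Or.inr ⟨Or.inr rfl, hyn hyL, hne (vs_chw E v y L), ?_⟩⟩
            · show vs (chw E v y L) ⊆ range n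
              rw [vs_chw]
              exact hsub'
            · show S + k ≤ i + 1 + (chw E v y L).length
              have := hlen.2.2.1
              omega
          · exact hk
        · exact wbd false (key hb hpow hm)
      · have hyL := hpy hp
        have hle := len_er hnd hyL
        refine ⟨?_, ?_⟩
        · intro nd' hnd'
          rw [List.mem_cons, List.mem_singleton] at hnd'
          rcases hnd' with rfl | rfl
          · refine ⟨nd_ch1 hnd y, ?_, Or.inr ⟨Or.inr rfl, hyn hyL, hne (vs_ch1 y L), ?_⟩⟩
            · show vs (ch1 y L) ⊆ range n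
              rw [vs_ch1]
              exact hsub'
            · show S + k ≤ i + 1 + (ch1 y L).length
              have := hlen.2.2.2.1
              omega
          · exact hk
        · have h1 := key (P := P) hb (le_refl 1) hm
          rw [one_mul, one_mul] at h1
          exact wbd true h1
      · exact out0_ok
    · have hτ2 : τ = 2 := by
        rcases h12 with h | h
        · exact absurd h hτ
        · exact h
      rw [if_neg hτ, if_pos hτ2]
      split_ifs with hp c0
      · refine ⟨?_, ?_⟩
        · intro nd' hnd'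
          rw [List.mem_singleton] at hnd'
          rw [hnd']
          exact ⟨hnd, hsub, Or.inr ⟨Or.inl rfl, hvn, hvL, by show S + k ≤ i + 1 + L.length; omega⟩⟩
        · have h1 := key (P := P) hb (Nat.mul_le_mul (Nat.sub_le (cden P (cd y L)) (cnum P (cd y L))) hpow) hm
          rw [mul_assoc (cden P (cd y L) - cnum P (cd y L)), mul_assoc (cden P (cd y L))] at h1
          exact wbd false h1
      · have hyL := hpy hp.1
        have hle := len_er hnd hyL
        refine ⟨?_, ?_⟩
        · intro nd' hnd'
          rw [List.mem_cons, List.mem_singleton] at hnd'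
          rcases hnd' with rfl | rfl
          · refine ⟨nd_chq E hnd v y, ?_, Or.inr ⟨Or.inr rfl, hyn hyL, hne (vs_chq E v y L), ?_⟩⟩
            · show vs (chq E v y L) ⊆ range n
              rw [vs_chq]
              exact hsub'
            · show S + k ≤ i + 1 + (chq E v y L).length
              have := hlen.2.1
              omega
          · exact ⟨hnd, hsub, Or.inr ⟨Or.inl rfl, hvn, hvL, by show S + k ≤ i + 1 + L.length; omega⟩⟩
        · have h1 := key (P := P) hb (Nat.mul_le_mul (Nat.sub_le (cden P (cd y L)) (cnum P (cd y L))) hpow) hm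
          rw [mul_assoc (cden P (cd y L) - cnum P (cd y L)), mul_assoc (cden P (cd y L))] at h1
          exact wbd false h1
      · exact out0_ok

theorem Vd_mono {P : Par} {i n S k k' : ℕ} {D : ℚ} (hk : k' ≤ k) {nd : Nd}
    (h : Vd P n i D S k nd) : Vd P n i D S k' nd := mono' hk h

end Pool.Agent.DFP
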