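import Pool.Agent.DFP.LstB

set_option autoImplicit false

/-!
# DFP-Pot0: the potential inequality, type 0
-/

namespace Pool.Agent.DFP

open Finset

private theorem p0_frac {P : Par} (hP : P.Ok) (c : List Bool) (i l b : ℕ) (hS : 0 < i + l) :
    |wv (true, (4 * 2 ^ b * (cnum P c * P.A2), cden P c * (P.A1 + P.A2 * (i + l))))| =
      4 * 2 ^ b * (cval P.y c / (P.a + i + l)) := by
  obtain ⟨h1, h2, h3⟩ := cfrac hP c
  have hA : (0 : ℚ) < P.A2 := by exact_mod_cast hP.1
  have hc : (0 : ℚ) < cden P c := by exact_mod_cast h1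
  have hS' : (0 : ℚ) < (i : ℚ) + l := by exact_mod_cast hS
  have hA1 : (0 : ℚ) ≤ P.A1 := Nat.cast_nonneg _
  have hd : (0 : ℚ) < P.A1 + P.A2 * (i + l) := by positivity
  have e1 : P.a + i + l = (P.A1 + P.A2 * (i + l)) / P.A2 := by
    unfold Par.a
    field_simp
    ring
  rw [e1, ← h3]
  unfold wv
  simp only [if_true]
  push_cast
  rw [abs_mul, abs_neg, abs_one, one_mul, abs_of_nonneg (by positivity)]
  field_simp

private theorem p0_in {P : Par} (hP : P.Ok) (E : List (ℕ × ℕ)) (i b v y : ℕ) (L : LL) (D : ℚ)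
    (hS : 0 < i + L.length) :
    (∑ c ∈ range 4, |wv (out P E i b c y (0, (v, L))).1| *
        ((out P E i b c y (0, (v, L))).2.map (pot P E D)).prod) =
      4 + if y ∈ vs L then 20 * 2 ^ b * (cv P.y L y / (P.a + i + L.length)) else 0 := by
  have e0 : out P E i b 0 y (0, (v, L)) = ((false, (4, 1)), []) := by simp [out]
  have e2 : out P E i b 2 y (0, (v, L)) = out0 := by simp [out]
  have e3 : out P E i b 3 y (0, (v, L)) = out0 := by simp [out]
  rw [sum_range_succ, sum_range_succ, sum_range_succ, sum_range_succ, sum_range_zero, e0, e2, e3]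
  have h0 : wv (out0).1 = 0 := by simp [wv, out0]
  have h4 : wv (false, (4, 1)) = 4 := by simp [wv]
  rw [h0]
  by_cases hp : pres y L = true
  · have e1 : out P E i b 1 y (0, (v, L)) = ((true, (4 * 2 ^ b * (cnum P (cd y L) * P.A2),
        cden P (cd y L) * (P.A1 + P.A2 * (i + L.length)))),
        [(1, (y, er y L)), (0, (0, chg E y L))]) := by
      simp [out, hp]
    rw [e1, if_pos ((pres_iff y L).1 hp)]
    show _ + |wv (true, (4 * 2 ^ b * (cnum P (cd y L) * P.A2),
        cden P (cd y L) * (P.A1 + P.A2 * (i + L.length))))| * _ + _ + _ = _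
    rw [p0_frac hP (cd y L) i L.length b hS]
    simp only [List.map_cons, List.map_nil, List.prod_cons, List.prod_nil, h4]
    have k1 : pot P E D (1, (y, er y L)) = 2 := by simp [pot]
    have k2 : pot P E D (0, (0, chg E y L)) = 5 / 2 := by simp [pot]
    rw [k1, k2]
    have k3 : |(4 : ℚ)| = 4 := abs_of_pos (by norm_num)
    rw [k3]
    unfold cv
    simp only [abs_zero, zero_mul]
    ring
  · have e1 : out P E i b 1 y (0, (v, L)) = out0 := by
      simp [out, hp]
    rw [e1, h0, if_neg (fun h => hp ((pres_iff y L).2 h))]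
    simp only [List.map_nil, List.prod_nil, h4]
    have k3 : |(4 : ℚ)| = 4 := abs_of_pos (by norm_num)
    rw [k3]
    simp

theorem pot0 {P : Par} (hP : P.Ok) (E : List (ℕ × ℕ)) (i b v n S : ℕ) {L : LL}
    (hn : (L.map Prod.fst).Nodup) (hb : vs L ⊆ range (2 ^ b)) (hL : vs L ⊆ range n) {D ρ : ℚ}
    (hR : Rows P.y E n D) (hs : ∑ x ∈ vs L, cv P.y L x ≤ D) (hS0 : 0 < S) (hS : S ≤ i + L.length)
    (hSD : 6 * D ≤ S) (hρ : 3 / 4 + 3 / 2 * (D / S) ≤ ρ) :
    (∑ y ∈ range (2 ^ b), ∑ c ∈ range 4,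
      |wv (out P E i b c y (0, (v, L))).1| *
        ((out P E i b c y (0, (v, L))).2.map (pot P E D)).prod) / (4 * 2 ^ b) ≤
      ρ * pot P E D (0, (v, L)) := by
  have _ := hn
  have _ := hL
  have _ := hR
  obtain ⟨ha, hy0, hy1⟩ := par_bd hP
  have hSS : 0 < i + L.length := lt_of_lt_of_le hS0 hS
  have hpot : pot P E D (0, (v, L)) = 5 / 2 := by simp [pot]
  have hS' : (0 : ℚ) < S := by exact_mod_cast hS0
  have hSL : (S : ℚ) ≤ i + L.length := by exact_mod_cast hS
  rw [hpot, sum_congr rfl fun y _ => p0_in hP E i b v y L D hSS, sum_add_distrib, sum_const,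
    card_range, nsmul_eq_mul]
  have h1 : (∑ y ∈ range (2 ^ b), if y ∈ vs L then
      20 * 2 ^ b * (cv P.y L y / (P.a + i + L.length)) else 0) =
      20 * 2 ^ b * ((∑ y ∈ vs L, cv P.y L y) / (P.a + i + L.length)) := by
    rw [sum_ite_mem, inter_eq_right.2 hb, ← mul_sum, sum_div]
  rw [h1]
  have hs0 : 0 ≤ ∑ y ∈ vs L, cv P.y L y :=
    sum_nonneg fun x _ => (cv_ok hy0 hy1.le L x).1
  have h2 : (∑ y ∈ vs L, cv P.y L y) / (P.a + i + L.length) ≤ D / S := by
    refine div_le_div₀ (hs0.trans hs) hs hS' ?_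
    linarith
  have h3 : D / S ≤ 1 / 6 := by
    rw [div_le_iff₀ hS']
    linarith
  have hb' : (0 : ℚ) < 2 ^ b := by positivity
  rw [div_le_iff₀ (by positivity)]
  push_cast
  have h4 : 20 * 2 ^ b * ((∑ y ∈ vs L, cv P.y L y) / (P.a + i + L.length)) ≤
      20 * 2 ^ b * (D / S) := mul_le_mul_of_nonneg_left h2 (by positivity)
  have h5 : (4 : ℚ) + 20 * (D / S) ≤ 4 * (ρ * (5 / 2)) := by linarith
  have h6 := mul_le_mul_of_nonneg_left h5 hb'.le
  linarith

end Pool.Agent.DFP
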