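import Pool.Agent.DFP.Defs

set_option autoImplicit false

/-!
# DFP-Ptl: the potential inequality for `GG` (finite sums)
-/

namespace Pool.Agent.DFP

open Finset

private theorem div_two_le {x D : ℚ} (hD : 0 ≤ D) (h : x ≤ D) : x / (2 * D) ≤ 1 / 2 := by
  rcases eq_or_lt_of_le hD with h0 | h0
  · rw [← h0]
    simp
  · rw [div_le_div_iff₀ (by positivity) two_pos]
    linarith

theorem pot_G {w : ℕ → ℕ → ℚ} (hw : Ok w) {v : ℕ} {J : Finset ℕ} (hv : v ∉ J) {D : ℚ}
    (hD : ∀ x ∈ insert v J, ∑ z ∈ (insert v J).erase x, w x z ≤ D) :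
    ∑ z ∈ J, w v z * (1 + (∑ x ∈ J.erase z, (1 - gtW w v z x) * w z x) / (2 * D)) +
      ∑ z ∈ J, (∑ x ∈ J.erase z, (1 - gtI z x) * w z x) / (2 * D) ≤ 3 / 2 * D + J.card / 4 := by
  have w0 : ∀ x y, 0 ≤ w x y := fun x y => (hw.2 x y).1
  have hrow : ∀ z ∈ J, ∑ x ∈ J.erase z, w z x ≤ D := by
    intro z hz
    refine le_trans ?_ (hD z (mem_insert_of_mem hz))
    exact sum_le_sum_of_subset_of_nonneg (erase_subset_erase z (subset_insert v J)) fun x _ _ => w0 z x
  have hvr : ∑ z ∈ J, w v z ≤ D := by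
    have h1 := hD v (mem_insert_self v J)
    rwa [erase_insert hv] at h1
  have hD0 : 0 ≤ D := (sum_nonneg fun z _ => w0 v z).trans hvr
  have h1 : ∑ z ∈ J, w v z * (1 + (∑ x ∈ J.erase z, (1 - gtW w v z x) * w z x) / (2 * D)) ≤ 3 / 2 * D := by
    have h2 : ∀ z ∈ J, w v z * (1 + (∑ x ∈ J.erase z, (1 - gtW w v z x) * w z x) / (2 * D)) ≤ w v z * (3 / 2) := by
      intro z hz
      refine mul_le_mul_of_nonneg_left ?_ (w0 v z)
      have h3 : ∑ x ∈ J.erase z, (1 - gtW w v z x) * w z x ≤ D := by
        refine le_trans (sum_le_sum fun x _ => ?_) (hrow z hz)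
        have h4 : 0 ≤ gtW w v z x := by
          unfold gtW
          split_ifs
          · exact le_rfl
          · exact w0 v x
        nlinarith [w0 z x, mul_nonneg h4 (w0 z x)]
      have h5 := div_two_le hD0 h3
      linarith
    refine (sum_le_sum h2).trans ?_
    rw [← sum_mul]
    linarith
  have h2 : ∑ z ∈ J, (∑ x ∈ J.erase z, (1 - gtI z x) * w z x) / (2 * D) ≤ J.card / 4 := by
    rw [← sum_div]
    have e : ∑ z ∈ J, ∑ x ∈ J.erase z, (1 - gtI z x) * w z x = ∑ z ∈ J, ∑ x ∈ J.erase z, (1 - gtI x z) * w x z := by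
      rw [sum_comm' (s' := fun x => J.erase x) (t' := J)]
      intro x y
      simp only [mem_erase]
      tauto
    have h3 : 2 * (∑ z ∈ J, ∑ x ∈ J.erase z, (1 - gtI z x) * w z x) ≤ J.card * D := by
      rw [two_mul]
      conv_lhs => rw [e]
      conv_lhs =>
        congr
        · skip
        · rw [← e]
      rw [← sum_add_distrib]
      calc ∑ z ∈ J, (∑ x ∈ J.erase z, (1 - gtI x z) * w x z + ∑ x ∈ J.erase z, (1 - gtI z x) * w z x)
          ≤ ∑ _z ∈ J, D := by
            refine sum_le_sum fun z hz => ?_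
            rw [← sum_add_distrib]
            refine le_trans (le_of_eq (sum_congr rfl fun x hx => ?_)) (hrow z hz)
            have hne : x ≠ z := (mem_erase.1 hx).1
            unfold gtI
            rw [hw.1 x z]
            rcases lt_or_gt_of_ne hne with h | h
            · rw [if_neg (not_lt.2 h.le), if_pos h]
              ring
            · rw [if_pos h, if_neg (not_lt.2 h.le)]
              ring
        _ = J.card * D := by rw [sum_const, nsmul_eq_mul]
    rcases eq_or_lt_of_le hD0 with h0 | h0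
    · rw [← h0]
      simp only [mul_zero, div_zero]
      positivity
    · rw [div_le_div_iff₀ (by positivity) (by norm_num)]
      linarith
  linarith

end Pool.Agent.DFP
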