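import Pool.Agent.DFP.LstB
import Pool.Agent.DFP.Ptl

set_option autoImplicit false

/-!
# DFP-Pot1: the potential inequality, type 1
-/

namespace Pool.Agent.DFP

open Finset

private theorem p1_den {P : Par} (hP : P.Ok) (i l : ℕ) :
    0 < (P.A2 : ℚ) ∧ 0 < (P.A1 : ℚ) + P.A2 * (i + 1 + l) ∧
      P.a + i + 1 + l = ((P.A1 : ℚ) + P.A2 * (i + 1 + l)) / P.A2 := by
  have hA : (0 : ℚ) < P.A2 := by exact_mod_cast hP.1
  refine ⟨hA, by positivity, ?_⟩
  unfold Par.a
  field_simp
  ring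

private theorem p1_w1 {P : Par} (hP : P.Ok) (E : List (ℕ × ℕ)) (i b v y l : ℕ) :
    |wv (false, (4 * 2 ^ b * (P.y1 ^ (multL E v y).length * P.A2),
          P.y2 ^ (multL E v y).length * (P.A1 + P.A2 * (i + 1 + l))))| =
      4 * 2 ^ b * (wG P.y E v y / (P.a + i + 1 + l)) := by
  obtain ⟨hA, hd, e1⟩ := p1_den hP i l
  have hy : (0 : ℚ) < P.y2 := by
    have := hP.2
    exact_mod_cast (by omega : 0 < P.y2)
  have h5 : wG P.y E v y = (P.y1 : ℚ) ^ (multL E v y).length / (P.y2 : ℚ) ^ (multL E v y).length := by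
    unfold wG mult Par.y
    rw [div_pow]
  rw [e1, h5]
  unfold wv
  simp only [Bool.false_eq_true, if_false, one_mul]
  push_cast
  rw [abs_of_nonneg (by positivity)]
  have h10 : (0 : ℚ) < (P.y2 : ℚ) ^ (multL E v y).length := by positivity
  generalize (P.y2 : ℚ) ^ (multL E v y).length = Y2 at *
  generalize (P.y1 : ℚ) ^ (multL E v y).length = Y1 at *
  generalize (P.A1 : ℚ) + P.A2 * (i + 1 + l) = Z at *
  field_simp

private theorem p1_w2 {P : Par} (hP : P.Ok) (i b l : ℕ) :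
    |wv (true, (4 * 2 ^ b * P.A2, P.A1 + P.A2 * (i + 1 + l)))| =
      4 * 2 ^ b * (1 / (P.a + i + 1 + l)) := by
  obtain ⟨hA, hd, e1⟩ := p1_den hP i l
  rw [e1]
  unfold wv
  simp only [if_true]
  push_cast
  rw [abs_mul, abs_neg, abs_one, one_mul, abs_of_nonneg (by positivity)]
  generalize (P.A1 : ℚ) + P.A2 * (i + 1 + l) = Z at *
  field_simp

private theorem p1_in {P : Par} (hP : P.Ok) (E : List (ℕ × ℕ)) (i b v y : ℕ) (L : LL) (D : ℚ) :
    (∑ c ∈ range 4, |wv (out P E i b c y (1, (v, L))).1| *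
        ((out P E i b c y (1, (v, L))).2.map (pot P E D)).prod) =
      4 + if y ∈ vs L then 4 * 2 ^ b * (2 / (P.a + i + 1 + L.length) *
        (wG P.y E v y * (1 + (∑ x ∈ (vs L).erase y, (1 - gtW (wG P.y E) v y x) * wG P.y E y x) / (2 * D)) +
          (∑ x ∈ (vs L).erase y, (1 - gtI y x) * wG P.y E y x) / (2 * D))) else 0 := by
  have e0 : out P E i b 0 y (1, (v, L)) = ((false, (4, 1)), []) := by simp [out]
  have h0 : wv (out0).1 = 0 := by simp [wv, out0]
  have h4 : wv (false, (4, 1)) = 4 := by simp [wv]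
  have k3 : |(4 : ℚ)| = 4 := abs_of_pos (by norm_num)
  rw [sum_range_succ, sum_range_succ, sum_range_succ, sum_range_succ, sum_range_zero, e0]
  by_cases hp : pres y L = true
  · have e1 : out P E i b 1 y (1, (v, L)) = ((false, (4 * 2 ^ b * (P.y1 ^ (multL E v y).length * P.A2),
          P.y2 ^ (multL E v y).length * (P.A1 + P.A2 * (i + 1 + L.length)))), [(1, (v, L))]) := by
      simp [out, hp]
    have e2 : out P E i b 2 y (1, (v, L)) = ((false, (4 * 2 ^ b * (P.y1 ^ (multL E v y).length * P.A2),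
          P.y2 ^ (multL E v y).length * (P.A1 + P.A2 * (i + 1 + L.length)))),
            [(2, (y, chw E v y L)), (1, (v, L))]) := by
      simp [out, hp]
    have e3 : out P E i b 3 y (1, (v, L)) = ((true, (4 * 2 ^ b * P.A2, P.A1 + P.A2 * (i + 1 + L.length))),
            [(2, (y, ch1 y L)), (1, (v, L))]) := by
      simp [out, hp]
    have k1 : pot P E D (1, (v, L)) = 2 := by simp [pot]
    have k2 : pot P E D (2, (y, chw E v y L)) =
        (∑ x ∈ (vs L).erase y, (1 - gtW (wG P.y E) v y x) * wG P.y E y x) / (2 * D) := by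
      have j1 : pot P E D (2, (y, chw E v y L)) = (∑ x ∈ vs (chw E v y L),
          (1 - cv P.y (chw E v y L) x) * wG P.y E y x) / (2 * D) := by simp [pot]
      rw [j1, vs_chw]
      congr 1
      refine sum_congr rfl fun x hx => ?_
      rw [cv_chw P.y E hx]
    have k4 : pot P E D (2, (y, ch1 y L)) =
        (∑ x ∈ (vs L).erase y, (1 - gtI y x) * wG P.y E y x) / (2 * D) := by
      have j1 : pot P E D (2, (y, ch1 y L)) = (∑ x ∈ vs (ch1 y L),
          (1 - cv P.y (ch1 y L) x) * wG P.y E y x) / (2 * D) := by simp [pot]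
      rw [j1, vs_ch1]
      congr 1
      refine sum_congr rfl fun x hx => ?_
      rw [cv_ch1 P.y hx]
    rw [e1, e2, e3, if_pos ((pres_iff y L).1 hp)]
    simp only [List.map_cons, List.map_nil, List.prod_cons, List.prod_nil, h4, k3, mul_one]
    rw [k1, k2, k4, p1_w1 hP, p1_w2 hP]
    ring
  · have e1 : ∀ c ≠ 0, out P E i b c y (1, (v, L)) = out0 := by
      intro c hc
      simp [out, hp, hc]
    rw [e1 1 (by norm_num), e1 2 (by norm_num), e1 3 (by norm_num), h0,
      if_neg (fun h => hp ((pres_iff y L).2 h))]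
    simp only [List.map_nil, List.prod_nil, h4, k3]
    simp

theorem pot1 {P : Par} (hP : P.Ok) (E : List (ℕ × ℕ)) (i b v n S : ℕ) {L : LL}
    (hn : (L.map Prod.fst).Nodup) (hb : vs L ⊆ range (2 ^ b)) (hL : vs L ⊆ range n) {D ρ : ℚ}
    (hR : Rows P.y E n D) (hv : v < n) (hvL : v ∉ vs L) (hS0 : 0 < S) (hS : S ≤ i + 1 + L.length)
    (hSD : 6 * D ≤ S) (hρ : 3 / 4 + 3 / 2 * (D / S) ≤ ρ) :
    (∑ y ∈ range (2 ^ b), ∑ c ∈ range 4,
      |wv (out P E i b c y (1, (v, L))).1| *
        ((out P E i b c y (1, (v, L))).2.map (pot P E D)).prod) / (4 * 2 ^ b) ≤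
      ρ * pot P E D (1, (v, L)) := by
  have _ := hSD
  obtain ⟨ha, hy0, hy1⟩ := par_bd hP
  have hw := wG_ok hy0 hy1.le E
  have hpot : pot P E D (1, (v, L)) = 2 := by simp [pot]
  have hS' : (0 : ℚ) < S := by exact_mod_cast hS0
  have hSL : (S : ℚ) ≤ i + 1 + L.length := by exact_mod_cast hS
  have hsub : insert v (vs L) ⊆ range n := insert_subset (mem_range.2 hv) hL
  have hD : ∀ x ∈ insert v (vs L), ∑ z ∈ (insert v (vs L)).erase x, wG P.y E x z ≤ D := by
    intro x hx
    refine le_trans ?_ (hR x (mem_range.1 (hsub hx)))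
    exact sum_le_sum_of_subset_of_nonneg (erase_subset_erase x hsub) fun z _ _ => (hw.2 x z).1
  have hD0 : 0 ≤ D := (sum_nonneg fun z _ => (hw.2 v z).1).trans (hR v hv)
  have hG := pot_G hw hvL hD
  rw [card_vs hn] at hG
  rw [hpot, sum_congr rfl fun y _ => p1_in hP E i b v y L D, sum_add_distrib, sum_const,
    card_range, nsmul_eq_mul]
  rw [sum_ite_mem, inter_eq_right.2 hb, ← mul_sum, ← mul_sum, sum_add_distrib]
  push_cast
  generalize (∑ z ∈ vs L, wG P.y E v z *
    (1 + (∑ x ∈ (vs L).erase z, (1 - gtW (wG P.y E) v z x) * wG P.y E z x) / (2 * D)) +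
      ∑ z ∈ vs L, (∑ x ∈ (vs L).erase z, (1 - gtI z x) * wG P.y E z x) / (2 * D)) = G at hG ⊢
  have hs : (0 : ℚ) < P.a + i + 1 + L.length := by positivity
  have hSs : (S : ℚ) ≤ P.a + i + 1 + L.length := by linarith
  have hLs : (L.length : ℚ) ≤ P.a + i + 1 + L.length := by
    have : (0 : ℚ) ≤ i := Nat.cast_nonneg i
    linarith
  have hb' : (0 : ℚ) < 2 ^ b := by positivity
  rw [div_le_iff₀ (by positivity)]
  have h1 : D / (P.a + i + 1 + L.length) ≤ D / S := div_le_div_of_nonneg_left hD0 hS' hSs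
  have h2 : (L.length : ℚ) / (P.a + i + 1 + L.length) ≤ 1 := (div_le_one hs).2 hLs
  have h3 : 2 / (P.a + i + 1 + L.length) * G ≤ 2 / (P.a + i + 1 + L.length) * (3 / 2 * D + L.length / 4) :=
    mul_le_mul_of_nonneg_left hG (by positivity)
  have h4 : 2 / (P.a + i + 1 + L.length) * (3 / 2 * D + L.length / 4) =
      3 * (D / (P.a + i + 1 + L.length)) + (L.length : ℚ) / (P.a + i + 1 + L.length) / 2 := by
    field_simp
    ring
  have h5 : 1 + 2 / (P.a + i + 1 + L.length) * G ≤ ρ * 2 := by linarith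
  have h6 := mul_le_mul_of_nonneg_left h5 (show (0 : ℚ) ≤ 4 * 2 ^ b by positivity)
  linarith

end Pool.Agent.DFP
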