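import Pool.Agent.DFP.LstB

set_option autoImplicit false

/-!
# DFP-Pot2: the potential inequality, type 2
-/

namespace Pool.Agent.DFP

open Finset

private theorem pot2_wt {P : Par} (hP : P.Ok) (E : List (ℕ × ℕ)) (i b v y : ℕ) (L : LL) :
    |wv (false, (4 * 2 ^ b * ((cden P (cd y L) - cnum P (cd y L)) *
          (P.y1 ^ (multL E v y).length * P.A2)),
        cden P (cd y L) *
          (P.y2 ^ (multL E v y).length * (P.A1 + P.A2 * (i + 1 + L.length)))))| =
      4 * 2 ^ b * (((1 - cv P.y L y) * wG P.y E v y) / (P.a + i + 1 + L.length)) := by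
  obtain ⟨h1, h2, h3⟩ := cfrac hP (cd y L)
  obtain ⟨hA, hy⟩ := hP
  have hA' : (0 : ℚ) < P.A2 := by exact_mod_cast hA
  have hy2 : (0 : ℚ) < P.y2 := by
    have : 0 < P.y2 := by omega
    exact_mod_cast this
  have hc : (0 : ℚ) < cden P (cd y L) := by exact_mod_cast h1
  have hle : ((cnum P (cd y L) : ℕ) : ℚ) ≤ cden P (cd y L) := by exact_mod_cast h2
  have hq : (0 : ℚ) < (P.y2 : ℚ) ^ (multL E v y).length := pow_pos hy2 _
  have hA1 : (0 : ℚ) ≤ P.A1 := Nat.cast_nonneg _
  have hs : (0 : ℚ) < P.A1 + P.A2 * (i + 1 + L.length) := by positivity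
  have hs' : (0 : ℚ) < (P.A1 : ℚ) / P.A2 + i + 1 + L.length := by positivity
  have key : wv (false, (4 * 2 ^ b * ((cden P (cd y L) - cnum P (cd y L)) *
          (P.y1 ^ (multL E v y).length * P.A2)),
        cden P (cd y L) *
          (P.y2 ^ (multL E v y).length * (P.A1 + P.A2 * (i + 1 + L.length))))) =
      4 * 2 ^ b * (((1 - cv P.y L y) * wG P.y E v y) / (P.a + i + 1 + L.length)) := by
    unfold wv wG mult cv Par.a
    rw [← h3]
    unfold Par.y
    simp only [Bool.false_eq_true, if_false, one_mul]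
    push_cast [Nat.cast_sub h2]
    rw [div_pow]
    have e1 : (P.A1 : ℚ) + P.A2 * (i + 1 + L.length) =
        P.A2 * ((P.A1 : ℚ) / P.A2 + i + 1 + L.length) := by
      field_simp
      ring
    rw [e1]
    field_simp
  rw [key]
  refine abs_of_nonneg ?_
  have h4 : cv P.y L y ≤ 1 := by
    unfold cv
    rw [← h3]
    exact div_le_one_of_le₀ hle hc.le
  have h5 : 0 ≤ wG P.y E v y := by
    unfold wG Par.y
    positivity
  have h6 : 0 ≤ 1 - cv P.y L y := by linarith
  have h7 : (0 : ℚ) < P.a + i + 1 + L.length := hs'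
  positivity

theorem pot2 {P : Par} (hP : P.Ok) (E : List (ℕ × ℕ)) (i b v n S : ℕ) {L : LL}
    (hn : (L.map Prod.fst).Nodup) (hb : vs L ⊆ range (2 ^ b)) (hL : vs L ⊆ range n) {D ρ : ℚ}
    (hR : Rows P.y E n D) (hv : v < n) (hvL : v ∉ vs L) (hS0 : 0 < S) (hS : S ≤ i + 1 + L.length)
    (hSD : 6 * D ≤ S) (hρ : 3 / 4 + 3 / 2 * (D / S) ≤ ρ) :
    (∑ y ∈ range (2 ^ b), ∑ c ∈ range 4,
      |wv (out P E i b c y (2, (v, L))).1| *
        ((out P E i b c y (2, (v, L))).2.map (pot P E D)).prod) / (4 * 2 ^ b) ≤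
      ρ * pot P E D (2, (v, L)) := by
  obtain ⟨ha, hy0, hy1⟩ := par_bd hP
  have hw := wG_ok hy0 hy1.le E
  have hcv := cv_ok hy0 hy1.le L
  have hg : ∀ y, 0 ≤ (1 - cv P.y L y) * wG P.y E v y := fun y =>
    mul_nonneg (by linarith [(hcv y).2]) (hw.2 v y).1
  have hS1 : (0 : ℚ) < S := by exact_mod_cast hS0
  have hSs : (S : ℚ) ≤ P.a + i + 1 + L.length := by
    have h1 : ((S : ℕ) : ℚ) ≤ ((i + 1 + L.length : ℕ) : ℚ) := by exact_mod_cast hS
    push_cast at h1
    linarith
  have hs0 : 0 < P.a + i + 1 + L.length := lt_of_lt_of_le hS1 hSs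
  have hD0 : 0 ≤ D := (Finset.sum_nonneg (fun x _ => (hw.2 v x).1)).trans (hR v hv)
  have hinner : ∀ y ∈ range (2 ^ b),
      (∑ c ∈ range 4, |wv (out P E i b c y (2, (v, L))).1| *
        ((out P E i b c y (2, (v, L))).2.map (pot P E D)).prod) ≤
      if y ∈ vs L then
        4 * 2 ^ b * (((1 - cv P.y L y) * wG P.y E v y) / (P.a + i + 1 + L.length)) * 3 else 0 := by
    intro y _
    by_cases hy : y ∈ vs L
    · have hp : pres y L = true := (pres_iff y L).2 hy
      rw [if_pos hy]
      have hwt := pot2_wt hP E i b v y L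
      have o0 : out P E i b 0 y (2, (v, L)) =
          ((false, (4 * 2 ^ b * ((cden P (cd y L) - cnum P (cd y L)) *
          (P.y1 ^ (multL E v y).length * P.A2)),
        cden P (cd y L) *
          (P.y2 ^ (multL E v y).length * (P.A1 + P.A2 * (i + 1 + L.length))))),
          [(1, (v, L))]) := by simp [out, hp]
      have o1 : out P E i b 1 y (2, (v, L)) =
          ((false, (4 * 2 ^ b * ((cden P (cd y L) - cnum P (cd y L)) *
          (P.y1 ^ (multL E v y).length * P.A2)),
        cden P (cd y L) *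
          (P.y2 ^ (multL E v y).length * (P.A1 + P.A2 * (i + 1 + L.length))))),
          [(2, (y, chq E v y L)), (1, (v, L))]) := by simp [out, hp]
      have o2 : out P E i b 2 y (2, (v, L)) = out0 := by simp [out]
      have o3 : out P E i b 3 y (2, (v, L)) = out0 := by simp [out]
      simp only [Finset.sum_range_succ, Finset.sum_range_zero, o0, o1, o2, o3]
      rw [hwt]
      have hz : wv (out0 : Wt × List Nd).1 = 0 := by simp [out0, wv]
      have hp1 : pot P E D (1, (v, L)) = 2 := by simp [pot]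
      have hyn : y < n := Finset.mem_range.1 (hL hy)
      have hpsi : pot P E D (2, (y, chq E v y L)) ≤ 1 / 2 := by
        have hpe : pot P E D (2, (y, chq E v y L)) =
            (∑ x ∈ vs (chq E v y L), (1 - cv P.y (chq E v y L) x) * wG P.y E y x) / (2 * D) := by
          simp [pot]
        rw [hpe]
        have hle : (∑ x ∈ vs (chq E v y L), (1 - cv P.y (chq E v y L) x) * wG P.y E y x) ≤ D := by
          refine le_trans ?_ (hR y hyn)
          rw [vs_chq]
          refine le_trans (Finset.sum_le_sum (g := fun x => wG P.y E y x) ?_) ?_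
          · intro x _
            have h1 := (cv_ok hy0 hy1.le (chq E v y L) x).1
            have h2 := (hw.2 y x).1
            nlinarith
          · refine Finset.sum_le_sum_of_subset_of_nonneg (Finset.erase_subset_erase _ hL) ?_
            intro x _ _
            exact (hw.2 y x).1
        rcases eq_or_lt_of_le hD0 with h0 | h0
        · rw [← h0]; norm_num
        · rw [div_le_iff₀ (by linarith)]
          linarith
      simp only [hz, hp1, List.map_cons, List.map_nil, List.prod_cons, List.prod_nil, abs_zero,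
        zero_mul, add_zero, zero_add, mul_one]
      have hX : 0 ≤ 4 * 2 ^ b * (((1 - cv P.y L y) * wG P.y E v y) / (P.a + i + 1 + L.length)) := by
        have := hg y
        positivity
      nlinarith
    · have hp : pres y L = false := by
        rw [← Bool.not_eq_true, pres_iff]
        exact hy
      rw [if_neg hy]
      have o : ∀ c, out P E i b c y (2, (v, L)) = out0 := by
        intro c
        simp [out, hp]
      have hz : wv (out0 : Wt × List Nd).1 = 0 := by simp [out0, wv]
      simp only [o, hz, abs_zero, zero_mul, Finset.sum_const_zero, le_refl]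
  have hpow : (0 : ℚ) < 4 * 2 ^ b := by positivity
  have hsum := Finset.sum_le_sum hinner
  rw [← Finset.sum_filter, Finset.filter_mem_eq_inter, Finset.inter_eq_right.2 hb] at hsum
  have hpot : pot P E D (2, (v, L)) =
      (∑ x ∈ vs L, (1 - cv P.y L x) * wG P.y E v x) / (2 * D) := by simp [pot]
  rw [hpot, div_le_iff₀ hpow]
  refine hsum.trans ?_
  have hd : ∑ x ∈ vs L, 4 * 2 ^ b * (((1 - cv P.y L x) * wG P.y E v x) /
      (P.a + i + 1 + L.length)) * 3 =
      (3 * (∑ x ∈ vs L, (1 - cv P.y L x) * wG P.y E v x) / (P.a + i + 1 + L.length)) *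
        (4 * 2 ^ b) := by
    rw [Finset.mul_sum, Finset.sum_div, Finset.sum_mul]
    refine Finset.sum_congr rfl fun x _ => ?_
    ring
  rw [hd]
  refine mul_le_mul_of_nonneg_right ?_ hpow.le
  have hdn : 0 ≤ ∑ x ∈ vs L, (1 - cv P.y L x) * wG P.y E v x := Finset.sum_nonneg fun x _ => hg x
  rcases eq_or_lt_of_le hD0 with h0 | h0
  · have hR' := hR v hv
    rw [← h0] at hR'
    have hz : ∑ x ∈ vs L, (1 - cv P.y L x) * wG P.y E v x ≤ 0 := by
      refine le_trans (Finset.sum_le_sum (g := fun x => wG P.y E v x) ?_)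
        (le_trans (Finset.sum_le_sum_of_subset_of_nonneg (t := (range n).erase v) ?_ ?_) hR')
      · intro x _
        have h1 := (hcv x).1
        have h2 := (hw.2 v x).1
        nlinarith
      · intro x hx
        refine Finset.mem_erase.2 ⟨?_, hL hx⟩
        rintro rfl
        exact hvL hx
      · intro x _ _
        exact (hw.2 v x).1
    have hz' := le_antisymm hz hdn
    rw [hz']
    simp
  · have hr : 6 * D ≤ ρ * S := by
      have h1 : D / S ≤ 1 / 6 := by
        rw [div_le_iff₀ hS1]
        linarith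
      have h2 : 6 * (D / S) ≤ ρ := by linarith
      have h3 : 6 * (D / S) * S = 6 * D := by field_simp
      have h4 := mul_le_mul_of_nonneg_right h2 hS1.le
      linarith
    have h5 : 3 * (∑ x ∈ vs L, (1 - cv P.y L x) * wG P.y E v x) / (P.a + i + 1 + L.length) ≤
        3 * (∑ x ∈ vs L, (1 - cv P.y L x) * wG P.y E v x) / S := by
      gcongr
    refine h5.trans ?_
    rw [← mul_div_assoc, div_le_div_iff₀ hS1 (by linarith)]
    nlinarith

end Pool.Agent.DFP
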