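import Pool.Agent.DFP.Pos

set_option autoImplicit false

/-!
# DFP-Low: lower bound of `AA`

`hub_tel` against the row `1`.
-/

namespace Pool.Agent.DFP

open Finset

theorem AA_ge {b : ℚ} (hb : 0 < b) {w : ℕ → ℕ → ℚ} (hw : Ok w) (v : ℕ) (J : Finset ℕ) :
    b + ∑ y ∈ J, (1 - w v y) ≤ AA b w v J := by
  have hF := F_pos hb hw J
  unfold AA
  rw [le_div_iff₀ hF, hub_tel b hw.1 J (w v) (fun _ => 1), hub_one, mul_add, add_mul, Finset.mul_sum, Finset.sum_mul]
  refine add_le_add (le_refl _) (Finset.sum_le_sum fun y hy => ?_)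
  have h1 : Ok1 (fun x => w y x * if x < y then w v x else 1) := by
    intro x
    have h2 := hw.2 y x
    have h3 := hw.2 v x
    show 0 ≤ w y x * (if x < y then w v x else 1) ∧ w y x * (if x < y then w v x else 1) ≤ 1
    by_cases hx : x < y
    · rw [if_pos hx]
      exact ⟨mul_nonneg h2.1 h3.1, mul_le_one₀ h2.2 h3.1 h3.2⟩
    · rw [if_neg hx, mul_one]
      exact h2
  have h4 : hub b w (J.erase y) (w y) ≤ hub b w (J.erase y) (fun x => w y x * if x < y then w v x else 1) := by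
    refine hub_anti hb.le hw h1 (fun x => hw.2 y x) fun x _ => ?_
    have h2 := hw.2 y x
    have h3 := hw.2 v x
    show w y x * (if x < y then w v x else 1) ≤ w y x
    by_cases hx : x < y
    · rw [if_pos hx]
      exact mul_le_of_le_one_right h2.1 h3.2
    · rw [if_neg hx, mul_one]
  have h5 := F_eq_hub b hw.1 hy
  have h6 : 0 ≤ 1 - w v y := by
    have := (hw.2 v y).2
    linarith
  calc (1 - w v y) * F b w J = (1 - w v y) * (b * hub b w (J.erase y) (w y)) := by rw [← h5]
    _ ≤ (1 - w v y) * (b * hub b w (J.erase y) (fun x => w y x * if x < y then w v x else 1)) :=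
        mul_le_mul_of_nonneg_left (mul_le_mul_of_nonneg_left h4 hb.le) h6
    _ = b * ((1 - w v y) * hub b w (J.erase y) (fun x => w y x * if x < y then w v x else 1)) := by ring

theorem AA_ge' {b : ℚ} (hb : 0 < b) {w : ℕ → ℕ → ℚ} (hw : Ok w) {v : ℕ} {J : Finset ℕ} {D : ℚ}
    (hD : ∑ y ∈ J, w v y ≤ D) : b + J.card - D ≤ AA b w v J := by
  have h1 := AA_ge hb hw v J
  have h2 : ∑ y ∈ J, (1 - w v y) = J.card - ∑ y ∈ J, w v y := by
    rw [Finset.sum_sub_distrib, Finset.sum_const, nsmul_eq_mul, mul_one]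
  rw [h2] at h1
  linarith

theorem AA_pos {b : ℚ} (hb : 0 < b) {w : ℕ → ℕ → ℚ} (hw : Ok w) (v : ℕ) (J : Finset ℕ) :
    0 < AA b w v J := by
  have h1 := AA_ge hb hw v J
  have h2 : 0 ≤ ∑ y ∈ J, (1 - w v y) := Finset.sum_nonneg fun y _ => by
    have := (hw.2 v y).2
    linarith
  linarith

end Pool.Agent.DFP
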