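import Pool.Agent.DFP.Ids
import Pool.Agent.DFP.Low

set_option autoImplicit false

/-!
# DFP-GtB: bounds of `gt`, from `gt_step` and the lower bound of `AA`
-/

namespace Pool.Agent.DFP

open Finset

theorem gt_nonneg {a : ℚ} (ha : 0 ≤ a) {w : ℕ → ℕ → ℚ} (hw : Ok w) (J : Finset ℕ) {s : ℕ → ℚ}
    (hs : Ok1 s) : 0 ≤ gt a w J s :=
  div_nonneg (hub_nonneg ha hw J hs) (F_nonneg (by linarith) hw J)

theorem gt_le_one {a : ℚ} (ha : 0 ≤ a) {w : ℕ → ℕ → ℚ} (hw : Ok w) (J : Finset ℕ) {s : ℕ → ℚ}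
    (hs : Ok1 s) : gt a w J s ≤ 1 := by
  unfold gt
  rw [div_le_one (F_pos (by linarith) hw J)]
  exact hub_le ha hw J hs

private theorem ok_muG {w : ℕ → ℕ → ℚ} (hw : Ok w) {s : ℕ → ℚ} (hs : Ok1 s) (y : ℕ) : Ok1 (muG w s y) := by
  intro x
  unfold muG
  by_cases h : x < y
  · rw [if_pos h]
    exact ⟨le_refl 0, zero_le_one⟩
  · rw [if_neg h]
    exact ⟨mul_nonneg (hs x).1 (hw.2 y x).1, mul_le_one₀ (hs x).2 (hw.2 y x).1 (hw.2 y x).2⟩

theorem gt_ge_half {a : ℚ} (ha : 0 ≤ a) {w : ℕ → ℕ → ℚ} (hw : Ok w) {J : Finset ℕ} {s : ℕ → ℚ}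
    (hs : Ok1 s) {D : ℚ} (h1 : ∑ x ∈ J, s x ≤ D) (hD : ∀ x ∈ J, ∑ z ∈ J.erase x, w x z ≤ D)
    (hS : J = ∅ ∨ 3 * D ≤ a + J.card) : 1 / 2 ≤ gt a w J s := by
  rw [gt_step ha hw J hs]
  rcases J.eq_empty_or_nonempty with h0 | h0
  · rw [h0, Finset.sum_empty]
    norm_num
  have h2 : 3 * D ≤ a + J.card := by
    rcases hS with h | h
    · exact absurd h h0.ne_empty
    · exact h
  have hc : (1 : ℚ) ≤ J.card := by exact_mod_cast h0.card_pos
  have h3 : 0 < a + J.card - D := by linarith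
  have h4 : ∀ y ∈ J, s y * (gt a w (J.erase y) (muG w s y) *
      (GG (a + 1) w y (J.erase y) / (a + J.card))) ≤ s y * (1 / (a + J.card - D)) := by
    intro y hy
    have e1 : ((J.erase y).card : ℚ) = J.card - 1 := by
      rw [Finset.card_erase_of_mem hy, Nat.cast_sub h0.card_pos, Nat.cast_one]
    have e2 : a + J.card - D ≤ AA (a + 1) w y (J.erase y) := by
      have := AA_ge' (b := a + 1) (by linarith) hw (v := y) (J := J.erase y) (hD y hy)
      rw [e1] at this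
      linarith
    have e3 : GG (a + 1) w y (J.erase y) / (a + J.card) = 1 / AA (a + 1) w y (J.erase y) := by
      unfold GG
      rw [e1, show a + 1 + ((J.card : ℚ) - 1) = a + J.card by ring, div_div, div_eq_div_iff]
      · ring
      · exact mul_ne_zero (by linarith) (by linarith)
      · linarith
    have e4 : 1 / AA (a + 1) w y (J.erase y) ≤ 1 / (a + J.card - D) := one_div_le_one_div_of_le h3 e2
    have e5 : 0 ≤ 1 / AA (a + 1) w y (J.erase y) := by
      have : 0 < AA (a + 1) w y (J.erase y) := h3.trans_le e2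
      positivity
    have e6 := gt_le_one ha hw (J.erase y) (ok_muG hw hs y)
    rw [e3]
    refine mul_le_mul_of_nonneg_left ?_ (hs y).1
    calc gt a w (J.erase y) (muG w s y) * (1 / AA (a + 1) w y (J.erase y)) ≤
          1 * (1 / AA (a + 1) w y (J.erase y)) := mul_le_mul_of_nonneg_right e6 e5
      _ ≤ 1 / (a + J.card - D) := by rw [one_mul]; exact e4
  have h5 := Finset.sum_le_sum h4
  rw [← Finset.sum_mul] at h5
  have h6 : (∑ y ∈ J, s y) * (1 / (a + J.card - D)) ≤ D * (1 / (a + J.card - D)) :=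
    mul_le_mul_of_nonneg_right h1 (by positivity)
  have h7 : D * (1 / (a + J.card - D)) ≤ 1 / 2 := by
    rw [mul_one_div, div_le_div_iff₀ h3 (by norm_num)]
    linarith
  linarith

end Pool.Agent.DFP
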