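import Pool.Agent.DFP.LstB
import Pool.Agent.DFP.Bnd
import Pool.Agent.DFP.GtB

set_option autoImplicit false

/-!
# DFP-VP: values are between 0 and the potential
-/

namespace Pool.Agent.DFP

open Finset

theorem val_pot {P : Par} (hP : P.Ok) (E : List (ℕ × ℕ)) (i n S k : ℕ) {D : ℚ}
    (hR : Rows P.y E n D) (hSD : 6 * D + 2 ≤ S) {nd : Nd} (h : Vd P n i D S k nd) :
    0 ≤ val P E i nd ∧ val P E i nd ≤ pot P E D nd := by
  obtain ⟨hnd, hsub, hcase⟩ := h
  obtain ⟨ha, hy0, hy1⟩ := par_bd hP
  have hw : Ok (wG P.y E) := wG_ok hy0 hy1.le E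
  have hl : Ok1 (cv P.y nd.2.2) := cv_ok hy0 hy1.le nd.2.2
  have hi : (0 : ℚ) ≤ i := Nat.cast_nonneg _
  rcases hcase with ⟨h0, _, _⟩ | ⟨h12, hv, hvn, hlen⟩
  · have e1 : val P E i nd = gt (P.a + i) (wG P.y E) (vs nd.2.2) (cv P.y nd.2.2) := by
      unfold val
      rw [if_pos h0]
    have e2 : pot P E D nd = 5 / 2 := by
      unfold pot
      rw [if_pos h0]
    rw [e1, e2]
    have h3 := gt_nonneg (a := P.a + i) (by linarith) hw (vs nd.2.2) hl
    have h4 := gt_le_one (a := P.a + i) (by linarith) hw (vs nd.2.2) hl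
    exact ⟨h3, h4.trans (by norm_num)⟩
  · have hcard : ((vs nd.2.2).card : ℚ) = nd.2.2.length := by rw [card_vs hnd]
    have hlen' : (S : ℚ) ≤ i + 1 + nd.2.2.length := by
      have h5 : S ≤ i + 1 + nd.2.2.length := by omega
      exact_mod_cast h5
    have hrow : ∀ J : Finset ℕ, J ⊆ range n → ∀ v, v < n → v ∉ J → ∑ z ∈ J, wG P.y E v z ≤ D := by
      intro J hJ v hv' hvJ
      refine le_trans ?_ (hR v hv')
      refine sum_le_sum_of_subset_of_nonneg ?_ fun z _ _ => (hw.2 v z).1
      intro z hz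
      rw [mem_erase]
      exact ⟨fun h6 => hvJ (h6 ▸ hz), hJ hz⟩
    rcases h12 with h1 | h2
    · have e1 : val P E i nd = GG (P.a + i + 1) (wG P.y E) nd.2.1 (vs nd.2.2) := by
        unfold val
        rw [if_neg (by rw [h1]; decide), if_pos h1]
      have e2 : pot P E D nd = 2 := by
        unfold pot
        rw [if_neg (by rw [h1]; decide), if_pos h1]
      rw [e1, e2]
      refine GG_bd (by linarith) hw (hrow _ hsub _ hv hvn) ?_
      rw [hcard]
      linarith
    · have e1 : val P E i nd = QQ (P.a + i + 1) (wG P.y E) nd.2.1 (vs nd.2.2) (cv P.y nd.2.2) - 1 := by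
        unfold val
        rw [if_neg (by rw [h2]; decide), if_neg (by rw [h2]; decide), if_pos h2]
      have e2 : pot P E D nd = (∑ x ∈ vs nd.2.2, (1 - cv P.y nd.2.2 x) * wG P.y E nd.2.1 x) / (2 * D) := by
        unfold pot
        rw [if_neg (by rw [h2]; decide), if_neg (by rw [h2]; decide)]
      rw [e1, e2]
      refine QQ_bd (by linarith) hw hvn hl ?_ ?_
      · have hins : insert nd.2.1 (vs nd.2.2) ⊆ range n := by
          intro z hz
          rcases mem_insert.1 hz with h7 | h7
          · rw [h7]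
            exact mem_range.2 hv
          · exact hsub h7
        intro x hx
        refine hrow _ ?_ x (mem_range.1 (hins hx)) (notMem_erase x _)
        exact (erase_subset _ _).trans hins
      · rw [hcard]
        linarith

end Pool.Agent.DFP
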