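import Pool.Agent.DFP.Pos

set_option autoImplicit false

/-!
# DFP-Ids: the expansions of `QQ`, `AA`, `GG`, `gt`
-/

namespace Pool.Agent.DFP

open Finset

private theorem idsOk1 {w : ℕ → ℕ → ℚ} (hw : Ok w) (v : ℕ) : Ok1 (w v) := fun x => hw.2 v x

private theorem idsMul {l s : ℕ → ℚ} (hl : Ok1 l) (hs : Ok1 s) : Ok1 (fun x => l x * s x) := fun x =>
  ⟨mul_nonneg (hl x).1 (hs x).1, mul_le_one₀ (hl x).2 (hs x).1 (hs x).2⟩

/-- a hub on `J.erase y` with the row `l * w y` -/
private theorem idsChild {b : ℚ} (hb : 0 < b) {w : ℕ → ℕ → ℚ} (hw : Ok w) {J : Finset ℕ} {y : ℕ} (hy : y ∈ J)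
    (l r : ℕ → ℚ) (h : ∀ x, r x = l x * w y x) :
    hub b w (J.erase y) r = QQ b w y (J.erase y) l * (F b w J / b) := by
  have h1 := hub_pos hb hw (J.erase y) (idsOk1 hw y)
  have h2 := F_eq_hub b hw.1 hy
  have h3 : hub b w (J.erase y) r = hub b w (J.erase y) (fun x => l x * w y x) :=
    hub_congr b w fun x _ => h x
  rw [h3, h2]
  unfold QQ
  have h4 : hub b w (J.erase y) (w y) ≠ 0 := h1.ne'
  have h5 : b ≠ 0 := hb.ne'
  field_simp

private theorem idsGG {b : ℚ} (hb : 0 < b) {w : ℕ → ℕ → ℚ} (hw : Ok w) (v : ℕ) (J : Finset ℕ) :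
    GG b w v J / (b + J.card) = (F b w J / b) / hub b w J (w v) := by
  have h1 := hub_pos hb hw J (idsOk1 hw v)
  have h2 := F_pos hb hw J
  have h3 : (0 : ℚ) < b + J.card := by
    have : (0 : ℚ) ≤ J.card := Nat.cast_nonneg _
    linarith
  unfold GG AA
  have h4 : hub b w J (w v) ≠ 0 := h1.ne'
  have h5 : b ≠ 0 := hb.ne'
  have h6 : F b w J ≠ 0 := h2.ne'
  have h7 : b + (J.card : ℚ) ≠ 0 := h3.ne'
  field_simp

theorem QQ_step {b : ℚ} (hb : 0 < b) {w : ℕ → ℕ → ℚ} (hw : Ok w) (v : ℕ) (J : Finset ℕ)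
    {l : ℕ → ℚ} (hl : Ok1 l) :
    QQ b w v J l = 1 + GG b w v J / (b + J.card) *
      ∑ y ∈ J, (1 - l y) * w v y * QQ b w y (J.erase y) (nuQ w v l y) := by
  have _ := hl
  have h1 := hub_pos hb hw J (idsOk1 hw v)
  have h4 : hub b w J (w v) ≠ 0 := h1.ne'
  have h2 := hub_tel b hw.1 J (fun x => l x * w v x) (w v)
  have h3 : ∑ y ∈ J, (w v y - l y * w v y) * hub b w (J.erase y)
      (fun x => w y x * if x < y then l x * w v x else w v x) =
      (∑ y ∈ J, (1 - l y) * w v y * QQ b w y (J.erase y) (nuQ w v l y)) * (F b w J / b) := by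
    rw [Finset.sum_mul]
    refine Finset.sum_congr rfl fun y hy => ?_
    rw [idsChild hb hw hy (nuQ w v l y) (fun x => w y x * if x < y then l x * w v x else w v x) ?_]
    · ring
    · intro x
      unfold nuQ
      by_cases hx : x < y
      · rw [if_pos hx, if_pos hx]
        ring
      · rw [if_neg hx, if_neg hx]
        ring
  rw [h3] at h2
  rw [idsGG hb hw]
  have h5 : QQ b w v J l = hub b w J (fun x => l x * w v x) / hub b w J (w v) := rfl
  rw [h5, h2, add_div, div_self h4]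
  ring

theorem AA_step {b : ℚ} (hb : 0 < b) {w : ℕ → ℕ → ℚ} (hw : Ok w) (v : ℕ) (J : Finset ℕ) :
    AA b w v J = b + ∑ y ∈ J, QQ b w y (J.erase y) (gtI y) -
      ∑ y ∈ J, w v y * QQ b w y (J.erase y) (gtW w v y) := by
  have h2 := hub_tel b hw.1 J (fun _ => 0) (w v)
  have h3 := hub_tel b hw.1 J (fun _ => 0) (fun _ => 1)
  have hF := F_pos hb hw J
  have e1 : ∑ y ∈ J, (w v y - 0) * hub b w (J.erase y) (fun x => w y x * if x < y then 0 else w v x) =
      (∑ y ∈ J, w v y * QQ b w y (J.erase y) (gtW w v y)) * (F b w J / b) := by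
    rw [Finset.sum_mul]
    refine Finset.sum_congr rfl fun y hy => ?_
    rw [idsChild hb hw hy (gtW w v y) (fun x => w y x * if x < y then 0 else w v x) ?_]
    · ring
    · intro x
      unfold gtW
      by_cases hx : x < y
      · rw [if_pos hx]
        ring
      · rw [if_neg hx]
        ring
  have e2 : ∑ y ∈ J, ((1 : ℚ) - 0) * hub b w (J.erase y) (fun x => w y x * if x < y then 0 else 1) =
      (∑ y ∈ J, QQ b w y (J.erase y) (gtI y)) * (F b w J / b) := by
    rw [Finset.sum_mul]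
    refine Finset.sum_congr rfl fun y hy => ?_
    rw [idsChild hb hw hy (gtI y) (fun x => w y x * if x < y then 0 else 1) ?_]
    · ring
    · intro x
      unfold gtI
      by_cases hx : x < y
      · rw [if_pos hx]
        ring
      · rw [if_neg hx]
        ring
  rw [e1] at h2
  rw [e2, hub_one] at h3
  rw [h3] at h2
  have h4 : AA b w v J = b * hub b w J (w v) / F b w J := rfl
  have h5 : b ≠ 0 := hb.ne'
  have h6 : F b w J ≠ 0 := hF.ne'
  have h7 : hub b w J (w v) = F b w J + (∑ y ∈ J, QQ b w y (J.erase y) (gtI y)) * (F b w J / b) -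
      (∑ y ∈ J, w v y * QQ b w y (J.erase y) (gtW w v y)) * (F b w J / b) := by linarith
  rw [h4, h7]
  field_simp

theorem GG_step {b : ℚ} (hb : 0 < b) {w : ℕ → ℕ → ℚ} (hw : Ok w) (v : ℕ) (J : Finset ℕ) :
    GG b w v J = 1 + (∑ y ∈ J, w v y * QQ b w y (J.erase y) (gtW w v y) -
      ∑ y ∈ J, (QQ b w y (J.erase y) (gtI y) - 1)) / (b + J.card) * GG b w v J := by
  have h1 := hub_pos hb hw J (idsOk1 hw v)
  have h2 := F_pos hb hw J
  have h3 : (0 : ℚ) < b + J.card := by
    have : (0 : ℚ) ≤ J.card := Nat.cast_nonneg _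
    linarith
  have hA : 0 < AA b w v J := by
    unfold AA
    positivity
  have h4 := AA_step hb hw v J
  have h5 : ∑ y ∈ J, w v y * QQ b w y (J.erase y) (gtW w v y) -
      ∑ y ∈ J, (QQ b w y (J.erase y) (gtI y) - 1) = b + J.card - AA b w v J := by
    rw [Finset.sum_sub_distrib, Finset.sum_const, nsmul_eq_mul, mul_one, h4]
    ring
  rw [h5]
  unfold GG
  have h6 : AA b w v J ≠ 0 := hA.ne'
  have h7 : b + (J.card : ℚ) ≠ 0 := h3.ne'
  field_simp
  ring

theorem gt_step {a : ℚ} (ha : 0 ≤ a) {w : ℕ → ℕ → ℚ} (hw : Ok w) (J : Finset ℕ) {s : ℕ → ℚ}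
    (hs : Ok1 s) :
    gt a w J s = 1 - ∑ y ∈ J, s y * (gt a w (J.erase y) (muG w s y) *
      (GG (a + 1) w y (J.erase y) / (a + J.card))) := by
  have _ := hs
  have ha1 : 0 < a + 1 := by linarith
  have hF := F_pos ha1 hw J
  have h1 := hub_tel a hw.1 J (fun _ => 0) s
  rw [hub_zero] at h1
  have h6 : F (a + 1) w J ≠ 0 := hF.ne'
  have e1 : ∑ y ∈ J, (s y - 0) * hub a w (J.erase y) (fun x => w y x * if x < y then 0 else s x) =
      (∑ y ∈ J, s y * (gt a w (J.erase y) (muG w s y) *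
        (GG (a + 1) w y (J.erase y) / (a + J.card)))) * F (a + 1) w J := by
    rw [Finset.sum_mul]
    refine Finset.sum_congr rfl fun y hy => ?_
    have h2 : hub a w (J.erase y) (fun x => w y x * if x < y then 0 else s x) =
        hub a w (J.erase y) (muG w s y) := by
      refine hub_congr a w fun x _ => ?_
      unfold muG
      by_cases hx : x < y
      · rw [if_pos hx, if_pos hx, mul_zero]
      · rw [if_neg hx, if_neg hx, mul_comm]
    have h3 := F_pos ha1 hw (J.erase y)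
    have h4 : F (a + 1) w (J.erase y) ≠ 0 := h3.ne'
    have h5 := F_eq_hub (a + 1) hw.1 hy
    have h7 := idsGG ha1 hw y (J.erase y)
    have h8 : (((J.erase y).card : ℕ) : ℚ) = J.card - 1 := by
      rw [Finset.card_erase_of_mem hy, Nat.cast_sub (Finset.card_pos.2 ⟨y, hy⟩), Nat.cast_one]
    have h9 : a + 1 + (((J.erase y).card : ℕ) : ℚ) = a + J.card := by
      rw [h8]
      ring
    rw [h9] at h7
    rw [h2, h7]
    have h10 : hub (a + 1) w (J.erase y) (w y) ≠ 0 := (hub_pos ha1 hw (J.erase y) (idsOk1 hw y)).ne'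
    have h11 : a + 1 ≠ 0 := ha1.ne'
    rw [h5]
    unfold gt
    field_simp
    ring
  rw [e1] at h1
  have h2 : gt a w J s = hub a w J s / F (a + 1) w J := rfl
  have h3 : hub a w J s = F (a + 1) w J - (∑ y ∈ J, s y * (gt a w (J.erase y) (muG w s y) *
        (GG (a + 1) w y (J.erase y) / (a + J.card)))) * F (a + 1) w J := by linarith
  rw [h2, h3]
  generalize ∑ y ∈ J, s y * (gt a w (J.erase y) (muG w s y) *
        (GG (a + 1) w y (J.erase y) / (a + J.card))) = S
  field_simp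

end Pool.Agent.DFP
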