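import Pool.Agent.DFP.LstB
import Pool.Agent.DFP.Ids

set_option autoImplicit false

/-!
# DFP-Val1: the expansion of nodes of type 1
-/

namespace Pool.Agent.DFP

open Finset

private theorem val1_wtA {P : Par} (hP : P.Ok) (E : List (ℕ × ℕ)) (i b v y : ℕ) (L : LL) :
    wv (false, (4 * 2 ^ b * (P.y1 ^ (multL E v y).length * P.A2),
          P.y2 ^ (multL E v y).length * (P.A1 + P.A2 * (i + 1 + L.length)))) =
      4 * 2 ^ b * (wG P.y E v y / (P.a + i + 1 + L.length)) := by
  have hA : (0 : ℚ) < P.A2 := by exact_mod_cast hP.1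
  have hy : (0 : ℚ) < P.y2 := by
    have := hP.2
    exact_mod_cast (by omega : 0 < P.y2)
  have h5 : wG P.y E v y = (P.y1 : ℚ) ^ (multL E v y).length / (P.y2 : ℚ) ^ (multL E v y).length := by
    unfold wG mult Par.y
    rw [div_pow]
  have h6 : P.a = (P.A1 : ℚ) / P.A2 := rfl
  have h7 : (0 : ℚ) < (P.A1 : ℚ) + P.A2 * (i + 1 + L.length) := by positivity
  have h9 : (P.A1 : ℚ) / P.A2 + i + 1 + L.length = ((P.A1 : ℚ) + P.A2 * (i + 1 + L.length)) / P.A2 := by
    field_simp
    ring
  rw [h5, h6, h9]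
  unfold wv
  simp only [Bool.false_eq_true, if_false, one_mul]
  push_cast
  have h10 : (0 : ℚ) < (P.y2 : ℚ) ^ (multL E v y).length := by positivity
  generalize (P.y2 : ℚ) ^ (multL E v y).length = Y2 at *
  generalize (P.y1 : ℚ) ^ (multL E v y).length = Y1 at *
  generalize (P.A1 : ℚ) + P.A2 * (i + 1 + L.length) = Z at *
  field_simp

private theorem val1_wtB {P : Par} (hP : P.Ok) (i b : ℕ) (L : LL) :
    wv (true, (4 * 2 ^ b * P.A2, P.A1 + P.A2 * (i + 1 + L.length))) =
      - (4 * 2 ^ b * (1 / (P.a + i + 1 + L.length))) := by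
  have hA : (0 : ℚ) < P.A2 := by exact_mod_cast hP.1
  have h6 : P.a = (P.A1 : ℚ) / P.A2 := rfl
  have h7 : (0 : ℚ) < (P.A1 : ℚ) + P.A2 * (i + 1 + L.length) := by positivity
  have h9 : (P.A1 : ℚ) / P.A2 + i + 1 + L.length = ((P.A1 : ℚ) + P.A2 * (i + 1 + L.length)) / P.A2 := by
    field_simp
    ring
  rw [h6, h9]
  unfold wv
  simp only [if_true]
  push_cast
  generalize (P.A1 : ℚ) + P.A2 * (i + 1 + L.length) = Z at *
  field_simp

private theorem val1_inner {P : Par} (hP : P.Ok) (E : List (ℕ × ℕ)) (i b v y : ℕ) {L : LL} :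
    (∑ c ∈ range 4, wv (out P E i b c y (1, (v, L))).1 *
        ((out P E i b c y (1, (v, L))).2.map (val P E i)).prod) =
      4 + if y ∈ vs L then
        4 * 2 ^ b * ((wG P.y E v y * QQ (P.a + i + 1) (wG P.y E) y ((vs L).erase y)
            (gtW (wG P.y E) v y) - (QQ (P.a + i + 1) (wG P.y E) y ((vs L).erase y) (gtI y) - 1)) /
            (P.a + i + 1 + L.length) * GG (P.a + i + 1) (wG P.y E) v (vs L))
      else 0 := by
  have h0 : wv (false, (0, 1)) = 0 := by
    unfold wv
    simp
  have h4 : wv (false, (4, 1)) = 4 := by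
    unfold wv
    simp
  have e0 : out P E i b 0 y (1, (v, L)) = ((false, (4, 1)), []) := by
    unfold out
    simp
  by_cases hy : y ∈ vs L
  · rw [if_pos hy]
    have hp : pres y L = true := (pres_iff y L).2 hy
    have e1 : out P E i b 1 y (1, (v, L)) =
        ((false, (4 * 2 ^ b * (P.y1 ^ (multL E v y).length * P.A2),
          P.y2 ^ (multL E v y).length * (P.A1 + P.A2 * (i + 1 + L.length)))), [(1, (v, L))]) := by
      unfold out
      simp [hp]
    have e2 : out P E i b 2 y (1, (v, L)) =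
        ((false, (4 * 2 ^ b * (P.y1 ^ (multL E v y).length * P.A2),
          P.y2 ^ (multL E v y).length * (P.A1 + P.A2 * (i + 1 + L.length)))),
          [(2, (y, chw E v y L)), (1, (v, L))]) := by
      unfold out
      simp [hp]
    have e3 : out P E i b 3 y (1, (v, L)) =
        ((true, (4 * 2 ^ b * P.A2, P.A1 + P.A2 * (i + 1 + L.length))),
          [(2, (y, ch1 y L)), (1, (v, L))]) := by
      unfold out
      simp [hp]
    have f1 : val P E i (1, (v, L)) = GG (P.a + i + 1) (wG P.y E) v (vs L) := by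
      unfold val
      simp
    have f2 : val P E i (2, (y, chw E v y L)) = QQ (P.a + i + 1) (wG P.y E) y ((vs L).erase y)
        (gtW (wG P.y E) v y) - 1 := by
      unfold val
      simp only [if_true, OfNat.ofNat_ne_zero, if_false, OfNat.ofNat_ne_one]
      rw [vs_chw]
      have h1 : QQ (P.a + i + 1) (wG P.y E) y ((vs L).erase y) (cv P.y (chw E v y L)) =
          QQ (P.a + i + 1) (wG P.y E) y ((vs L).erase y) (gtW (wG P.y E) v y) := by
        unfold QQ
        congr 1
        refine hub_congr _ _ fun x hx => ?_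
        show cv P.y (chw E v y L) x * _ = gtW (wG P.y E) v y x * _
        rw [cv_chw P.y E hx]
      rw [h1]
    have f3 : val P E i (2, (y, ch1 y L)) = QQ (P.a + i + 1) (wG P.y E) y ((vs L).erase y)
        (gtI y) - 1 := by
      unfold val
      simp only [if_true, OfNat.ofNat_ne_zero, if_false, OfNat.ofNat_ne_one]
      rw [vs_ch1]
      have h1 : QQ (P.a + i + 1) (wG P.y E) y ((vs L).erase y) (cv P.y (ch1 y L)) =
          QQ (P.a + i + 1) (wG P.y E) y ((vs L).erase y) (gtI y) := by
        unfold QQ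
        congr 1
        refine hub_congr _ _ fun x hx => ?_
        show cv P.y (ch1 y L) x * _ = gtI y x * _
        rw [cv_ch1 P.y hx]
      rw [h1]
    rw [Finset.sum_range_succ, Finset.sum_range_succ, Finset.sum_range_succ, Finset.sum_range_succ,
      Finset.sum_range_zero, e0, e1, e2, e3]
    simp only [List.map_cons, List.map_nil, List.prod_cons, List.prod_nil, mul_one]
    rw [f1, f2, f3, h4, val1_wtA hP, val1_wtB hP]
    ring
  · rw [if_neg hy]
    have hp : pres y L = false := by
      rw [← Bool.not_eq_true, pres_iff]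
      exact hy
    have e1 : out P E i b 1 y (1, (v, L)) = out0 := by
      unfold out
      simp [hp]
    have e2 : out P E i b 2 y (1, (v, L)) = out0 := by
      unfold out
      simp [hp]
    have e3 : out P E i b 3 y (1, (v, L)) = out0 := by
      unfold out
      simp [hp]
    rw [Finset.sum_range_succ, Finset.sum_range_succ, Finset.sum_range_succ, Finset.sum_range_succ,
      Finset.sum_range_zero, e0, e1, e2, e3]
    unfold out0
    simp only [List.map_nil, List.prod_nil, mul_one]
    rw [h0, h4]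
    ring

theorem val1 {P : Par} (hP : P.Ok) (E : List (ℕ × ℕ)) (i b v : ℕ) {L : LL}
    (hn : (L.map Prod.fst).Nodup) (hb : vs L ⊆ range (2 ^ b)) :
    val P E i (1, (v, L)) = (∑ y ∈ range (2 ^ b), ∑ c ∈ range 4,
      wv (out P E i b c y (1, (v, L))).1 *
        ((out P E i b c y (1, (v, L))).2.map (val P E i)).prod) / (4 * 2 ^ b) := by
  obtain ⟨ha, hy0, hy1⟩ := par_bd hP
  have hw := wG_ok hy0 hy1.le E
  have hbp : (0 : ℚ) < P.a + i + 1 := by positivity
  have h1 := GG_step hbp hw v (vs L)
  have h2 : val P E i (1, (v, L)) = GG (P.a + i + 1) (wG P.y E) v (vs L) := by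
    unfold val
    simp
  have h3 : (∑ y ∈ range (2 ^ b), ∑ c ∈ range 4,
      wv (out P E i b c y (1, (v, L))).1 *
        ((out P E i b c y (1, (v, L))).2.map (val P E i)).prod) =
      2 ^ b * 4 + ∑ y ∈ vs L, 4 * 2 ^ b * ((wG P.y E v y * QQ (P.a + i + 1) (wG P.y E) y
            ((vs L).erase y)
            (gtW (wG P.y E) v y) - (QQ (P.a + i + 1) (wG P.y E) y ((vs L).erase y) (gtI y) - 1)) /
            (P.a + i + 1 + L.length) * GG (P.a + i + 1) (wG P.y E) v (vs L)) := by
    rw [Finset.sum_congr rfl fun y _ => val1_inner hP E i b v y, Finset.sum_add_distrib,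
      Finset.sum_const, Finset.card_range, ← Finset.sum_filter]
    congr 1
    · simp
    · refine Finset.sum_congr ?_ fun _ _ => rfl
      ext y
      rw [Finset.mem_filter]
      exact ⟨fun h => h.2, fun h => ⟨hb h, h⟩⟩
  have h4 : ((vs L).card : ℚ) = L.length := by rw [card_vs hn]
  have h5 : (0 : ℚ) < P.a + i + 1 + L.length := by positivity
  have h6 : (0 : ℚ) < 4 * 2 ^ b := by positivity
  rw [h4] at h1
  rw [h2, h3, eq_div_iff h6.ne']
  have h7 : ∑ y ∈ vs L, 4 * 2 ^ b * ((wG P.y E v y * QQ (P.a + i + 1) (wG P.y E) y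
            ((vs L).erase y)
            (gtW (wG P.y E) v y) - (QQ (P.a + i + 1) (wG P.y E) y ((vs L).erase y) (gtI y) - 1)) /
            (P.a + i + 1 + L.length) * GG (P.a + i + 1) (wG P.y E) v (vs L)) =
      4 * 2 ^ b * ((∑ y ∈ vs L, wG P.y E v y * QQ (P.a + i + 1) (wG P.y E) y ((vs L).erase y)
        (gtW (wG P.y E) v y) - ∑ y ∈ vs L, (QQ (P.a + i + 1) (wG P.y E) y ((vs L).erase y)
          (gtI y) - 1)) / (P.a + i + 1 + L.length) * GG (P.a + i + 1) (wG P.y E) v (vs L)) := by
    rw [← Finset.sum_sub_distrib, ← Finset.mul_sum, ← Finset.sum_mul, Finset.sum_div]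
  rw [h7]
  linear_combination (4 * 2 ^ b : ℚ) * h1

end Pool.Agent.DFP
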