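import Pool.Agent.DFP.LstB
import Pool.Agent.DFP.Ids

set_option autoImplicit false

/-!
# DFP-Val2: the expansion of nodes of type 2
-/

namespace Pool.Agent.DFP

open Finset

private theorem val2_wt {P : Par} (hP : P.Ok) (E : List (ℕ × ℕ)) (i b v y : ℕ) (L : LL) :
    wv (false, (4 * 2 ^ b * ((cden P (cd y L) - cnum P (cd y L)) *
          (P.y1 ^ (multL E v y).length * P.A2)),
        cden P (cd y L) *
          (P.y2 ^ (multL E v y).length * (P.A1 + P.A2 * (i + 1 + L.length))))) =
      4 * 2 ^ b * ((1 - cv P.y L y) * wG P.y E v y / (P.a + i + 1 + L.length)) := by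
  obtain ⟨h1, h2, h3⟩ := cfrac hP (cd y L)
  have hA : (0 : ℚ) < P.A2 := by exact_mod_cast hP.1
  have hy : (0 : ℚ) < P.y2 := by
    have := hP.2
    exact_mod_cast (by omega : 0 < P.y2)
  have hc : (0 : ℚ) < cden P (cd y L) := by exact_mod_cast h1
  have h4 : cv P.y L y = (cnum P (cd y L) : ℚ) / cden P (cd y L) := h3.symm
  have h5 : wG P.y E v y = (P.y1 : ℚ) ^ (multL E v y).length / (P.y2 : ℚ) ^ (multL E v y).length := by
    unfold wG mult Par.y
    rw [div_pow]
  have h6 : P.a = (P.A1 : ℚ) / P.A2 := rfl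
  have h7 : (0 : ℚ) < (P.A1 : ℚ) + P.A2 * (i + 1 + L.length) := by positivity
  have h8 : (0 : ℚ) < (P.A1 : ℚ) / P.A2 + i + 1 + L.length := by positivity
  have h9 : (P.A1 : ℚ) / P.A2 + i + 1 + L.length = ((P.A1 : ℚ) + P.A2 * (i + 1 + L.length)) / P.A2 := by
    field_simp
    ring
  rw [h4, h5, h6, h9]
  unfold wv
  simp only [Bool.false_eq_true, if_false, one_mul]
  push_cast [Nat.cast_sub h2]
  have h10 : (0 : ℚ) < (P.y2 : ℚ) ^ (multL E v y).length := by positivity
  generalize (P.y2 : ℚ) ^ (multL E v y).length = Y2 at *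
  generalize (P.y1 : ℚ) ^ (multL E v y).length = Y1 at *
  generalize (cden P (cd y L) : ℚ) = C at *
  generalize (cnum P (cd y L) : ℚ) = N at *
  generalize (P.A1 : ℚ) + P.A2 * (i + 1 + L.length) = Z at *
  field_simp

private theorem val2_inner {P : Par} (hP : P.Ok) (E : List (ℕ × ℕ)) (i b v y : ℕ) {L : LL} :
    (∑ c ∈ range 4, wv (out P E i b c y (2, (v, L))).1 *
        ((out P E i b c y (2, (v, L))).2.map (val P E i)).prod) =
      if y ∈ vs L then
        4 * 2 ^ b * ((1 - cv P.y L y) * wG P.y E v y / (P.a + i + 1 + L.length)) *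
          (GG (P.a + i + 1) (wG P.y E) v (vs L) *
            QQ (P.a + i + 1) (wG P.y E) y ((vs L).erase y) (nuQ (wG P.y E) v (cv P.y L) y))
      else 0 := by
  have h0 : wv (false, (0, 1)) = 0 := by
    unfold wv
    simp
  by_cases hy : y ∈ vs L
  · rw [if_pos hy]
    have hp : pres y L = true := (pres_iff y L).2 hy
    have e0 : out P E i b 0 y (2, (v, L)) = ((false, (4 * 2 ^ b * ((cden P (cd y L) - cnum P (cd y L)) *
          (P.y1 ^ (multL E v y).length * P.A2)),
        cden P (cd y L) *
          (P.y2 ^ (multL E v y).length * (P.A1 + P.A2 * (i + 1 + L.length))))), [(1, (v, L))]) := by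
      unfold out
      simp [hp]
    have e1 : out P E i b 1 y (2, (v, L)) = ((false, (4 * 2 ^ b * ((cden P (cd y L) - cnum P (cd y L)) *
          (P.y1 ^ (multL E v y).length * P.A2)),
        cden P (cd y L) *
          (P.y2 ^ (multL E v y).length * (P.A1 + P.A2 * (i + 1 + L.length))))),
          [(2, (y, chq E v y L)), (1, (v, L))]) := by
      unfold out
      simp [hp]
    have e2 : out P E i b 2 y (2, (v, L)) = out0 := by
      unfold out
      simp
    have e3 : out P E i b 3 y (2, (v, L)) = out0 := by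
      unfold out
      simp
    have f1 : val P E i (1, (v, L)) = GG (P.a + i + 1) (wG P.y E) v (vs L) := by
      unfold val
      simp
    have f2 : val P E i (2, (y, chq E v y L)) = QQ (P.a + i + 1) (wG P.y E) y ((vs L).erase y)
        (nuQ (wG P.y E) v (cv P.y L) y) - 1 := by
      unfold val
      simp only [if_true, OfNat.ofNat_ne_zero, if_false, OfNat.ofNat_ne_one]
      rw [vs_chq]
      have h1 : QQ (P.a + i + 1) (wG P.y E) y ((vs L).erase y) (cv P.y (chq E v y L)) =
          QQ (P.a + i + 1) (wG P.y E) y ((vs L).erase y) (nuQ (wG P.y E) v (cv P.y L) y) := by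
        unfold QQ
        congr 1
        refine hub_congr _ _ fun x hx => ?_
        show cv P.y (chq E v y L) x * _ = nuQ (wG P.y E) v (cv P.y L) y x * _
        rw [cv_chq P.y E hx]
      rw [h1]
    rw [Finset.sum_range_succ, Finset.sum_range_succ, Finset.sum_range_succ, Finset.sum_range_succ,
      Finset.sum_range_zero, e0, e1, e2, e3]
    unfold out0
    simp only [List.map_cons, List.map_nil, List.prod_cons, List.prod_nil, mul_one]
    rw [f1, f2, h0, val2_wt hP]
    ring
  · rw [if_neg hy]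
    have hp : ¬ pres y L = true := fun h => hy ((pres_iff y L).1 h)
    have e0 : ∀ c, out P E i b c y (2, (v, L)) = out0 := by
      intro c
      unfold out
      simp [hp]
    refine Finset.sum_eq_zero fun c _ => ?_
    rw [e0 c]
    unfold out0
    rw [h0, zero_mul]

theorem val2 {P : Par} (hP : P.Ok) (E : List (ℕ × ℕ)) (i b v : ℕ) {L : LL}
    (hn : (L.map Prod.fst).Nodup) (hb : vs L ⊆ range (2 ^ b)) :
    val P E i (2, (v, L)) = (∑ y ∈ range (2 ^ b), ∑ c ∈ range 4,
      wv (out P E i b c y (2, (v, L))).1 *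
        ((out P E i b c y (2, (v, L))).2.map (val P E i)).prod) / (4 * 2 ^ b) := by
  obtain ⟨ha, hy0, hy1⟩ := par_bd hP
  have hw := wG_ok hy0 hy1.le E
  have hl := cv_ok hy0 hy1.le L
  have hbp : (0 : ℚ) < P.a + i + 1 := by positivity
  have h1 := QQ_step hbp hw v (vs L) hl
  have h2 : val P E i (2, (v, L)) = QQ (P.a + i + 1) (wG P.y E) v (vs L) (cv P.y L) - 1 := by
    unfold val
    simp
  have h3 : (∑ y ∈ range (2 ^ b), ∑ c ∈ range 4,
      wv (out P E i b c y (2, (v, L))).1 *
        ((out P E i b c y (2, (v, L))).2.map (val P E i)).prod) =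
      ∑ y ∈ vs L, 4 * 2 ^ b * ((1 - cv P.y L y) * wG P.y E v y / (P.a + i + 1 + L.length)) *
          (GG (P.a + i + 1) (wG P.y E) v (vs L) *
            QQ (P.a + i + 1) (wG P.y E) y ((vs L).erase y) (nuQ (wG P.y E) v (cv P.y L) y)) := by
    rw [Finset.sum_congr rfl fun y _ => val2_inner hP E i b v y, ← Finset.sum_filter]
    refine Finset.sum_congr ?_ fun _ _ => rfl
    ext y
    rw [Finset.mem_filter]
    exact ⟨fun h => h.2, fun h => ⟨hb h, h⟩⟩
  have h4 : ((vs L).card : ℚ) = L.length := by rw [card_vs hn]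
  have h5 : (0 : ℚ) < P.a + i + 1 + L.length := by positivity
  rw [h2, h1, h3, h4, Finset.mul_sum, Finset.sum_div, add_sub_cancel_left]
  refine Finset.sum_congr rfl fun y _ => ?_
  have h6 : (0 : ℚ) < 2 ^ b := by positivity
  field_simp

end Pool.Agent.DFP
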