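import Pool.Agent.DFP.Val0
import Pool.Agent.DFP.Val1
import Pool.Agent.DFP.Val2
import Pool.Agent.DFP.Pot0
import Pool.Agent.DFP.Pot1
import Pool.Agent.DFP.Pot2
import Pool.Agent.DFP.VP
import Pool.Agent.DFP.Inv

set_option autoImplicit false

/-!
# DFP-Err: the truncation error

Induction on the number of steps, with `val0`, `val1`, `val2`, `pot0`, `pot1`, `pot2`.
-/

namespace Pool.Agent.DFP

open Finset

private theorem err_node {P : Par} (hP : P.Ok) (E : List (ℕ × ℕ)) (i b n S k : ℕ) {D ρ : ℚ}
    (hR : Rows P.y E n D) (hn : n ≤ 2 ^ b) (hS0 : 0 < S) (hSD : 6 * D ≤ S)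
    (hρ : 3 / 4 + 3 / 2 * (D / S) ≤ ρ) (nd : Nd) (h : Vd P n i D S k nd) :
    val P E i nd = (∑ y ∈ range (2 ^ b), ∑ c ∈ range 4,
      wv (out P E i b c y nd).1 * ((out P E i b c y nd).2.map (val P E i)).prod) / (4 * 2 ^ b) ∧
    (∑ y ∈ range (2 ^ b), ∑ c ∈ range 4,
      |wv (out P E i b c y nd).1| *
        ((out P E i b c y nd).2.map (pot P E D)).prod) / (4 * 2 ^ b) ≤ ρ * pot P E D nd := by
  obtain ⟨t, v, L⟩ := nd
  obtain ⟨hnd, hsub, hty⟩ := h
  simp only at hnd hsub hty
  have hb : vs L ⊆ range (2 ^ b) := fun x hx => by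
    have := mem_range.1 (hsub hx)
    exact mem_range.2 (by omega)
  rcases hty with ⟨h0, hs, hlen⟩ | ⟨h12, hv, hvn, hlen⟩
  · subst h0
    exact ⟨val0 hP E i b v hnd hb,
      pot0 hP E i b v n S hnd hb hsub hR hs hS0 (by omega) hSD hρ⟩
  · rcases h12 with h1 | h2
    · subst h1
      exact ⟨val1 hP E i b v hnd hb,
        pot1 hP E i b v n S hnd hb hsub hR hv hvn hS0 (by omega) hSD hρ⟩
    · subst h2
      exact ⟨val2 hP E i b v hnd hb,
        pot2 hP E i b v n S hnd hb hsub hR hv hvn hS0 (by omega) hSD hρ⟩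

private theorem err_prod {P : Par} (hP : P.Ok) (E : List (ℕ × ℕ)) (i n S k : ℕ) {D : ℚ}
    (hR : Rows P.y E n D) (hSD : 6 * D + 2 ≤ S) (st : List Nd)
    (h : ∀ nd ∈ st, Vd P n i D S k nd) :
    0 ≤ (st.map (val P E i)).prod ∧ (st.map (val P E i)).prod ≤ (st.map (pot P E D)).prod := by
  induction st with
  | nil => simp
  | cons nd st ih =>
    obtain ⟨h1, h2⟩ := ih fun x hx => h x (List.mem_cons_of_mem _ hx)
    obtain ⟨h3, h4⟩ := val_pot hP E i n S k hR hSD (h nd List.mem_cons_self)
    simp only [List.map_cons, List.prod_cons]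
    exact ⟨mul_nonneg h3 h1, mul_le_mul h4 h2 h1 (h3.trans h4)⟩

theorem err {P : Par} (hP : P.Ok) (E : List (ℕ × ℕ)) (i b n S : ℕ) {D ρ : ℚ}
    (hR : Rows P.y E n D) (hn : n ≤ 2 ^ b) (hb : 2 ^ b ≤ 4 * S) (hSD : 6 * D + 2 ≤ S)
    (hρ : 3 / 4 + 3 / 2 * (D / S) ≤ ρ) (hD0 : 0 ≤ D) (K : ℕ) (st : List Nd)
    (h : ∀ nd ∈ st, Vd P n i D S K nd) :
    |(st.map (val P E i)).prod - eK P E i b K st| ≤ ρ ^ K * (st.map (pot P E D)).prod := by
  have hSq : (0 : ℚ) < S := by linarith
  have hS0 : 0 < S := by exact_mod_cast hSq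
  have hρ0 : 0 ≤ ρ := by
    have : 0 ≤ D / S := div_nonneg hD0 hSq.le
    linarith
  induction K generalizing st with
  | zero =>
    obtain ⟨h1, h2⟩ := err_prod hP E i n S 0 hR hSD st h
    rcases eq_or_ne st [] with h0 | h0
    · subst h0
      simp [eK]
    · unfold eK
      rw [if_neg h0, sub_zero, abs_of_nonneg h1, pow_zero, one_mul]
      exact h2
  | succ K ih =>
    cases st with
    | nil =>
      unfold eK
      simp only [List.map_nil, List.prod_nil, sub_self, abs_zero, mul_one]
      exact pow_nonneg hρ0 _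
    | cons nd rest =>
      have hnd := h nd List.mem_cons_self
      have hrest : ∀ x ∈ rest, Vd P n i D S K x := fun x hx =>
        Vd_mono (Nat.le_succ K) (h x (List.mem_cons_of_mem _ hx))
      obtain ⟨r1, r2⟩ := err_prod hP E i n S K hR hSD rest hrest
      have r3 := r1.trans r2
      obtain ⟨e1, e2⟩ := err_node hP E i b n S (K + 1) hR hn hS0 (by linarith) hρ nd hnd
      have hB : (0 : ℚ) < 4 * 2 ^ b := by positivity
      have hterm : ∀ c y,
          |((out P E i b c y nd).2.map (val P E i)).prod * (rest.map (val P E i)).prod -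
            eK P E i b K ((out P E i b c y nd).2 ++ rest)| ≤
          ρ ^ K * (((out P E i b c y nd).2.map (pot P E D)).prod *
            (rest.map (pot P E D)).prod) := by
        intro c y
        obtain ⟨o1, _⟩ := out_inv hP E i b n S K c y hR hS0 hb hnd
        have := ih ((out P E i b c y nd).2 ++ rest) (by
          intro x hx
          rcases List.mem_append.1 hx with hx | hx
          · exact o1 x hx
          · exact hrest x hx)
        rw [List.map_append, List.prod_append, List.map_append, List.prod_append] at this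
        exact this
      have hd : ((nd :: rest).map (val P E i)).prod - eK P E i b (K + 1) (nd :: rest) =
          (∑ y ∈ range (2 ^ b), ∑ c ∈ range 4, wv (out P E i b c y nd).1 *
            (((out P E i b c y nd).2.map (val P E i)).prod * (rest.map (val P E i)).prod -
              eK P E i b K ((out P E i b c y nd).2 ++ rest))) / (4 * 2 ^ b) := by
        have hu : eK P E i b (K + 1) (nd :: rest) =
            (∑ y ∈ range (2 ^ b), ∑ c ∈ range 4,
              wv (out P E i b c y nd).1 * eK P E i b K ((out P E i b c y nd).2 ++ rest)) /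
              (4 * 2 ^ b) := rfl
        rw [List.map_cons, List.prod_cons, hu, e1, div_mul_eq_mul_div, ← sub_div, sum_mul,
          ← sum_sub_distrib]
        refine congrArg (· / ((4 : ℚ) * 2 ^ b)) (sum_congr rfl fun y _ => ?_)
        rw [sum_mul, ← sum_sub_distrib]
        refine sum_congr rfl fun c _ => ?_
        ring
      rw [hd, abs_div, abs_of_pos hB]
      have hs : |∑ y ∈ range (2 ^ b), ∑ c ∈ range 4, wv (out P E i b c y nd).1 *
            (((out P E i b c y nd).2.map (val P E i)).prod * (rest.map (val P E i)).prod -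
              eK P E i b K ((out P E i b c y nd).2 ++ rest))| ≤
          ρ ^ K * (rest.map (pot P E D)).prod * ∑ y ∈ range (2 ^ b), ∑ c ∈ range 4,
            |wv (out P E i b c y nd).1| * ((out P E i b c y nd).2.map (pot P E D)).prod := by
        refine (abs_sum_le_sum_abs _ _).trans ?_
        rw [mul_sum]
        refine sum_le_sum fun y _ => (abs_sum_le_sum_abs _ _).trans ?_
        rw [mul_sum]
        refine sum_le_sum fun c _ => ?_
        rw [abs_mul]
        refine (mul_le_mul_of_nonneg_left (hterm c y) (abs_nonneg _)).trans (le_of_eq ?_)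
        ring
      calc _ ≤ (ρ ^ K * (rest.map (pot P E D)).prod * ∑ y ∈ range (2 ^ b), ∑ c ∈ range 4,
            |wv (out P E i b c y nd).1| * ((out P E i b c y nd).2.map (pot P E D)).prod) /
              (4 * 2 ^ b) := (div_le_div_iff_of_pos_right hB).2 hs
        _ = ρ ^ K * (rest.map (pot P E D)).prod * ((∑ y ∈ range (2 ^ b), ∑ c ∈ range 4,
            |wv (out P E i b c y nd).1| * ((out P E i b c y nd).2.map (pot P E D)).prod) /
              (4 * 2 ^ b)) := by rw [mul_div_assoc]
        _ ≤ ρ ^ K * (rest.map (pot P E D)).prod * (ρ * pot P E D nd) :=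
          mul_le_mul_of_nonneg_left e2 (mul_nonneg (pow_nonneg hρ0 _) r3)
        _ = ρ ^ (K + 1) * ((nd :: rest).map (pot P E D)).prod := by
          rw [List.map_cons, List.prod_cons, pow_succ]
          ring

end Pool.Agent.DFP
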