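import Pool.Agent.DFP.Defs

set_option autoImplicit false

/-!
# DFP-FExp: the recursion at an arbitrary vertex (exchange of two sums)
-/

namespace Pool.Agent.DFP

open Finset

theorem F_empty (a : ℚ) (w : ℕ → ℕ → ℚ) : F a w ∅ = 1 := by
  unfold F
  rw [Finset.card_empty]
  rfl

theorem WW_congr {w w' : ℕ → ℕ → ℚ} {B : Finset ℕ}
    (h : ∀ x ∈ B, ∀ y ∈ B, x < y → w x y = w' x y) : WW w B = WW w' B := by
  unfold WW
  refine Finset.prod_congr rfl fun x hx => Finset.prod_congr rfl fun y hy => ?_
  rw [Finset.mem_filter] at hy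
  exact h x hx y hy.1 hy.2

private theorem fe_fuel (w : ℕ → ℕ → ℚ) : ∀ (n : ℕ) (a : ℚ) (U : Finset ℕ), U.card ≤ n →
    FN w n a U = FN w U.card a U := by
  intro n
  induction n using Nat.strong_induction_on with
  | _ n ih =>
    intro a U hU
    rcases U.eq_empty_or_nonempty with he | hne
    · rw [he, Finset.card_empty]
      cases n with
      | zero => rfl
      | succ n => exact dif_neg Finset.not_nonempty_empty
    · have hc : 0 < U.card := Finset.card_pos.2 hne
      obtain ⟨k, hk⟩ : ∃ k, U.card = k + 1 := ⟨U.card - 1, by omega⟩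
      obtain ⟨n', hn'⟩ : ∃ n', n = n' + 1 := ⟨n - 1, by omega⟩
      rw [hk, hn']
      unfold FN
      rw [dif_pos hne, dif_pos hne]
      congr 1
      refine Finset.sum_congr rfl fun B hB => ?_
      rw [Finset.mem_filter, Finset.mem_powerset] at hB
      have h1 : (U \ B).card ≤ k := by
        have h2 : (U \ B).card < U.card := by
          refine Finset.card_lt_card (Finset.ssubset_iff_subset_ne.2 ⟨Finset.sdiff_subset, ?_⟩)
          intro h3
          have h4 : U.min' hne ∈ U \ B := by
            rw [h3]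
            exact Finset.min'_mem U hne
          exact (Finset.mem_sdiff.1 h4).2 hB.2
        omega
      rw [ih n' (by omega) (a + 1) (U \ B) (by omega), ih k (by omega) (a + 1) (U \ B) h1]

private theorem fe_min (a : ℚ) (w : ℕ → ℕ → ℚ) {U : Finset ℕ} (hne : U.Nonempty) :
    F a w U = a * ∑ B ∈ U.powerset.filter (fun B => U.min' hne ∈ B),
      (-1) ^ (B.card - 1) * WW w B * F (a + 1) w (U \ B) := by
  have hc : 0 < U.card := Finset.card_pos.2 hne
  obtain ⟨k, hk⟩ : ∃ k, U.card = k + 1 := ⟨U.card - 1, by omega⟩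
  have h0 : F a w U = FN w (k + 1) a U := by
    unfold F
    rw [hk]
  rw [h0]
  unfold FN
  rw [dif_pos hne]
  congr 1
  refine Finset.sum_congr rfl fun B hB => ?_
  rw [Finset.mem_filter, Finset.mem_powerset] at hB
  have h1 : (U \ B).card ≤ k := by
    have h2 : (U \ B).card < U.card := by
      refine Finset.card_lt_card (Finset.ssubset_iff_subset_ne.2 ⟨Finset.sdiff_subset, ?_⟩)
      intro h3
      have h4 : U.min' hne ∈ U \ B := by
        rw [h3]
        exact Finset.min'_mem U hne
      exact (Finset.mem_sdiff.1 h4).2 hB.2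
    omega
  rw [fe_fuel w k (a + 1) (U \ B) h1]
  rfl

private theorem fe_card {U B : Finset ℕ} {u : ℕ} (hu : u ∈ U) (hB : u ∈ B) :
    (U \ B).card < U.card := by
  refine Finset.card_lt_card (Finset.ssubset_iff_subset_ne.2 ⟨Finset.sdiff_subset, ?_⟩)
  intro h3
  have h4 : u ∈ U \ B := by
    rw [h3]
    exact hu
  exact (Finset.mem_sdiff.1 h4).2 hB

theorem F_congr (a : ℚ) {w w' : ℕ → ℕ → ℚ} {U : Finset ℕ}
    (h : ∀ x ∈ U, ∀ y ∈ U, x < y → w x y = w' x y) : F a w U = F a w' U := by
  have key : ∀ N : ℕ, ∀ U : Finset ℕ, U.card = N →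
      (∀ x ∈ U, ∀ y ∈ U, x < y → w x y = w' x y) → ∀ a : ℚ, F a w U = F a w' U := by
    intro N
    induction N using Nat.strong_induction_on with
    | _ N ih =>
      intro U hU h a
      rcases U.eq_empty_or_nonempty with he | hne
      · rw [he, F_empty, F_empty]
      · rw [fe_min a w hne, fe_min a w' hne]
        congr 1
        refine Finset.sum_congr rfl fun B hB => ?_
        rw [Finset.mem_filter, Finset.mem_powerset] at hB
        have h1 := fe_card (Finset.min'_mem U hne) hB.2
        rw [hU] at h1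
        rw [WW_congr (w := w) (w' := w') fun x hx y hy => h x (hB.1 hx) y (hB.1 hy),
          ih _ h1 (U \ B) rfl (fun x hx y hy => h x (Finset.sdiff_subset hx) y
            (Finset.sdiff_subset hy)) (a + 1)]
  exact key _ U rfl h a

private theorem fe_split {w : ℕ → ℕ → ℚ} {U : Finset ℕ} {a : ℚ}
    (ih : ∀ V : Finset ℕ, V.card < U.card → ∀ u ∈ V, F (a + 1) w V =
      (a + 1) * ∑ B ∈ V.powerset.filter (fun B => u ∈ B),
        (-1) ^ (B.card - 1) * WW w B * F (a + 1 + 1) w (V \ B))
    {x y : ℕ} (hx : x ∈ U) (hy : y ∈ U) :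
    ∑ B ∈ U.powerset.filter (fun B => x ∈ B),
      (-1) ^ (B.card - 1) * WW w B * F (a + 1) w (U \ B) =
    ∑ B ∈ U.powerset.filter (fun B => x ∈ B ∧ y ∈ B),
      (-1) ^ (B.card - 1) * WW w B * F (a + 1) w (U \ B) +
    ∑ B ∈ U.powerset.filter (fun B => x ∈ B ∧ y ∉ B),
      ∑ C ∈ (U \ B).powerset.filter (fun C => y ∈ C),
        (a + 1) * (((-1) ^ (B.card - 1) * WW w B) * ((-1) ^ (C.card - 1) * WW w C) *
          F (a + 1 + 1) w ((U \ B) \ C)) := by
  rw [← Finset.sum_filter_add_sum_filter_not (U.powerset.filter (fun B => x ∈ B))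
    (fun B => y ∈ B), Finset.filter_filter, Finset.filter_filter]
  congr 1
  refine Finset.sum_congr rfl fun B hB => ?_
  rw [Finset.mem_filter, Finset.mem_powerset] at hB
  rw [ih (U \ B) (fe_card hx hB.2.1) y (Finset.mem_sdiff.2 ⟨hy, hB.2.2⟩), Finset.mul_sum,
    Finset.mul_sum]
  refine Finset.sum_congr rfl fun C _ => ?_
  ring

theorem F_exp (a : ℚ) (w : ℕ → ℕ → ℚ) {U : Finset ℕ} {u : ℕ} (hu : u ∈ U) :
    F a w U = a * ∑ B ∈ U.powerset.filter (fun B => u ∈ B),
      (-1) ^ (B.card - 1) * WW w B * F (a + 1) w (U \ B) := by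
  have key : ∀ N : ℕ, ∀ U : Finset ℕ, U.card = N → ∀ (a : ℚ), ∀ u ∈ U, F a w U =
      a * ∑ B ∈ U.powerset.filter (fun B => u ∈ B),
        (-1) ^ (B.card - 1) * WW w B * F (a + 1) w (U \ B) := by
    intro N
    induction N using Nat.strong_induction_on with
    | _ N ih =>
      intro U hU a u hu
      have hne : U.Nonempty := ⟨u, hu⟩
      rw [fe_min a w hne]
      obtain ⟨m, hm⟩ : ∃ m, m = U.min' hne := ⟨_, rfl⟩
      have hmU : m ∈ U := by
        rw [hm]
        exact Finset.min'_mem U hne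
      rw [← hm]
      rcases eq_or_ne m u with h | h
      · rw [h]
      congr 1
      have ih' : ∀ V : Finset ℕ, V.card < U.card → ∀ u ∈ V, F (a + 1) w V =
          (a + 1) * ∑ B ∈ V.powerset.filter (fun B => u ∈ B),
            (-1) ^ (B.card - 1) * WW w B * F (a + 1 + 1) w (V \ B) := by
        intro V hV u hu
        rw [hU] at hV
        exact ih _ hV V rfl (a + 1) u hu
      rw [fe_split ih' hmU hu, fe_split ih' hu hmU]
      congr 1
      · refine Finset.sum_congr (Finset.filter_congr fun B _ => and_comm) fun B _ => rfl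
      · rw [Finset.sum_comm' (s' := fun C => (U \ C).powerset.filter (fun B => m ∈ B))
          (t' := U.powerset.filter (fun C => u ∈ C ∧ m ∉ C))]
        · refine Finset.sum_congr rfl fun C _ => Finset.sum_congr rfl fun B _ => ?_
          rw [sdiff_sdiff_comm]
          ring
        · intro B C
          rw [Finset.mem_filter, Finset.mem_filter, Finset.mem_filter, Finset.mem_filter,
            Finset.mem_powerset, Finset.mem_powerset, Finset.mem_powerset, Finset.mem_powerset,
            Finset.subset_sdiff, Finset.subset_sdiff]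
          constructor
          · rintro ⟨⟨h1, h2, h3⟩, ⟨h4, h5⟩, h6⟩
            exact ⟨⟨⟨h1, h5.symm⟩, h2⟩, h4, h6, fun h7 => Finset.disjoint_left.1 h5 h7 h2⟩
          · rintro ⟨⟨⟨h1, h2⟩, h3⟩, h4, h5, h6⟩
            exact ⟨⟨h1, h3, fun h7 => Finset.disjoint_left.1 h2 h7 h5⟩, ⟨h4, h2.symm⟩, h5⟩
  exact key _ U rfl a u hu

end Pool.Agent.DFP
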