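import Pool.Agent.DFP.FExp

set_option autoImplicit false

/-!
# DFP-FOnes: a hub with all weights `1` (strong induction with `F_exp`)
-/

namespace Pool.Agent.DFP

open Finset

private theorem F_ones_aux (w : ℕ → ℕ → ℚ) (n : ℕ) : ∀ (a : ℚ) (J : Finset ℕ), J.card ≤ n →
    ∑ B ∈ J.powerset, (-1) ^ B.card * WW w B * F (a + 1) w (J \ B) = F a w J := by
  have hempty : ∀ a : ℚ, ∑ B ∈ (∅ : Finset ℕ).powerset, (-1) ^ B.card * WW w B *
      F (a + 1) w (∅ \ B) = F a w ∅ := by
    intro a
    rw [Finset.powerset_empty, Finset.sum_singleton, Finset.card_empty, pow_zero, one_mul,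
      Finset.empty_sdiff, F_empty, F_empty, mul_one]
    unfold WW
    rw [Finset.prod_empty]
  induction n with
  | zero =>
    intro a J hJ
    have hJ0 : J = ∅ := Finset.card_eq_zero.1 (Nat.le_zero.1 hJ)
    rw [hJ0]
    exact hempty a
  | succ n ih =>
    intro a J hJ
    rcases J.eq_empty_or_nonempty with hJ0 | ⟨u, hu⟩
    · rw [hJ0]
      exact hempty a
    obtain ⟨X, hX⟩ : ∃ X : ℚ, X = ∑ B ∈ J.powerset.filter (fun B => u ∈ B),
      (-1) ^ (B.card - 1) * WW w B * F (a + 1) w (J \ B) := ⟨_, rfl⟩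
    have h1 : F a w J = a * X := by rw [F_exp a w hu, hX]
    have h2 : ∑ B ∈ J.powerset.filter (fun B => u ∈ B),
        (-1) ^ B.card * WW w B * F (a + 1) w (J \ B) = -X := by
      rw [hX, ← Finset.sum_neg_distrib]
      refine Finset.sum_congr rfl fun B hB => ?_
      have h3 : 1 ≤ B.card := Finset.card_pos.2 ⟨u, (Finset.mem_filter.1 hB).2⟩
      obtain ⟨m, hm⟩ : ∃ m, B.card = m + 1 := ⟨B.card - 1, by omega⟩
      rw [hm, Nat.add_sub_cancel, pow_succ]
      ring
    have h4 : ∑ B ∈ J.powerset.filter (fun B => ¬ u ∈ B),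
        (-1) ^ B.card * WW w B * F (a + 1) w (J \ B) = (a + 1) * X := by
      have h5 : ∀ B ∈ J.powerset.filter (fun B => ¬ u ∈ B),
          (-1) ^ B.card * WW w B * F (a + 1) w (J \ B) =
          ∑ C ∈ (J \ B).powerset.filter (fun C => u ∈ C), (a + 1) *
            ((-1) ^ (C.card - 1) * WW w C *
              ((-1) ^ B.card * WW w B * F (a + 1 + 1) w ((J \ C) \ B))) := by
        intro B hB
        have h6 : u ∈ J \ B := Finset.mem_sdiff.2 ⟨hu, (Finset.mem_filter.1 hB).2⟩
        rw [F_exp (a + 1) w h6, Finset.mul_sum, Finset.mul_sum]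
        refine Finset.sum_congr rfl fun C _ => ?_
        rw [sdiff_right_comm]
        ring
      rw [Finset.sum_congr rfl h5, Finset.sum_comm' (t' := J.powerset.filter (fun C => u ∈ C))
        (s' := fun C => (J \ C).powerset), hX, Finset.mul_sum]
      · refine Finset.sum_congr rfl fun C hC => ?_
        obtain ⟨hC1, hC2⟩ := Finset.mem_filter.1 hC
        have h7 : (J \ C).card ≤ n := by
          have h8 : (J \ C).card < J.card := Finset.card_lt_card
            (Finset.ssubset_iff_subset_ne.2 ⟨Finset.sdiff_subset, fun h => by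
              have h9 : u ∈ J \ C := by rw [h]; exact hu
              exact (Finset.mem_sdiff.1 h9).2 hC2⟩)
          omega
        rw [← Finset.mul_sum, ← Finset.mul_sum, ih (a + 1) (J \ C) h7]
      · intro B C
        rw [Finset.mem_filter, Finset.mem_filter, Finset.mem_filter, Finset.mem_powerset,
          Finset.mem_powerset, Finset.mem_powerset, Finset.mem_powerset]
        constructor
        · rintro ⟨⟨hB, huB⟩, hC, huC⟩
          refine ⟨fun b hb => Finset.mem_sdiff.2 ⟨hB hb, fun hbC => ?_⟩,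
            fun c hc => (Finset.mem_sdiff.1 (hC hc)).1, huC⟩
          exact (Finset.mem_sdiff.1 (hC hbC)).2 hb
        · rintro ⟨hB, hC, huC⟩
          refine ⟨⟨fun b hb => (Finset.mem_sdiff.1 (hB hb)).1, fun huB =>
            (Finset.mem_sdiff.1 (hB huB)).2 huC⟩, fun c hc => Finset.mem_sdiff.2 ⟨hC hc, fun hcB =>
            (Finset.mem_sdiff.1 (hB hcB)).2 hc⟩, huC⟩
    rw [← Finset.sum_filter_add_sum_filter_not J.powerset (fun B => u ∈ B), h2, h4, h1]
    ring

theorem F_ones (a : ℚ) (w : ℕ → ℕ → ℚ) (J : Finset ℕ) :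
    ∑ B ∈ J.powerset, (-1) ^ B.card * WW w B * F (a + 1) w (J \ B) = F a w J :=
  F_ones_aux w J.card a J le_rfl

end Pool.Agent.DFP
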