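import Pool.Agent.DFP.Err
import Pool.Agent.DFP.Run
import Pool.Agent.DFP.Est
import Pool.Agent.DFP.Ini
import Pool.Agent.DFP.Prd

set_option autoImplicit false

/-!
# DFP-FacM: mean square error of one factor
-/

namespace Pool.Agent.DFP

open Finset

open Pool.Agent.TFP (avg)

/-- the value of the factor `m` -/
noncomputable def zf (P : Par) (E : List (ℕ × ℕ)) (n m : ℕ) : ℚ :=
  (if m = 0 then 1 else P.a + m) * gt (P.a + m) (wG P.y E) (Ico (m + 1) n) (wG P.y E m)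

private theorem fm_par {P : Par} (hP : P.Ok) : 0 ≤ P.a ∧ 0 ≤ P.y ∧ P.y ≤ 1 := by
  obtain ⟨h1, h2⟩ := hP
  refine ⟨div_nonneg (Nat.cast_nonneg _) (Nat.cast_nonneg _), div_nonneg (Nat.cast_nonneg _) (Nat.cast_nonneg _), ?_⟩
  unfold Par.y
  have h3 : (P.y1 : ℚ) < P.y2 := by exact_mod_cast h2
  have h4 : (0 : ℚ) ≤ P.y1 := Nat.cast_nonneg _
  rw [div_le_one (by linarith)]
  exact h3.le

private theorem fm_half {P : Par} (hP : P.Ok) (E : List (ℕ × ℕ)) (n m : ℕ) {D : ℚ}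
    (hR : Rows P.y E n D) (hm : m < n) (hSD : 6 * D ≤ n) :
    1 / 2 ≤ gt (P.a + m) (wG P.y E) (Ico (m + 1) n) (wG P.y E m) := by
  obtain ⟨h1, h2, h3⟩ := fm_par hP
  exact gt_fac h1 (wG_ok h2 h3 E) hm hR hSD

private theorem fm_r {P : Par} (hP : P.Ok) (m : ℕ) : (0 : ℚ) < if m = 0 then 1 else P.a + m := by
  obtain ⟨h1, _, _⟩ := fm_par hP
  by_cases h : m = 0
  · rw [if_pos h]
    exact one_pos
  · rw [if_neg h]
    have h2 : (0 : ℚ) < m := by exact_mod_cast Nat.pos_of_ne_zero h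
    linarith

theorem zf_pos {P : Par} (hP : P.Ok) (E : List (ℕ × ℕ)) (n m : ℕ) {D : ℚ}
    (hR : Rows P.y E n D) (hm : m < n) (hSD : 6 * D ≤ n) : 0 < zf P E n m := by
  unfold zf
  have h1 := fm_half hP E n m hR hm hSD
  exact mul_pos (fm_r hP m) (by linarith)

private theorem fm_fac {P : Par} (hP : P.Ok) (E : List (ℕ × ℕ)) (n b K k m : ℕ) (l : List Bool) :
    fv (fac P E n b K k m l) = (if m = 0 then 1 else P.a + m) *
      fv (est P E m b K k (0, (0, ini E n m)) l) := by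
  have h2 : (P.A2 : ℚ) ≠ 0 := Nat.cast_ne_zero.2 hP.1.ne'
  unfold fac fv
  by_cases h : m = 0
  · simp only [if_pos h]
    push_cast
    rw [one_mul, one_mul, one_mul]
  · simp only [if_neg h]
    push_cast
    have h3 : P.a + (m : ℚ) = (P.A1 + P.A2 * m) / P.A2 := by
      unfold Par.a
      field_simp
    rw [h3, mul_div_mul_comm]

private theorem fm_vd {P : Par} (hP : P.Ok) (E : List (ℕ × ℕ)) (n S K m : ℕ) {D : ℚ}
    (hR : Rows P.y E n D) (hm : m < n) (hK : S + K + 1 ≤ n) : Vd P n m D S K (0, (0, ini E n m)) := by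
  obtain ⟨_, h2, h3⟩ := fm_par hP
  refine ⟨nd_ini E n m, ?_, Or.inl ⟨rfl, ?_, ?_⟩⟩
  · show vs (ini E n m) ⊆ range n
    rw [vs_ini]
    intro x hx
    exact mem_range.2 (mem_Ico.1 hx).2
  · show ∑ x ∈ vs (ini E n m), cv P.y (ini E n m) x ≤ D
    rw [vs_ini, sum_congr rfl fun x hx => cv_ini P.y E hx]
    refine le_trans ?_ (hR m hm)
    refine sum_le_sum_of_subset_of_nonneg ?_ fun x _ _ => ((wG_ok h2 h3 E).2 m x).1
    intro x hx
    rw [mem_Ico] at hx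
    rw [mem_erase, mem_range]
    omega
  · show S + K ≤ m + (ini E n m).length
    rw [len_ini]
    omega

private theorem fm_val (P : Par) (E : List (ℕ × ℕ)) (n m : ℕ) :
    val P E m (0, (0, ini E n m)) = gt (P.a + m) (wG P.y E) (Ico (m + 1) n) (wG P.y E m) := by
  have h1 : val P E m (0, (0, ini E n m)) =
      gt (P.a + m) (wG P.y E) (vs (ini E n m)) (cv P.y (ini E n m)) := by
    unfold val
    rw [if_pos rfl]
  rw [h1, vs_ini]
  unfold gt
  rw [hub_congr (P.a + m) (wG P.y E) fun x hx => cv_ini P.y E hx]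

theorem fac_msq {P : Par} (hP : P.Ok) (E : List (ℕ × ℕ)) (b n S K k m : ℕ) {D ρ : ℚ}
    (hR : Rows P.y E n D) (hn : n ≤ 2 ^ b) (hb : 2 ^ b ≤ 4 * S) (hSD : 6 * D + 2 ≤ S)
    (hρ : 3 / 4 + 3 / 2 * (D / S) ≤ ρ) (hD0 : 0 ≤ D) (hk : 0 < k) (hm : m < n)
    (hK : S + K + 1 ≤ n) :
    avg (k * (K * (b + 2))) (fun l => (fv (fac P E n b K k m l) - zf P E n m) ^ 2) ≤
      4 * ((16 ^ K) ^ 2 / k + (ρ ^ K * (5 / 2)) ^ 2) * zf P E n m ^ 2 := by
  have hSn : (S : ℚ) ≤ n := by exact_mod_cast (by omega : S ≤ n)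
  have hhalf := fm_half hP E n m hR hm (by linarith)
  have hvd := fm_vd hP E n S K m hR hm hK
  have hS0 : 0 < S := by
    have h1 : (0 : ℚ) < S := by linarith
    exact_mod_cast h1
  set r : ℚ := if m = 0 then 1 else P.a + m with hr
  set z : ℚ := gt (P.a + m) (wG P.y E) (Ico (m + 1) n) (wG P.y E m) with hz
  have hzf : zf P E n m = r * z := rfl
  have h1 := est_msq P E m b K k (0, (0, ini E n m)) hk (trial_den hP E m b K _)
    (z := z) (M := 16 ^ K) (by linarith) (run_abs hP E m b n S hR hS0 hb K _ hvd)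
  rw [avg_trial] at h1
  have h2 := err hP E m b n S hR hn hb hSD hρ hD0 K [(0, (0, ini E n m))] (by
    intro nd hnd
    rw [List.mem_singleton] at hnd
    rw [hnd]
    exact hvd)
  rw [List.map_cons, List.map_nil, List.prod_cons, List.prod_nil, mul_one, List.map_cons, List.map_nil,
    List.prod_cons, List.prod_nil, mul_one, fm_val, ← hz] at h2
  have h3 : pot P E D (0, (0, ini E n m)) = 5 / 2 := by
    unfold pot
    rw [if_pos rfl]
  rw [h3] at h2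
  have h4 : (eK P E m b K [(0, (0, ini E n m))] - z) ^ 2 ≤ (ρ ^ K * (5 / 2)) ^ 2 := by
    rw [← neg_sub, neg_sq]
    exact sq_le_sq' (abs_le.1 h2).1 (abs_le.1 h2).2
  have h5 : avg (k * (K * (b + 2))) (fun l => (fv (fac P E n b K k m l) - zf P E n m) ^ 2) =
      r ^ 2 * avg (k * (K * (b + 2))) (fun l => (fv (est P E m b K k (0, (0, ini E n m)) l) - z) ^ 2) := by
    rw [← Pool.Agent.TFP.avg_smul]
    refine Pool.Agent.TFP.avg_congr fun l _ => ?_
    rw [fm_fac hP, ← hr, hzf]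
    ring
  rw [h5, hzf]
  have h6 : (0 : ℚ) ≤ (16 ^ K) ^ 2 / k + (ρ ^ K * (5 / 2)) ^ 2 := by positivity
  have h7 : 1 ≤ 4 * z ^ 2 := by nlinarith
  calc r ^ 2 * avg (k * (K * (b + 2))) (fun l => (fv (est P E m b K k (0, (0, ini E n m)) l) - z) ^ 2)
      ≤ r ^ 2 * ((16 ^ K) ^ 2 / k + (ρ ^ K * (5 / 2)) ^ 2) :=
        mul_le_mul_of_nonneg_left (h1.trans (by linarith)) (sq_nonneg r)
    _ = (r ^ 2 * ((16 ^ K) ^ 2 / k + (ρ ^ K * (5 / 2)) ^ 2)) * 1 := by ring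
    _ ≤ (r ^ 2 * ((16 ^ K) ^ 2 / k + (ρ ^ K * (5 / 2)) ^ 2)) * (4 * z ^ 2) :=
        mul_le_mul_of_nonneg_left h7 (mul_nonneg (sq_nonneg r) h6)
    _ = 4 * ((16 ^ K) ^ 2 / k + (ρ ^ K * (5 / 2)) ^ 2) * (r * z) ^ 2 := by ring

end Pool.Agent.DFP
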