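import Pool.Agent.DFP.FinA

set_option autoImplicit false

/-!
# DFP-Fin: the assembly
-/

namespace Pool.Agent.DFP

open Finset Pool.Agent.Helper47.TR
open Pool.Agent.TFP (avg avg_take avg_count HasFPRAS Close close_of lps)

set_option maxHeartbeats 400000 in
theorem fpras {x y δ : ℚ} (hx : 1 ≤ x) (hy0 : 0 ≤ y) (hy1 : y < 1) (hδ : δ < 1 / 6) :
    HasFPRAS (Dn y δ) (tutte x y) := by
  obtain ⟨P, hP, hPa, hPy⟩ := par_ex hx hy0 hy1
  have hδ0 : (0 : ℚ) ≤ max δ 0 := le_max_right _ _
  have hδ1 : max δ 0 < 1 / 6 := max_lt hδ (by norm_num)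
  obtain ⟨ρ, n1, hρ0, hρ1, hn1, hnum⟩ := num_n1 hδ0 hδ1
  obtain ⟨k0, hk0, e1, hA⟩ := num_A hρ0 hρ1
  have hPa0 : 0 ≤ P.a := (par_bd hP).1
  obtain ⟨C, hC0, hC⟩ := pow_fact P.a hPa0
  obtain ⟨e2, hB⟩ := num_B k0 n1 C
  obtain ⟨e, he⟩ : ∃ e, e = max e1 e2 := ⟨_, rfl⟩
  have he1 : e1 ≤ e := by rw [he]; exact le_max_left _ _
  have he2 : e2 ≤ e := by rw [he]; exact le_max_right _ _
  refine ⟨Polynomial.C (8 * (n1 + 1) * (k0 + 1)) * (Polynomial.X + 2) ^ (e + 4), alg P k0 n1 e,
    alg_poly P k0 n1 e, ?_⟩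
  intro G hG hCG N
  obtain ⟨nb, hnb⟩ : ∃ nb, nb = (Polynomial.C (8 * (n1 + 1) * (k0 + 1)) *
      (Polynomial.X + 2) ^ (e + 4) : Polynomial ℕ).eval
      (N487b59b3.bitEncode (G, N)).length := ⟨_, rfl⟩
  rw [← hnb]
  have hnb' : nb = 8 * (n1 + 1) * (k0 + 1) *
      ((N487b59b3.bitEncode (G, N)).length + 2) ^ (e + 4) := by
    rw [hnb]
    simp
  obtain ⟨t, ht⟩ : ∃ t, t = tt (G, N) := ⟨_, rfl⟩
  have htd : tt (G, N) = G.1.length + G.2.length + N.length + 2 := rfl
  have htl := tt_le G N
  have ht2 : 2 ≤ t := by omega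
  have hnt : G.1.length ≤ t := by omega
  have hNt : N.length + 1 ≤ t := by omega
  have hk : 0 < t ^ e := by positivity
  rcases Nat.eq_zero_or_pos G.1.length with hn | hn
  · -- no vertices
    have hT := tutte_zero hG hn x y
    have hA1 : ∀ l : List Bool, alg P k0 n1 e ((G, N), l) = (1, 1) := by
      intro l
      unfold alg
      simp [hn]
    refine le_trans ?_ ((Nat.cast_le (α := ℚ)).2 (Finset.card_le_card
      (s := (Finset.univ : Finset (Fin nb → Bool))) ?_))
    · rw [Finset.card_univ, Fintype.card_fun, Fintype.card_bool, Fintype.card_fin]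
      push_cast
      nlinarith [pow_pos (show (0 : ℚ) < 2 by norm_num) nb]
    · intro r _
      classical
      refine Finset.mem_filter.mpr ⟨Finset.mem_univ _, ?_⟩
      rw [hA1]
      refine ⟨one_ne_zero, ?_⟩
      rw [hT]
      apply close_of zero_le_one
      simp
      positivity
  · have hR : Rows P.y G.2 G.1.length (max δ 0 * G.1.length) := by
      intro v hv
      refine le_trans ?_ (mul_le_mul_of_nonneg_right (le_max_left δ 0) (Nat.cast_nonneg _))
      have := hCG v hv
      rw [hPy]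
      exact this
    have hc := comps_one hG hn hy0 hδ (fun v hv => hCG v hv)
    have hT : tutte x y G = P.y ^ (lps G.2).length * (1 / (1 - P.y)) ^ (G.1.length - 1) *
        hub P.a (wG P.y G.2) (Ico 1 G.1.length) (wG P.y G.2 0) := by
      rw [hPa, hPy]
      exact tutte_hub' hG hn hc hx hy1
    obtain ⟨hp1, hp2⟩ := pref_eq hP G
    rw [← hp1] at hT
    have hz : 0 ≤ hub P.a (wG P.y G.2) (Ico 1 G.1.length) (wG P.y G.2 0) := by
      have hb := par_bd hP
      have hw := wG_ok hb.2.1 hb.2.2.le G.2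
      exact hub_nonneg hPa0 hw _ (fun x => hw.2 0 x)
    have hη0 : (0 : ℚ) < 1 / (2 * (N.length + 1)) := by positivity
    have hη1 : (1 : ℚ) / (2 * (N.length + 1)) ≤ 1 := by
      rw [div_le_one (by positivity)]
      have : (0 : ℚ) ≤ (N.length : ℚ) := by positivity
      linarith
    have hθ0 : (0 : ℚ) ≤ 1 / (96 * (t : ℚ) ^ 3) := by positivity
    have hD0 : (0 : ℚ) ≤ max δ 0 * G.1.length := mul_nonneg hδ0 (Nat.cast_nonneg _)
    have hD6 : 6 * (max δ 0 * (G.1.length : ℚ)) ≤ G.1.length := by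
      have : (0 : ℚ) ≤ G.1.length := Nat.cast_nonneg _
      nlinarith
    have hsz := size_bd G.1.length
    have hbn := size_le_self' G.1.length
    by_cases hreg : n1 * (k0 * Nat.size t + 1) ≤ G.1.length
    · -- regime A
      have hK0 : 0 < k0 * Nat.size t := Nat.mul_pos hk0 (Nat.size_pos.mpr (by omega))
      obtain ⟨S, hS⟩ : ∃ S, S + k0 * Nat.size t + 1 = G.1.length := by
        refine ⟨G.1.length - (k0 * Nat.size t + 1), ?_⟩
        have : k0 * Nat.size t + 1 ≤ G.1.length :=
          le_trans (Nat.le_mul_of_pos_left _ hn1) hreg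
        omega
      obtain ⟨h6, h7, h8⟩ := hnum G.1.length (k0 * Nat.size t) S hK0 hreg hS
      have hgood := prA_good hP G.2 (Nat.size G.1.length) G.1.length S (k0 * Nat.size t) (t ^ e)
        (θ := 1 / (96 * (t : ℚ) ^ 3)) (η := 1 / (2 * (N.length + 1))) hR hsz.1
        (by have := hsz.2 hn; omega) h6 h7 hD0 hk hS.le hθ0 hη0 hη1
        (theta_ineq t G.1.length N.length ht2 hnt hNt) (hA e he1 t ht2)
      have hM : G.1.length * (t ^ e * (k0 * Nat.size t * (Nat.size G.1.length + 2))) ≤ nb := by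
        rw [hnb']
        exact bitsA k0 n1 e t _ _ _ (by omega) hnt hbn ht2
      have hA' : ∀ l : List Bool, alg P k0 n1 e ((G, N), l) =
          (((prN P G * (prA P G.2 G.1.length (Nat.size G.1.length) (k0 * Nat.size t) (t ^ e)
            G.1.length l).1 : ℕ) : ℤ), prD P G * (prA P G.2 G.1.length (Nat.size G.1.length)
              (k0 * Nat.size t) (t ^ e) G.1.length l).2) := by
        intro l
        have h1 : ¬ (G.1.length = 0) := by omega
        simp only [alg, qA, ← ht, h1, hreg, decide_false, decide_true, if_true, if_false,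
          Bool.false_eq_true]
      have f1 := finish (T := tutte x y G) hM
        (fun l => prA P G.2 G.1.length (Nat.size G.1.length) (k0 * Nat.size t) (t ^ e)
          G.1.length l) (fun l => prA_take P G.2 G.1.length _ _ _ _ l)
        (fun l => prA_den hP G.2 _ _ _ _ _ hk l) N.length rfl hz
      have f2 := f1 hgood
      have f3 := f2 (prN P G) (prD P G) hp2 hT
      have f4 := f3 (fun l => alg P k0 n1 e ((G, N), l))
      have f5 := f4 hA'
      exact f5
    · -- regime B
      have hreg' : G.1.length < n1 * (k0 * Nat.size t + 1) := by omega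
      have hgood := estB_good hP G.2 (Nat.size G.1.length) G.1.length
        (n1 * (k0 * Nat.size t + 1)) (t ^ e) C
        (θ := 1 / (96 * (t : ℚ) ^ 3)) (η := 1 / (2 * (N.length + 1))) hR hn hsz.1
        (hsz.2 hn) hD6 hk hreg'.le (hC _ hn) hθ0 hη0 hη1
        (by
          have := theta_ineq t 1 N.length ht2 (by omega) hNt
          simpa using this)
        (hB e he2 t G.1.length ht2 hreg')
      have hM : t ^ e * (n1 * (k0 * Nat.size t + 1) * (Nat.size G.1.length + 2)) ≤ nb := by
        rw [hnb']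
        exact bitsB k0 n1 e t _ _ _ (by omega) hnt hbn ht2
      have hA' : ∀ l : List Bool, alg P k0 n1 e ((G, N), l) =
          (((prN P G * (est P G.2 0 (Nat.size G.1.length) (n1 * (k0 * Nat.size t + 1)) (t ^ e)
            (3, (0, ini G.2 G.1.length 0)) l).1 : ℕ) : ℤ), prD P G *
              (est P G.2 0 (Nat.size G.1.length) (n1 * (k0 * Nat.size t + 1)) (t ^ e)
                (3, (0, ini G.2 G.1.length 0)) l).2) := by
        intro l
        have h1 : ¬ (G.1.length = 0) := by omega
        simp only [alg, qB, ← ht, h1, hreg, decide_false, if_false,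
          Bool.false_eq_true]
      have hq1 : ∀ l : List Bool, est P G.2 0 (Nat.size G.1.length)
          (n1 * (k0 * Nat.size t + 1)) (t ^ e) (3, (0, ini G.2 G.1.length 0))
          (l.take (t ^ e * (n1 * (k0 * Nat.size t + 1) * (Nat.size G.1.length + 2)))) =
          est P G.2 0 (Nat.size G.1.length) (n1 * (k0 * Nat.size t + 1)) (t ^ e)
          (3, (0, ini G.2 G.1.length 0)) l := fun l => est_take P G.2 0 _ _ _ _ l
      have hq2 : ∀ l : List Bool, (est P G.2 0 (Nat.size G.1.length)
          (n1 * (k0 * Nat.size t + 1)) (t ^ e) (3, (0, ini G.2 G.1.length 0)) l).2 ≠ 0 :=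
        fun l => est_den P G.2 0 _ _ _ _ hk (fun l => trial_den hP G.2 0 _ _ _ l) l
      have f1 := finish (T := tutte x y G) hM
        (fun l => est P G.2 0 (Nat.size G.1.length) (n1 * (k0 * Nat.size t + 1)) (t ^ e)
          (3, (0, ini G.2 G.1.length 0)) l) hq1 hq2 N.length rfl hz
      have f2 := f1 hgood
      have f3 := f2 (prN P G) (prD P G) hp2 hT
      have f4 := f3 (fun l => alg P k0 n1 e ((G, N), l))
      have f5 := f4 hA'
      exact f5

end Pool.Agent.DFP
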