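import Pool.Agent.DFP.FpR
import Pool.Agent.PQE.Num

set_option autoImplicit false

/-!
# DFP-FpE: the estimator is polynomial time computable

Loop over `k` trials; numerators and denominator have size at most `1 + k (S + 1)`.
-/

namespace Pool.Agent.DFP

open Finset

open Turing Function N487b59b3 N68a2faeb Pool.Agent.Helper22 Pool.Agent.Helper6.WB Computability
  Pool.Agent.Helper47.TR

section

variable {α : Type} [N487b59b3 α]

/-- size bound of a triple -/
private def TB (M : ℕ) (s : Tri) : Prop :=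
  Nat.size s.1 ≤ M ∧ Nat.size s.2.1 ≤ M ∧ Nat.size s.2.2 ≤ M

private theorem size_mul_le' {a b M S : ℕ} (ha : Nat.size a ≤ M) (hb : Nat.size b ≤ S) :
    Nat.size (a * b) ≤ M + S :=
  (Helper47.TR.size_mul_le a b).trans (by omega)

private theorem size_add_le' {a b M : ℕ} (ha : Nat.size a ≤ M) (hb : Nat.size b ≤ M) :
    Nat.size (a + b) ≤ M + 1 := by
  rw [Nat.size_le] at ha hb ⊢
  rw [pow_succ]
  omega

private theorem tadd_TB {M S : ℕ} {s : Tri} {w : Wt} (h : TB M s) (h1 : Nat.size w.2.1 ≤ S)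
    (h2 : Nat.size w.2.2 ≤ S) : TB (M + (S + 1)) (tadd s w) := by
  obtain ⟨a1, a2, a3⟩ := h
  have p1 : Nat.size (s.1 * w.2.2) ≤ M + S := size_mul_le' a1 h2
  have p2 : Nat.size (s.2.1 * w.2.2) ≤ M + S := size_mul_le' a2 h2
  have p3 : Nat.size (s.2.2 * w.2.2) ≤ M + S := size_mul_le' a3 h2
  have p4 : Nat.size (w.2.1 * s.2.2) ≤ M + S := by
    rw [mul_comm]
    exact size_mul_le' a3 h1
  have p5 : Nat.size (s.1 * w.2.2 + w.2.1 * s.2.2) ≤ M + S + 1 := size_add_le' p1 p4
  have p6 : Nat.size (s.2.1 * w.2.2 + w.2.1 * s.2.2) ≤ M + S + 1 := size_add_le' p2 p4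
  unfold tadd TB
  split_ifs
  · exact ⟨by simp only; omega, by simp only; omega, by simp only; omega⟩
  · exact ⟨by simp only; omega, by simp only; omega, by simp only; omega⟩

private theorem smp_TB (P : Par) (E : List (ℕ × ℕ)) (i b K : ℕ) (nd : Nd) (S : ℕ)
    (hS : ∀ l, Nat.size (DFP.trial P E i b K nd l).2.1 ≤ S ∧
      Nat.size (DFP.trial P E i b K nd l).2.2 ≤ S) (k : ℕ) :
    ∀ (M : ℕ) (l : List Bool) (s : Tri), TB M s →
      TB (M + k * (S + 1)) (smp P E i b K nd k l s) := by
  induction k with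
  | zero =>
    intro M l s h
    simpa only [zero_mul, add_zero, smp] using h
  | succ k ih =>
    intro M l s h
    have h1 := ih (M + (S + 1)) (l.drop (K * (b + 2)))
      (tadd s (DFP.trial P E i b K nd (l.take (K * (b + 2)))))
      (tadd_TB h (hS _).1 (hS _).2)
    have h2 : M + (k + 1) * (S + 1) = M + (S + 1) + k * (S + 1) := by ring
    rw [h2]
    exact h1

/-- the context -/
private abbrev Ctx := List (ℕ × ℕ) × (ℕ × (List Bool × (List Bool × Nd)))

/-- one trial, accumulated -/
private def smpStep (P : Par) (s : Ctx × (List Bool × Tri)) : Ctx × (List Bool × Tri) :=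
  (s.1, (s.2.1.drop (s.1.2.2.2.1.length * (s.1.2.2.1.length + 2)),
    tadd s.2.2 (DFP.trial P s.1.1 s.1.2.1 s.1.2.2.1.length s.1.2.2.2.1.length s.1.2.2.2.2
      (s.2.1.take (s.1.2.2.2.1.length * (s.1.2.2.1.length + 2))))))

private theorem smpStep_iter (P : Par) (E : List (ℕ × ℕ)) (i : ℕ) (bl K : List Bool) (nd : Nd)
    (j : ℕ) : ∀ (l : List Bool) (t : Tri), (smpStep P)^[j] ((E, (i, (bl, (K, nd)))), (l, t)) =
      ((E, (i, (bl, (K, nd)))), (l.drop (j * (K.length * (bl.length + 2))),
        smp P E i bl.length K.length nd j l t)) := by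
  induction j with
  | zero =>
    intro l t
    simp [smp]
  | succ j ih =>
    intro l t
    rw [Function.iterate_succ_apply, smpStep, ih]
    simp only [smp, List.drop_drop, Prod.mk.injEq, true_and, and_true]
    congr 1
    ring

private theorem tadd_FP {s : α → Tri} {w : α → Wt} (hs : FP s) (hw : FP w) :
    FP fun a => tadd (s a) (w a) := by
  unfold tadd
  have s1 : FP fun a => (s a).1 := FP.fst.comp hs
  have s2 : FP fun a => (s a).2.1 := FP.fst.comp (FP.snd.comp hs)
  have s3 : FP fun a => (s a).2.2 := FP.snd.comp (FP.snd.comp hs)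
  have w1 : FP fun a => (w a).1 := FP.fst.comp hw
  have w2 : FP fun a => (w a).2.1 := FP.fst.comp (FP.snd.comp hw)
  have w3 : FP fun a => (w a).2.2 := FP.snd.comp (FP.snd.comp hw)
  exact FP.ite w1
    (FP.pair (FP.natMul s1 w3) (FP.pair (FP.natAdd (FP.natMul s2 w3) (FP.natMul w2 s3))
      (FP.natMul s3 w3)))
    (FP.pair (FP.natAdd (FP.natMul s1 w3) (FP.natMul w2 s3)) (FP.pair (FP.natMul s2 w3)
      (FP.natMul s3 w3)))

private theorem smpStep_FP (P : Par) : FP (smpStep P) := by
  have hn : FP fun s : Ctx × (List Bool × Tri) =>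
      un (s.1.2.2.2.1.length * (s.1.2.2.1.length + 2)) := by
    have h := FP.unMul (f := fun s : Ctx × (List Bool × Tri) => s.1.2.2.2.1)
      (g := fun s => true :: true :: s.1.2.2.1) (by fun_prop) (by fun_prop)
    simpa only [List.length_cons] using h
  have hd : FP fun s : Ctx × (List Bool × Tri) =>
      s.2.1.drop (s.1.2.2.2.1.length * (s.1.2.2.1.length + 2)) := by
    have h := FP.drop (f := fun s : Ctx × (List Bool × Tri) => s.2.1) (by fun_prop) hn
    simpa only [un_length] using h
  have ht : FP fun s : Ctx × (List Bool × Tri) =>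
      s.2.1.take (s.1.2.2.2.1.length * (s.1.2.2.1.length + 2)) := by
    have h := FP.take (f := fun s : Ctx × (List Bool × Tri) => s.2.1) (by fun_prop) hn
    simpa only [un_length] using h
  have htr := FP.trialD P (E := fun s : Ctx × (List Bool × Tri) => s.1.1)
    (i := fun s => s.1.2.1) (bl := fun s => s.1.2.2.1) (K := fun s => s.1.2.2.2.1)
    (nd := fun s => s.1.2.2.2.2)
    (l := fun s => s.2.1.take (s.1.2.2.2.1.length * (s.1.2.2.1.length + 2)))
    (by fun_prop) (by fun_prop) (by fun_prop) (by fun_prop) (by fun_prop) ht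
  have hta := tadd_FP (s := fun s : Ctx × (List Bool × Tri) => s.2.2) (by fun_prop) htr
  exact FP.pair (by fun_prop) (FP.pair hd hta)

private theorem smp_FP (P : Par) : FP fun p : List Bool × (Ctx × (List Bool × Tri)) =>
    (smpStep P)^[p.1.length] p.2 := by
  obtain ⟨B0, hB0, hm, hsz⟩ := trial_sz P
  refine FP.iterate (smpStep_FP P)
    (B := fun n => 10 * n + 10 + 5 * (n + n * (B0 n + 1))) (by fun_prop) ?_
  rintro c ⟨⟨E, i, bl, K, nd⟩, l, t⟩ j hj
  rw [smpStep_iter]
  have h1 := sz_drop l (j * (K.length * (bl.length + 2)))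
  have hcl := length_le_sz c
  have hbl := length_le_sz bl
  have hKl := length_le_sz K
  have htb : TB (sz t) t := by
    obtain ⟨p, m, d⟩ := t
    refine ⟨?_, ?_, ?_⟩ <;> · simp only [sz_pair, sz_nat]; omega
  have h2 := smp_TB P E i bl.length K.length nd
    (B0 (sz E + sz i + bl.length + K.length + sz nd)) (fun l => hsz E i _ _ nd l) j (sz t) l t htb
  have hN : sz E + sz i + bl.length + K.length + sz nd ≤
      sz c + sz (((E, (i, (bl, (K, nd)))), (l, t)) : Ctx × (List Bool × Tri)) := by
    simp only [sz_pair]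
    omega
  have hN2 : sz t + sz l ≤ sz c + sz (((E, (i, (bl, (K, nd)))), (l, t)) : Ctx × (List Bool × Tri)) := by
    simp only [sz_pair]
    omega
  have hN3 : 2 * sz ((E, (i, (bl, (K, nd)))) : Ctx) ≤
      sz (((E, (i, (bl, (K, nd)))), (l, t)) : Ctx × (List Bool × Tri)) := by
    simp only [sz_pair]
    omega
  have hS := hm hN
  have hj2 : j ≤ sz c + sz (((E, (i, (bl, (K, nd)))), (l, t)) : Ctx × (List Bool × Tri)) := by
    omega
  generalize hNN : sz c + sz (((E, (i, (bl, (K, nd)))), (l, t)) : Ctx × (List Bool × Tri)) = N at *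
  generalize hSS : B0 (sz E + sz i + bl.length + K.length + sz nd) = S at *
  generalize htt : smp P E i bl.length K.length nd j l t = t' at *
  have h3 : j * (S + 1) ≤ N * (B0 N + 1) := Nat.mul_le_mul hj2 (by omega)
  have h4 : sz t' ≤ 5 * (sz t + j * (S + 1)) + 2 := by
    obtain ⟨p, m, d⟩ := t'
    obtain ⟨q1, q2, q3⟩ := h2
    simp only [sz_pair, sz_nat] at q1 q2 q3 ⊢
    omega
  have h5 : sz (((E, (i, (bl, (K, nd)))), (l.drop (j * (K.length * (bl.length + 2))), t')) :
      Ctx × (List Bool × Tri)) = 2 * sz ((E, (i, (bl, (K, nd)))) : Ctx) + 1 +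
        (2 * sz (l.drop (j * (K.length * (bl.length + 2)))) + 1 + sz t') := by
    rw [sz_pair, sz_pair (l.drop (j * (K.length * (bl.length + 2)))) t']
  rw [h5]
  omega

theorem FP.estD (P : Par) {E : α → List (ℕ × ℕ)} {i : α → ℕ} {bl K k l : α → List Bool}
    {nd : α → Nd} (hE : FP E) (hi : FP i) (hb : FP bl) (hK : FP K) (hk : FP k) (hnd : FP nd)
    (hl : FP l) :
    FP fun a => DFP.est P (E a) (i a) (bl a).length (K a).length (k a).length (nd a) (l a) := by
  have h := (smp_FP P).comp (hk.pair ((hE.pair (hi.pair (hb.pair (hK.pair hnd)))).pair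
    (hl.pair (FP.const ((0, (0, 1)) : Tri)))))
  have h2 := FP.snd.comp (FP.snd.comp h)
  have h3 : FP fun a => smp P (E a) (i a) (bl a).length (K a).length (nd a) (k a).length (l a)
      (0, (0, 1)) := by
    refine (congrArg FP (funext fun a => ?_)).mp h2
    simp only [smpStep_iter]
  have h4 : FP fun a => (k a).length := FP.length hk
  have s1 := FP.fst.comp h3
  have s2 := FP.fst.comp (FP.snd.comp h3)
  have s3 := FP.snd.comp (FP.snd.comp h3)
  exact FP.pair (PQE.FP.natSub s1 s2) (FP.natMul h4 s3)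

omit [N487b59b3 α] in
theorem est_sz (P : Par) : ∃ B : ℕ → ℕ, PB B ∧ Monotone B ∧
    ∀ (E : List (ℕ × ℕ)) (i b K k : ℕ) (nd : Nd) (l : List Bool),
      Nat.size (DFP.est P E i b K k nd l).1 ≤ B (sz E + sz i + b + K + k + sz nd) ∧
      Nat.size (DFP.est P E i b K k nd l).2 ≤ B (sz E + sz i + b + K + k + sz nd) := by
  obtain ⟨B0, hB0, hm, hsz⟩ := trial_sz P
  refine ⟨fun n => 1 + n + n * (B0 n + 1), by fun_prop, ?_, ?_⟩
  · intro a b hab
    have h1 : a * (B0 a + 1) ≤ b * (B0 b + 1) :=
      Nat.mul_le_mul hab (Nat.add_le_add_right (hm hab) 1)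
    simp only
    omega
  · intro E i b K k nd l
    have htb : TB 1 ((0, (0, 1)) : Tri) := by
      refine ⟨?_, ?_, ?_⟩ <;> simp
    obtain ⟨q1, q2, q3⟩ := smp_TB P E i b K nd (B0 (sz E + sz i + b + K + sz nd))
      (fun l => hsz E i _ _ nd l) k 1 l (0, (0, 1)) htb
    have hN : sz E + sz i + b + K + sz nd ≤ sz E + sz i + b + K + k + sz nd := by omega
    have hS := hm hN
    have hk : k ≤ sz E + sz i + b + K + k + sz nd := by omega
    generalize hNN : sz E + sz i + b + K + k + sz nd = N at *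
    generalize hSS : B0 (sz E + sz i + b + K + sz nd) = S at *
    have h3 : k * (S + 1) ≤ N * (B0 N + 1) := Nat.mul_le_mul hk (by omega)
    have hks : Nat.size k ≤ k := by
      rw [Nat.size_le]
      exact Nat.lt_two_pow_self
    unfold DFP.est
    constructor
    · simp only
      refine (Nat.size_le_size (Nat.sub_le _ _)).trans (q1.trans ?_)
      omega
    · simp only
      refine (Helper47.TR.size_mul_le _ _).trans ?_
      omega

end

end Pool.Agent.DFP
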