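import Pool.Agent.DFP.MDefs
import Pool.Agent.TFP.FpL

set_option autoImplicit false

/-!
# DFP-FpI: the initial list is polynomial time computable

The list is a filter of `List.range` (`FP.range`) followed by a map with context.
-/

namespace Pool.Agent.DFP

open Finset

open Turing Function N487b59b3 N68a2faeb Pool.Agent.Helper22 Pool.Agent.Helper6.WB Computability
  Pool.Agent.Helper47.TR

section

variable {α : Type} [N487b59b3 α]

private theorem ini_natBeq {f g : α → ℕ} (hf : FP f) (hg : FP g) : FP fun a => (f a == g a) := by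
  refine (congrArg FP (funext fun a => ?_)).mp (FP.natEq hf hg)
  exact (beq_eq_decide _ _).symm

private theorem ini_multL {E : α → List (ℕ × ℕ)} {u v : α → ℕ} (hE : FP E) (hu : FP u)
    (hv : FP v) : FP fun a => DFP.multL (E a) (u a) (v a) := by
  have h1 : FP fun q : (ℕ × ℕ) × (ℕ × ℕ) =>
      ((q.2.1 == q.1.1 && q.2.2 == q.1.2) || (q.2.1 == q.1.2 && q.2.2 == q.1.1)) :=
    FP.or (FP.and (ini_natBeq (by fun_prop) (by fun_prop)) (ini_natBeq (by fun_prop) (by fun_prop)))
      (FP.and (ini_natBeq (by fun_prop) (by fun_prop)) (ini_natBeq (by fun_prop) (by fun_prop)))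
  have h2 := TFP.FP.filter2 h1 (hu.pair hv) hE
  exact FP.map (f := fun _ : ℕ × ℕ => true) (FP.const true) h2

theorem FP.ini {E : α → List (ℕ × ℕ)} {nl : α → List Bool} {i : α → ℕ} (hE : FP E) (hn : FP nl)
    (hi : FP i) : FP fun a => DFP.ini (E a) (nl a).length (i a) := by
  have hr : FP fun a => List.range (nl a).length := FP.range hn
  have h1 : FP fun q : ℕ × ℕ => !decide (q.2 ≤ q.1) := FP.not (FP.natLe (by fun_prop) (by fun_prop))
  have h2 := TFP.FP.filter2 h1 hi hr
  have h3 : FP fun q : (List (ℕ × ℕ) × ℕ) × ℕ => (q.2, true :: DFP.multL q.1.1 q.1.2 q.2) :=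
    FP.pair (by fun_prop) (FP.cons (FP.const true) (ini_multL (by fun_prop) (by fun_prop) (by fun_prop)))
  have h4 := (FP.map_ctx h3).comp (FP.pair (hE.pair hi) h2)
  refine (congrArg FP (funext fun a => ?_)).mp h4
  show List.map _ _ = List.map _ _
  congr 1
  apply List.filter_congr
  intro x _
  simp only [← decide_not, not_le]

end

end Pool.Agent.DFP
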