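import Pool.Agent.DFP.FpL
import Pool.Agent.PQ.NatSub

set_option autoImplicit false

/-!
# DFP-FpO: the random expansion of a node is polynomial time computable
-/

namespace Pool.Agent.DFP

open Finset

open Turing Function N487b59b3 N68a2faeb Pool.Agent.Helper22 Pool.Agent.Helper6.WB Computability
  Pool.Agent.Helper47.TR

section

variable {α : Type} [N487b59b3 α]

private theorem fo_ite {β : Type} [N487b59b3 β] {p : α → Prop} {d : ∀ a, Decidable (p a)}
    {f g : α → β} (hp : FP fun a => decide (p a)) (hf : FP f) (hg : FP g) :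
    FP fun a => if p a then f a else g a := by
  refine (congrArg FP (funext fun a => ?_)).mp (FP.ite hp hf hg)
  by_cases h : p a
  · simp [h]
  · simp [h]

private theorem fo_eq {f : α → ℕ} (hf : FP f) (k : ℕ) : FP fun a => decide (f a = k) :=
  FP.natEq hf (FP.const k)

private theorem fo_lt {f : α → ℕ} (hf : FP f) (k : ℕ) : FP fun a => decide (f a < k) := by
  refine (congrArg FP (funext fun a => ?_)).mp (FP.not (FP.natLe (FP.const k) hf))
  by_cases h : f a < k
  · have h1 : ¬ k ≤ f a := Nat.not_le.2 h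
    simp [h]
  · have h1 : k ≤ f a := Nat.not_lt.1 h
    simp [h1]

private theorem fo_and {p q : α → Prop} {dp : ∀ a, Decidable (p a)} {dq : ∀ a, Decidable (q a)}
    {dd : ∀ a, Decidable (p a ∧ q a)}
    (hp : FP fun a => decide (p a)) (hq : FP fun a => decide (q a)) :
    FP fun a => decide (p a ∧ q a) := by
  refine (congrArg FP (funext fun a => ?_)).mp (FP.and hp hq)
  by_cases h : p a
  · by_cases h' : q a
    · simp [h, h']
    · simp [h, h']
  · simp [h]

private theorem fo_bool {f : α → Bool} (hf : FP f) : FP fun a => decide (f a = true) := by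
  refine (congrArg FP (funext fun a => ?_)).mp hf
  cases f a <;> rfl

theorem FP.out (P : Par) {E : α → List (ℕ × ℕ)} {i c y : α → ℕ} {bl : α → List Bool}
    {nd : α → Nd} (hE : FP E) (hi : FP i) (hb : FP bl) (hc : FP c) (hy : FP y) (hnd : FP nd) :
    FP fun a => DFP.out P (E a) (i a) (bl a).length (c a) (y a) (nd a) := by
  have h1 : FP fun a => (nd a).1 := FP.fst' hnd
  have hv : FP fun a => (nd a).2.1 := FP.fst' (FP.snd' hnd)
  have hL : FP fun a => (nd a).2.2 := FP.snd' (FP.snd' hnd)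
  have hp : FP fun a => DFP.pres (y a) (nd a).2.2 := FP.pres hy hL
  have hcd := FP.cd hy hL
  have hcn : FP fun a => DFP.cnum P (DFP.cd (y a) (nd a).2.2) := FP.cnum P hcd
  have hce : FP fun a => DFP.cden P (DFP.cd (y a) (nd a).2.2) := FP.cden P hcd
  have hlen : FP fun a => (nd a).2.2.length := FP.length hL
  have hmu : FP fun a => DFP.multL (E a) (nd a).2.1 (y a) := FP.multL hE hv hy
  have hpw : ∀ k : ℕ, FP fun a => k ^ (DFP.multL (E a) (nd a).2.1 (y a)).length := fun k =>
    FP.powU (FP.const k) hmu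
  have h2b : ∀ k : ℕ, FP fun a => k * 2 ^ (bl a).length := fun k =>
    FP.natMul (FP.const k) (FP.powU (FP.const 2) hb)
  have hai : FP fun a => P.A1 + P.A2 * (i a + 1 + (nd a).2.2.length) :=
    FP.natAdd (FP.const P.A1) (FP.natMul (FP.const P.A2)
      (FP.natAdd (FP.natAdd hi (FP.const 1)) hlen))
  have hai0 : FP fun a => P.A1 + P.A2 * (i a + (nd a).2.2.length) :=
    FP.natAdd (FP.const P.A1) (FP.natMul (FP.const P.A2) (FP.natAdd hi hlen))
  have hwt : ∀ (s : Bool) {n d : α → ℕ}, FP n → FP d → FP fun a => (s, (n a, d a)) :=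
    fun s _ _ hn hd => FP.pair (FP.const s) (FP.pair hn hd)
  have hno : ∀ (t : ℕ) {v : α → ℕ} {L : α → LL}, FP v → FP L → FP fun a => (t, (v a, L a)) :=
    fun t _ _ hv hL => FP.pair (FP.const t) (FP.pair hv hL)
  have hz : FP fun _ : α => (out0 : Wt × List Nd) := FP.const out0
  unfold DFP.out
  refine fo_ite (fo_eq h1 0) ?_ (fo_ite (fo_eq h1 1) ?_ (fo_ite (fo_eq h1 2) ?_
    (fo_ite (fo_lt hc 2) ?_ ?_)))
  · refine fo_ite (fo_eq hc 0) (FP.const ((false, (4, 1)), [])) (fo_ite ?_ ?_ hz)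
    · exact fo_and (fo_eq hc 1) (fo_bool hp)
    · exact FP.pair (hwt true (FP.natMul (h2b 4) (FP.natMul hcn (FP.const P.A2)))
        (FP.natMul hce hai0)) (FP.cons (hno 1 hy (FP.erD hy hL))
          (FP.cons (hno 0 (FP.const 0) (FP.chg hE hy hL)) (FP.const [])))
  · have hw : FP fun a => ((false, (4 * 2 ^ (bl a).length *
        (P.y1 ^ (DFP.multL (E a) (nd a).2.1 (y a)).length * P.A2),
        P.y2 ^ (DFP.multL (E a) (nd a).2.1 (y a)).length *
          (P.A1 + P.A2 * (i a + 1 + (nd a).2.2.length)))) : Wt) :=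
      hwt false (FP.natMul (h2b 4) (FP.natMul (hpw P.y1) (FP.const P.A2)))
        (FP.natMul (hpw P.y2) hai)
    refine fo_ite (fo_eq hc 0) (FP.const ((false, (4, 1)), [])) (fo_ite (fo_bool hp) ?_ hz)
    refine fo_ite (fo_eq hc 1) ?_ (fo_ite (fo_eq hc 2) ?_ ?_)
    · exact FP.pair hw (FP.cons hnd (FP.const []))
    · exact FP.pair hw (FP.cons (hno 2 hy (FP.chw hE hv hy hL)) (FP.cons hnd (FP.const [])))
    · exact FP.pair (hwt true (FP.natMul (h2b 4) (FP.const P.A2)) hai)
        (FP.cons (hno 2 hy (FP.ch1 hy hL)) (FP.cons hnd (FP.const [])))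
  · have h3 : FP fun a => ((1, ((nd a).2.1, (nd a).2.2)) : Nd) := hno 1 hv hL
    refine fo_ite (fo_and (fo_bool hp) (fo_lt hc 2)) ?_ hz
    refine FP.pair (hwt false (FP.natMul (h2b 4) (FP.natMul (PQ.fp_natSub hce hcn)
      (FP.natMul (hpw P.y1) (FP.const P.A2)))) (FP.natMul hce (FP.natMul (hpw P.y2) hai))) ?_
    refine fo_ite (fo_eq hc 0) (FP.cons h3 (FP.const [])) ?_
    exact FP.cons (hno 2 hy (FP.chq hE hv hy hL)) (FP.cons h3 (FP.const []))
  · refine FP.ite (FP.isEmpty hL) (FP.const ((false, (2, 1)), [])) ?_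
    refine FP.pair (hwt false (FP.natMul (FP.const 2) (FP.natAdd (FP.const P.A1)
      (FP.natMul (FP.const P.A2) (FP.natAdd hv (FP.const 1))))) (FP.const P.A2)) ?_
    exact FP.cons (hno 3 (FP.natAdd hv (FP.const 1)) (FP.rowL hE (FP.fst' (FP.headD hL _))
      (FP.tail hL))) (FP.const [])
  · refine fo_ite (fo_bool hp) ?_ hz
    exact FP.pair (hwt true (FP.natMul (h2b 2) hcn) hce)
      (FP.cons (hno 3 hv (FP.chg hE hy hL)) (FP.const []))

theorem FP.stepA (P : Par) {E : α → List (ℕ × ℕ)} {i c y : α → ℕ} {bl : α → List Bool}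
    {s : α → Stt} (hE : FP E) (hi : FP i) (hb : FP bl) (hc : FP c) (hy : FP y) (hs : FP s) :
    FP fun a => DFP.stepA P (E a) (i a) (bl a).length (c a) (y a) (s a) := by
  have h1 : FP fun a => (s a).1 := FP.fst' hs
  have h2 : FP fun a => (s a).2 := FP.snd' hs
  have h3 := FP.out P hE hi hb hc hy (FP.headD h1 (0, (0, [])))
  have h4 : ∀ {u t : α → Wt}, FP u → FP t → FP fun a => DFP.wmul (u a) (t a) := by
    intro u t hu ht
    unfold DFP.wmul
    refine FP.pair ?_ (FP.pair (FP.natMul (FP.fst' (FP.snd' hu)) (FP.fst' (FP.snd' ht)))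
      (FP.natMul (FP.snd' (FP.snd' hu)) (FP.snd' (FP.snd' ht))))
    have h5 := FP.not (FP.beq (FP.fst' hu) (FP.fst' ht))
    refine (congrArg FP (funext fun a => ?_)).mp h5
    cases (u a).1 <;> cases (t a).1 <;> rfl
  unfold DFP.stepA
  refine FP.ite (FP.isEmpty h1) hs ?_
  exact FP.pair (FP.append (FP.snd' h3) (FP.tail h1)) (h4 h2 (FP.fst' h3))

end

end Pool.Agent.DFP
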