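import Pool.Agent.DFP.FpE
import Pool.Agent.DFP.FpI

set_option autoImplicit false

/-!
# DFP-FpP: the product of the factors is polynomial time computable
-/

namespace Pool.Agent.DFP

open Finset

open Turing Function N487b59b3 N68a2faeb Pool.Agent.Helper22 Pool.Agent.Helper6.WB Computability
  Pool.Agent.Helper47.TR

/-- the context -/
private abbrev Cx := List (ℕ × ℕ) × (List Bool × (List Bool × (List Bool × List Bool)))

/-- the number of random bits of one factor, in unary -/
private def fpM (c : Cx) : List Bool :=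
  un (c.2.2.2.2.length * (un (c.2.2.2.1.length * (true :: true :: c.2.2.1).length)).length)

private theorem fpM_length (c : Cx) :
    (fpM c).length = c.2.2.2.2.length * (c.2.2.2.1.length * (c.2.2.1.length + 2)) := by
  simp [fpM]

private theorem fpM_FP : FP fpM :=
  FP.unMul (f := fun c : Cx => c.2.2.2.2) (by fun_prop)
    (FP.unMul (f := fun c : Cx => c.2.2.2.1) (g := fun c => true :: true :: c.2.2.1)
      (by fun_prop) (by fun_prop))

/-- the factor with index `m.length` -/
private def facL (P : Par) (p : Cx × (List Bool × List Bool)) : ℕ × ℕ :=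
  ((if p.2.1.isEmpty then 1 else P.A1 + P.A2 * p.2.1.length) *
      (est P p.1.1 p.2.1.length p.1.2.2.1.length p.1.2.2.2.1.length p.1.2.2.2.2.length
        (0, (0, ini p.1.1 p.1.2.1.length p.2.1.length)) p.2.2).1,
    (if p.2.1.isEmpty then 1 else P.A2) *
      (est P p.1.1 p.2.1.length p.1.2.2.1.length p.1.2.2.2.1.length p.1.2.2.2.2.length
        (0, (0, ini p.1.1 p.1.2.1.length p.2.1.length)) p.2.2).2)

private theorem facL_eq (P : Par) (E : List (ℕ × ℕ)) (nl bl K k m l : List Bool) :
    facL P ((E, (nl, (bl, (K, k)))), (m, l)) =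
      fac P E nl.length bl.length K.length k.length m.length l := by
  unfold facL fac
  cases m with
  | nil => rfl
  | cons a m => rfl

private theorem facL_FP (P : Par) : FP (facL P) := by
  have hE : FP fun p : Cx × (List Bool × List Bool) => p.1.1 := by fun_prop
  have hn : FP fun p : Cx × (List Bool × List Bool) => p.1.2.1 := by fun_prop
  have hb : FP fun p : Cx × (List Bool × List Bool) => p.1.2.2.1 := by fun_prop
  have hK : FP fun p : Cx × (List Bool × List Bool) => p.1.2.2.2.1 := by fun_prop
  have hk : FP fun p : Cx × (List Bool × List Bool) => p.1.2.2.2.2 := by fun_prop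
  have hm : FP fun p : Cx × (List Bool × List Bool) => p.2.1 := by fun_prop
  have hl : FP fun p : Cx × (List Bool × List Bool) => p.2.2 := by fun_prop
  have hml := FP.length hm
  have hini := FP.ini hE hn hml
  have hest := FP.estD P hE hml hb hK hk
    (FP.pair (FP.const (0 : ℕ)) (FP.pair (FP.const (0 : ℕ)) hini)) hl
  exact FP.pair
    (FP.natMul (FP.ite (FP.isEmpty hm) (FP.const 1)
      (FP.natAdd (FP.const P.A1) (FP.natMul (FP.const P.A2) hml))) (FP.fst.comp hest))
    (FP.natMul (FP.ite (FP.isEmpty hm) (FP.const 1) (FP.const P.A2)) (FP.snd.comp hest))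

private abbrev PSt := Cx × (List Bool × (List Bool × (ℕ × ℕ)))

/-- one step of the loop -/
private def pStep (P : Par) (s : PSt) : PSt :=
  (s.1, (s.2.1.tail, (s.2.2.1.drop (fpM s.1).length,
    ((facL P (s.1, (s.2.1.tail, s.2.2.1.take (fpM s.1).length))).1 * s.2.2.2.1,
      (facL P (s.1, (s.2.1.tail, s.2.2.1.take (fpM s.1).length))).2 * s.2.2.2.2))))

private theorem pStep_FP (P : Par) : FP (pStep P) := by
  have hc : FP fun s : PSt => s.1 := by fun_prop
  have hm : FP fun s : PSt => s.2.1 := by fun_prop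
  have hl : FP fun s : PSt => s.2.2.1 := by fun_prop
  have hx : FP fun s : PSt => s.2.2.2.1 := by fun_prop
  have hy : FP fun s : PSt => s.2.2.2.2 := by fun_prop
  have hM : FP fun s : PSt => fpM s.1 := fpM_FP.comp hc
  have hf : FP fun s : PSt => facL P (s.1, (s.2.1.tail, s.2.2.1.take (fpM s.1).length)) :=
    (facL_FP P).comp (FP.pair hc (FP.pair (FP.tail hm) (FP.take hl hM)))
  exact FP.pair hc (FP.pair (FP.tail hm) (FP.pair (FP.drop hl hM)
    (FP.pair (FP.natMul (FP.fst.comp hf) hx) (FP.natMul (FP.snd.comp hf) hy))))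

private theorem pStep_iter (P : Par) {T : ℕ → ℕ} (hT : Monotone T)
    (hf : ∀ p, sz (facL P p) ≤ T (sz p)) (i : ℕ) (s : PSt) :
    ∃ (l' : List Bool) (x y : ℕ), (pStep P)^[i] s = (s.1, (s.2.1.drop i, (l', (x, y)))) ∧
      l'.length ≤ s.2.2.1.length ∧
      Nat.size x ≤ Nat.size s.2.2.2.1 + i * T (sz s) ∧
      Nat.size y ≤ Nat.size s.2.2.2.2 + i * T (sz s) := by
  induction i with
  | zero => exact ⟨s.2.2.1, s.2.2.2.1, s.2.2.2.2, by simp, le_rfl, by simp, by simp⟩
  | succ i ih =>
    obtain ⟨l', x, y, h1, h2, h3, h4⟩ := ih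
    have h5 := hf (s.1, ((s.2.1.drop i).tail, l'.take (fpM s.1).length))
    have h6 : sz ((s.1, ((s.2.1.drop i).tail, l'.take (fpM s.1).length)) :
        Cx × (List Bool × List Bool)) ≤ sz s := by
      have e1 : sz s = 2 * sz s.1 + 1 + (2 * sz s.2.1 + 1 + (2 * sz s.2.2.1 + 1 +
          sz s.2.2.2)) := by
        obtain ⟨s1, s2, s3, s4⟩ := s
        rw [sz_pair s1 (s2, (s3, s4)), sz_pair s2 (s3, s4), sz_pair s3 s4]
      have e2 : sz (s.2.1.drop i).tail ≤ sz s.2.1 := by
        rw [List.tail_drop]
        exact sz_drop _ _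
      have e3 : sz (l'.take (fpM s.1).length) ≤ sz s.2.2.1 := by
        refine (sz_take _ _).trans ?_
        rw [sz_bits, sz_bits]
        omega
      rw [sz_pair s.1 ((s.2.1.drop i).tail, l'.take (fpM s.1).length),
        sz_pair (s.2.1.drop i).tail (l'.take (fpM s.1).length)]
      omega
    have h7 := h5.trans (hT h6)
    obtain ⟨a, d, had⟩ : ∃ a d, facL P (s.1, ((s.2.1.drop i).tail,
      l'.take (fpM s.1).length)) = (a, d) := ⟨_, _, rfl⟩
    rw [had, sz_pair, sz_nat, sz_nat] at h7
    rw [List.tail_drop] at had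
    refine ⟨l'.drop (fpM s.1).length, a * x, d * y, ?_, ?_, ?_, ?_⟩
    · rw [Function.iterate_succ_apply', h1]
      unfold pStep
      simp only [had, List.tail_drop]
    · rw [List.length_drop]
      omega
    · refine (Pool.Agent.Helper47.TR.size_mul_le _ _).trans ?_
      have h8 : (i + 1) * T (sz s) = i * T (sz s) + T (sz s) := by ring
      omega
    · refine (Pool.Agent.Helper47.TR.size_mul_le _ _).trans ?_
      have h8 : (i + 1) * T (sz s) = i * T (sz s) + T (sz s) := by ring
      omega

private theorem pStep_run (P : Par) (E : List (ℕ × ℕ)) (nl bl K k m : List Bool) :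
    ∀ (l : List Bool) (x y : ℕ),
      ((pStep P)^[m.length] ((E, (nl, (bl, (K, k)))), (m, (l, (x, y))))).2.2.2 =
        ((prA P E nl.length bl.length K.length k.length m.length l).1 * x,
          (prA P E nl.length bl.length K.length k.length m.length l).2 * y) := by
  induction m with
  | nil =>
    intro l x y
    simp [DFP.prA]
  | cons c m ih =>
    intro l x y
    rw [List.length_cons, Function.iterate_succ_apply]
    have h1 : pStep P ((E, (nl, (bl, (K, k)))), (c :: m, (l, (x, y)))) =
        ((E, (nl, (bl, (K, k)))), (m, (l.drop (k.length * (K.length * (bl.length + 2))),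
          ((fac P E nl.length bl.length K.length k.length m.length
              (l.take (k.length * (K.length * (bl.length + 2))))).1 * x,
            (fac P E nl.length bl.length K.length k.length m.length
              (l.take (k.length * (K.length * (bl.length + 2))))).2 * y)))) := by
      unfold pStep
      simp only [fpM_length, List.tail_cons, facL_eq]
    rw [h1, ih]
    refine Prod.ext ?_ ?_
    · show _ * (_ * x) = (DFP.prA P E nl.length bl.length K.length k.length (m.length + 1) l).1 * x
      rw [DFP.prA]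
      ring
    · show _ * (_ * y) = (DFP.prA P E nl.length bl.length K.length k.length (m.length + 1) l).2 * y
      rw [DFP.prA]
      ring

private theorem pIter_FP (P : Par) :
    FP fun p : List Bool × PSt => (pStep P)^[p.1.length] p.2 := by
  obtain ⟨T, hT1, hT2, hT3⟩ := (facL_FP P).bound
  refine FP.iterate (pStep_FP P) (B := fun n => n + 3 * (n * T n)) (by fun_prop) ?_
  intro lst s i hi
  obtain ⟨l', x, y, h1, h2, h3, h4⟩ := pStep_iter P hT2 hT3 i s
  rw [h1]
  have e1 : sz s = 2 * sz s.1 + 1 + (2 * sz s.2.1 + 1 + (2 * sz s.2.2.1 + 1 +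
      (2 * Nat.size s.2.2.2.1 + 1 + Nat.size s.2.2.2.2))) := by
    obtain ⟨s1, s2, s3, s4, s5⟩ := s
    rw [sz_pair s1 (s2, (s3, (s4, s5))), sz_pair s2 (s3, (s4, s5)), sz_pair s3 (s4, s5),
      sz_pair s4 s5, sz_nat, sz_nat]
  have e2 := sz_drop s.2.1 i
  have e3 : sz l' ≤ sz s.2.2.1 := by
    rw [sz_bits, sz_bits]
    omega
  have e4 : i ≤ sz lst + sz s := by
    have := length_le_sz lst
    omega
  have e5 : T (sz s) ≤ T (sz lst + sz s) := hT2 (by omega)
  have e6 : i * T (sz s) ≤ (sz lst + sz s) * T (sz lst + sz s) := Nat.mul_le_mul e4 e5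
  rw [sz_pair s.1 (s.2.1.drop i, (l', (x, y))), sz_pair (s.2.1.drop i) (l', (x, y)),
    sz_pair l' (x, y), sz_pair x y, sz_nat, sz_nat]
  show _ ≤ sz lst + sz s + 3 * ((sz lst + sz s) * T (sz lst + sz s))
  omega

section

variable {α : Type} [N487b59b3 α]

theorem FP.prA (P : Par) {E : α → List (ℕ × ℕ)} {nl bl K k m l : α → List Bool} (hE : FP E)
    (hn : FP nl) (hb : FP bl) (hK : FP K) (hk : FP k) (hm : FP m) (hl : FP l) :
    FP fun a => DFP.prA P (E a) (nl a).length (bl a).length (K a).length (k a).length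
      (m a).length (l a) := by
  have h2 := (pIter_FP P).comp (hm.pair (FP.pair (FP.pair hE (FP.pair hn (FP.pair hb (FP.pair hK hk))))
    (FP.pair hm (FP.pair hl (FP.const ((1, 1) : ℕ × ℕ))))))
  have h3 := h2.snd'.snd'.snd'
  refine (congrArg FP (funext fun a => ?_)).mp h3
  show ((pStep P)^[(m a).length] ((E a, (nl a, (bl a, (K a, k a)))), (m a, (l a, (1, 1))))).2.2.2 = _
  rw [pStep_run, mul_one, mul_one]

end

end Pool.Agent.DFP
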