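import Pool.Agent.DFP.SzO

set_option autoImplicit false

/-!
# DFP-SzR: sizes of the states
-/

namespace Pool.Agent.DFP

open Finset

open Pool.Agent.Helper22

private theorem szr_list {β : Type} [N487b59b3 β] (l : List β) (C : ℕ)
    (h : ∀ b ∈ l, sz b ≤ C) : sz l ≤ l.length * (2 * C + 1) := by
  have := sz_map_le (fun b : β => b) l C h
  simpa using this

/-- bounds of a state -/
private def Bd (N V C len W : ℕ) (s : Stt) : Prop :=
  s.1.length ≤ len ∧ (∀ nd ∈ s.1, NdB N V C nd) ∧ Nat.size s.2.2.1 ≤ W ∧ Nat.size s.2.2.2 ≤ W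

private theorem NdB.mono {N V C V' C' : ℕ} {nd : Nd} (h : NdB N V C nd) (h1 : V ≤ V')
    (h2 : C ≤ C') : NdB N V' C' nd :=
  ⟨h.1, h.2.1.trans h1, h.2.2.1, fun p hp => ⟨(h.2.2.2 p hp).1, (h.2.2.2 p hp).2.trans h2⟩⟩

private theorem Bd.mono {N V C len W V' C' len' W' : ℕ} {s : Stt} (h : Bd N V C len W s)
    (h1 : V ≤ V') (h2 : C ≤ C') (h3 : len ≤ len') (h4 : W ≤ W') : Bd N V' C' len' W' s :=
  ⟨h.1.trans h3, fun nd hnd => (h.2.1 nd hnd).mono h1 h2, h.2.2.1.trans h4, h.2.2.2.trans h4⟩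

private theorem szr_step (P : Par) (E : List (ℕ × ℕ)) (cP : ℕ)
    (hcP : ∀ (E : List (ℕ × ℕ)) (i b c y N V C : ℕ) (nd : Nd),
      NdB N V C nd →
      Nat.size (out P E i b c y nd).1.2.1 ≤ cP * (b + C + E.length + N + V + Nat.size i + 1) ∧
      Nat.size (out P E i b c y nd).1.2.2 ≤ cP * (b + C + E.length + N + V + Nat.size i + 1))
    (i b c y N V C len W : ℕ) (s : Stt) (h2 : 2 ≤ N) (hV : N ≤ V) (hy : sz y ≤ N)
    (h : Bd N V C len W s) :
    Bd N (V + 1) (C + E.length + 1) (len + 2)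
      (W + cP * (b + C + E.length + N + V + Nat.size i + 1)) (stepA P E i b c y s) := by
  obtain ⟨st, w⟩ := s
  cases st with
  | nil =>
    have e1 : stepA P E i b c y (([] : List Nd), w) = (([] : List Nd), w) := rfl
    rw [e1]
    exact h.mono (by omega) (by omega) (by omega) (Nat.le_add_right _ _)
  | cons nd st =>
    have e1 : stepA P E i b c y (nd :: st, w) =
        ((out P E i b c y nd).2 ++ st, wmul w (out P E i b c y nd).1) := rfl
    rw [e1]
    obtain ⟨g1, g2, g3, g4⟩ := h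
    change (nd :: st).length ≤ len at g1
    change ∀ nd' ∈ nd :: st, NdB N V C nd' at g2
    change Nat.size w.2.1 ≤ W at g3
    change Nat.size w.2.2 ≤ W at g4
    have hnd : NdB N V C nd := g2 nd List.mem_cons_self
    obtain ⟨q1, q2⟩ := out_NdB P E i b c y N V C nd h2 hV hnd hy
    obtain ⟨q3, q4⟩ := hcP E i b c y N V C nd hnd
    refine ⟨?_, ?_, ?_, ?_⟩
    · show ((out P E i b c y nd).2 ++ st).length ≤ len + 2
      rw [List.length_append]
      rw [List.length_cons] at g1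
      omega
    · intro nd' hnd'
      change nd' ∈ (out P E i b c y nd).2 ++ st at hnd'
      rcases List.mem_append.1 hnd' with h5 | h5
      · exact q1 nd' h5
      · exact (g2 nd' (List.mem_cons_of_mem _ h5)).mono (by omega) (by omega)
    · show Nat.size (w.2.1 * (out P E i b c y nd).1.2.1) ≤ _
      exact (Pool.Agent.Helper47.TR.size_mul_le _ _).trans (Nat.add_le_add g3 q3)
    · show Nat.size (w.2.2 * (out P E i b c y nd).1.2.2) ≤ _
      exact (Pool.Agent.Helper47.TR.size_mul_le _ _).trans (Nat.add_le_add g4 q4)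

private theorem szr_val (l : List Bool) (b : ℕ) :
    sz (Helper6.WB.val (l.take b)) ≤ b := by
  rw [Helper6.WB.sz_nat, Nat.size_le]
  refine (Helper6.WB.val_lt _).trans_le (Nat.pow_le_pow_right (by norm_num) ?_)
  rw [List.length_take]
  exact min_le_left _ _

private theorem szr_run (P : Par) (E : List (ℕ × ℕ)) (cP : ℕ)
    (hcP : ∀ (E : List (ℕ × ℕ)) (i b c y N V C : ℕ) (nd : Nd),
      NdB N V C nd →
      Nat.size (out P E i b c y nd).1.2.1 ≤ cP * (b + C + E.length + N + V + Nat.size i + 1) ∧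
      Nat.size (out P E i b c y nd).1.2.2 ≤ cP * (b + C + E.length + N + V + Nat.size i + 1))
    (i b N V' C' : ℕ) (h2 : 2 ≤ N) (hb : b ≤ N) (K : ℕ) :
    ∀ (V C len W : ℕ) (l : List Bool) (s : Stt), N ≤ V → V + K ≤ V' →
      C + K * (E.length + 1) ≤ C' → Bd N V C len W s →
      Bd N (V + K) (C + K * (E.length + 1)) (len + 2 * K)
        (W + K * (cP * (b + C' + E.length + N + V' + Nat.size i + 1))) (runA P E i b K l s) := by
  induction K with
  | zero =>
    intro V C len W l s hV _ _ h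
    exact h.mono (by omega) (by omega) (by omega) (by omega)
  | succ K ih =>
    intro V C len W l s hV hV' hC' h
    have e1 : runA P E i b (K + 1) l s = runA P E i b K (l.drop (b + 2))
      (stepA P E i b (Helper6.WB.val (l.take 2)) (Helper6.WB.val ((l.drop 2).take b)) s) := rfl
    rw [e1]
    have g1 := szr_step P E cP hcP i b (Helper6.WB.val (l.take 2))
      (Helper6.WB.val ((l.drop 2).take b)) N V C len W s h2 hV ((szr_val _ b).trans hb) h
    have e2 : (K + 1) * (E.length + 1) = K * (E.length + 1) + (E.length + 1) := by ring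
    rw [e2] at hC' ⊢
    have g2 := ih (V + 1) (C + E.length + 1) (len + 2)
      (W + cP * (b + C + E.length + N + V + Nat.size i + 1)) (l.drop (b + 2)) _
      (by omega) (by omega) (by omega) g1
    refine g2.mono (by omega) (by omega) (by omega) ?_
    have e3 : cP * (b + C + E.length + N + V + Nat.size i + 1) ≤
        cP * (b + C' + E.length + N + V' + Nat.size i + 1) := by
      refine Nat.mul_le_mul le_rfl ?_
      omega
    have e4 : (K + 1) * (cP * (b + C' + E.length + N + V' + Nat.size i + 1)) =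
      K * (cP * (b + C' + E.length + N + V' + Nat.size i + 1)) +
        cP * (b + C' + E.length + N + V' + Nat.size i + 1) := by ring
    rw [e4]
    omega

/-- the size of a state with bounds -/
private def FB (N V C len W : ℕ) : ℕ :=
  2 * (len * (2 * (2 * N + 1 + (2 * V + 1 + N * (2 * (2 * N + 1 + 3 * C) + 1))) + 1)) + 1 +
    (3 + (2 * W + 1 + W))

private theorem szr_nd {N V C : ℕ} {nd : Nd} (h : NdB N V C nd) :
    sz nd ≤ 2 * N + 1 + (2 * V + 1 + N * (2 * (2 * N + 1 + 3 * C) + 1)) := by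
  obtain ⟨h1, h2, h3, h4⟩ := h
  have e1 : sz nd = 2 * sz nd.1 + 1 + (2 * sz nd.2.1 + 1 + sz nd.2.2) := by
    obtain ⟨a, b, c⟩ := nd
    rw [sz_pair, sz_pair]
  have e2 : sz nd.2.2 ≤ nd.2.2.length * (2 * (2 * N + 1 + 3 * C) + 1) := by
    refine szr_list _ _ fun p hp => ?_
    obtain ⟨g1, g2⟩ := h4 p hp
    obtain ⟨a, b⟩ := p
    rw [sz_pair, sz_bits]
    change sz a ≤ N at g1
    change b.length ≤ C at g2
    omega
  have e3 : nd.2.2.length * (2 * (2 * N + 1 + 3 * C) + 1) ≤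
      N * (2 * (2 * N + 1 + 3 * C) + 1) := Nat.mul_le_mul h3 le_rfl
  omega

private theorem szr_fin {N V C len W : ℕ} {s : Stt} (h : Bd N V C len W s) :
    sz s ≤ FB N V C len W := by
  obtain ⟨h1, h2, h3, h4⟩ := h
  have e1 : sz s = 2 * sz s.1 + 1 + (3 + (2 * Nat.size s.2.2.1 + 1 + Nat.size s.2.2.2)) := by
    obtain ⟨st, bb, a, d⟩ := s
    rw [sz_pair, sz_pair, sz_pair, sz_bool, Helper6.WB.sz_nat, Helper6.WB.sz_nat]
  have e2 := szr_list s.1 _ fun nd hnd => szr_nd (h2 nd hnd)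
  have e3 := Nat.mul_le_mul h1 (le_refl
    (2 * (2 * N + 1 + (2 * V + 1 + N * (2 * (2 * N + 1 + 3 * C) + 1))) + 1))
  rw [e1]
  unfold FB
  generalize (2 * (2 * N + 1 + (2 * V + 1 + N * (2 * (2 * N + 1 + 3 * C) + 1))) + 1) = Y at *
  omega

private theorem szr_ini (s : Stt) (b : ℕ) :
    Bd (b + sz s + 2) (b + sz s + 2) (sz s) (sz s) (sz s) s := by
  have e1 : sz s = 2 * sz s.1 + 1 + (3 + (2 * Nat.size s.2.2.1 + 1 + Nat.size s.2.2.2)) := by
    obtain ⟨st, bb, a, d⟩ := s
    rw [sz_pair, sz_pair, sz_pair, sz_bool, Helper6.WB.sz_nat, Helper6.WB.sz_nat]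
  have e2 := length_le_sz s.1
  refine ⟨by omega, fun nd hnd => ?_, by omega, by omega⟩
  have e3 := sz_mem_le hnd
  have e4 : sz nd = 2 * sz nd.1 + 1 + (2 * sz nd.2.1 + 1 + sz nd.2.2) := by
    obtain ⟨a, b, c⟩ := nd
    rw [sz_pair, sz_pair]
  have e5 := length_le_sz nd.2.2
  refine ⟨by omega, by omega, by omega, fun p hp => ?_⟩
  have e6 := sz_mem_le hp
  have e7 : sz p = 2 * sz p.1 + 1 + 3 * p.2.length := by
    obtain ⟨a, b⟩ := p
    rw [sz_pair, sz_bits]
  exact ⟨by omega, by omega⟩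

private theorem FB_mono {N V C len W N' V' C' len' W' : ℕ} (h1 : N ≤ N') (h2 : V ≤ V')
    (h3 : C ≤ C') (h4 : len ≤ len') (h5 : W ≤ W') : FB N V C len W ≤ FB N' V' C' len' W' := by
  unfold FB
  gcongr

theorem runA_sz (P : Par) : ∃ B : ℕ → ℕ, PB B ∧ Monotone B ∧
    ∀ (E : List (ℕ × ℕ)) (i b K : ℕ) (l : List Bool) (s : Stt),
      sz (runA P E i b K l s) ≤ B (sz E + sz i + b + K + sz s) := by
  obtain ⟨cP, hcP⟩ := out_wsz P
  have hPB : PB fun n : ℕ => FB (n + 2) (n + 2) (n + n * (n + 1)) (2 * n)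
      (n + n * (cP * (n + (n + n * (n + 1)) + n + (n + 2) + (n + 2) + n + 1))) := by
    unfold FB
    fun_prop
  obtain ⟨B, hB1, hB2, hB3⟩ := hPB.exists_mono
  refine ⟨B, hB1, hB2, fun E i b K l s => ?_⟩
  refine le_trans ?_ (hB3 _)
  have g1 := szr_run P E cP hcP i b (b + sz s + 2) (b + sz s + 2 + K)
    (sz s + K * (E.length + 1)) (by omega) (by omega) K (b + sz s + 2) (sz s) (sz s) (sz s) l s
    le_rfl le_rfl le_rfl (szr_ini s b)
  have e1 := length_le_sz E
  have e2 : sz i = Nat.size i := Helper6.WB.sz_nat i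
  obtain ⟨n, hn⟩ : ∃ n, n = sz E + sz i + b + K + sz s := ⟨_, rfl⟩
  rw [← hn]
  have e3 : K * (E.length + 1) ≤ n * (n + 1) := Nat.mul_le_mul (by omega) (by omega)
  refine (szr_fin g1).trans (FB_mono (by omega) (by omega) (by omega) (by omega) ?_)
  refine Nat.add_le_add (by omega) (Nat.mul_le_mul (by omega) (Nat.mul_le_mul le_rfl ?_))
  omega

theorem trial_sz (P : Par) : ∃ B : ℕ → ℕ, PB B ∧ Monotone B ∧
    ∀ (E : List (ℕ × ℕ)) (i b K : ℕ) (nd : Nd) (l : List Bool),
      Nat.size (trial P E i b K nd l).2.1 ≤ B (sz E + sz i + b + K + sz nd) ∧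
      Nat.size (trial P E i b K nd l).2.2 ≤ B (sz E + sz i + b + K + sz nd) := by
  obtain ⟨B, hB1, hB2, hB3⟩ := runA_sz P
  refine ⟨fun n => B (4 * n + 10) + 1, (hB1.comp (g := fun n => 4 * n + 10) (by fun_prop)).add
    (PB.const 1), fun a b h => Nat.add_le_add (hB2 (by omega)) le_rfl, fun E i b K nd l => ?_⟩
  have g1 := hB3 E i b K l ([nd], (false, (1, 1)))
  have e1 : sz (([nd], (false, (1, 1))) : Stt) = 4 * sz nd + 10 := by
    rw [sz_pair, sz_pair, sz_pair, sz_bool, sz_cons, sz_nil, Helper6.WB.sz_nat, Nat.size_one]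
    omega
  rw [e1] at g1
  have g2 : B (sz E + sz i + b + K + (4 * sz nd + 10)) ≤
      B (4 * (sz E + sz i + b + K + sz nd) + 10) := hB2 (by omega)
  have g3 := g1.trans g2
  show Nat.size (trial P E i b K nd l).2.1 ≤ B (4 * (sz E + sz i + b + K + sz nd) + 10) + 1 ∧
    Nat.size (trial P E i b K nd l).2.2 ≤ B (4 * (sz E + sz i + b + K + sz nd) + 10) + 1
  unfold trial
  generalize runA P E i b K l ([nd], (false, (1, 1))) = s at g3 ⊢
  generalize B (4 * (sz E + sz i + b + K + sz nd) + 10) = X at g3 ⊢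
  have e2 : sz s = 2 * sz s.1 + 1 + (3 + (2 * Nat.size s.2.2.1 + 1 + Nat.size s.2.2.2)) := by
    obtain ⟨st, bb, a, d⟩ := s
    rw [sz_pair, sz_pair, sz_pair, sz_bool, Helper6.WB.sz_nat, Helper6.WB.sz_nat]
  unfold pay
  split_ifs with h
  · exact ⟨by omega, by omega⟩
  · show Nat.size 0 ≤ X + 1 ∧ Nat.size 1 ≤ X + 1
    rw [Nat.size_zero, Nat.size_one]
    exact ⟨by omega, by omega⟩

end Pool.Agent.DFP
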