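import Pool.Agent.DFP.FpO
import Pool.Agent.DFP.SzR

set_option autoImplicit false

/-!
# DFP-FpR: one trial is polynomial time computable

Iteration of one step of the machine, with the size bound of `runA_sz`.
-/

namespace Pool.Agent.DFP

open Finset

open Turing Function N487b59b3 N68a2faeb Pool.Agent.Helper22 Pool.Agent.Helper6.WB Computability
  Pool.Agent.Helper47.TR

section

variable {α : Type} [N487b59b3 α]

/-- a state with the input -/
private abbrev FRY := (List (ℕ × ℕ) × (ℕ × List Bool)) × (List Bool × Stt)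

private def frStep (P : Par) (p : FRY) : FRY :=
  (p.1, (p.2.1.drop (p.1.2.2 ++ [true, true]).length,
    DFP.stepA P p.1.1 p.1.2.1 p.1.2.2.length (Helper6.WB.val (p.2.1.take [true, true].length))
      (Helper6.WB.val ((p.2.1.drop [true, true].length).take p.1.2.2.length)) p.2.2))

private theorem frStep_fp (P : Par) : FP (frStep P) := by
  have h1 : FP fun p : FRY => p.1 := FP.fst
  have hl : FP fun p : FRY => p.2.1 := FP.fst' FP.snd
  have hb : FP fun p : FRY => p.1.2.2 := FP.snd' (FP.snd' FP.fst)
  have hE : FP fun p : FRY => p.1.1 := FP.fst' FP.fst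
  have hi : FP fun p : FRY => p.1.2.1 := FP.fst' (FP.snd' FP.fst)
  have hs : FP fun p : FRY => p.2.2 := FP.snd' FP.snd
  have h2 : FP fun p : FRY => p.2.1.drop (p.1.2.2 ++ [true, true]).length :=
    FP.drop hl (FP.append hb (FP.const _))
  have hc : FP fun p : FRY => Helper6.WB.val (p.2.1.take [true, true].length) :=
    TFP.FP.val (FP.take hl (FP.const _))
  have hy : FP fun p : FRY => Helper6.WB.val ((p.2.1.drop [true, true].length).take p.1.2.2.length) :=
    TFP.FP.val (FP.take (FP.drop hl (FP.const _)) hb)
  exact FP.pair h1 (FP.pair h2 (FP.stepA P hE hi hb hc hy hs))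

private theorem frStep_iter (P : Par) (E : List (ℕ × ℕ)) (i : ℕ) (bl : List Bool) (j : ℕ) :
    ∀ (l : List Bool) (s : Stt), (frStep P)^[j] ((E, (i, bl)), (l, s)) =
      ((E, (i, bl)), (l.drop (j * (bl.length + 2)), runA P E i bl.length j l s)) := by
  induction j with
  | zero =>
    intro l s
    rw [Nat.zero_mul, List.drop_zero]
    rfl
  | succ j ih =>
    intro l s
    rw [Function.iterate_succ_apply]
    have h1 : frStep P ((E, (i, bl)), (l, s)) = ((E, (i, bl)), (l.drop (bl.length + 2),
        DFP.stepA P E i bl.length (Helper6.WB.val (l.take 2)) (Helper6.WB.val ((l.drop 2).take bl.length)) s)) := by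
      unfold frStep
      rw [List.length_append]
      rfl
    rw [h1, ih, List.drop_drop]
    have h2 : bl.length + 2 + j * (bl.length + 2) = (j + 1) * (bl.length + 2) := by ring
    rw [h2]
    rfl

private theorem frRun (P : Par) : FP fun p : List Bool × FRY => (frStep P)^[p.1.length] p.2 := by
  obtain ⟨B, hB1, hB2, hB3⟩ := runA_sz P
  refine FP.iterate (frStep_fp P) (B := fun n => n + B n) (PB.id.add hB1) ?_
  intro c a j hj
  obtain ⟨⟨E, i, bl⟩, l, s⟩ := a
  rw [frStep_iter]
  have h1 := hB3 E i bl.length j l s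
  have h2 := sz_drop l (j * (bl.length + 2))
  have h3 := length_le_sz c
  have h4 : B (sz E + sz i + bl.length + j + sz s) ≤
      B (sz c + sz (((E, (i, bl)), (l, s)) : FRY)) := by
    apply hB2
    simp only [sz_pair, sz_bits]
    omega
  have h5 := h1.trans h4
  simp only [sz_pair] at h5 ⊢
  omega

theorem FP.trialD (P : Par) {E : α → List (ℕ × ℕ)} {i : α → ℕ} {bl K l : α → List Bool}
    {nd : α → Nd} (hE : FP E) (hi : FP i) (hb : FP bl) (hK : FP K) (hnd : FP nd) (hl : FP l) :
    FP fun a => DFP.trial P (E a) (i a) (bl a).length (K a).length (nd a) (l a) := by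
  have h0 : FP fun a => (([nd a], (false, (1, 1))) : Stt) :=
    FP.pair (FP.cons hnd (FP.const [])) (FP.const (false, (1, 1)))
  have h1 : FP fun a => (((E a, (i a, bl a)), (l a, (([nd a], (false, (1, 1))) : Stt))) : FRY) :=
    FP.pair (FP.pair hE (FP.pair hi hb)) (FP.pair hl h0)
  have h2 := (frRun P).comp (FP.pair hK h1)
  have h3 : FP fun a => runA P (E a) (i a) (bl a).length (K a).length (l a)
      ([nd a], (false, (1, 1))) := by
    refine (congrArg FP (funext fun a => ?_)).mp (FP.snd' (FP.snd' h2))
    simp only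
    rw [frStep_iter]
  unfold DFP.trial DFP.pay
  exact FP.ite (FP.isEmpty (FP.fst' h3)) (FP.snd' h3) (FP.const (false, (0, 1)))

end

end Pool.Agent.DFP
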