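import Pool.Agent.DFP.MDefs

set_option autoImplicit false

/-!
# DFP-LstA: the lists of vertices with codes
-/

namespace Pool.Agent.DFP

open Finset

private theorem mem_vs (L : LL) (x : ℕ) : x ∈ vs L ↔ x ∈ L.map Prod.fst := by
  unfold vs; simp

private theorem fst_er (y : ℕ) (L : LL) :
    (er y L).map Prod.fst = (L.map Prod.fst).filter fun x => !(x == y) := by
  unfold er
  rw [List.filter_map]
  rfl

private theorem vs_congr {L M : LL} (h : L.map Prod.fst = M.map Prod.fst) : vs L = vs M := by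
  unfold vs; rw [h]

private theorem map_fst (g : ℕ × List Bool → List Bool) (L : LL) :
    (L.map fun p => (p.1, g p)).map Prod.fst = L.map Prod.fst := by
  rw [List.map_map]
  rfl

private theorem fst_chg (E : List (ℕ × ℕ)) (y : ℕ) (L : LL) :
    (chg E y L).map Prod.fst = (er y L).map Prod.fst := map_fst _ _

private theorem fst_chq (E : List (ℕ × ℕ)) (v y : ℕ) (L : LL) :
    (chq E v y L).map Prod.fst = (er y L).map Prod.fst := map_fst _ _

private theorem fst_chw (E : List (ℕ × ℕ)) (v y : ℕ) (L : LL) :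
    (chw E v y L).map Prod.fst = (er y L).map Prod.fst := map_fst _ _

private theorem fst_ch1 (y : ℕ) (L : LL) :
    (ch1 y L).map Prod.fst = (er y L).map Prod.fst := map_fst _ _

private theorem fst_rowL (E : List (ℕ × ℕ)) (u : ℕ) (L : LL) :
    (rowL E u L).map Prod.fst = L.map Prod.fst := map_fst _ _

theorem vs_er (y : ℕ) (L : LL) : vs (er y L) = (vs L).erase y := by
  ext x
  rw [mem_vs, fst_er, Finset.mem_erase, mem_vs, List.mem_filter]
  simp [and_comm]

theorem vs_chg (E : List (ℕ × ℕ)) (y : ℕ) (L : LL) : vs (chg E y L) = (vs L).erase y := by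
  rw [vs_congr (fst_chg E y L), vs_er]

theorem vs_chq (E : List (ℕ × ℕ)) (v y : ℕ) (L : LL) : vs (chq E v y L) = (vs L).erase y := by
  rw [vs_congr (fst_chq E v y L), vs_er]

theorem vs_chw (E : List (ℕ × ℕ)) (v z : ℕ) (L : LL) : vs (chw E v z L) = (vs L).erase z := by
  rw [vs_congr (fst_chw E v z L), vs_er]

theorem vs_ch1 (z : ℕ) (L : LL) : vs (ch1 z L) = (vs L).erase z := by
  rw [vs_congr (fst_ch1 z L), vs_er]

theorem vs_rowL (E : List (ℕ × ℕ)) (u : ℕ) (L : LL) : vs (rowL E u L) = vs L := by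
  rw [vs_congr (fst_rowL E u L)]

theorem nd_er {L : LL} (h : (L.map Prod.fst).Nodup) (y : ℕ) : ((er y L).map Prod.fst).Nodup := by
  rw [fst_er]
  exact h.filter _

theorem nd_chg (E : List (ℕ × ℕ)) {L : LL} (h : (L.map Prod.fst).Nodup) (y : ℕ) :
    ((chg E y L).map Prod.fst).Nodup := by
  rw [fst_chg]
  exact nd_er h y

theorem nd_chq (E : List (ℕ × ℕ)) {L : LL} (h : (L.map Prod.fst).Nodup) (v y : ℕ) :
    ((chq E v y L).map Prod.fst).Nodup := by
  rw [fst_chq]
  exact nd_er h y

theorem nd_chw (E : List (ℕ × ℕ)) {L : LL} (h : (L.map Prod.fst).Nodup) (v z : ℕ) :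
    ((chw E v z L).map Prod.fst).Nodup := by
  rw [fst_chw]
  exact nd_er h z

theorem nd_ch1 {L : LL} (h : (L.map Prod.fst).Nodup) (z : ℕ) :
    ((ch1 z L).map Prod.fst).Nodup := by
  rw [fst_ch1]
  exact nd_er h z

theorem nd_rowL (E : List (ℕ × ℕ)) {L : LL} (h : (L.map Prod.fst).Nodup) (u : ℕ) :
    ((rowL E u L).map Prod.fst).Nodup := by
  rw [fst_rowL]
  exact h

theorem card_vs {L : LL} (h : (L.map Prod.fst).Nodup) : (vs L).card = L.length := by
  unfold vs
  rw [List.toFinset_card_of_nodup h, List.length_map]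

theorem len_er {L : LL} (h : (L.map Prod.fst).Nodup) {y : ℕ} (hy : y ∈ vs L) :
    (er y L).length + 1 = L.length := by
  rw [← card_vs h, ← card_vs (nd_er h y), vs_er]
  exact Finset.card_erase_add_one hy

theorem len_ch (E : List (ℕ × ℕ)) (v y : ℕ) (L : LL) :
    (chg E y L).length = (er y L).length ∧ (chq E v y L).length = (er y L).length ∧
      (chw E v y L).length = (er y L).length ∧ (ch1 y L).length = (er y L).length ∧
      (rowL E v L).length = L.length := by
  refine ⟨?_, ?_, ?_, ?_, ?_⟩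
  · unfold chg; rw [List.length_map]
  · unfold chq; rw [List.length_map]
  · unfold chw; rw [List.length_map]
  · unfold ch1; rw [List.length_map]
  · unfold rowL; rw [List.length_map]

theorem pres_iff (y : ℕ) (L : LL) : pres y L = true ↔ y ∈ vs L := by
  rw [mem_vs, List.mem_map]
  unfold pres fnd
  rw [Bool.not_eq_true', List.isEmpty_eq_false_iff_exists_mem]
  constructor
  · rintro ⟨p, hp⟩
    rw [List.mem_filter] at hp
    exact ⟨p, hp.1, by simpa using hp.2⟩
  · rintro ⟨p, hp, h⟩
    exact ⟨p, List.mem_filter.2 ⟨hp, by simpa using h⟩⟩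

end Pool.Agent.DFP
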