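import Pool.Agent.DFP.LstA

set_option autoImplicit false

/-!
# DFP-LstB: the rows of the children
-/

namespace Pool.Agent.DFP

open Finset

private theorem cd_map (g : ℕ × List Bool → List Bool) {L : LL} {x : ℕ} (hx : x ∈ vs L) :
    cd x (L.map fun p => (p.1, g p)) = g (x, cd x L) := by
  have h1 : pres x L = true := (pres_iff x L).2 hx
  unfold pres at h1
  have h2 : fnd x (L.map fun p => (p.1, g p)) = (fnd x L).map fun p => (p.1, g p) := by
    unfold fnd
    rw [List.filter_map]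
    rfl
  unfold cd
  rw [h2]
  rcases h3 : fnd x L with _ | ⟨p, t⟩
  · rw [h3] at h1
    simp at h1
  · have h4 : p ∈ fnd x L := by rw [h3]; exact List.mem_cons_self
    unfold fnd at h4
    have h5 : p.1 = x := by
      have := (List.mem_filter.1 h4).2
      simpa using this
    simp only [List.map_cons, List.headD_cons]
    rw [← h5]

private theorem fnd_er {x y : ℕ} (h : x ≠ y) (L : LL) : fnd x (er y L) = fnd x L := by
  unfold fnd er
  rw [List.filter_filter]
  refine List.filter_congr fun p _ => ?_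
  by_cases hp : p.1 = x
  · subst hp
    simp [h]
  · simp [hp]

private theorem cd_er {x y : ℕ} (h : x ≠ y) (L : LL) : cd x (er y L) = cd x L := by
  unfold cd
  rw [fnd_er h]

private theorem cval_cm (y : ℚ) (c d : List Bool) : cval y (cm c d) = cval y c * y ^ d.length := by
  unfold cm
  rcases c with _ | ⟨b, c⟩
  · simp [cval]
  · simp [cval, pow_add]

private theorem cval_cons (y : ℚ) (b : Bool) (d : List Bool) : cval y (b :: d) = y ^ d.length := by
  simp [cval]

private theorem cval_nil (y : ℚ) : cval y [] = 0 := by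
  simp [cval]

private theorem mem_er {x y : ℕ} {L : LL} (hx : x ∈ (vs L).erase y) : x ∈ vs (er y L) := by
  rw [vs_er]
  exact hx

theorem cval_bd {y : ℚ} (h0 : 0 ≤ y) (h1 : y ≤ 1) (c : List Bool) : 0 ≤ cval y c ∧ cval y c ≤ 1 := by
  unfold cval
  split_ifs
  · exact ⟨le_refl _, zero_le_one⟩
  · exact ⟨pow_nonneg h0 _, pow_le_one₀ h0 h1⟩

theorem cv_ok {y : ℚ} (h0 : 0 ≤ y) (h1 : y ≤ 1) (L : LL) : Ok1 (cv y L) := fun _ => cval_bd h0 h1 _

theorem cv_er (y0 : ℚ) {y x : ℕ} (h : x ≠ y) (L : LL) : cv y0 (er y L) x = cv y0 L x := by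
  unfold cv
  rw [cd_er h]

theorem cv_chg (y0 : ℚ) (E : List (ℕ × ℕ)) {y x : ℕ} {L : LL} (hx : x ∈ (vs L).erase y) :
    cv y0 (chg E y L) x = muG (wG y0 E) (cv y0 L) y x := by
  have hne := (Finset.mem_erase.1 hx).1
  unfold cv chg
  rw [cd_map (fun p => if decide (p.1 < y) then [] else cm p.2 (multL E y p.1)) (mem_er hx),
    cd_er hne]
  unfold muG wG mult
  by_cases h : x < y
  · simp [h, cval_nil]
  · simp [h, cval_cm]

theorem cv_chq (y0 : ℚ) (E : List (ℕ × ℕ)) {v y x : ℕ} {L : LL} (hx : x ∈ (vs L).erase y) :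
    cv y0 (chq E v y L) x = nuQ (wG y0 E) v (cv y0 L) y x := by
  have hne := (Finset.mem_erase.1 hx).1
  unfold cv chq
  rw [cd_map (fun p => if decide (p.1 < y) then cm p.2 (multL E v p.1) else true :: multL E v p.1)
    (mem_er hx), cd_er hne]
  unfold nuQ wG mult
  by_cases h : x < y
  · simp [h, cval_cm, mul_comm]
  · simp [h, cval_cons]

theorem cv_chw (y0 : ℚ) (E : List (ℕ × ℕ)) {v z x : ℕ} {L : LL} (hx : x ∈ (vs L).erase z) :
    cv y0 (chw E v z L) x = gtW (wG y0 E) v z x := by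
  have hne := (Finset.mem_erase.1 hx).1
  unfold cv chw
  rw [cd_map (fun p => if decide (p.1 < z) then [] else true :: multL E v p.1)
    (mem_er hx), cd_er hne]
  unfold gtW wG mult
  by_cases h : x < z
  · simp [h, cval_nil]
  · simp [h, cval_cons]

theorem cv_ch1 (y0 : ℚ) {z x : ℕ} {L : LL} (hx : x ∈ (vs L).erase z) :
    cv y0 (ch1 z L) x = gtI z x := by
  have hne := (Finset.mem_erase.1 hx).1
  unfold cv ch1
  rw [cd_map (fun p => if decide (p.1 < z) then [] else [true])
    (mem_er hx), cd_er hne]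
  unfold gtI
  by_cases h : x < z
  · simp [h, cval_nil]
  · simp [h, cval_cons]

theorem cv_rowL (y0 : ℚ) (E : List (ℕ × ℕ)) {u x : ℕ} {L : LL} (hx : x ∈ vs L) :
    cv y0 (rowL E u L) x = wG y0 E u x := by
  unfold cv rowL
  rw [cd_map (fun p => true :: multL E u p.1) hx, cval_cons]
  rfl

theorem cfrac {P : Par} (hP : P.Ok) (c : List Bool) :
    0 < cden P c ∧ cnum P c ≤ cden P c ∧ (cnum P c : ℚ) / cden P c = cval P.y c := by
  obtain ⟨hA, hy⟩ := hP
  have h0 : 0 < P.y2 := by omega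
  refine ⟨?_, ?_, ?_⟩
  · unfold cden
    positivity
  · unfold cnum cden
    split_ifs
    · exact Nat.zero_le _
    · exact Nat.pow_le_pow_left hy.le _
  · unfold cnum cden Par.y cval
    rcases c with _ | ⟨b, c⟩
    · simp
    · simp [div_pow]

theorem par_bd {P : Par} (hP : P.Ok) : 0 ≤ P.a ∧ 0 ≤ P.y ∧ P.y < 1 := by
  obtain ⟨hA, hy⟩ := hP
  have h0 : 0 < P.y2 := by omega
  have h0' : (0 : ℚ) < P.y2 := by exact_mod_cast h0
  have hy' : (P.y1 : ℚ) < P.y2 := by exact_mod_cast hy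
  refine ⟨?_, ?_, ?_⟩
  · unfold Par.a
    positivity
  · unfold Par.y
    positivity
  · unfold Par.y
    rw [div_lt_one h0']
    exact hy'

theorem wG_ok {y : ℚ} (h0 : 0 ≤ y) (h1 : y ≤ 1) (E : List (ℕ × ℕ)) : Ok (wG y E) := by
  refine ⟨fun u v => ?_, fun u v => ?_⟩
  · unfold wG mult multL
    have h : (fun e : ℕ × ℕ => (e.1 == u && e.2 == v) || (e.1 == v && e.2 == u)) =
        fun e : ℕ × ℕ => (e.1 == v && e.2 == u) || (e.1 == u && e.2 == v) := by
      funext e
      exact Bool.or_comm _ _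
    rw [h]
  · unfold wG
    exact ⟨pow_nonneg h0 _, pow_le_one₀ h0 h1⟩

end Pool.Agent.DFP
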