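import Pool.Agent.DFP.Pos

set_option autoImplicit false

/-!
# DFP-Mrg: merging the hub into a vertex

Strong induction on the number of vertices with `hub_tel` for `J` (against the row `1`) and for `J.erase v` (against the row `w v`).
-/

namespace Pool.Agent.DFP

open Finset

private theorem mrg_ok {w : ℕ → ℕ → ℚ} (hw : Ok w) {s : ℕ → ℚ} (hs : Ok1 s) (y : ℕ) :
    Ok1 (fun x => w y x * if x < y then s x else 1) := by
  intro x
  have h1 := hw.2 y x
  have h2 : 0 ≤ (if x < y then s x else (1 : ℚ)) ∧ (if x < y then s x else (1 : ℚ)) ≤ 1 := by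
    split_ifs
    · exact hs x
    · exact ⟨zero_le_one, le_rfl⟩
  exact ⟨mul_nonneg h1.1 h2.1, mul_le_one₀ h1.2 h2.1 h2.2⟩

theorem hub_merge {a : ℚ} (ha : 0 < a) {w : ℕ → ℕ → ℚ} (hw : Ok w) {J : Finset ℕ} {s : ℕ → ℚ}
    (hs : Ok1 s) {v : ℕ} (hv : v ∈ J) :
    a * hub a w (J.erase v) (fun x => w v x * s x) ≤ hub a w J s := by
  suffices h : ∀ (n : ℕ) (J : Finset ℕ), J.card = n → ∀ s : ℕ → ℚ, Ok1 s → ∀ v ∈ J,
      a * hub a w (J.erase v) (fun x => w v x * s x) ≤ hub a w J s from h _ J rfl s hs v hv
  clear hv hs v s J
  intro n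
  induction n using Nat.strong_induction_on with
  | _ n ih =>
    intro J hJ s hs v hv
    have e1 := hub_tel a hw.1 J s (fun _ => 1)
    rw [hub_one] at e1
    have e2 := hub_tel a hw.1 (J.erase v) (fun x => w v x * s x) (w v)
    have e3 := F_eq_hub a hw.1 hv
    have hterm : ∀ y ∈ J.erase v, a * ((w v y - w v y * s y) *
        hub a w ((J.erase v).erase y) (fun x => w y x * if x < y then w v x * s x else w v x)) ≤
        (1 - s y) * hub a w (J.erase y) (fun x => w y x * if x < y then s x else 1) := by
      intro y hy
      have hyv : y ≠ v := Finset.ne_of_mem_erase hy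
      have hyJ : y ∈ J := Finset.mem_of_mem_erase hy
      have hok := mrg_ok hw hs y
      have hlt : (J.erase y).card < n := by
        rw [← hJ]
        exact Finset.card_erase_lt_of_mem hyJ
      have hI := ih _ hlt (J.erase y) rfl _ hok v (Finset.mem_erase.2 ⟨hyv.symm, hv⟩)
      have e4 : hub a w ((J.erase v).erase y) (fun x => w y x * if x < y then w v x * s x else w v x) =
          hub a w ((J.erase y).erase v) (fun x => w v x * (w y x * if x < y then s x else 1)) := by
        rw [Finset.erase_right_comm]
        refine hub_congr a w fun x _ => ?_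
        split_ifs <;> ring
      rw [e4]
      have h0 : 0 ≤ hub a w (J.erase y) (fun x => w y x * if x < y then s x else 1) :=
        hub_nonneg ha.le hw _ hok
      have hs1 : 0 ≤ 1 - s y := sub_nonneg.2 (hs y).2
      have hw1 := hw.2 v y
      calc a * ((w v y - w v y * s y) *
            hub a w ((J.erase y).erase v) (fun x => w v x * (w y x * if x < y then s x else 1)))
          = (w v y * (1 - s y)) * (a *
            hub a w ((J.erase y).erase v) (fun x => w v x * (w y x * if x < y then s x else 1))) := by
            ring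
        _ ≤ (w v y * (1 - s y)) * hub a w (J.erase y) (fun x => w y x * if x < y then s x else 1) :=
            mul_le_mul_of_nonneg_left hI (mul_nonneg hw1.1 hs1)
        _ ≤ (1 * (1 - s y)) * hub a w (J.erase y) (fun x => w y x * if x < y then s x else 1) :=
            mul_le_mul_of_nonneg_right (mul_le_mul_of_nonneg_right hw1.2 hs1) h0
        _ = (1 - s y) * hub a w (J.erase y) (fun x => w y x * if x < y then s x else 1) := by
            rw [one_mul]
    rw [e1, e2, mul_add, ← e3, Finset.mul_sum]
    refine add_le_add le_rfl ?_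
    refine (Finset.sum_le_sum hterm).trans ?_
    refine Finset.sum_le_sum_of_subset_of_nonneg (Finset.erase_subset _ _) fun y _ _ => ?_
    exact mul_nonneg (sub_nonneg.2 (hs y).2) (hub_nonneg ha.le hw _ (mrg_ok hw hs y))

end Pool.Agent.DFP
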