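import Pool.Agent.DFP.Tel

set_option autoImplicit false

/-!
# DFP-Pos: positivity and monotonicity
-/

namespace Pool.Agent.DFP

open Finset

private theorem ok1_w {w : ℕ → ℕ → ℚ} (hw : Ok w) (y : ℕ) : Ok1 (w y) := fun x => hw.2 y x

private theorem ok1_one : Ok1 (fun _ => (1 : ℚ)) := fun _ => ⟨zero_le_one, le_rfl⟩

private theorem ok1_zero : Ok1 (fun _ => (0 : ℚ)) := fun _ => ⟨le_rfl, zero_le_one⟩

private theorem ok1_mix {w : ℕ → ℕ → ℚ} (hw : Ok w) {s t : ℕ → ℚ} (hs : Ok1 s) (ht : Ok1 t) (y : ℕ) :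
    Ok1 (fun x => w y x * if x < y then s x else t x) := by
  intro x
  have h1 := hw.2 y x
  have h2 : 0 ≤ (if x < y then s x else t x) ∧ (if x < y then s x else t x) ≤ 1 := by
    split_ifs
    · exact hs x
    · exact ht x
  exact ⟨mul_nonneg h1.1 h2.1, mul_le_one₀ h1.2 h2.1 h2.2⟩

private theorem pos_main {a : ℚ} (ha : 0 ≤ a) {w : ℕ → ℕ → ℚ} (hw : Ok w) :
    ∀ n : ℕ, ∀ J : Finset ℕ, J.card = n → ∀ s : ℕ → ℚ, Ok1 s →
      0 ≤ hub a w J s ∧ (0 < a → 0 < hub a w J s) := by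
  intro n
  induction n using Nat.strong_induction_on with
  | _ n ih =>
    intro J hJ s hs
    have h1 : 0 ≤ F a w J ∧ (0 < a → 0 < F a w J) := by
      rcases J.eq_empty_or_nonempty with h | ⟨y, hy⟩
      · rw [h, F_empty]
        exact ⟨zero_le_one, fun _ => one_pos⟩
      · have h2 := ih (J.erase y).card (by rw [← hJ]; exact card_erase_lt_of_mem hy) (J.erase y) rfl
          (w y) (ok1_w hw y)
        rw [F_eq_hub a hw.1 hy]
        exact ⟨mul_nonneg ha h2.1, fun h => mul_pos h (h2.2 h)⟩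
    have h3 : 0 ≤ ∑ y ∈ J, (1 - s y) *
        hub a w (J.erase y) (fun x => w y x * if x < y then s x else 1) := by
      refine sum_nonneg fun y hy => mul_nonneg (by linarith [(hs y).2]) ?_
      exact (ih (J.erase y).card (by rw [← hJ]; exact card_erase_lt_of_mem hy) (J.erase y) rfl _
        (ok1_mix hw hs ok1_one y)).1
    rw [hub_tel a hw.1 J s (fun _ => 1), hub_one]
    exact ⟨add_nonneg h1.1 h3, fun h => add_pos_of_pos_of_nonneg (h1.2 h) h3⟩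

theorem hub_nonneg {a : ℚ} (ha : 0 ≤ a) {w : ℕ → ℕ → ℚ} (hw : Ok w) (J : Finset ℕ) {s : ℕ → ℚ}
    (hs : Ok1 s) : 0 ≤ hub a w J s := by
  exact (pos_main ha hw J.card J rfl s hs).1

theorem hub_pos {a : ℚ} (ha : 0 < a) {w : ℕ → ℕ → ℚ} (hw : Ok w) (J : Finset ℕ) {s : ℕ → ℚ}
    (hs : Ok1 s) : 0 < hub a w J s := by
  exact (pos_main ha.le hw J.card J rfl s hs).2 ha

theorem F_nonneg {a : ℚ} (ha : 0 ≤ a) {w : ℕ → ℕ → ℚ} (hw : Ok w) (J : Finset ℕ) :
    0 ≤ F a w J := by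
  rw [← hub_one]
  exact hub_nonneg ha hw J ok1_one

theorem F_pos {a : ℚ} (ha : 0 < a) {w : ℕ → ℕ → ℚ} (hw : Ok w) (J : Finset ℕ) :
    0 < F a w J := by
  rw [← hub_one]
  exact hub_pos ha hw J ok1_one

theorem hub_anti {a : ℚ} (ha : 0 ≤ a) {w : ℕ → ℕ → ℚ} (hw : Ok w) {J : Finset ℕ} {s t : ℕ → ℚ}
    (hs : Ok1 s) (ht : Ok1 t) (h : ∀ x ∈ J, s x ≤ t x) : hub a w J t ≤ hub a w J s := by
  rw [hub_tel a hw.1 J s t]
  have h1 : 0 ≤ ∑ y ∈ J, (t y - s y) *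
      hub a w (J.erase y) (fun x => w y x * if x < y then s x else t x) := by
    refine sum_nonneg fun y hy => mul_nonneg (by linarith [h y hy]) ?_
    exact hub_nonneg ha hw _ (ok1_mix hw hs ht y)
  linarith

theorem hub_le {a : ℚ} (ha : 0 ≤ a) {w : ℕ → ℕ → ℚ} (hw : Ok w) (J : Finset ℕ) {s : ℕ → ℚ}
    (hs : Ok1 s) : hub a w J s ≤ F (a + 1) w J := by
  rw [← hub_zero]
  exact hub_anti ha hw ok1_zero hs fun x _ => (hs x).1

end Pool.Agent.DFP
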