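import Pool.Agent.DFP.Ids
import Pool.Agent.DFP.Low
import Pool.Agent.DFP.Crd

set_option autoImplicit false

/-!
# DFP-QMax: `QQ ≤ 5/2` if the level `b + |J|` is at least `6 D + 1`

Induction on the number of levels above `3 D` with `QQ_step`.
-/

namespace Pool.Agent.DFP

open Finset

private theorem qm_row {w : ℕ → ℕ → ℚ} {v : ℕ} {J : Finset ℕ} (hv : v ∉ J) {D : ℚ}
    (hD : ∀ x ∈ insert v J, ∑ z ∈ (insert v J).erase x, w x z ≤ D) : ∑ y ∈ J, w v y ≤ D := by
  have h := hD v (mem_insert_self v J)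
  rwa [erase_insert hv] at h

private theorem qm_child {w : ℕ → ℕ → ℚ} (hw : Ok w) {v : ℕ} {J : Finset ℕ} {D : ℚ}
    (hD : ∀ x ∈ insert v J, ∑ z ∈ (insert v J).erase x, w x z ≤ D) {y : ℕ} (hy : y ∈ J) :
    ∀ x ∈ insert y (J.erase y), ∑ z ∈ (insert y (J.erase y)).erase x, w x z ≤ D := by
  rw [insert_erase hy]
  intro x hx
  refine le_trans ?_ (hD x (mem_insert_of_mem hx))
  refine sum_le_sum_of_subset_of_nonneg (erase_subset_erase x (subset_insert v J)) ?_
  intro z _ _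
  exact (hw.2 x z).1

private theorem qm_nu {w : ℕ → ℕ → ℚ} (hw : Ok w) (v : ℕ) {l : ℕ → ℚ} (hl : Ok1 l) (y : ℕ) :
    Ok1 (nuQ w v l y) := by
  intro x
  unfold nuQ
  obtain ⟨a1, a2⟩ := hw.2 v x
  obtain ⟨b1, b2⟩ := hl x
  split_ifs
  · exact ⟨mul_nonneg a1 b1, mul_le_one₀ a2 b1 b2⟩
  · rw [mul_one]
    exact ⟨a1, a2⟩

private theorem qm_step {b : ℚ} (hb : 1 ≤ b) {w : ℕ → ℕ → ℚ} (hw : Ok w) {v : ℕ} {J : Finset ℕ}
    {l : ℕ → ℚ} (hl : Ok1 l) {D : ℚ} (hD : ∑ y ∈ J, w v y ≤ D) (hS : D < b + J.card) {M : ℝ}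
    (hM : 0 ≤ M) (hc : ∀ y ∈ J, ((QQ b w y (J.erase y) (nuQ w v l y) : ℚ) : ℝ) ≤ M) :
    ((QQ b w v J l : ℚ) : ℝ) ≤ 1 + (D : ℝ) / ((b : ℝ) + J.card - D) * M := by
  have hb0 : 0 < b := by linarith
  have hA := AA_ge' hb0 hw hD
  have hAp := AA_pos hb0 hw v J
  have hBp : (0 : ℚ) < b + J.card := by positivity
  have h1 : GG b w v J / (b + J.card) = 1 / AA b w v J := by
    unfold GG
    field_simp
  rw [QQ_step hb0 hw v J hl, h1]
  push_cast
  have hAR : (b : ℝ) + J.card - D ≤ (AA b w v J : ℝ) := by exact_mod_cast hA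
  have hSR : 0 < (b : ℝ) + J.card - D := by
    have : (D : ℝ) < (b : ℝ) + J.card := by exact_mod_cast hS
    linarith
  have hApR : (0 : ℝ) < (AA b w v J : ℝ) := by exact_mod_cast hAp
  have hDR : ∑ y ∈ J, (w v y : ℝ) ≤ D := by exact_mod_cast hD
  have hsum : ∑ y ∈ J, (1 - (l y : ℝ)) * (w v y : ℝ) *
      ((QQ b w y (J.erase y) (nuQ w v l y) : ℚ) : ℝ) ≤ D * M := by
    calc ∑ y ∈ J, (1 - (l y : ℝ)) * (w v y : ℝ) *
          ((QQ b w y (J.erase y) (nuQ w v l y) : ℚ) : ℝ) ≤ ∑ y ∈ J, (w v y : ℝ) * M := by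
          refine sum_le_sum fun y hy => ?_
          have l1 : (0 : ℝ) ≤ (l y : ℝ) := by exact_mod_cast (hl y).1
          have l2 : (l y : ℝ) ≤ 1 := by exact_mod_cast (hl y).2
          have w1 : (0 : ℝ) ≤ (w v y : ℝ) := by exact_mod_cast (hw.2 v y).1
          have c1 : 0 ≤ (1 - (l y : ℝ)) * (w v y : ℝ) := mul_nonneg (by linarith) w1
          refine (mul_le_mul_of_nonneg_left (hc y hy) c1).trans ?_
          refine mul_le_mul_of_nonneg_right ?_ hM
          nlinarith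
      _ = (∑ y ∈ J, (w v y : ℝ)) * M := by rw [sum_mul]
      _ ≤ D * M := mul_le_mul_of_nonneg_right hDR hM
  have hD0 : (0 : ℝ) ≤ D := by
    refine le_trans ?_ hDR
    refine sum_nonneg fun y _ => ?_
    exact_mod_cast (hw.2 v y).1
  have hDM : 0 ≤ (D : ℝ) * M := mul_nonneg hD0 hM
  have h2 : 1 / (AA b w v J : ℝ) * ∑ y ∈ J, (1 - (l y : ℝ)) * (w v y : ℝ) *
      ((QQ b w y (J.erase y) (nuQ w v l y) : ℚ) : ℝ) ≤
      (D : ℝ) / ((b : ℝ) + J.card - D) * M := by
    calc 1 / (AA b w v J : ℝ) * ∑ y ∈ J, (1 - (l y : ℝ)) * (w v y : ℝ) *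
          ((QQ b w y (J.erase y) (nuQ w v l y) : ℚ) : ℝ) ≤ 1 / (AA b w v J : ℝ) * (D * M) :=
          mul_le_mul_of_nonneg_left hsum (by positivity)
      _ ≤ 1 / ((b : ℝ) + J.card - D) * (D * M) := by
          refine mul_le_mul_of_nonneg_right ?_ hDM
          exact one_div_le_one_div_of_le hSR hAR
      _ = (D : ℝ) / ((b : ℝ) + J.card - D) * M := by ring
  linarith

private theorem qm_lev {b : ℚ} (hb : 1 ≤ b) {w : ℕ → ℕ → ℚ} (hw : Ok w) {D : ℚ} (j : ℕ) :
    ∀ (v : ℕ) (J : Finset ℕ) (l : ℕ → ℚ), v ∉ J → Ok1 l →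
      (∀ x ∈ insert v J, ∑ z ∈ (insert v J).erase x, w x z ≤ D) → 3 * D + j ≤ b + J.card →
      ((QQ b w v J l : ℚ) : ℝ) ≤ 2 + Real.exp D / 2 ^ j := by
  induction j with
  | zero =>
    intro v J l hv hl hD _
    have h1 := QQ_le_exp hb hw hl (qm_row hv hD)
    rw [pow_zero, div_one]
    linarith
  | succ j ih =>
    intro v J l hv hl hD hS
    have hrow := qm_row hv hD
    have hD0 : 0 ≤ D := le_trans (sum_nonneg fun y _ => (hw.2 v y).1) hrow
    push_cast at hS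
    have hM : (0 : ℝ) ≤ 2 + Real.exp D / 2 ^ j := by positivity
    have h1 := qm_step hb hw hl hrow (by
      have : (0 : ℚ) ≤ j := Nat.cast_nonneg j
      linarith) hM (by
      intro y hy
      refine ih y (J.erase y) (nuQ w v l y) (notMem_erase y J) (qm_nu hw v hl y)
        (qm_child hw hD hy) ?_
      rw [card_erase_of_mem hy, Nat.cast_sub (card_pos.2 ⟨y, hy⟩), Nat.cast_one]
      linarith)
    refine h1.trans ?_
    have hD0R : (0 : ℝ) ≤ D := by exact_mod_cast hD0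
    have hSR : 3 * (D : ℝ) + (j + 1) ≤ (b : ℝ) + J.card := by exact_mod_cast hS
    have hj0 : (0 : ℝ) ≤ j := Nat.cast_nonneg j
    have h2 : (D : ℝ) / ((b : ℝ) + J.card - D) ≤ 1 / 2 := by
      rw [div_le_div_iff₀ (by linarith) (by norm_num)]
      linarith
    have h3 : (D : ℝ) / ((b : ℝ) + J.card - D) * (2 + Real.exp D / 2 ^ j) ≤
        1 / 2 * (2 + Real.exp D / 2 ^ j) := mul_le_mul_of_nonneg_right h2 hM
    have h4 : (2 : ℝ) + Real.exp D / 2 ^ (j + 1) = 1 + 1 / 2 * (2 + Real.exp D / 2 ^ j) := by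
      rw [pow_succ]
      field_simp
      ring
    rw [h4]
    linarith

theorem QQ_max {b : ℚ} (hb : 1 ≤ b) {w : ℕ → ℕ → ℚ} (hw : Ok w) {v : ℕ} {J : Finset ℕ}
    (hv : v ∉ J) {l : ℕ → ℚ} (hl : Ok1 l) {D : ℚ}
    (hD : ∀ x ∈ insert v J, ∑ z ∈ (insert v J).erase x, w x z ≤ D)
    (hS : 6 * D + 1 ≤ b + J.card) : QQ b w v J l ≤ 5 / 2 := by
  have hrow := qm_row hv hD
  have hD0 : 0 ≤ D := le_trans (sum_nonneg fun y _ => (hw.2 v y).1) hrow
  have hD0R : (0 : ℝ) ≤ D := by exact_mod_cast hD0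
  have hSR : 6 * (D : ℝ) + 1 ≤ (b : ℝ) + J.card := by exact_mod_cast hS
  have hcard : ∀ y ∈ J, (((J.erase y).card : ℕ) : ℚ) = (J.card : ℚ) - 1 := by
    intro y hy
    rw [card_erase_of_mem hy, Nat.cast_sub (card_pos.2 ⟨y, hy⟩), Nat.cast_one]
  have hgoal : ((QQ b w v J l : ℚ) : ℝ) ≤ 5 / 2 := by
    rcases le_total D 1 with h1 | h1
    · have h1R : (D : ℝ) ≤ 1 := by exact_mod_cast h1
      have he : Real.exp (D : ℝ) ≤ 2.7182818286 := by
        refine (Real.exp_le_exp.2 h1R).trans ?_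
        exact Real.exp_one_lt_d9.le
      have h2 := qm_step hb hw hl hrow (by linarith) (M := 3) (by norm_num) (by
        intro y hy
        have h3 := QQ_le_exp hb hw (qm_nu hw v hl y) (qm_row (notMem_erase y J)
          (qm_child hw hD hy))
        linarith)
      refine h2.trans ?_
      have h4 : (D : ℝ) / ((b : ℝ) + J.card - D) ≤ 1 / 6 := by
        rw [div_le_div_iff₀ (by linarith) (by norm_num)]
        linarith
      linarith
    · have h1R : (1 : ℝ) ≤ D := by exact_mod_cast h1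
      obtain ⟨j, hj⟩ : ∃ j : ℕ, j = ⌊3 * D⌋₊ := ⟨_, rfl⟩
      have hj1 : (j : ℚ) ≤ 3 * D := by
        rw [hj]
        exact Nat.floor_le (by linarith)
      have hj2 : 3 * D < (j : ℚ) + 1 := by
        rw [hj]
        exact Nat.lt_floor_add_one _
      have hj2R : 3 * (D : ℝ) < (j : ℝ) + 1 := by exact_mod_cast hj2
      have he : Real.exp (D : ℝ) / 2 ^ j ≤ 1 := by
        rw [div_le_one (by positivity)]
        have h3 : (2 : ℝ) ^ j = Real.exp (j * Real.log 2) := by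
          rw [mul_comm, Real.exp_mul, Real.exp_log (by norm_num), Real.rpow_natCast]
        rw [h3]
        refine Real.exp_le_exp.2 ?_
        have h4 : (0.6931471803 : ℝ) < Real.log 2 := Real.log_two_gt_d9
        nlinarith
      have h2 := qm_step hb hw hl hrow (by linarith) (M := 3) (by norm_num) (by
        intro y hy
        have h3 := qm_lev hb hw j y (J.erase y) (nuQ w v l y) (notMem_erase y J)
          (qm_nu hw v hl y) (qm_child hw hD hy) (by
            rw [hcard y hy]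
            linarith)
        linarith)
      refine h2.trans ?_
      have h4 : (D : ℝ) / ((b : ℝ) + J.card - D) ≤ 1 / 5 := by
        rw [div_le_div_iff₀ (by linarith) (by norm_num)]
        linarith
      linarith
  have h52 : ((5 / 2 : ℚ) : ℝ) = 5 / 2 := by norm_num
  rw [← h52] at hgoal
  exact_mod_cast hgoal

end Pool.Agent.DFP
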