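import Pool.Agent.DFP.FacM
import Pool.Agent.DFP.PrdM

set_option autoImplicit false

/-!
# DFP-RegA: regime A, the product of the factors
-/

namespace Pool.Agent.DFP

open Finset

open Pool.Agent.TFP (avg)

/-- the factors -/
private def regA_fs (P : Par) (E : List (ℕ × ℕ)) (n b K k : ℕ) : ℕ → List (List Bool → ℚ)
  | 0 => []
  | m + 1 => (fun l => fv (fac P E n b K k m l)) :: regA_fs P E n b K k m

/-- their values -/
private noncomputable def regA_zz (P : Par) (E : List (ℕ × ℕ)) (n : ℕ) : ℕ → List ℚ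
  | 0 => []
  | m + 1 => zf P E n m :: regA_zz P E n m

private theorem regA_len (P : Par) (E : List (ℕ × ℕ)) (n b K k m : ℕ) :
    (regA_fs P E n b K k m).length = m := by
  induction m with
  | zero => rfl
  | succ m ih =>
    unfold regA_fs
    rw [List.length_cons, ih]

private theorem regA_prod (P : Par) (E : List (ℕ × ℕ)) (n m : ℕ) :
    (regA_zz P E n m).prod = ∏ i ∈ range m, zf P E n i := by
  induction m with
  | zero => rfl
  | succ m ih =>
    unfold regA_zz
    rw [List.prod_cons, ih, prod_range_succ, mul_comm]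

private theorem regA_fv (P : Par) (E : List (ℕ × ℕ)) (n b K k m : ℕ) (l : List Bool) :
    fv (prA P E n b K k m l) =
      Pool.Agent.TFP.prodB (k * (K * (b + 2))) (regA_fs P E n b K k m) l := by
  induction m generalizing l with
  | zero =>
    show ((1 : ℕ) : ℚ) / ((1 : ℕ) : ℚ) = 1
    simp
  | succ m ih =>
    show fv (prA P E n b K k (m + 1) l) =
      fv (fac P E n b K k m (l.take (k * (K * (b + 2))))) *
        Pool.Agent.TFP.prodB (k * (K * (b + 2))) (regA_fs P E n b K k m)
          (l.drop (k * (K * (b + 2))))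
    rw [← ih]
    generalize h1 : l.take (k * (K * (b + 2))) = l1
    generalize h2 : l.drop (k * (K * (b + 2))) = l2
    have e : prA P E n b K k (m + 1) l = ((fac P E n b K k m l1).1 * (prA P E n b K k m l2).1,
        (fac P E n b K k m l1).2 * (prA P E n b K k m l2).2) := by
      rw [← h1, ← h2]
      rfl
    rw [e]
    unfold fv
    push_cast
    rw [mul_div_mul_comm]

theorem prA_good {P : Par} (hP : P.Ok) (E : List (ℕ × ℕ)) (b n S K k : ℕ) {D ρ θ η : ℚ}
    (hR : Rows P.y E n D) (hn : n ≤ 2 ^ b) (hb : 2 ^ b ≤ 4 * S) (hSD : 6 * D + 2 ≤ S)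
    (hρ : 3 / 4 + 3 / 2 * (D / S) ≤ ρ) (hD0 : 0 ≤ D) (hk : 0 < k) (hK : S + K + 1 ≤ n)
    (hθ : 0 ≤ θ) (hη : 0 < η) (hη1 : η ≤ 1) (h1 : 24 * n * θ ≤ η ^ 2)
    (h2 : 4 * ((16 ^ K) ^ 2 / k + (ρ ^ K * (5 / 2)) ^ 2) ≤ θ ^ 2) :
    3 / 4 ≤ avg (n * (k * (K * (b + 2))))
      (fun l => if |fv (prA P E n b K k n l) - hub P.a (wG P.y E) (Ico 1 n) (wG P.y E 0)| ≤
        η * hub P.a (wG P.y E) (Ico 1 n) (wG P.y E 0) then 1 else 0) := by
  have hn0 : 0 < n := by omega
  have hnS : ((S + K + 1 : ℕ) : ℚ) ≤ n := by exact_mod_cast hK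
  have hSD' : 6 * D ≤ n := by
    push_cast at hnS
    have h3 : (0 : ℚ) ≤ K := Nat.cast_nonneg K
    linarith
  have hall : ∀ m, m ≤ n → List.Forall₂ (fun (f : List Bool → ℚ) (z : ℚ) => 0 < z ∧
      avg (k * (K * (b + 2))) (fun l => (f l - z) ^ 2) ≤ θ ^ 2 * z ^ 2)
      (regA_fs P E n b K k m) (regA_zz P E n m) := by
    intro m
    induction m with
    | zero =>
      intro _
      exact List.Forall₂.nil
    | succ m ih =>
      intro hm
      refine List.Forall₂.cons ⟨zf_pos hP E n m hR (by omega) hSD', ?_⟩ (ih (by omega))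
      refine (fac_msq hP E b n S K k m hR hn hb hSD hρ hD0 hk (by omega) hK).trans ?_
      exact mul_le_mul_of_nonneg_right h2 (sq_nonneg _)
  have h := prod_msq (k * (K * (b + 2))) (regA_fs P E n b K k n) (regA_zz P E n n)
    (hall n le_rfl) hθ hη hη1 (by rw [regA_len]; exact h1)
  rw [regA_len, regA_prod] at h
  obtain ⟨ha, hy0, hy1⟩ := par_bd hP
  have hprod : ∏ i ∈ range n, zf P E n i = hub P.a (wG P.y E) (Ico 1 n) (wG P.y E 0) := by
    rw [hub_prod ha (wG_ok hy0 hy1.le E) hn0]
    unfold zf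
    rw [prod_mul_distrib, mul_comm]
    congr 1
    rw [prod_range_eq_mul_Ico _ hn0, if_pos rfl, one_mul]
    refine prod_congr rfl fun x hx => ?_
    rw [mem_Ico] at hx
    rw [if_neg (by omega)]
  rw [hprod] at h
  refine h.trans (le_of_eq ?_)
  refine Pool.Agent.TFP.avg_congr fun l _ => ?_
  rw [regA_fv]

theorem prA_den {P : Par} (hP : P.Ok) (E : List (ℕ × ℕ)) (n b K k m : ℕ) (hk : 0 < k)
    (l : List Bool) : (prA P E n b K k m l).2 ≠ 0 := by
  induction m generalizing l with
  | zero =>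
    show (1 : ℕ) ≠ 0
    exact one_ne_zero
  | succ m ih =>
    unfold prA
    refine Nat.mul_ne_zero ?_ (ih _)
    unfold fac
    refine Nat.mul_ne_zero ?_ (est_den P E m b K k _ hk (fun l => trial_den hP E m b K _ l) _)
    have := hP.1
    split_ifs
    · exact one_ne_zero
    · exact this.ne'

theorem prA_take (P : Par) (E : List (ℕ × ℕ)) (n b K k m : ℕ) (l : List Bool) :
    prA P E n b K k m (l.take (m * (k * (K * (b + 2))))) = prA P E n b K k m l := by
  induction m generalizing l with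
  | zero => rfl
  | succ m ih =>
    unfold prA
    have e1 : (l.take ((m + 1) * (k * (K * (b + 2))))).take (k * (K * (b + 2))) =
        l.take (k * (K * (b + 2))) := by
      rw [List.take_take]
      congr 1
      apply min_eq_left
      exact Nat.le_mul_of_pos_left _ (Nat.succ_pos m)
    have e2 : (l.take ((m + 1) * (k * (K * (b + 2))))).drop (k * (K * (b + 2))) =
        (l.drop (k * (K * (b + 2)))).take (m * (k * (K * (b + 2)))) := by
      rw [List.drop_take]
      congr 1
      rw [Nat.succ_mul, Nat.add_sub_cancel]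
    rw [e1, e2, ih]

end Pool.Agent.DFP
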