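import Pool.Agent.DFP.MDefs
import Pool.Agent.TFP.FpL

set_option autoImplicit false

/-!
# DFP-SzO: sizes of the outcomes
-/

namespace Pool.Agent.DFP

open Finset

open Pool.Agent.Helper22

/-- size bounds of a node -/
def NdB (N V C : ℕ) (nd : Nd) : Prop :=
  sz nd.1 ≤ N ∧ sz nd.2.1 ≤ V ∧ nd.2.2.length ≤ N ∧ ∀ p ∈ nd.2.2, sz p.1 ≤ N ∧ p.2.length ≤ C

/-- size bounds of a list -/
private def LB (N C : ℕ) (L : LL) : Prop := L.length ≤ N ∧ ∀ p ∈ L, sz p.1 ≤ N ∧ p.2.length ≤ C

private theorem LB.filter {N C : ℕ} {L : LL} (h : LB N C L) (q : ℕ × List Bool → Bool) : LB N C (L.filter q) :=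
  ⟨(List.length_filter_le _ _).trans h.1, fun p hp => h.2 p (List.mem_filter.1 hp).1⟩

private theorem LB.er {N C : ℕ} {L : LL} (h : LB N C L) (y : ℕ) : LB N C (DFP.er y L) := h.filter _

private theorem LB.tail {N C : ℕ} {L : LL} (h : LB N C L) : LB N C L.tail :=
  ⟨by
    rw [List.length_tail]
    exact (Nat.sub_le _ _).trans h.1, fun p hp => h.2 p (List.mem_of_mem_tail hp)⟩

private theorem LB.mono {N C C' : ℕ} {L : LL} (h : LB N C L) (hC : C ≤ C') : LB N C' L :=
  ⟨h.1, fun p hp => ⟨(h.2 p hp).1, (h.2 p hp).2.trans hC⟩⟩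

private theorem LB.map {N C C' : ℕ} {L : LL} (h : LB N C L) (g : ℕ × List Bool → List Bool)
    (hg : ∀ p ∈ L, (g p).length ≤ C') : LB N C' (L.map fun p => (p.1, g p)) := by
  refine ⟨by rw [List.length_map]; exact h.1, fun p hp => ?_⟩
  obtain ⟨q, hq, rfl⟩ := List.mem_map.1 hp
  exact ⟨(h.2 q hq).1, hg q hq⟩

private theorem szo_mult (E : List (ℕ × ℕ)) (u v : ℕ) : (multL E u v).length ≤ E.length := by
  unfold multL
  rw [List.length_map]
  exact List.length_filter_le _ _

private theorem szo_cm (c d : List Bool) : (cm c d).length ≤ c.length + d.length := by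
  unfold cm
  split_ifs
  · simp
  · rw [List.length_append]

private theorem LB.chg {N C : ℕ} {L : LL} (h : LB N C L) (E : List (ℕ × ℕ)) (y : ℕ) :
    LB N (C + E.length + 1) (DFP.chg E y L) := by
  refine (h.er y).map _ fun p hp => ?_
  split_ifs
  · simp
  · have h1 := szo_cm p.2 (multL E y p.1)
    have h2 := szo_mult E y p.1
    have h3 := ((h.er y).2 p hp).2
    omega

private theorem LB.chq {N C : ℕ} {L : LL} (h : LB N C L) (E : List (ℕ × ℕ)) (v y : ℕ) :
    LB N (C + E.length + 1) (DFP.chq E v y L) := by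
  refine (h.er y).map _ fun p hp => ?_
  have h2 := szo_mult E v p.1
  split_ifs
  · have h1 := szo_cm p.2 (multL E v p.1)
    have h3 := ((h.er y).2 p hp).2
    omega
  · rw [List.length_cons]
    omega

private theorem LB.chw {N C : ℕ} {L : LL} (h : LB N C L) (E : List (ℕ × ℕ)) (v y : ℕ) :
    LB N (C + E.length + 1) (DFP.chw E v y L) := by
  refine (h.er y).map _ fun p _ => ?_
  have h2 := szo_mult E v p.1
  split_ifs
  · simp
  · rw [List.length_cons]
    omega

private theorem LB.ch1 {N C : ℕ} {L : LL} (h : LB N C L) (e y : ℕ) :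
    LB N (C + e + 1) (DFP.ch1 y L) := by
  refine (h.er y).map _ fun p _ => ?_
  split_ifs
  · simp
  · simp

private theorem LB.rowL {N C : ℕ} {L : LL} (h : LB N C L) (E : List (ℕ × ℕ)) (u : ℕ) :
    LB N (C + E.length + 1) (DFP.rowL E u L) := by
  refine h.map _ fun p _ => ?_
  have h2 := szo_mult E u p.1
  rw [List.length_cons]
  omega

private theorem szo_small {N t : ℕ} (h2 : 2 ≤ N) (ht : t < 4) : sz t ≤ N := by
  rw [Helper6.WB.sz_nat]
  have h1 : Nat.size t ≤ 2 := by
    rw [Nat.size_le]
    omega
  omega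

private theorem szo_mk {N V C t u : ℕ} {L : LL} (ht : sz t ≤ N) (hu : sz u ≤ V) (hL : LB N C L) :
    NdB N V C (t, (u, L)) := ⟨ht, hu, hL.1, hL.2⟩

private theorem szo_two {N V C : ℕ} {a b : Nd} (ha : NdB N V C a) (hb : NdB N V C b) :
    (∀ nd' ∈ [a, b], NdB N V C nd') ∧ [a, b].length ≤ 2 := by
  refine ⟨fun nd' h => ?_, by simp⟩
  rcases List.mem_cons.1 h with h | h
  · rw [h]
    exact ha
  · rw [List.mem_singleton.1 h]
    exact hb

private theorem szo_one {N V C : ℕ} {a : Nd} (ha : NdB N V C a) :
    (∀ nd' ∈ [a], NdB N V C nd') ∧ [a].length ≤ 2 := by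
  refine ⟨fun nd' h => ?_, by simp⟩
  rw [List.mem_singleton.1 h]
  exact ha

private theorem szo_nil {N V C : ℕ} :
    (∀ nd' ∈ ([] : List Nd), NdB N V C nd') ∧ ([] : List Nd).length ≤ 2 :=
  ⟨fun nd' h => absurd h List.not_mem_nil, by simp⟩

theorem out_NdB (P : Par) (E : List (ℕ × ℕ)) (i b c y N V C : ℕ) (nd : Nd) (h2 : 2 ≤ N)
    (hV : N ≤ V) (h : NdB N V C nd) (hy : sz y ≤ N) :
    (∀ nd' ∈ (out P E i b c y nd).2, NdB N (V + 1) (C + E.length + 1) nd') ∧
      (out P E i b c y nd).2.length ≤ 2 := by
  obtain ⟨t, v, L⟩ := nd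
  obtain ⟨ht, hv, hl1, hl2⟩ := h
  change sz t ≤ N at ht
  change sz v ≤ V at hv
  have hL : LB N C L := ⟨hl1, hl2⟩
  have hL' : LB N (C + E.length + 1) L := hL.mono (by omega)
  have hy' : sz y ≤ V + 1 := by omega
  have hv' : sz v ≤ V + 1 := by omega
  have h0 : sz (0 : ℕ) ≤ V + 1 := by
    have := szo_small h2 (t := 0) (by norm_num)
    omega
  have hself : NdB N (V + 1) (C + E.length + 1) (t, (v, L)) := szo_mk ht hv' hL'
  unfold out
  dsimp only
  by_cases t0 : t = 0
  · rw [if_pos t0]
    by_cases c0 : c = 0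
    · rw [if_pos c0]
      exact szo_nil
    · rw [if_neg c0]
      by_cases c1 : c = 1 ∧ pres y L = true
      · rw [if_pos c1]
        exact szo_two (szo_mk (szo_small h2 (by norm_num)) hy' (hL'.er y))
          (szo_mk (szo_small h2 (by norm_num)) h0 (hL.chg E y))
      · rw [if_neg c1]
        exact szo_nil
  · rw [if_neg t0]
    by_cases t1 : t = 1
    · rw [if_pos t1]
      by_cases c0 : c = 0
      · rw [if_pos c0]
        exact szo_nil
      · rw [if_neg c0]
        by_cases hp : pres y L = true
        · rw [if_pos hp]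
          by_cases c1 : c = 1
          · rw [if_pos c1]
            exact szo_one hself
          · rw [if_neg c1]
            by_cases c2 : c = 2
            · rw [if_pos c2]
              exact szo_two (szo_mk (szo_small h2 (by norm_num)) hy' (hL.chw E v y)) hself
            · rw [if_neg c2]
              exact szo_two (szo_mk (szo_small h2 (by norm_num)) hy' (hL.ch1 E.length y)) hself
        · rw [if_neg hp]
          exact szo_nil
    · rw [if_neg t1]
      by_cases t2 : t = 2
      · rw [if_pos t2]
        by_cases hp : pres y L = true ∧ c < 2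
        · rw [if_pos hp]
          dsimp only
          have hg : NdB N (V + 1) (C + E.length + 1) (1, (v, L)) :=
            szo_mk (szo_small h2 (by norm_num)) hv' hL'
          by_cases c0 : c = 0
          · rw [if_pos c0]
            exact szo_one hg
          · rw [if_neg c0]
            exact szo_two (szo_mk (szo_small h2 (by norm_num)) hy' (hL.chq E v y)) hg
        · rw [if_neg hp]
          exact szo_nil
      · rw [if_neg t2]
        by_cases c2 : c < 2
        · rw [if_pos c2]
          by_cases he : L.isEmpty = true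
          · rw [if_pos he]
            exact szo_nil
          · rw [if_neg he]
            refine szo_one (szo_mk (szo_small h2 (by norm_num)) ?_ (hL.tail.rowL E _))
            rw [Helper6.WB.sz_nat] at hv ⊢
            have := Helper47.TR.size_add_le v 1
            omega
        · rw [if_neg c2]
          by_cases hp : pres y L = true
          · rw [if_pos hp]
            exact szo_one (szo_mk (szo_small h2 (by norm_num)) hv' (hL.chg E y))
          · rw [if_neg hp]
            exact szo_nil

private theorem szo_cd {N C : ℕ} {L : LL} (h : LB N C L) (y : ℕ) : (cd y L).length ≤ C := by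
  unfold cd
  cases hf : fnd y L with
  | nil => simp
  | cons p l =>
    have h1 : p ∈ fnd y L := by
      rw [hf]
      exact List.mem_cons_self
    exact (h.2 p (List.mem_filter.1 h1).1).2

private theorem szo_cnum {P : Par} {c : List Bool} {C : ℕ} (h : c.length ≤ C) :
    Nat.size (cnum P c) ≤ C * Nat.size P.y1 + 1 := by
  unfold cnum
  split_ifs
  · simp
  · refine (Helper47.TR.size_pow_le _ _).trans ?_
    have h1 : c.tail.length ≤ C := by
      rw [List.length_tail]
      omega
    have := Nat.mul_le_mul_right (Nat.size P.y1) h1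
    omega

private theorem szo_cden {P : Par} {c : List Bool} {C : ℕ} (h : c.length ≤ C) :
    Nat.size (cden P c) ≤ C * Nat.size P.y2 + 1 := by
  unfold cden
  refine (Helper47.TR.size_pow_le _ _).trans ?_
  have h1 : c.tail.length ≤ C := by
    rw [List.length_tail]
    omega
  have := Nat.mul_le_mul_right (Nat.size P.y2) h1
  omega

private theorem szo_pow (a : ℕ) {k e : ℕ} (h : k ≤ e) : Nat.size (a ^ k) ≤ e * Nat.size a + 1 := by
  refine (Helper47.TR.size_pow_le _ _).trans ?_
  have := Nat.mul_le_mul_right (Nat.size a) h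
  omega

private theorem szo_two_pow (b : ℕ) : Nat.size (2 ^ b) ≤ b + 1 := by
  rw [Nat.size_le]
  exact Nat.pow_lt_pow_right (by norm_num) (by omega)

private theorem szo_four (b : ℕ) : Nat.size (4 * 2 ^ b) ≤ b + 4 := by
  have h1 := Helper47.TR.size_mul_le 4 (2 ^ b)
  have h2 := szo_two_pow b
  have h3 : Nat.size 4 ≤ 3 := by
    rw [Nat.size_le]
    norm_num
  omega

private theorem szo_add (a b : ℕ) : Nat.size (a + b) ≤ Nat.size a + Nat.size b + 1 := by
  rw [Nat.size_le]
  have h1 := Nat.lt_size_self a
  have h2 := Nat.lt_size_self b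
  have h3 : 2 ^ Nat.size a ≤ 2 ^ (Nat.size a + Nat.size b) := Nat.pow_le_pow_right (by norm_num) (by omega)
  have h4 : 2 ^ Nat.size b ≤ 2 ^ (Nat.size a + Nat.size b) := Nat.pow_le_pow_right (by norm_num) (by omega)
  rw [pow_succ]
  omega

private theorem szo_den (P : Par) (m : ℕ) :
    Nat.size (P.A1 + P.A2 * m) ≤ Nat.size P.A1 + Nat.size P.A2 + Nat.size m + 1 := by
  have h1 := szo_add P.A1 (P.A2 * m)
  have h2 := Helper47.TR.size_mul_le P.A2 m
  omega

private theorem szo_zero : Nat.size 0 = 0 := Nat.size_zero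

private theorem szo_one_le : Nat.size 1 ≤ 1 := by
  rw [Nat.size_le]
  norm_num

theorem out_wsz (P : Par) : ∃ cP : ℕ, ∀ (E : List (ℕ × ℕ)) (i b c y N V C : ℕ) (nd : Nd),
    NdB N V C nd →
      Nat.size (out P E i b c y nd).1.2.1 ≤ cP * (b + C + E.length + N + V + Nat.size i + 1) ∧
      Nat.size (out P E i b c y nd).1.2.2 ≤ cP * (b + C + E.length + N + V + Nat.size i + 1) := by
  refine ⟨100 * (1 + Nat.size P.A1 + Nat.size P.A2 + Nat.size P.y1 + Nat.size P.y2), ?_⟩
  intro E i b c y N V C nd h
  obtain ⟨t, v, L⟩ := nd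
  obtain ⟨_, hv, hl1, hl2⟩ := h
  change sz v ≤ V at hv
  rw [Helper6.WB.sz_nat] at hv
  have hL : LB N C L := ⟨hl1, hl2⟩
  change L.length ≤ N at hl1
  rw [mul_assoc]
  obtain ⟨M, hM⟩ : ∃ M, M = (1 + Nat.size P.A1 + Nat.size P.A2 + Nat.size P.y1 + Nat.size P.y2) *
    (b + C + E.length + N + V + Nat.size i + 1) := ⟨_, rfl⟩
  rw [← hM]
  have key : ∀ s x : ℕ, s ≤ 1 + Nat.size P.A1 + Nat.size P.A2 + Nat.size P.y1 + Nat.size P.y2 →
      x ≤ b + C + E.length + N + V + Nat.size i + 1 → s * x ≤ M := by
    intro s x hs hx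
    rw [hM]
    exact Nat.mul_le_mul hs hx
  have k1 : 1 ≤ M := by
    have := key 1 1 (by omega) (by omega)
    omega
  have kA1 : Nat.size P.A1 ≤ M := by
    have := key (Nat.size P.A1) 1 (by omega) (by omega)
    omega
  have kA2 : Nat.size P.A2 ≤ M := by
    have := key (Nat.size P.A2) 1 (by omega) (by omega)
    omega
  have kb : b ≤ M := by
    have := key 1 b (by omega) (by omega)
    omega
  have kN : N ≤ M := by
    have := key 1 N (by omega) (by omega)
    omega
  have kV : V ≤ M := by
    have := key 1 V (by omega) (by omega)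
    omega
  have ki : Nat.size i ≤ M := by
    have := key 1 (Nat.size i) (by omega) (by omega)
    omega
  have kC1 : C * Nat.size P.y1 ≤ M := by
    rw [mul_comm]
    exact key _ _ (by omega) (by omega)
  have kC2 : C * Nat.size P.y2 ≤ M := by
    rw [mul_comm]
    exact key _ _ (by omega) (by omega)
  have kE1 : E.length * Nat.size P.y1 ≤ M := by
    rw [mul_comm]
    exact key _ _ (by omega) (by omega)
  have kE2 : E.length * Nat.size P.y2 ≤ M := by
    rw [mul_comm]
    exact key _ _ (by omega) (by omega)
  have hcd := szo_cd hL y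
  have hn := szo_cnum (P := P) hcd
  have hd := szo_cden (P := P) hcd
  have h4 := szo_four b
  have h2b := szo_two_pow b
  have hm1 := szo_pow P.y1 (szo_mult E v y)
  have hm2 := szo_pow P.y2 (szo_mult E v y)
  have hi0 := Helper47.TR.size_add_le i L.length
  have hi1 := Helper47.TR.size_add_le i 1
  have hi2 := Helper47.TR.size_add_le (i + 1) L.length
  have hD0 := szo_den P (i + L.length)
  have hD1 := szo_den P (i + 1 + L.length)
  have hD3 := szo_den P (v + 1)
  have hv1 := Helper47.TR.size_add_le v 1
  have s2 : Nat.size 2 ≤ 2 := by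
    rw [Nat.size_le]
    norm_num
  have s4 : Nat.size 4 ≤ 3 := by
    rw [Nat.size_le]
    norm_num
  have s1 := szo_one_le
  have s0 := szo_zero
  have hz : Nat.size (out0).1.2.1 ≤ 100 * M ∧ Nat.size (out0).1.2.2 ≤ 100 * M := by
    show Nat.size 0 ≤ 100 * M ∧ Nat.size 1 ≤ 100 * M
    omega
  have mul := Helper47.TR.size_mul_le
  unfold out
  dsimp only
  by_cases t0 : t = 0
  · rw [if_pos t0]
    by_cases c0 : c = 0
    · rw [if_pos c0]
      show Nat.size 4 ≤ 100 * M ∧ Nat.size 1 ≤ 100 * M
      omega
    · rw [if_neg c0]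
      by_cases c1 : c = 1 ∧ pres y L = true
      · rw [if_pos c1]
        show Nat.size (4 * 2 ^ b * (cnum P (cd y L) * P.A2)) ≤ 100 * M ∧
          Nat.size (cden P (cd y L) * (P.A1 + P.A2 * (i + L.length))) ≤ 100 * M
        have e1 := mul (4 * 2 ^ b) (cnum P (cd y L) * P.A2)
        have e2 := mul (cnum P (cd y L)) P.A2
        have e3 := mul (cden P (cd y L)) (P.A1 + P.A2 * (i + L.length))
        omega
      · rw [if_neg c1]
        exact hz
  · rw [if_neg t0]
    by_cases t1 : t = 1
    · rw [if_pos t1]
      by_cases c0 : c = 0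
      · rw [if_pos c0]
        show Nat.size 4 ≤ 100 * M ∧ Nat.size 1 ≤ 100 * M
        omega
      · rw [if_neg c0]
        by_cases hp : pres y L = true
        · rw [if_pos hp]
          have hw : Nat.size (4 * 2 ^ b * (P.y1 ^ (multL E v y).length * P.A2)) ≤ 100 * M ∧
              Nat.size (P.y2 ^ (multL E v y).length * (P.A1 + P.A2 * (i + 1 + L.length))) ≤ 100 * M := by
            have e1 := mul (4 * 2 ^ b) (P.y1 ^ (multL E v y).length * P.A2)
            have e2 := mul (P.y1 ^ (multL E v y).length) P.A2
            have e3 := mul (P.y2 ^ (multL E v y).length) (P.A1 + P.A2 * (i + 1 + L.length))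
            omega
          by_cases c1 : c = 1
          · rw [if_pos c1]
            exact hw
          · rw [if_neg c1]
            by_cases c2 : c = 2
            · rw [if_pos c2]
              exact hw
            · rw [if_neg c2]
              show Nat.size (4 * 2 ^ b * P.A2) ≤ 100 * M ∧
                Nat.size (P.A1 + P.A2 * (i + 1 + L.length)) ≤ 100 * M
              have e1 := mul (4 * 2 ^ b) P.A2
              omega
        · rw [if_neg hp]
          exact hz
    · rw [if_neg t1]
      by_cases t2 : t = 2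
      · rw [if_pos t2]
        by_cases hp : pres y L = true ∧ c < 2
        · rw [if_pos hp]
          show Nat.size (4 * 2 ^ b * ((cden P (cd y L) - cnum P (cd y L)) *
              (P.y1 ^ (multL E v y).length * P.A2))) ≤ 100 * M ∧
            Nat.size (cden P (cd y L) *
              (P.y2 ^ (multL E v y).length * (P.A1 + P.A2 * (i + 1 + L.length)))) ≤ 100 * M
          have e1 := mul (4 * 2 ^ b) ((cden P (cd y L) - cnum P (cd y L)) *
              (P.y1 ^ (multL E v y).length * P.A2))
          have e2 := mul (cden P (cd y L) - cnum P (cd y L)) (P.y1 ^ (multL E v y).length * P.A2)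
          have e3 := mul (P.y1 ^ (multL E v y).length) P.A2
          have e4 := mul (cden P (cd y L))
            (P.y2 ^ (multL E v y).length * (P.A1 + P.A2 * (i + 1 + L.length)))
          have e5 := mul (P.y2 ^ (multL E v y).length) (P.A1 + P.A2 * (i + 1 + L.length))
          have e6 : Nat.size (cden P (cd y L) - cnum P (cd y L)) ≤ Nat.size (cden P (cd y L)) :=
            Nat.size_le_size (Nat.sub_le _ _)
          omega
        · rw [if_neg hp]
          exact hz
      · rw [if_neg t2]
        by_cases c2 : c < 2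
        · rw [if_pos c2]
          by_cases he : L.isEmpty = true
          · rw [if_pos he]
            show Nat.size 2 ≤ 100 * M ∧ Nat.size 1 ≤ 100 * M
            omega
          · rw [if_neg he]
            show Nat.size (2 * (P.A1 + P.A2 * (v + 1))) ≤ 100 * M ∧ Nat.size P.A2 ≤ 100 * M
            have e1 := mul 2 (P.A1 + P.A2 * (v + 1))
            omega
        · rw [if_neg c2]
          by_cases hp : pres y L = true
          · rw [if_pos hp]
            show Nat.size (2 * 2 ^ b * cnum P (cd y L)) ≤ 100 * M ∧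
              Nat.size (cden P (cd y L)) ≤ 100 * M
            have e1 := mul (2 * 2 ^ b) (cnum P (cd y L))
            have e2 := mul 2 (2 ^ b)
            omega
          · rw [if_neg hp]
            exact hz

end Pool.Agent.DFP
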