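import Pool.Agent.DFP.FOnes

set_option autoImplicit false

/-! # DFP-Tel: hubs, telescoping (helper2) -/

namespace Pool.Agent.DFP

open Finset

theorem WW_insert {w : ℕ → ℕ → ℚ} (hs : ∀ x y, w x y = w y x) {B : Finset ℕ} {y : ℕ} (hy : y ∉ B) :
    WW w (insert y B) = (∏ x ∈ B, w y x) * WW w B := by
  unfold WW
  rw [Finset.prod_insert hy]
  have e1 : (insert y B).filter (fun v => y < v) = B.filter (fun v => y < v) := by
    rw [Finset.filter_insert, if_neg (lt_irrefl y)]
  have e2 : ∀ u ∈ B, (∏ v ∈ (insert y B).filter (fun v => u < v), w u v) =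
      (if u < y then w u y else 1) * ∏ v ∈ B.filter (fun v => u < v), w u v := by
    intro u _
    rw [Finset.filter_insert]
    by_cases h : u < y
    · rw [if_pos h, if_pos h, Finset.prod_insert]
      intro h2
      exact hy (Finset.mem_filter.1 h2).1
    · rw [if_neg h, if_neg h, one_mul]
  rw [e1, Finset.prod_congr rfl e2, Finset.prod_mul_distrib, ← mul_assoc, Finset.prod_filter,
    ← Finset.prod_mul_distrib]
  congr 1
  refine Finset.prod_congr rfl fun x hx => ?_
  have hne : x ≠ y := fun h => hy (h ▸ hx)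
  rcases lt_or_gt_of_ne hne with h | h
  · rw [if_neg (not_lt.2 h.le), if_pos h, one_mul, hs]
  · rw [if_pos h, if_neg (not_lt.2 h.le), mul_one]

theorem hub_congr (a : ℚ) (w : ℕ → ℕ → ℚ) {J : Finset ℕ} {s t : ℕ → ℚ} (h : ∀ x ∈ J, s x = t x) :
    hub a w J s = hub a w J t := by
  unfold hub
  refine Finset.sum_congr rfl fun B hB => ?_
  have e : ∏ x ∈ B, s x = ∏ x ∈ B, t x :=
    Finset.prod_congr rfl fun x hx => h x (Finset.mem_powerset.1 hB hx)
  rw [e]

theorem hub_zero (a : ℚ) (w : ℕ → ℕ → ℚ) (J : Finset ℕ) :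
    hub a w J (fun _ => 0) = F (a + 1) w J := by
  unfold hub
  rw [Finset.sum_eq_single ∅]
  · simp [WW]
  · intro B _ hB
    obtain ⟨x, hx⟩ := Finset.nonempty_iff_ne_empty.2 hB
    have e : ∏ x ∈ B, (0 : ℚ) = 0 := Finset.prod_eq_zero hx rfl
    rw [e]
    ring
  · intro h
    exact absurd (Finset.empty_mem_powerset J) h

theorem hub_one (a : ℚ) (w : ℕ → ℕ → ℚ) (J : Finset ℕ) : hub a w J (fun _ => 1) = F a w J := by
  rw [← F_ones a w J]
  unfold hub
  refine Finset.sum_congr rfl fun B _ => ?_
  rw [Finset.prod_const_one, mul_one]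

private theorem sum_with {J : Finset ℕ} {y : ℕ} (hy : y ∈ J) (f : Finset ℕ → ℚ) :
    ∑ B ∈ J.powerset.filter (fun B => y ∈ B), f B = ∑ B ∈ (J.erase y).powerset, f (insert y B) := by
  symm
  refine Finset.sum_bij' (fun B _ => insert y B) (fun B _ => B.erase y) ?_ ?_ ?_ ?_ ?_
  · intro B hB
    rw [Finset.mem_filter, Finset.mem_powerset]
    refine ⟨Finset.insert_subset hy ?_, Finset.mem_insert_self _ _⟩
    exact (Finset.mem_powerset.1 hB).trans (Finset.erase_subset _ _)
  · intro B hB
    rw [Finset.mem_filter, Finset.mem_powerset] at hB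
    rw [Finset.mem_powerset]
    exact Finset.erase_subset_erase _ hB.1
  · intro B hB
    have h : y ∉ B := fun h => Finset.notMem_erase y J (Finset.mem_powerset.1 hB h)
    exact Finset.erase_insert h
  · intro B hB
    exact Finset.insert_erase (Finset.mem_filter.1 hB).2
  · intro B _
    rfl

private theorem notin {J B : Finset ℕ} {y : ℕ} (hB : B ∈ (J.erase y).powerset) : y ∉ B :=
  fun h => Finset.notMem_erase y J (Finset.mem_powerset.1 hB h)

private theorem sdiff_ins (J B : Finset ℕ) (y : ℕ) : J \ insert y B = (J.erase y) \ B := by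
  ext x
  simp only [Finset.mem_sdiff, Finset.mem_insert, Finset.mem_erase]
  tauto

theorem F_eq_hub (a : ℚ) {w : ℕ → ℕ → ℚ} (hs : ∀ x y, w x y = w y x) {J : Finset ℕ} {y : ℕ}
    (hy : y ∈ J) : F a w J = a * hub a w (J.erase y) (w y) := by
  rw [F_exp a w hy, sum_with hy]
  unfold hub
  congr 1
  refine Finset.sum_congr rfl fun B hB => ?_
  have h := notin hB
  rw [Finset.card_insert_of_notMem h, WW_insert hs h, sdiff_ins, Nat.add_sub_cancel]
  ring

private theorem prod_tel (s t : ℕ → ℚ) (B : Finset ℕ) :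
    ∏ x ∈ B, s x = ∏ x ∈ B, t x +
      ∑ y ∈ B, (s y - t y) * ∏ x ∈ B.erase y, (if x < y then s x else t x) := by
  induction B using Finset.induction_on_max with
  | empty => simp
  | insert m B hm ih =>
    have hmB : m ∉ B := fun h => lt_irrefl m (hm m h)
    rw [Finset.prod_insert hmB, Finset.prod_insert hmB, Finset.sum_insert hmB,
      Finset.erase_insert hmB]
    have e1 : ∏ x ∈ B, (if x < m then s x else t x) = ∏ x ∈ B, s x :=
      Finset.prod_congr rfl fun x hx => if_pos (hm x hx)
    have e2 : ∑ y ∈ B, (s y - t y) * ∏ x ∈ (insert m B).erase y, (if x < y then s x else t x) =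
        t m * ∑ y ∈ B, (s y - t y) * ∏ x ∈ B.erase y, (if x < y then s x else t x) := by
      rw [Finset.mul_sum]
      refine Finset.sum_congr rfl fun y hy => ?_
      have hne : m ≠ y := fun h => hmB (h ▸ hy)
      rw [Finset.erase_insert_of_ne hne, Finset.prod_insert fun h => hmB (Finset.mem_of_mem_erase h),
        if_neg (not_lt.2 (hm y hy).le)]
      ring
    rw [e1, e2, ih]
    ring

theorem hub_tel (a : ℚ) {w : ℕ → ℕ → ℚ} (hs : ∀ x y, w x y = w y x) (J : Finset ℕ)
    (s t : ℕ → ℚ) :
    hub a w J s = hub a w J t + ∑ y ∈ J, (t y - s y) *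
      hub a w (J.erase y) (fun x => w y x * if x < y then s x else t x) := by
  have h1 : hub a w J s = hub a w J t + ∑ B ∈ J.powerset, ∑ y ∈ J, if y ∈ B then
      (-1) ^ B.card * ((s y - t y) * ∏ x ∈ B.erase y, (if x < y then s x else t x)) * WW w B *
        F (a + 1) w (J \ B) else 0 := by
    unfold hub
    rw [← Finset.sum_add_distrib]
    refine Finset.sum_congr rfl fun B hB => ?_
    have hBJ := Finset.mem_powerset.1 hB
    rw [← Finset.sum_filter, Finset.filter_mem_eq_inter, Finset.inter_eq_right.2 hBJ]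
    rw [prod_tel s t B]
    rw [← Finset.sum_mul, ← Finset.sum_mul, ← Finset.mul_sum]
    ring
  rw [h1, Finset.sum_comm]
  congr 1
  refine Finset.sum_congr rfl fun y hy => ?_
  rw [← Finset.sum_filter, sum_with hy]
  unfold hub
  rw [Finset.mul_sum]
  refine Finset.sum_congr rfl fun B hB => ?_
  have h := notin hB
  rw [Finset.card_insert_of_notMem h, WW_insert hs h, sdiff_ins, Finset.erase_insert h, pow_succ,
    Finset.prod_mul_distrib]
  ring

end Pool.Agent.DFP
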