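import Pool.Agent.DFP.Edge
import Pool.Agent.Helper47.TR.Potts

set_option autoImplicit false

/-!
# DFP-TutF: the normalised partition function `R` of `Helper47/TR/RC.lean` in terms of `F`
-/

namespace Pool.Agent.DFP

open Finset

open Pool.Agent.Helper47.TR in
/-- weights of a labelled list of edges -/
def wl (y : ℚ) (W : List (ℕ × ℕ)) (f : ℕ → ℕ) (u v : ℕ) : ℚ :=
  (W.map fun e => if (f e.1 = u ∧ f e.2 = v) ∨ (f e.1 = v ∧ f e.2 = u) then y else 1).prod

private theorem wl_cons (y : ℚ) (e : ℕ × ℕ) (W : List (ℕ × ℕ)) (f : ℕ → ℕ) (u v : ℕ) :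
    wl y (e :: W) f u v =
      (if (f e.1 = u ∧ f e.2 = v) ∨ (f e.1 = v ∧ f e.2 = u) then y else 1) * wl y W f u v := by
  unfold wl
  rw [List.map_cons, List.prod_cons]

private theorem wl_symm (y : ℚ) (W : List (ℕ × ℕ)) (f : ℕ → ℕ) (u v : ℕ) : wl y W f u v = wl y W f v u := by
  unfold wl
  simp only [or_comm]

open Pool.Agent.Helper47.TR in
private theorem mg_eq_u {u v a : ℕ} : mg u v a = u ↔ a = u ∨ a = v := by
  unfold mg
  split_ifs with h
  · exact ⟨fun _ => Or.inr h, fun _ => rfl⟩
  · exact ⟨fun h1 => Or.inl h1, fun h1 => h1.resolve_right h⟩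

open Pool.Agent.Helper47.TR in
private theorem mg_eq_x {u v a x : ℕ} (h1 : x ≠ u) (h2 : x ≠ v) : mg u v a = x ↔ a = x := by
  unfold mg
  split_ifs with h
  · exact ⟨fun h3 => absurd h3.symm h1, fun h3 => absurd (h3.symm.trans h) h2⟩
  · exact Iff.rfl

open Pool.Agent.Helper47.TR in
private theorem wl_mgA (y : ℚ) (W : List (ℕ × ℕ)) (f : ℕ → ℕ) {u v x : ℕ} (huv : u ≠ v) (h1 : x ≠ u) (h2 : x ≠ v) :
    wl y W (fun i => mg u v (f i)) u x = wl y W f u x * wl y W f v x := by
  induction W with
  | nil => simp [wl]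
  | cons e W ih =>
    rw [wl_cons, wl_cons, wl_cons, ih]
    have h3 : (if (mg u v (f e.1) = u ∧ mg u v (f e.2) = x) ∨ (mg u v (f e.1) = x ∧ mg u v (f e.2) = u) then y else 1) =
        (if (f e.1 = u ∧ f e.2 = x) ∨ (f e.1 = x ∧ f e.2 = u) then y else 1) *
          if (f e.1 = v ∧ f e.2 = x) ∨ (f e.1 = x ∧ f e.2 = v) then y else 1 := by
      simp only [mg_eq_u, mg_eq_x h1 h2]
      generalize f e.1 = a
      generalize f e.2 = b
      split_ifs
      all_goals first | (exfalso; omega) | simp
    rw [h3]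
    ring

open Pool.Agent.Helper47.TR in
private theorem wl_mgC (y : ℚ) (W : List (ℕ × ℕ)) (f : ℕ → ℕ) {u v x z : ℕ} (h1 : x ≠ u) (h2 : x ≠ v) (h3 : z ≠ u)
    (h4 : z ≠ v) : wl y W (fun i => mg u v (f i)) x z = wl y W f x z := by
  unfold wl
  simp only [mg_eq_x h1 h2, mg_eq_x h3 h4]

private theorem loops_cons (e : ℕ × ℕ) (W : List (ℕ × ℕ)) (f : ℕ → ℕ) (y : ℚ) :
    y ^ ((e :: W).filter fun e => f e.1 == f e.2).length =
      (if f e.1 = f e.2 then y else 1) * y ^ (W.filter fun e => f e.1 == f e.2).length := by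
  rw [List.filter_cons]
  by_cases h : f e.1 = f e.2
  · rw [if_pos (by simpa using h), if_pos h, List.length_cons, pow_succ']
  · rw [if_neg (by simpa using h), if_neg h, one_mul]

open Pool.Agent.Helper47.TR in
private theorem loops_mg (y : ℚ) (W : List (ℕ × ℕ)) (f : ℕ → ℕ) {u v : ℕ} (huv : u ≠ v) :
    y ^ (W.filter fun e => mg u v (f e.1) == mg u v (f e.2)).length =
      y ^ (W.filter fun e => f e.1 == f e.2).length * wl y W f u v := by
  induction W with
  | nil => simp [wl]
  | cons e W ih =>
    have h0 := loops_cons e W (fun i => mg u v (f i)) y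
    rw [h0, ih, loops_cons e W f y, wl_cons]
    have h3 : (if mg u v (f e.1) = mg u v (f e.2) then y else 1) =
        (if f e.1 = f e.2 then y else 1) *
          if (f e.1 = u ∧ f e.2 = v) ∨ (f e.1 = v ∧ f e.2 = u) then y else 1 := by
      unfold mg
      generalize f e.1 = a
      generalize f e.2 = b
      by_cases ha : a = v
      · by_cases hb : b = v
        · rw [if_pos ha, if_pos hb, if_pos rfl, if_pos (ha.trans hb.symm), if_neg (by omega), mul_one]
        · rw [if_pos ha, if_neg hb]
          by_cases hb' : u = b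
          · rw [if_pos hb', if_neg (by omega), if_pos (by omega), one_mul]
          · rw [if_neg hb', if_neg (by omega), if_neg (by omega), one_mul]
      · by_cases hb : b = v
        · rw [if_neg ha, if_pos hb]
          by_cases ha' : a = u
          · rw [if_pos ha', if_neg (by omega), if_pos (by omega), one_mul]
          · rw [if_neg ha', if_neg (by omega), if_neg (by omega), one_mul]
        · rw [if_neg ha, if_neg hb]
          by_cases hab : a = b
          · rw [if_pos hab, if_neg (by omega), mul_one]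
          · rw [if_neg hab, if_neg (by omega), mul_one]
    rw [h3]
    ring

open Pool.Agent.Helper47.TR in
theorem R_F {a y : ℚ} (ha : a ≠ 0) (W : List (ℕ × ℕ)) (f : ℕ → ℕ) (U : Finset ℕ)
    (hU : ∀ e ∈ W, f e.1 ∈ U ∧ f e.2 ∈ U) :
    a ^ U.card * R (-1 / a) (wE 1 y W) f =
      y ^ (W.filter fun e => f e.1 == f e.2).length * F a (wl y W f) U := by
  induction W generalizing f U with
  | nil =>
    have h1 : F a (wl y [] f) U = a ^ U.card := F_all_ones a fun x _ z _ _ => by simp [wl]
    rw [h1]
    simp [wE]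
  | cons e W ih =>
    obtain ⟨p, q⟩ := e
    have hU' : ∀ e ∈ W, f e.1 ∈ U ∧ f e.2 ∈ U := fun e he => hU e (List.mem_cons_of_mem _ he)
    have hp : f p ∈ U := (hU (p, q) List.mem_cons_self).1
    have hq : f q ∈ U := (hU (p, q) List.mem_cons_self).2
    have hc : wE 1 y ((p, q) :: W) = (p, q, 1, y) :: wE 1 y W := rfl
    rw [hc, loops_cons]
    by_cases h : f p = f q
    · rw [R_loop _ h, if_pos h]
      have h2 : F a (wl y ((p, q) :: W) f) U = F a (wl y W f) U := by
        refine F_congr a fun x _ z _ hxz => ?_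
        rw [wl_cons, if_neg, one_mul]
        show ¬((f p = x ∧ f q = z) ∨ (f p = z ∧ f q = x))
        omega
      rw [h2]
      have h3 := ih f U hU'
      linear_combination y * h3
    · rw [R_non _ h, if_neg h, one_mul, one_mul]
      have h1 := ih f U hU'
      have hmem : ∀ i, f i ∈ U → mg (f p) (f q) (f i) ∈ U.erase (f q) := by
        intro i hi
        unfold mg
        split_ifs with h4
        · exact mem_erase.2 ⟨h, hp⟩
        · exact mem_erase.2 ⟨h4, hi⟩
      have h2 := ih (fun i => mg (f p) (f q) (f i)) (U.erase (f q)) fun e he =>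
        ⟨hmem _ (hU' e he).1, hmem _ (hU' e he).2⟩
      have h5 := loops_mg y W f h
      rw [h5] at h2
      have hs : ∀ W' : List (ℕ × ℕ), ∀ x z, wl y W' f x z = wl y W' f z x := fun W' x z => wl_symm y W' f x z
      have h6 := F_edge a (w := wl y ((p, q) :: W) f) (w' := wl y W f) (hs _) (hs _) hp hq h (by
        intro x _ z _ _ hn
        rw [wl_cons, if_neg, one_mul]
        show ¬((f p = x ∧ f q = z) ∨ (f p = z ∧ f q = x))
        omega)
      have h7 : wl y ((p, q) :: W) f (f p) (f q) = y * wl y W f (f p) (f q) := by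
        rw [wl_cons, if_pos (Or.inl ⟨rfl, rfl⟩)]
      have h8 : F a (mrg (wl y ((p, q) :: W) f) (f p) (f q)) (U.erase (f q)) =
          F a (wl y W fun i => mg (f p) (f q) (f i)) (U.erase (f q)) := by
        refine F_congr a fun x hx z hz hxz => ?_
        have hx1 := (mem_erase.1 hx).1
        have hz1 := (mem_erase.1 hz).1
        have hd : ∀ s t : ℕ, s ≠ f q → t ≠ f q → wl y ((p, q) :: W) f s t = wl y W f s t := by
          intro s t hs ht
          rw [wl_cons, if_neg, one_mul]
          show ¬((f p = s ∧ f q = t) ∨ (f p = t ∧ f q = s))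
          omega
        have hd' : ∀ t : ℕ, t ≠ f p → wl y ((p, q) :: W) f (f q) t = wl y W f (f q) t := by
          intro t ht
          rw [wl_cons, if_neg, one_mul]
          show ¬((f p = f q ∧ f q = t) ∨ (f p = t ∧ f q = f q))
          omega
        unfold mrg
        split_ifs with hxu hzu
        · rw [hxu] at hxz ⊢
          rw [hd _ _ h hz1, hd' _ (by omega), wl_mgA y W f h (by omega) hz1]
        · rw [hzu] at hxz ⊢
          rw [hd _ _ hx1 h, hs _ x (f q), hd' _ hxu, wl_symm y W (fun i => mg (f p) (f q) (f i)) x (f p),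
            wl_mgA y W f h hxu hx1, hs W x (f p)]
        · rw [hd _ _ hx1 hz1, wl_mgC y W f hxu hx1 hzu hz1]
      rw [h8, h7] at h6
      rw [h6]
      have h9 : a ^ U.card = a * a ^ (U.erase (f q)).card := by
        rw [← pow_succ', card_erase_of_mem hq]
        congr 1
        have := card_pos.2 ⟨_, hq⟩
        omega
      have h10 : a * (-1 / a) = -1 := by field_simp
      have h11 : a ^ U.card * (-1 / a * (y - 1) * R (-1 / a) (wE 1 y W) fun i => mg (f p) (f q) (f i)) =
          (1 - y) * (a ^ (U.erase (f q)).card * R (-1 / a) (wE 1 y W) fun i => mg (f p) (f q) (f i)) := by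
        rw [h9]
        linear_combination ((y - 1) * a ^ (U.erase (f q)).card *
          R (-1 / a) (wE 1 y W) fun i => mg (f p) (f q) (f i)) * h10
      rw [mul_add, h11, h1, h2]
      ring

end Pool.Agent.DFP
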