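import Pool.Agent.DFP.LstB
import Pool.Agent.DFP.Ids

set_option autoImplicit false

/-!
# DFP-Val0: the expansion of nodes of type 0
-/

namespace Pool.Agent.DFP

open Finset

/-- the value of the weight of the second outcome -/
private theorem v0W {P : Par} (hP : P.Ok) (c : List Bool) (B i n : ℕ) :
    wv (true, (B * (cnum P c * P.A2), cden P c * (P.A1 + P.A2 * (i + n)))) =
      -((B : ℚ) * (cval P.y c / (P.a + i + n))) := by
  obtain ⟨h1, _, h3⟩ := cfrac hP c
  have hA : (0 : ℚ) < P.A2 := by exact_mod_cast hP.1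
  have hA' : (P.A2 : ℚ) ≠ 0 := hA.ne'
  have h4 : (cden P c : ℚ) ≠ 0 := by
    have : (0 : ℚ) < cden P c := by exact_mod_cast h1
    exact this.ne'
  rw [← h3]
  unfold wv Par.a
  have h5 : (P.A1 : ℚ) / P.A2 + i + n = (P.A1 + P.A2 * (i + n)) / P.A2 := by
    field_simp
    ring
  rw [h5]
  simp only [if_true]
  push_cast
  by_cases h6 : (P.A1 : ℚ) + P.A2 * (i + n) = 0
  · rw [h6]
    simp
  · field_simp

/-- `gt` only depends on the values of the row on the set -/
private theorem v0gt (a : ℚ) (w : ℕ → ℕ → ℚ) {J : Finset ℕ} {s t : ℕ → ℚ} (h : ∀ x ∈ J, s x = t x) :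
    gt a w J s = gt a w J t := by
  unfold gt
  rw [hub_congr a w h]

/-- the sum over the first random number -/
private theorem v0in {P : Par} (hP : P.Ok) (E : List (ℕ × ℕ)) (i b v y : ℕ) (L : LL) :
    ∑ c ∈ range 4, wv (out P E i b c y (0, (v, L))).1 *
        ((out P E i b c y (0, (v, L))).2.map (val P E i)).prod =
      4 - if y ∈ vs L then (4 * 2 ^ b) * (cv P.y L y * (gt (P.a + i) (wG P.y E) ((vs L).erase y)
        (muG (wG P.y E) (cv P.y L) y) * (GG (P.a + i + 1) (wG P.y E) y ((vs L).erase y) /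
          (P.a + i + L.length)))) else 0 := by
  have e0 : out P E i b 0 y (0, (v, L)) = ((false, (4, 1)), []) := rfl
  have e2 : out P E i b 2 y (0, (v, L)) = out0 := rfl
  have e3 : out P E i b 3 y (0, (v, L)) = out0 := rfl
  have ez : wv out0.1 = 0 := by
    unfold wv out0
    simp
  have e4 : wv ((false, (4, 1)) : Wt) = 4 := by
    unfold wv
    simp
  rw [Finset.sum_range_succ, Finset.sum_range_succ, Finset.sum_range_succ, Finset.sum_range_succ,
    Finset.sum_range_zero, e0, e2, e3, ez, e4]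
  by_cases h : pres y L = true
  · have hy : y ∈ vs L := (pres_iff y L).1 h
    have e1 : out P E i b 1 y (0, (v, L)) =
        ((true, (4 * 2 ^ b * (cnum P (cd y L) * P.A2),
          cden P (cd y L) * (P.A1 + P.A2 * (i + L.length)))),
            [(1, (y, er y L)), (0, (0, chg E y L))]) := by
      unfold out
      simp [h]
    have v1 : val P E i (1, (y, er y L)) = GG (P.a + i + 1) (wG P.y E) y ((vs L).erase y) := by
      unfold val
      simp [vs_er]
    have v2 : val P E i (0, (0, chg E y L)) = gt (P.a + i) (wG P.y E) ((vs L).erase y)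
        (muG (wG P.y E) (cv P.y L) y) := by
      unfold val
      simp only [if_true, vs_chg]
      exact v0gt _ _ fun x hx => cv_chg P.y E hx
    have hc : cv P.y L y = cval P.y (cd y L) := rfl
    rw [e1, if_pos hy]
    simp only [List.map_cons, List.map_nil, List.prod_cons, List.prod_nil, mul_one]
    rw [v0W hP, v1, v2, hc]
    push_cast
    ring
  · have hy : y ∉ vs L := fun hh => h ((pres_iff y L).2 hh)
    have e1 : out P E i b 1 y (0, (v, L)) = out0 := by
      unfold out
      simp [h]
    rw [e1, if_neg hy, ez]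
    simp

theorem val0 {P : Par} (hP : P.Ok) (E : List (ℕ × ℕ)) (i b v : ℕ) {L : LL}
    (hn : (L.map Prod.fst).Nodup) (hb : vs L ⊆ range (2 ^ b)) :
    val P E i (0, (v, L)) = (∑ y ∈ range (2 ^ b), ∑ c ∈ range 4,
      wv (out P E i b c y (0, (v, L))).1 *
        ((out P E i b c y (0, (v, L))).2.map (val P E i)).prod) / (4 * 2 ^ b) := by
  obtain ⟨ha, hy0, hy1⟩ := par_bd hP
  have ha' : 0 ≤ P.a + (i : ℚ) := by
    have : (0 : ℚ) ≤ i := Nat.cast_nonneg i
    linarith
  have hw : Ok (wG P.y E) := wG_ok hy0 hy1.le E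
  have hs : Ok1 (cv P.y L) := cv_ok hy0 hy1.le L
  have h1 : val P E i (0, (v, L)) = gt (P.a + i) (wG P.y E) (vs L) (cv P.y L) := by
    unfold val
    simp
  have h2 := gt_step ha' hw (vs L) hs
  rw [card_vs hn] at h2
  have hB : (0 : ℚ) < 4 * 2 ^ b := by positivity
  rw [h1, h2, Finset.sum_congr rfl fun y _ => v0in hP E i b v y L, Finset.sum_sub_distrib,
    ← Finset.sum_filter, Finset.sum_const, Finset.card_range, nsmul_eq_mul, ← Finset.mul_sum]
  have h3 : (range (2 ^ b)).filter (fun y => y ∈ vs L) = vs L := by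
    rw [Finset.filter_mem_eq_inter]
    exact Finset.inter_eq_right.2 hb
  rw [h3]
  push_cast
  have hB' : (2 : ℚ) ^ b ≠ 0 := by positivity
  generalize ∑ y ∈ vs L, cv P.y L y * (gt (P.a + i) (wG P.y E) ((vs L).erase y)
        (muG (wG P.y E) (cv P.y L) y) * (GG (P.a + i + 1) (wG P.y E) y ((vs L).erase y) /
          (P.a + i + L.length))) = S
  field_simp

end Pool.Agent.DFP
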