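import Pool.Agent.DFP.LstB
import Pool.Agent.DFP.Ids

set_option autoImplicit false

/-!
# DFP-Val3: the expansion of nodes of type 3
-/

namespace Pool.Agent.DFP

open Finset

private theorem val3_out (P : Par) (E : List (ℕ × ℕ)) (i b c y v : ℕ) (L : LL) :
    out P E i b c y (3, (v, L)) =
      if c < 2 then
        if L.isEmpty then ((false, (2, 1)), [])
        else ((false, (2 * (P.A1 + P.A2 * (v + 1)), P.A2)),
          [(3, (v + 1, rowL E (L.headD (0, [])).1 L.tail))])
      else if pres y L = true then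
        ((true, (2 * 2 ^ b * cnum P (cd y L), cden P (cd y L))), [(3, (v, chg E y L))])
      else out0 := rfl

private theorem val3_val (P : Par) (E : List (ℕ × ℕ)) (i v : ℕ) (L : LL) :
    val P E i (3, (v, L)) = hub (P.a + v) (wG P.y E) (vs L) (cv P.y L) := rfl

private theorem val3_lo {P : Par} (hP : P.Ok) (E : List (ℕ × ℕ)) (i b v : ℕ) {L : LL}
    (hn : (L.map Prod.fst).Nodup) (c y : ℕ) (hc : c < 2) :
    wv (out P E i b c y (3, (v, L))).1 * ((out P E i b c y (3, (v, L))).2.map (val P E i)).prod =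
      2 * F (P.a + v + 1) (wG P.y E) (vs L) := by
  obtain ⟨ha, hy0, hy1⟩ := par_bd hP
  rw [val3_out, if_pos hc]
  rcases L with _ | ⟨p, L'⟩
  · have h1 : vs ([] : LL) = ∅ := rfl
    rw [h1, F_empty]
    simp [wv]
  · have hn' : p.1 ∉ L'.map Prod.fst := by
      rw [List.map_cons, List.nodup_cons] at hn
      exact hn.1
    have hvs : vs (p :: L') = insert p.1 (vs L') := by
      unfold vs
      rw [List.map_cons, List.toFinset_cons]
    have hnot : p.1 ∉ vs L' := by
      unfold vs
      rw [List.mem_toFinset]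
      exact hn'
    have hmem : p.1 ∈ vs (p :: L') := by
      rw [hvs]
      exact mem_insert_self _ _
    have herase : (vs (p :: L')).erase p.1 = vs L' := by
      rw [hvs, erase_insert hnot]
    have hw := wG_ok hy0 hy1.le E
    have h1 := F_eq_hub (P.a + v + 1) hw.1 hmem
    rw [herase] at h1
    have h2 : val P E i (3, (v + 1, rowL E p.1 L')) =
        hub (P.a + v + 1) (wG P.y E) (vs L') (wG P.y E p.1) := by
      rw [val3_val, vs_rowL]
      have h3 : P.a + ((v + 1 : ℕ) : ℚ) = P.a + v + 1 := by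
        push_cast
        ring
      rw [h3]
      exact hub_congr _ _ fun x hx => cv_rowL P.y E hx
    have h4 : wv (false, (2 * (P.A1 + P.A2 * (v + 1)), P.A2)) = 2 * (P.a + v + 1) := by
      have h5 : (P.A2 : ℚ) ≠ 0 := by
        have := hP.1
        exact_mod_cast this.ne'
      unfold wv Par.a
      push_cast
      rw [one_mul]
      field_simp
      ring
    rw [if_neg (by simp)]
    simp only [List.headD_cons, List.tail_cons, List.map_cons, List.map_nil, List.prod_cons,
      List.prod_nil, mul_one]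
    rw [h2, h4, h1]
    ring

private theorem val3_hi {P : Par} (hP : P.Ok) (E : List (ℕ × ℕ)) (i b v : ℕ) (L : LL)
    (c y : ℕ) (hc : ¬ c < 2) :
    wv (out P E i b c y (3, (v, L))).1 * ((out P E i b c y (3, (v, L))).2.map (val P E i)).prod =
      if y ∈ vs L then -(2 * 2 ^ b * (cv P.y L y *
        hub (P.a + v) (wG P.y E) ((vs L).erase y) (muG (wG P.y E) (cv P.y L) y))) else 0 := by
  rw [val3_out, if_neg hc]
  by_cases hy : y ∈ vs L
  · rw [if_pos ((pres_iff y L).2 hy), if_pos hy]
    simp only [List.map_cons, List.map_nil, List.prod_cons, List.prod_nil, mul_one]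
    have h1 : val P E i (3, (v, chg E y L)) =
        hub (P.a + v) (wG P.y E) ((vs L).erase y) (muG (wG P.y E) (cv P.y L) y) := by
      rw [val3_val, vs_chg]
      exact hub_congr _ _ fun x hx => cv_chg P.y E hx
    have h2 : wv (true, (2 * 2 ^ b * cnum P (cd y L), cden P (cd y L))) =
        -(2 * 2 ^ b * cv P.y L y) := by
      have h3 := (cfrac hP (cd y L)).2.2
      unfold cv
      rw [← h3]
      unfold wv
      push_cast
      rw [if_pos rfl]
      ring
    rw [h1, h2]
    ring
  · rw [if_neg (fun h => hy ((pres_iff y L).1 h)), if_neg hy]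
    simp [out0, wv]

theorem val3 {P : Par} (hP : P.Ok) (E : List (ℕ × ℕ)) (i b v : ℕ) {L : LL}
    (hn : (L.map Prod.fst).Nodup) (hb : vs L ⊆ range (2 ^ b)) :
    val P E i (3, (v, L)) = (∑ y ∈ range (2 ^ b), ∑ c ∈ range 4,
      wv (out P E i b c y (3, (v, L))).1 *
        ((out P E i b c y (3, (v, L))).2.map (val P E i)).prod) / (4 * 2 ^ b) := by
  obtain ⟨ha, hy0, hy1⟩ := par_bd hP
  have hw := wG_ok hy0 hy1.le E
  have hsum : ∀ y, ∑ c ∈ range 4, wv (out P E i b c y (3, (v, L))).1 *
      ((out P E i b c y (3, (v, L))).2.map (val P E i)).prod =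
      4 * F (P.a + v + 1) (wG P.y E) (vs L) + 2 * (if y ∈ vs L then -(2 * 2 ^ b * (cv P.y L y *
        hub (P.a + v) (wG P.y E) ((vs L).erase y) (muG (wG P.y E) (cv P.y L) y))) else 0) := by
    intro y
    rw [sum_range_succ, sum_range_succ, sum_range_succ, sum_range_succ, sum_range_zero, zero_add,
      val3_lo hP E i b v hn 0 y (by norm_num), val3_lo hP E i b v hn 1 y (by norm_num),
      val3_hi hP E i b v L 2 y (by norm_num), val3_hi hP E i b v L 3 y (by norm_num)]
    ring
  rw [sum_congr rfl fun y _ => hsum y, sum_add_distrib, sum_const, card_range, nsmul_eq_mul,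
    ← mul_sum, sum_ite_mem, inter_eq_right.2 hb, sum_neg_distrib, ← mul_sum]
  have h1 := hub_tel (P.a + v) hw.1 (vs L) (fun _ => 0) (cv P.y L)
  rw [hub_zero] at h1
  have e1 : ∑ y ∈ vs L, (cv P.y L y - 0) * hub (P.a + v) (wG P.y E) ((vs L).erase y)
      (fun x => wG P.y E y x * if x < y then 0 else cv P.y L x) =
      ∑ y ∈ vs L, cv P.y L y *
        hub (P.a + v) (wG P.y E) ((vs L).erase y) (muG (wG P.y E) (cv P.y L) y) := by
    refine sum_congr rfl fun y _ => ?_
    rw [sub_zero]
    congr 1
    refine hub_congr _ _ fun x _ => ?_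
    unfold muG
    by_cases hx : x < y
    · rw [if_pos hx, if_pos hx, mul_zero]
    · rw [if_neg hx, if_neg hx, mul_comm]
  rw [e1] at h1
  rw [val3_val, h1]
  have h2 : ((2 ^ b : ℕ) : ℚ) = 2 ^ b := by push_cast; ring
  have h3 : (2 : ℚ) ^ b ≠ 0 := by positivity
  rw [h2]
  field_simp
  ring

end Pool.Agent.DFP
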